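import Pool.Agent.Work.MP_2738db_nt_T.Interface
import Pool.Agent.Work.MP_2738db_nt_W.TwoLog2

set_option autoImplicit false

/-!
Archimedean lower bound for linear forms in two logarithms of rational integers
(block ARCH, `arch : Stmt_Arch`).
-/

namespace Pool.Agent.Work.MP_2738db_nt_T

open Finset BigOperators
open Pool.Agent.Work.MP_2738db_nt_W (zero_est exists_minor sum_weights_ge choose_bound log_le_tenth)

/-- `∑ₘ C(z,m) C(m,k) v^(m-k) = C(z,k) (1+v)^(z-k)` -/
lemma binom_id (v : ℝ) (k z Z : ℕ) (hz : z ≤ Z) :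
    ∑ m : Fin (Z + 1), (Nat.choose z m : ℝ) * ((Nat.choose m k : ℝ) * v ^ ((m : ℕ) - k))
      = (Nat.choose z k : ℝ) * (1 + v) ^ (z - k) := by
  rw [Fin.sum_univ_eq_sum_range
    (fun m => (Nat.choose z m : ℝ) * ((Nat.choose m k : ℝ) * v ^ (m - k))) (Z + 1)]
  by_cases hkz : k ≤ z
  · have h1 : ∑ m ∈ range (Z + 1), (Nat.choose z m : ℝ) * ((Nat.choose m k : ℝ) * v ^ (m - k))
        = ∑ m ∈ Ico k (z + 1), (Nat.choose z m : ℝ) * ((Nat.choose m k : ℝ) * v ^ (m - k)) := by
      symm
      apply Finset.sum_subset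
      · intro m hm
        rw [mem_Ico] at hm
        rw [mem_range]; omega
      · intro m _ hm
        rw [mem_Ico, not_and_or, not_le, not_lt] at hm
        rcases hm with hm | hm
        · rw [Nat.choose_eq_zero_of_lt hm]; simp
        · rw [Nat.choose_eq_zero_of_lt (by omega : z < m)]; simp
    rw [h1, Finset.sum_Ico_eq_sum_range, add_comm (1 : ℝ) v, add_pow, Finset.mul_sum]
    have h2 : z + 1 - k = z - k + 1 := by omega
    rw [h2]
    apply Finset.sum_congr rfl
    intro j hj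
    rw [mem_range] at hj
    have h3 := Nat.choose_mul (n := z) (k := k + j) (s := k) (by omega)
    rw [Nat.add_sub_cancel_left] at h3
    rw [Nat.add_sub_cancel_left, one_pow, mul_one]
    have h4 : ((Nat.choose z (k + j) : ℝ)) * (Nat.choose (k + j) k : ℝ)
        = (Nat.choose z k : ℝ) * (Nat.choose (z - k) j : ℝ) := by exact_mod_cast h3
    rw [← mul_assoc, h4]; ring
  · rw [Nat.choose_eq_zero_of_lt (by omega : z < k)]
    simp only [Nat.cast_zero, zero_mul]
    apply Finset.sum_eq_zero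
    intro m _
    by_cases hmk : m < k
    · rw [Nat.choose_eq_zero_of_lt hmk]; simp
    · rw [Nat.choose_eq_zero_of_lt (by omega : z < m)]; simp

lemma abs_det_le_real {ι : Type*} [Fintype ι] [DecidableEq ι] (A : Matrix ι ι ℝ) (b : ι → ℝ)
    (h : ∀ i j, |A i j| ≤ b i) :
    |A.det| ≤ (Fintype.card ι).factorial * ∏ i, b i := by
  rw [← Matrix.det_transpose, Matrix.det_apply']
  refine (Finset.abs_sum_le_sum_abs _ _).trans ?_
  calc ∑ σ : Equiv.Perm ι, |((Equiv.Perm.sign σ : ℤ) : ℝ) * ∏ i, A.transpose (σ i) i|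
      ≤ ∑ _σ : Equiv.Perm ι, ∏ i, b i := by
        apply Finset.sum_le_sum
        intro σ _
        rw [abs_mul, Finset.abs_prod]
        have h1 : |((Equiv.Perm.sign σ : ℤ) : ℝ)| = 1 := by
          rcases Int.units_eq_one_or (Equiv.Perm.sign σ) with h2 | h2 <;> simp [h2]
        rw [h1, one_mul]
        apply Finset.prod_le_prod
        · intro i _; exact abs_nonneg _
        · intro i _; exact h i (σ i)
    _ = (Fintype.card ι).factorial * ∏ i, b i := by
        rw [Finset.sum_const, Finset.card_univ, Fintype.card_perm, nsmul_eq_mul]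

/-- the determinant of a product of rectangular matrices -/
lemma det_sum_le {ι σ : Type*} [Fintype ι] [DecidableEq ι] [Fintype σ] [DecidableEq σ]
    (C : ι → σ → ℝ) (B : σ → ι → ℝ) (b : σ → ℝ) (hC : ∀ i s, 0 ≤ C i s)
    (hB : ∀ s j, |B s j| ≤ b s) (W : (ι → σ) → ℝ) (T : ℝ)
    (hW : ∀ f : ι → σ, Function.Injective f → (∏ i, (C i (f i) * b (f i))) * T ≤ W f)
    (hW0 : ∀ f, 0 ≤ W f) (hT : 0 < T) :
    |(Matrix.of fun i j => ∑ s, C i s * B s j).det| * T ≤ (Fintype.card ι).factorial * ∑ f, W f := by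
  classical
  have h1 : (Matrix.of fun i j => ∑ s, C i s * B s j).det
      = ∑ f : ι → σ, (∏ i, C i (f i)) * (Matrix.of fun i j => B (f i) j).det := by
    have h2 : (Matrix.of fun i j => ∑ s, C i s * B s j) = fun i => ∑ s, C i s • B s := by
      funext i j
      simp [Finset.sum_apply]
    have h3 := MultilinearMap.map_sum (f := (Matrix.detRowAlternating (n := ι) (R := ℝ)).toMultilinearMap)
      (g := fun i s => C i s • B s)
    have h0 : (Matrix.of fun i j => ∑ s, C i s * B s j).det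
        = (Matrix.detRowAlternating (n := ι) (R := ℝ)).toMultilinearMap (fun i => ∑ s, C i s • B s) := by
      rw [← h2]; rfl
    rw [h0, h3]
    apply Finset.sum_congr rfl
    intro f _
    have h4 := MultilinearMap.map_smul_univ
      (Matrix.detRowAlternating (n := ι) (R := ℝ)).toMultilinearMap (fun i => C i (f i)) (fun i => B (f i))
    rw [h4, smul_eq_mul]
    rfl
  rw [h1, Finset.mul_sum]
  refine (mul_le_mul_of_nonneg_right (Finset.abs_sum_le_sum_abs _ _) hT.le).trans ?_
  rw [Finset.sum_mul]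
  apply Finset.sum_le_sum
  intro f _
  by_cases hf : Function.Injective f
  · have h5 := abs_det_le_real (Matrix.of fun i j => B (f i) j) (fun i => b (f i))
      (fun i j => hB (f i) j)
    have h6 : 0 ≤ ∏ i, C i (f i) := Finset.prod_nonneg fun i _ => hC i _
    rw [abs_mul, abs_of_nonneg h6]
    calc (∏ i, C i (f i)) * |(Matrix.of fun i j => B (f i) j).det| * T
        ≤ (∏ i, C i (f i)) * ((Fintype.card ι).factorial * ∏ i, b (f i)) * T := by
          apply mul_le_mul_of_nonneg_right _ hT.le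
          exact mul_le_mul_of_nonneg_left h5 h6
      _ = (Fintype.card ι).factorial * ((∏ i, (C i (f i) * b (f i))) * T) := by
          rw [Finset.prod_mul_distrib]; ring
      _ ≤ (Fintype.card ι).factorial * W f :=
          mul_le_mul_of_nonneg_left (hW f hf) (by positivity)
  · have h5 : (Matrix.of fun i j => B (f i) j).det = 0 := by
      obtain ⟨i, j, hij, hne⟩ := Function.not_injective_iff.mp hf
      apply Matrix.det_zero_of_row_eq hne
      funext l
      simp [hij]
    rw [h5, mul_zero, abs_zero, zero_mul]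
    exact mul_nonneg (by positivity) (hW0 f)

/-- upper bound for the main determinant -/
lemma main_det_le {ι : Type*} [Fintype ι] [DecidableEq ι] (Z G : ℕ) (k : ι → ℕ) (u : ι → ℝ)
    (z : ι → ℕ) (hz : ∀ j, z j ≤ Z) (hu : ∀ i, 1 ≤ u i)
    (hV : G + ∑ i, k i ≤ Fintype.card ι * (Fintype.card ι - 1) / 2) :
    |(Matrix.of fun i j => (Nat.choose (z j) (k i) : ℝ) * u i ^ (z j)).det| * 2 ^ G
      ≤ (Fintype.card ι).factorial *
        ∏ i, ((Nat.choose Z (k i) : ℝ) * u i ^ k i * (1 + 2 * (u i - 1)) ^ Z) := by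
  classical
  have h1 : (Matrix.of fun i j => (Nat.choose (z j) (k i) : ℝ) * u i ^ (z j))
      = Matrix.of fun i j => ∑ m : Fin (Z + 1),
        ((Nat.choose m (k i) : ℝ) * (u i) ^ (k i) * (u i - 1) ^ ((m : ℕ) - k i)) *
          (Nat.choose (z j) m : ℝ) := by
    funext i j
    simp only [Matrix.of_apply]
    have h2 := binom_id (u i - 1) (k i) (z j) Z (hz j)
    rw [add_sub_cancel] at h2
    by_cases hk : k i ≤ z j
    · have h3 : u i ^ (z j) = u i ^ (k i) * u i ^ (z j - k i) := by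
        rw [← pow_add]; congr 1; omega
      rw [h3, mul_left_comm, ← h2, Finset.mul_sum]
      apply Finset.sum_congr rfl
      intro m _; ring
    · rw [Nat.choose_eq_zero_of_lt (by omega : z j < k i)] at h2 ⊢
      simp only [Nat.cast_zero, zero_mul] at h2 ⊢
      have h4 : ∑ m : Fin (Z + 1), ((Nat.choose m (k i) : ℝ) * (u i) ^ (k i) * (u i - 1) ^ ((m : ℕ) - k i)) *
          (Nat.choose (z j) m : ℝ) = (u i) ^ (k i) * ∑ m : Fin (Z + 1), (Nat.choose (z j) m : ℝ) * ((Nat.choose m (k i) : ℝ) * (u i - 1) ^ ((m : ℕ) - k i)) := by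
        rw [Finset.mul_sum]
        apply Finset.sum_congr rfl
        intro m _; ring
      rw [h4, h2, mul_zero]
  rw [h1]
  have hu1 : ∀ i, 0 ≤ u i - 1 := fun i => by linarith [hu i]
  have hu0 : ∀ i, 0 ≤ u i := fun i => by linarith [hu i]
  have key := det_sum_le (ι := ι) (σ := Fin (Z + 1))
    (fun i m => (Nat.choose m (k i) : ℝ) * (u i) ^ (k i) * (u i - 1) ^ ((m : ℕ) - k i))
    (fun m j => (Nat.choose (z j) m : ℝ)) (fun m => (Nat.choose Z m : ℝ))
    (fun i m => by have := hu1 i; have := hu0 i; positivity)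
    (fun m j => by
      rw [abs_of_nonneg (by positivity)]
      exact_mod_cast Nat.choose_le_choose _ (hz j))
    (fun f => ∏ i, ((Nat.choose Z (f i) : ℝ) * ((Nat.choose (f i) (k i) : ℝ) *
      (2 * (u i - 1)) ^ ((f i : ℕ) - k i)) * u i ^ (k i))) (2 ^ G)
    ?_ ?_ (by positivity)
  · refine key.trans ?_
    apply mul_le_mul_of_nonneg_left _ (by positivity)
    have h2 : ∑ f : ι → Fin (Z + 1), ∏ i, ((Nat.choose Z (f i) : ℝ) * ((Nat.choose (f i) (k i) : ℝ) *
        (2 * (u i - 1)) ^ ((f i : ℕ) - k i)) * u i ^ (k i))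
        = ∏ i, ∑ m : Fin (Z + 1), ((Nat.choose Z m : ℝ) * ((Nat.choose m (k i) : ℝ) *
        (2 * (u i - 1)) ^ ((m : ℕ) - k i)) * u i ^ (k i)) := by
      rw [Finset.prod_univ_sum]
      apply Finset.sum_congr _ (fun _ _ => rfl)
      simp
    rw [h2]
    apply Finset.prod_le_prod
    · intro i _
      apply Finset.sum_nonneg
      intro m _
      have := hu1 i; have := hu0 i
      positivity
    · intro i _
      rw [← Finset.sum_mul, binom_id (2 * (u i - 1)) (k i) Z Z le_rfl]
      have h3 : (1 + 2 * (u i - 1)) ^ (Z - k i) ≤ (1 + 2 * (u i - 1)) ^ Z :=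
        pow_le_pow_right₀ (by linarith [hu1 i]) (Nat.sub_le _ _)
      have h4 : 0 ≤ (Nat.choose Z (k i) : ℝ) * u i ^ k i := by have := hu0 i; positivity
      calc (Nat.choose Z (k i) : ℝ) * (1 + 2 * (u i - 1)) ^ (Z - k i) * u i ^ k i
          = ((Nat.choose Z (k i) : ℝ) * u i ^ k i) * (1 + 2 * (u i - 1)) ^ (Z - k i) := by ring
        _ ≤ _ := mul_le_mul_of_nonneg_left h3 h4
  · intro f hf
    have hsum : G ≤ ∑ i, ((f i : ℕ) - k i) := by
      have h5 : Fintype.card ι * (Fintype.card ι - 1) / 2 ≤ ∑ i, (f i : ℕ) := by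
        apply sum_weights_ge
        intro t _
        have h6 : (univ.filter (fun i => (f i : ℕ) ≤ t)).card ≤ (range (t + 1)).card := by
          apply Finset.card_le_card_of_injOn (fun i => (f i : ℕ))
          · intro i hi
            simp only [coe_filter, mem_univ, true_and, Set.mem_ofPred_eq] at hi
            simp only [coe_range, Set.mem_Iio]
            omega
          · intro i _ j _ hij
            exact hf (Fin.ext hij)
        rwa [card_range] at h6
      have h7 : ∑ i, (f i : ℕ) ≤ ∑ i, ((f i : ℕ) - k i) + ∑ i, k i := by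
        rw [← Finset.sum_add_distrib]
        apply Finset.sum_le_sum
        intro i _; omega
      omega
    have h8 : (2 : ℝ) ^ G ≤ ∏ i, (2 : ℝ) ^ ((f i : ℕ) - k i) := by
      rw [Finset.prod_pow_eq_pow_sum]
      exact pow_le_pow_right₀ (by norm_num) hsum
    have h9 : 0 ≤ ∏ i, ((Nat.choose (f i) (k i) : ℝ) * (u i) ^ (k i) * (u i - 1) ^ ((f i : ℕ) - k i) * (Nat.choose Z (f i) : ℝ)) := by
      apply Finset.prod_nonneg
      intro i _
      have := hu1 i; have := hu0 i
      positivity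
    refine (mul_le_mul_of_nonneg_left h8 h9).trans (le_of_eq ?_)
    rw [← Finset.prod_mul_distrib]
    apply Finset.prod_congr rfl
    intro i _
    rw [mul_pow]; ring
  · intro f
    apply Finset.prod_nonneg
    intro i _
    have := hu1 i; have := hu0 i
    positivity

/-- the Archimedean determinant inequality -/
theorem arch_core {X Y k₀ ℓ K L R S Z : ℕ}
    (hX0 : 1 ≤ X) (hY0 : 2 ≤ Y) (hcop : Nat.Coprime ℓ k₀) (hℓ : 1 ≤ ℓ)
    (hR : R ≤ ℓ) (hKL : K * L ≤ R * S) (hK : 1 ≤ K) (hL : 1 ≤ L)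
    (hZ : R * k₀ + (S + L) * ℓ ≤ Z) (B : ℝ) (hB : ∀ k < K, ∀ z ≤ Z, (Nat.choose z k : ℝ) ≤ B)
    (lam w W : ℝ) (hw : w = Real.log Y / ℓ) (hlam : Real.log X = k₀ * w + lam)
    (hsm : |lam| * ((K * L : ℕ) * L * R) ≤ 1) (hwL : L * w ≤ 1) (hW : Z * w ≤ W) :
    1 ≤ ((K * L).factorial * B ^ (K * L)) *
      (Real.exp ((K * ∑ l ∈ range L, l : ℕ) * (K * w + 4 * W)) / 2 ^ (K * K * ∑ l ∈ range L, l)
        + Real.exp ((K * ∑ l ∈ range L, l : ℕ) * W) * (2 * (|lam| * ((K * L : ℕ) * L * R)))) := by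
  classical
  have hXpos : (0 : ℝ) < X := by exact_mod_cast hX0
  have hYpos : (0 : ℝ) < Y := by exact_mod_cast (by omega : 0 < Y)
  have hℓpos : (0 : ℝ) < ℓ := by exact_mod_cast hℓ
  have hw0 : 0 ≤ w := by
    rw [hw]
    apply div_nonneg _ hℓpos.le
    exact Real.log_nonneg (by exact_mod_cast (by omega : 1 ≤ Y))
  have hYw : Real.log Y = ℓ * w := by rw [hw]; field_simp
  have hW0 : 0 ≤ W := le_trans (by positivity) hW
  let zz : Fin R × Fin (S + L) → ℕ := fun t => (t.1 : ℕ) * k₀ + (t.2 : ℕ) * ℓ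
  have hzz : ∀ t, zz t ≤ Z := by
    intro t
    have h1 : (t.1 : ℕ) * k₀ ≤ R * k₀ := Nat.mul_le_mul_right _ t.1.2.le
    have h2 : (t.2 : ℕ) * ℓ ≤ (S + L) * ℓ := Nat.mul_le_mul_right _ t.2.2.le
    simp only [zz]; omega
  let A : Matrix (Fin K × Fin L) (Fin R × Fin (S + L)) ℤ := Matrix.of fun i t =>
    (Nat.choose (zz t) i.1 : ℤ) * ((X : ℤ) ^ (t.1 : ℕ) * (Y : ℤ) ^ (t.2 : ℕ)) ^ (i.2 : ℕ)
  obtain ⟨g, hg⟩ := exists_minor (A.map (Int.castRingHom ℚ)) (by
    intro c hc
    apply zero_est X Y k₀ ℓ hX0 hY0 hcop hR hKL hK hL c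
    intro r hr t ht
    have := hc (⟨r, hr⟩, ⟨t, ht⟩)
    rw [← this]
    apply Finset.sum_congr rfl
    intro i _
    simp [A, zz])
  have hdet : (A.submatrix id g).det ≠ 0 := by
    intro h0
    apply hg
    have h1 : (A.map (Int.castRingHom ℚ)).submatrix id g = (A.submatrix id g).map (Int.castRingHom ℚ) := rfl
    rw [h1, ← RingHom.mapMatrix_apply, ← RingHom.map_det, h0, map_zero]
  -- the real main matrix
  let u : Fin K × Fin L → ℝ := fun i => Real.exp ((i.2 : ℕ) * w)
  have hu1 : ∀ i, 1 ≤ u i := fun i => Real.one_le_exp (by positivity)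
  let Mn : Matrix (Fin K × Fin L) (Fin K × Fin L) ℝ := Matrix.of fun i j =>
    (Nat.choose (zz (g j)) (i.1 : ℕ) : ℝ) * u i ^ (zz (g j))
  let AR : Matrix (Fin K × Fin L) (Fin K × Fin L) ℝ := (A.submatrix id g).map (Int.castRingHom ℝ)
  have hAR : AR.det = ((A.submatrix id g).det : ℝ) := by
    simp only [AR]
    rw [← RingHom.mapMatrix_apply, ← RingHom.map_det]
    rfl
  have hone : 1 ≤ |AR.det| := by
    rw [hAR]
    have h1 : (1 : ℤ) ≤ |(A.submatrix id g).det| := Int.one_le_abs hdet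
    exact_mod_cast h1
  have hentry : ∀ i j, AR i j = Mn i j * Real.exp (lam * ((i.2 : ℕ) * ((g j).1 : ℕ))) := by
    intro i j
    simp only [AR, Mn, A, Matrix.map_apply, Matrix.submatrix_apply, Matrix.of_apply, id_eq, map_mul,
      map_pow, map_natCast, u]
    rw [mul_assoc, ← Real.exp_nat_mul, ← Real.exp_add]
    congr 1
    rw [← Real.exp_log hXpos, ← Real.exp_log hYpos, ← Real.exp_nat_mul, ← Real.exp_nat_mul,
      ← Real.exp_add, ← Real.exp_nat_mul]
    congr 1
    rw [hlam, hYw]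
    simp only [zz]
    push_cast
    ring
  have hcard : Fintype.card (Fin K × Fin L) = K * L := by simp
  have hBnn : 0 ≤ B := le_trans (by positivity) (hB 0 (by omega) 0 (by omega))
  have hsumG : ∑ i : Fin K × Fin L, ((i.2 : ℕ) : ℕ) = K * ∑ l ∈ range L, l := by
    rw [Fintype.sum_prod_type]
    simp only [Finset.sum_const, Finset.card_univ, Fintype.card_fin, smul_eq_mul]
    rw [Fin.sum_univ_eq_sum_range (fun k => k) L]
  have hprodexp : ∀ c : ℝ, ∏ i : Fin K × Fin L, Real.exp ((i.2 : ℕ) * c)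
      = Real.exp ((K * ∑ l ∈ range L, l : ℕ) * c) := by
    intro c
    rw [← Real.exp_sum, ← Finset.sum_mul]
    congr 2
    rw [← hsumG]
    push_cast; rfl
  -- the main determinant
  have hmain : |Mn.det| * 2 ^ (K * K * ∑ l ∈ range L, l)
      ≤ ((K * L).factorial * B ^ (K * L)) * Real.exp ((K * ∑ l ∈ range L, l : ℕ) * (K * w + 4 * W)) := by
    have h1 := main_det_le Z (K * K * ∑ l ∈ range L, l) (fun i : Fin K × Fin L => (i.1 : ℕ)) u
      (fun j => zz (g j)) (fun j => hzz (g j)) hu1 (by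
        rw [hcard, Fintype.sum_prod_type]
        simp only [Finset.sum_const, Finset.card_univ, Fintype.card_fin, smul_eq_mul]
        rw [← Finset.mul_sum, Fin.sum_univ_eq_sum_range (fun k => k) K]
        have h1 := Finset.sum_range_id_mul_two L
        have h2 := Finset.sum_range_id_mul_two K
        rw [Nat.le_div_iff_mul_le (by norm_num)]
        obtain ⟨L', rfl⟩ : ∃ L', L = L' + 1 := ⟨L - 1, by omega⟩
        obtain ⟨K', rfl⟩ : ∃ K', K = K' + 1 := ⟨K - 1, by omega⟩
        simp only [Nat.add_sub_cancel] at h1 h2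
        have h3 : (K' + 1) * (L' + 1) - 1 = K' * L' + K' + L' := by
          have : (K' + 1) * (L' + 1) = K' * L' + K' + L' + 1 := by ring
          omega
        rw [h3]
        nlinarith [h1, h2])
    refine h1.trans ?_
    rw [hcard, mul_assoc]
    apply mul_le_mul_of_nonneg_left _ (by positivity)
    have h2 : ∏ i : Fin K × Fin L, ((Nat.choose Z (i.1 : ℕ) : ℝ) * u i ^ (i.1 : ℕ) * (1 + 2 * (u i - 1)) ^ Z)
        ≤ ∏ i : Fin K × Fin L, (B * Real.exp ((i.2 : ℕ) * (K * w + 4 * W))) := by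
      apply Finset.prod_le_prod
      · intro i _
        have := hu1 i
        have h3 : 0 ≤ u i := by linarith
        have h4 : 0 ≤ 1 + 2 * (u i - 1) := by linarith
        positivity
      · intro i _
        have hui := hu1 i
        have h3 : u i ^ (i.1 : ℕ) ≤ Real.exp ((i.2 : ℕ) * (K * w)) := by
          simp only [u]
          rw [← Real.exp_nat_mul]
          apply Real.exp_le_exp.mpr
          have h5 : ((i.1 : ℕ) : ℝ) ≤ K := by exact_mod_cast i.1.2.le
          have h6 : 0 ≤ ((i.2 : ℕ) : ℝ) * w := by positivity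
          calc ((i.1 : ℕ) : ℝ) * (((i.2 : ℕ) : ℝ) * w) ≤ K * (((i.2 : ℕ) : ℝ) * w) :=
                mul_le_mul_of_nonneg_right h5 h6
            _ = _ := by ring
        have h4 : (1 + 2 * (u i - 1)) ^ Z ≤ Real.exp ((i.2 : ℕ) * (4 * W)) := by
          have h5 : u i - 1 ≤ 2 * ((i.2 : ℕ) * w) := by
            have h6 : |((i.2 : ℕ) : ℝ) * w| ≤ 1 := by
              rw [abs_of_nonneg (by positivity)]
              have h7 : ((i.2 : ℕ) : ℝ) ≤ L := by exact_mod_cast i.2.2.le
              exact (mul_le_mul_of_nonneg_right h7 hw0).trans hwL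
            have h7 := Real.abs_exp_sub_one_le h6
            have h8 := (le_abs_self _).trans h7
            rw [abs_of_nonneg (by positivity)] at h8
            exact h8
          calc (1 + 2 * (u i - 1)) ^ Z ≤ (Real.exp (2 * (u i - 1))) ^ Z := by
                apply pow_le_pow_left₀ (by linarith)
                rw [add_comm]
                exact Real.add_one_le_exp _
            _ = Real.exp (Z * (2 * (u i - 1))) := by rw [← Real.exp_nat_mul]
            _ ≤ Real.exp ((i.2 : ℕ) * (4 * W)) := by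
                apply Real.exp_le_exp.mpr
                have hZ0 : (0 : ℝ) ≤ Z := by positivity
                calc (Z : ℝ) * (2 * (u i - 1)) ≤ Z * (2 * (2 * ((i.2 : ℕ) * w))) := by
                      apply mul_le_mul_of_nonneg_left _ hZ0
                      linarith
                  _ = ((i.2 : ℕ) * 4) * (Z * w) := by ring
                  _ ≤ ((i.2 : ℕ) * 4) * W := mul_le_mul_of_nonneg_left hW (by positivity)
                  _ = _ := by ring
        have h5 : (Nat.choose Z (i.1 : ℕ) : ℝ) ≤ B := hB _ i.1.2 Z le_rfl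
        have h6 : Real.exp ((i.2 : ℕ) * (K * w + 4 * W))
            = Real.exp ((i.2 : ℕ) * (K * w)) * Real.exp ((i.2 : ℕ) * (4 * W)) := by
          rw [← Real.exp_add]; congr 1; ring
        rw [h6, ← mul_assoc]
        apply mul_le_mul _ h4 (by have : 0 ≤ 1 + 2 * (u i - 1) := by linarith
                                  positivity) (by positivity)
        apply mul_le_mul h5 h3 (by have : 0 ≤ u i := by linarith
                                   positivity) hBnn
    refine h2.trans (le_of_eq ?_)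
    rw [Finset.prod_mul_distrib, hprodexp, Finset.prod_const, Finset.card_univ, hcard]
  -- the difference
  have hdiff : |AR.det - Mn.det| ≤ ((K * L).factorial * B ^ (K * L)) *
      (Real.exp ((K * ∑ l ∈ range L, l : ℕ) * W) * (2 * (|lam| * ((K * L : ℕ) * L * R)))) := by
    rw [Matrix.det_apply', Matrix.det_apply', ← Finset.sum_sub_distrib]
    refine (Finset.abs_sum_le_sum_abs _ _).trans ?_
    have hterm : ∀ σ : Equiv.Perm (Fin K × Fin L),
        |((Equiv.Perm.sign σ : ℤ) : ℝ) * ∏ i, AR (σ i) i - ((Equiv.Perm.sign σ : ℤ) : ℝ) * ∏ i, Mn (σ i) i|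
        ≤ B ^ (K * L) * (Real.exp ((K * ∑ l ∈ range L, l : ℕ) * W) * (2 * (|lam| * ((K * L : ℕ) * L * R)))) := by
      intro σ
      have h1 : ∏ i, AR (σ i) i = (∏ i, Mn (σ i) i) *
          Real.exp (lam * ∑ i, (((σ i).2 : ℕ) * ((g i).1 : ℕ) : ℝ)) := by
        rw [Finset.mul_sum, Real.exp_sum, ← Finset.prod_mul_distrib]
        apply Finset.prod_congr rfl
        intro i _
        exact hentry (σ i) i
      have h2 : ∏ i, Mn (σ i) i ≤ B ^ (K * L) * Real.exp ((K * ∑ l ∈ range L, l : ℕ) * W) := by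
        calc ∏ i, Mn (σ i) i ≤ ∏ i, (B * Real.exp (((σ i).2 : ℕ) * W)) := by
              apply Finset.prod_le_prod
              · intro i _
                simp only [Mn, Matrix.of_apply]
                have : 0 ≤ u (σ i) := by linarith [hu1 (σ i)]
                positivity
              · intro i _
                simp only [Mn, Matrix.of_apply]
                apply mul_le_mul (hB _ (σ i).1.2 _ (hzz (g i))) _ (by
                  have : 0 ≤ u (σ i) := by linarith [hu1 (σ i)]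
                  positivity) hBnn
                simp only [u]
                rw [← Real.exp_nat_mul]
                apply Real.exp_le_exp.mpr
                have h3 : ((zz (g i) : ℕ) : ℝ) * w ≤ W := by
                  refine le_trans ?_ hW
                  apply mul_le_mul_of_nonneg_right _ hw0
                  exact_mod_cast hzz (g i)
                calc ((zz (g i) : ℕ) : ℝ) * (((σ i).2 : ℕ) * w) = ((σ i).2 : ℕ) * (((zz (g i) : ℕ) : ℝ) * w) := by ring
                  _ ≤ _ := mul_le_mul_of_nonneg_left h3 (by positivity)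
          _ = ∏ i : Fin K × Fin L, (B * Real.exp ((i.2 : ℕ) * W)) := Equiv.prod_comp σ (fun i : Fin K × Fin L => B * Real.exp ((i.2 : ℕ) * W))
          _ = _ := by
              rw [Finset.prod_mul_distrib, hprodexp, Finset.prod_const, Finset.card_univ, hcard]
      have h2' : 0 ≤ ∏ i, Mn (σ i) i := by
        apply Finset.prod_nonneg
        intro i _
        simp only [Mn, Matrix.of_apply]
        have : 0 ≤ u (σ i) := by linarith [hu1 (σ i)]
        positivity
      have h3 : |∑ i, (((σ i).2 : ℕ) * ((g i).1 : ℕ) : ℝ)| ≤ (K * L : ℕ) * L * R := by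
        rw [abs_of_nonneg (by positivity)]
        calc ∑ i, (((σ i).2 : ℕ) * ((g i).1 : ℕ) : ℝ) ≤ ∑ _i : Fin K × Fin L, ((L : ℝ) * R) := by
              apply Finset.sum_le_sum
              intro i _
              apply mul_le_mul _ _ (by positivity) (by positivity)
              · exact_mod_cast (σ i).2.2.le
              · exact_mod_cast (g i).1.2.le
          _ = _ := by
              rw [Finset.sum_const, Finset.card_univ, hcard, nsmul_eq_mul]; ring
      have h4 : |lam * ∑ i, (((σ i).2 : ℕ) * ((g i).1 : ℕ) : ℝ)| ≤ |lam| * ((K * L : ℕ) * L * R) := by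
        rw [abs_mul]
        exact mul_le_mul_of_nonneg_left h3 (abs_nonneg _)
      have h5 := Real.abs_exp_sub_one_le (h4.trans hsm)
      have h6 : |((Equiv.Perm.sign σ : ℤ) : ℝ)| = 1 := by
        rcases Int.units_eq_one_or (Equiv.Perm.sign σ) with h2 | h2 <;> simp [h2]
      rw [← mul_sub, abs_mul, h6, one_mul, h1]
      have h7 : (∏ i, Mn (σ i) i) * Real.exp (lam * ∑ i, (((σ i).2 : ℕ) * ((g i).1 : ℕ) : ℝ)) - ∏ i, Mn (σ i) i
          = (∏ i, Mn (σ i) i) * (Real.exp (lam * ∑ i, (((σ i).2 : ℕ) * ((g i).1 : ℕ) : ℝ)) - 1) := by ring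
      rw [h7, abs_mul, abs_of_nonneg h2', ← mul_assoc]
      apply mul_le_mul h2 (h5.trans (by linarith)) (abs_nonneg _) (by positivity)
    calc ∑ σ : Equiv.Perm (Fin K × Fin L), |((Equiv.Perm.sign σ : ℤ) : ℝ) * ∏ i, AR (σ i) i - ((Equiv.Perm.sign σ : ℤ) : ℝ) * ∏ i, Mn (σ i) i|
        ≤ ∑ _σ : Equiv.Perm (Fin K × Fin L), B ^ (K * L) * (Real.exp ((K * ∑ l ∈ range L, l : ℕ) * W) * (2 * (|lam| * ((K * L : ℕ) * L * R)))) :=
          Finset.sum_le_sum fun σ _ => hterm σ
      _ = _ := by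
          rw [Finset.sum_const, Finset.card_univ, Fintype.card_perm, hcard, nsmul_eq_mul]; ring
  have h2pos : (0 : ℝ) < 2 ^ (K * K * ∑ l ∈ range L, l) := by positivity
  have hmain' : |Mn.det| ≤ ((K * L).factorial * B ^ (K * L)) *
      (Real.exp ((K * ∑ l ∈ range L, l : ℕ) * (K * w + 4 * W)) / 2 ^ (K * K * ∑ l ∈ range L, l)) := by
    rw [← mul_div_assoc, le_div_iff₀ h2pos]
    exact hmain
  have htri : |AR.det| ≤ |Mn.det| + |AR.det - Mn.det| := by
    have := abs_add_le (Mn.det) (AR.det - Mn.det)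
    simpa using this
  calc (1 : ℝ) ≤ |AR.det| := hone
    _ ≤ |Mn.det| + |AR.det - Mn.det| := htri
    _ ≤ _ := by
        rw [mul_add]
        exact add_le_add hmain' hdiff
/-- Archimedean two logarithms. -/
theorem arch : Stmt_Arch := by
  refine ⟨16 * 10 ^ 14, by norm_num, ?_⟩
  intro X Y k₀ ℓ A B hX0 hY0 hk0 hℓ hcop hA hB hXA hYB hk hℓB
  by_contra hcon
  rw [not_le] at hcon
  have hℓ1 : (1 : ℝ) ≤ ℓ := by exact_mod_cast hℓ
  set lam : ℝ := 1 + Real.log ℓ with hlam
  have hlam1 : 1 ≤ lam := by have := Real.log_nonneg hℓ1; linarith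
  set L : ℕ := ⌈60 * lam⌉₊ with hLdef
  have hL1 : 60 * lam ≤ L := Nat.le_ceil _
  have hL2 : (L : ℝ) ≤ 61 * lam := by
    have := Nat.ceil_lt_add_one (show 0 ≤ 60 * lam by linarith)
    rw [← hLdef] at this
    linarith
  have hL60 : (60 : ℝ) ≤ L := by linarith
  set K : ℕ := ⌈10 ^ 4 * L * A * B⌉₊ with hKdef
  have hAB : 1 ≤ A * B := by nlinarith
  have hK1 : 10 ^ 4 * L * A * B ≤ K := Nat.le_ceil _
  have hK2 : (K : ℝ) ≤ 10 ^ 4 * L * A * B + 1 := by
    have := Nat.ceil_lt_add_one (show 0 ≤ 10 ^ 4 * L * A * B by positivity)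
    rw [← hKdef] at this
    linarith
  set R : ℕ := ⌈100 * L * B⌉₊ + 1 with hRdef
  have hR1 : 100 * L * B + 1 ≤ R := by
    rw [hRdef]; push_cast
    have := Nat.le_ceil (100 * L * B)
    linarith
  have hR2 : (R : ℝ) ≤ 100 * L * B + 2 := by
    rw [hRdef]; push_cast
    have := Nat.ceil_lt_add_one (show 0 ≤ 100 * L * B by positivity)
    linarith
  set S : ℕ := ⌈100 * L * A⌉₊ with hSdef
  have hS1 : 100 * L * A ≤ S := Nat.le_ceil _
  have hS2 : (S : ℝ) ≤ 100 * L * A + 1 := by
    have := Nat.ceil_lt_add_one (show 0 ≤ 100 * L * A by positivity)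
    rw [← hSdef] at this
    linarith
  set q : ℝ := L * (A * B) with hq
  have hLq : (L : ℝ) ≤ q := by rw [hq]; nlinarith
  have hLA : (L : ℝ) * A ≤ q := by rw [hq]; nlinarith [mul_nonneg (show (0:ℝ) ≤ L by positivity) (show (0:ℝ) ≤ A by linarith)]
  have hLB : (L : ℝ) * B ≤ q := by rw [hq]; nlinarith [mul_nonneg (show (0:ℝ) ≤ L by positivity) (show (0:ℝ) ≤ B by linarith)]
  have hAq : 60 * A ≤ q := by nlinarith
  have hBq : 60 * B ≤ q := by nlinarith
  have hq60 : 60 ≤ q := by linarith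
  have hKq : 10 ^ 4 * q ≤ K := by rw [hq]; linarith [hK1]
  have hK0 : 1 ≤ K := by
    have : (1 : ℝ) ≤ K := by linarith
    exact_mod_cast this
  have hL0 : 1 ≤ L := by
    have : (1 : ℝ) ≤ L := by linarith
    exact_mod_cast this
  -- conditions
  have hRℓ : R ≤ ℓ := by
    have h1 : (R : ℝ) ≤ ℓ := by
      have h2 : 100 * L * B ≤ 6100 * B * lam := by nlinarith
      have h3 : (2 : ℝ) ≤ 100 * B * lam := by nlinarith
      nlinarith
    exact_mod_cast h1
  have hKL : K * L ≤ R * S := by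
    have h1 : (K : ℝ) * L ≤ R * S := by
      calc (K : ℝ) * L ≤ (10 ^ 4 * L * A * B + 1) * L := by nlinarith
        _ ≤ (100 * L * B + 1) * (100 * L * A) := by nlinarith
        _ ≤ R * S := by
            apply mul_le_mul hR1 hS1 (by positivity) (by positivity)
    exact_mod_cast h1
  have hZ : R * k₀ + (S + L) * ℓ ≤ K * ℓ := by
    have h1 : (R : ℝ) * k₀ + (S + L) * ℓ ≤ K * ℓ := by
      have h2 : (R : ℝ) * k₀ ≤ (100 * L * B + 2) * A * ℓ := by
        calc (R : ℝ) * k₀ ≤ (100 * L * B + 2) * (A * ℓ) :=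
              mul_le_mul hR2 hk (by positivity) (by positivity)
          _ = _ := by ring
      have h3 : (100 * L * B + 2) * A + (S + L) ≤ K := by
        have h4 : (100 * L * B + 2) * A = 100 * q + 2 * A := by rw [hq]; ring
        rw [h4]
        nlinarith
      nlinarith
    exact_mod_cast h1
  have hKL' : (K : ℝ) * L ≤ 4 * 10 ^ 7 * A * B * lam ^ 2 := by
    calc (K : ℝ) * L ≤ (10 ^ 4 * L * A * B + 1) * L := by nlinarith
      _ ≤ (10 ^ 4 + 1) * L ^ 2 * (A * B) := by nlinarith [mul_nonneg (show (0:ℝ) ≤ L by positivity) (show (0:ℝ) ≤ L by positivity)]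
      _ ≤ (10 ^ 4 + 1) * (61 * lam) ^ 2 * (A * B) := by
          apply mul_le_mul_of_nonneg_right _ (by linarith)
          apply mul_le_mul_of_nonneg_left _ (by norm_num)
          exact pow_le_pow_left₀ (by positivity) hL2 2
      _ ≤ 4 * 10 ^ 7 * A * B * lam ^ 2 := by nlinarith [mul_nonneg (show (0:ℝ) ≤ A * B by linarith) (sq_nonneg lam)]
  have hK0' : (0 : ℝ) < K := by exact_mod_cast hK0
  have hL0' : (0 : ℝ) < L := by exact_mod_cast hL0
  set Q : ℝ := (K * L) ^ 2 with hQ
  have hQle : Q ≤ 16 * 10 ^ 14 * (A * B) ^ 2 * lam ^ 4 := by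
    have h1 : Q ≤ (4 * 10 ^ 7 * A * B * lam ^ 2) ^ 2 := pow_le_pow_left₀ (by positivity) hKL' 2
    calc Q ≤ _ := h1
      _ = _ := by ring
  have hKL100 : (36 * 10 ^ 6 : ℝ) ≤ K * L := by
    calc (36 * 10 ^ 6 : ℝ) = (10 ^ 4 * 60) * 60 := by norm_num
      _ ≤ K * L := by
        apply mul_le_mul _ hL60 (by norm_num) hK0'.le
        linarith
  have hQ100 : (10 ^ 6 : ℝ) ≤ Q := by rw [hQ]; nlinarith
  -- the logarithmic form
  set w : ℝ := Real.log Y / ℓ with hw
  have hℓpos : (0 : ℝ) < ℓ := by linarith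
  have hXpos : (0 : ℝ) < X := by exact_mod_cast (by omega : 0 < X)
  have hYpos : (0 : ℝ) < Y := by exact_mod_cast (by omega : 0 < Y)
  have hlogY0 : 0 ≤ Real.log Y := Real.log_nonneg (by exact_mod_cast (by omega : 1 ≤ Y))
  have hw0 : 0 ≤ w := div_nonneg hlogY0 hℓpos.le
  have hYw : Real.log Y = ℓ * w := by rw [hw]; field_simp
  set lm : ℝ := Real.log X - k₀ * w with hlm
  have hLam : ℓ * Real.log X - k₀ * Real.log Y = ℓ * lm := by rw [hlm, hYw]; ring
  have hlmsmall : |lm| < Real.exp (-Q) := by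
    have h1 : |lm| ≤ |ℓ * Real.log X - k₀ * Real.log Y| := by
      rw [hLam, abs_mul, abs_of_pos hℓpos]
      exact le_mul_of_one_le_left (abs_nonneg _) hℓ1
    refine h1.trans_lt (hcon.trans_le ?_)
    apply Real.exp_le_exp.mpr
    linarith
  have hlogQ := log_le_tenth (show (100 : ℝ) ≤ Q by linarith)
  have hQexp : Q ≤ Real.exp (Q / 10) := by
    rw [← Real.log_le_iff_le_exp (by linarith)]; exact hlogQ
  have hRK : (R : ℝ) ≤ K := by linarith
  have hδle : ((K * L : ℕ) : ℝ) * L * R ≤ Q := by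
    rw [hQ]; push_cast
    calc (K : ℝ) * L * L * R ≤ K * L * L * K := mul_le_mul_of_nonneg_left hRK (by positivity)
      _ = _ := by ring
  have hδ : |lm| * (((K * L : ℕ) : ℝ) * L * R) ≤ Real.exp (-(9 / 10 * Q)) := by
    calc |lm| * (((K * L : ℕ) : ℝ) * L * R) ≤ Real.exp (-Q) * Real.exp (Q / 10) := by
          apply mul_le_mul hlmsmall.le (hδle.trans hQexp) (by positivity) (Real.exp_pos _).le
      _ = Real.exp (-(9 / 10 * Q)) := by rw [← Real.exp_add]; congr 1; ring
  have hδ0 : 0 ≤ |lm| * (((K * L : ℕ) : ℝ) * L * R) := by positivity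
  have hδ1 : |lm| * (((K * L : ℕ) : ℝ) * L * R) ≤ 1 :=
    hδ.trans (Real.exp_le_one_iff.mpr (by linarith))
  -- the exponent part
  have hexp : (R : ℝ) * Real.log X + (S + L) * Real.log Y ≤ K * (21 / 1000) := by
    have h1 : (R : ℝ) * Real.log X ≤ (100 * L * B + 2) * A :=
      (mul_le_mul_of_nonneg_left hXA (by positivity)).trans (mul_le_mul_of_nonneg_right hR2 (by linarith))
    have h2 : ((S : ℝ) + L) * Real.log Y ≤ (100 * L * A + 1 + L) * B :=
      (mul_le_mul_of_nonneg_left hYB (by positivity)).trans (mul_le_mul_of_nonneg_right (by linarith) (by linarith))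
    have h3 : (100 * L * B + 2) * A = 100 * q + 2 * A := by rw [hq]; ring
    have h4 : (100 * L * A + 1 + L) * B = 100 * q + B + L * B := by rw [hq]; ring
    rw [h3] at h1
    rw [h4] at h2
    nlinarith
  have hRlm : (R : ℝ) * |lm| ≤ 1 := by
    have h1 : (R : ℝ) ≤ ((K * L : ℕ) : ℝ) * L * R := by
      have h2 : (1 : ℝ) ≤ ((K * L : ℕ) : ℝ) * L := by
        push_cast
        nlinarith
      nlinarith [show (0 : ℝ) ≤ R by positivity]
    calc (R : ℝ) * |lm| ≤ (((K * L : ℕ) : ℝ) * L * R) * |lm| := mul_le_mul_of_nonneg_right h1 (abs_nonneg _)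
      _ = |lm| * (((K * L : ℕ) : ℝ) * L * R) := by ring
      _ ≤ 1 := hδ1
  have hW : ((R * k₀ + (S + L) * ℓ : ℕ) : ℝ) * w ≤ K * (22 / 1000) := by
    push_cast
    have h1 : ((R : ℝ) * k₀ + (S + L) * ℓ) * w = R * Real.log X + (S + L) * Real.log Y - R * lm := by
      rw [hlm, hYw]; ring
    rw [h1]
    have h2 : -(R * lm) ≤ (R : ℝ) * |lm| := by
      rw [← mul_neg]
      exact mul_le_mul_of_nonneg_left (neg_le_abs lm) (by positivity)
    linarith
  have hwsmall : w ≤ 1 / 30000 := by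
    rw [hw, div_le_div_iff₀ hℓpos (by norm_num)]
    nlinarith
  have hwL : (L : ℝ) * w ≤ 1 := by
    rw [hw, ← mul_div_assoc, div_le_one hℓpos]
    calc (L : ℝ) * Real.log Y ≤ (61 * lam) * B :=
          mul_le_mul hL2 hYB hlogY0 (by linarith)
      _ ≤ ℓ := by nlinarith
  have hcore := arch_core (by omega : 1 ≤ X) hY0 hcop hℓ hRℓ hKL hK0 hL0 le_rfl (Real.exp K * (ℓ : ℝ) ^ K)
    (fun k hk z hz => choose_bound hK0 hℓ hk (hz.trans hZ)) lm w (K * (22 / 1000)) rfl
    (by rw [hlm]; ring) hδ1 hwL hW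
  set G : ℕ := ∑ l ∈ range L, l with hG
  have hG2 : (G : ℝ) * 2 = L * (L - 1) := by
    have h1 := Finset.sum_range_id_mul_two L
    rw [← hG] at h1
    have h2 : ((G * 2 : ℕ) : ℝ) = ((L * (L - 1) : ℕ) : ℝ) := by rw [h1]
    push_cast [Nat.cast_sub hL0] at h2
    exact h2
  have hG3 : (49 / 100 : ℝ) * L ^ 2 ≤ G := by nlinarith
  have hG4 : (G : ℝ) ≤ 1 / 2 * L ^ 2 := by nlinarith
  have hG0 : (0 : ℝ) ≤ G := by positivity
  -- the factor F
  have hF : ((K * L).factorial : ℝ) * (Real.exp K * (ℓ : ℝ) ^ K) ^ (K * L) ≤ Real.exp (7 / 60 * Q) := by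
    rw [← Real.log_le_iff_le_exp (by positivity)]
    rw [Real.log_mul (by positivity) (by positivity), Real.log_pow,
      Real.log_mul (Real.exp_pos _).ne' (by positivity), Real.log_exp, Real.log_pow]
    have hfac : Real.log ((K * L).factorial : ℝ) ≤ (K * L : ℝ) * Real.log (K * L) := by
      have h1 : (((K * L).factorial : ℕ) : ℝ) ≤ ((K * L : ℕ) : ℝ) ^ (K * L) := by
        exact_mod_cast Nat.factorial_le_pow (K * L)
      have h2 := Real.log_le_log (by positivity) h1
      rw [Real.log_pow] at h2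
      push_cast at h2
      exact h2
    have hmid : ((K * L : ℕ) : ℝ) * (K + K * Real.log ℓ) ≤ Q / 60 := by
      have h1 : (K : ℝ) + K * Real.log ℓ = K * lam := by rw [hlam]; ring
      rw [h1]
      push_cast
      have h2 : lam ≤ L / 60 := by linarith
      calc (K : ℝ) * L * (K * lam) = (K * K * L) * lam := by ring
        _ ≤ (K * K * L) * (L / 60) := mul_le_mul_of_nonneg_left h2 (by positivity)
        _ = _ := by rw [hQ]; ring
    have hfac2 : (K * L : ℝ) * Real.log (K * L) ≤ Q / 10 := by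
      have h2 := log_le_tenth (show (100 : ℝ) ≤ K * L by linarith)
      calc (K * L : ℝ) * Real.log (K * L) ≤ (K * L : ℝ) * ((K * L) / 10) :=
            mul_le_mul_of_nonneg_left h2 (by positivity)
        _ = _ := by rw [hQ]; ring
    linarith
  have hF0 : (0 : ℝ) ≤ ((K * L).factorial : ℝ) * (Real.exp K * (ℓ : ℝ) ^ K) ^ (K * L) := by positivity
  have hKKG1 : (49 / 100) * Q ≤ (K : ℝ) * K * G := by
    rw [hQ]
    calc (49 / 100 : ℝ) * ((K : ℝ) * L) ^ 2 = (K : ℝ) * K * ((49 / 100) * L ^ 2) := by ring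
      _ ≤ (K : ℝ) * K * G := mul_le_mul_of_nonneg_left hG3 (by positivity)
  have hKKG2 : (K : ℝ) * K * G ≤ 1 / 2 * Q := by
    rw [hQ]
    calc (K : ℝ) * K * G ≤ K * K * (1 / 2 * L ^ 2) := mul_le_mul_of_nonneg_left hG4 (by positivity)
      _ = 1 / 2 * ((K : ℝ) * L) ^ 2 := by ring
  -- first term
  have hE1 : Real.exp ((K * G : ℕ) * (K * w + 4 * (K * (22 / 1000)))) / 2 ^ (K * K * G)
      ≤ Real.exp (-(294 / 1000 * Q)) := by
    have h1 : (2 : ℝ) ^ (K * K * G) = Real.exp ((K * K * G : ℕ) * Real.log 2) := by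
      rw [Real.exp_nat_mul, Real.exp_log (by norm_num)]
    rw [h1, ← Real.exp_sub]
    apply Real.exp_le_exp.mpr
    push_cast
    have h2 := Real.log_two_gt_d9
    have h3 : (K : ℝ) * G * (K * w + 4 * (K * (22 / 1000))) = (K * K * G) * (w + 88 / 1000) := by ring
    rw [h3]
    have h4 : (K : ℝ) * K * G * (w + 88 / 1000) ≤ (K * K * G) * (89 / 1000) :=
      mul_le_mul_of_nonneg_left (by linarith) (by positivity)
    have h5 : (K : ℝ) * K * G * (69 / 100) ≤ (K * K * G) * Real.log 2 :=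
      mul_le_mul_of_nonneg_left (by linarith) (by positivity)
    linarith
  have hE2 : Real.exp ((K * G : ℕ) * (K * (22 / 1000))) * (2 * (|lm| * (((K * L : ℕ) : ℝ) * L * R)))
      ≤ 2 * Real.exp (-(88 / 100 * Q)) := by
    have h1 : Real.exp ((K * G : ℕ) * (K * (22 / 1000))) ≤ Real.exp (11 / 1000 * Q) := by
      apply Real.exp_le_exp.mpr
      push_cast
      linarith
    calc Real.exp ((K * G : ℕ) * (K * (22 / 1000))) * (2 * (|lm| * (((K * L : ℕ) : ℝ) * L * R)))
        ≤ Real.exp (11 / 1000 * Q) * (2 * Real.exp (-(9 / 10 * Q))) := by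
          apply mul_le_mul h1 (by linarith) (by positivity) (Real.exp_pos _).le
      _ = 2 * (Real.exp (11 / 1000 * Q) * Real.exp (-(9 / 10 * Q))) := by ring
      _ = 2 * Real.exp (11 / 1000 * Q + -(9 / 10 * Q)) := by rw [Real.exp_add]
      _ ≤ _ := by
          apply mul_le_mul_of_nonneg_left _ (by norm_num)
          apply Real.exp_le_exp.mpr
          linarith
  have htot : (((K * L).factorial : ℝ) * (Real.exp K * (ℓ : ℝ) ^ K) ^ (K * L)) *
      (Real.exp ((K * G : ℕ) * (K * w + 4 * (K * (22 / 1000)))) / 2 ^ (K * K * G) +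
        Real.exp ((K * G : ℕ) * (K * (22 / 1000))) * (2 * (|lm| * (((K * L : ℕ) : ℝ) * L * R))))
      ≤ Real.exp (7 / 60 * Q) * (Real.exp (-(294 / 1000 * Q)) + 2 * Real.exp (-(88 / 100 * Q))) := by
    apply mul_le_mul hF (add_le_add hE1 hE2) (by positivity) (Real.exp_pos _).le
  have hlast : Real.exp (7 / 60 * Q) * (Real.exp (-(294 / 1000 * Q)) + 2 * Real.exp (-(88 / 100 * Q)))
      ≤ 3 * Real.exp (-(1 / 10 * Q)) := by
    rw [mul_add, ← Real.exp_add, mul_left_comm, ← Real.exp_add]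
    have h1 : Real.exp (7 / 60 * Q + -(294 / 1000 * Q)) ≤ Real.exp (-(1 / 10 * Q)) :=
      Real.exp_le_exp.mpr (by linarith)
    have h2 : Real.exp (7 / 60 * Q + -(88 / 100 * Q)) ≤ Real.exp (-(1 / 10 * Q)) :=
      Real.exp_le_exp.mpr (by linarith)
    linarith
  have hsmall : 3 * Real.exp (-(1 / 10 * Q)) < 1 := by
    have h1 : 1 / 10 * Q + 1 ≤ Real.exp (1 / 10 * Q) := Real.add_one_le_exp _
    rw [Real.exp_neg, ← div_eq_mul_inv, div_lt_one (Real.exp_pos _)]
    linarith
  have := hcore.trans (htot.trans hlast)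
  linarith
end Pool.Agent.Work.MP_2738db_nt_T
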