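import Pool.Agent.Work.MP_2738db_nt_T.Interface
import Pool.Agent.Work.MP_2738db_nt_helper84.Main

set_option autoImplicit false

namespace Pool.Agent.Work.MP_2738db_nt_T

/-- the value triples counted -/
def V (K N : ℕ) : Set (ℕ × ℕ × ℕ) :=
  {t : ℕ × ℕ × ℕ | ∃ a b c m n k : ℕ, 0 < a ∧ a ≤ N ∧ 0 < b ∧ b ≤ N ∧ 0 < c ∧ c ≤ N ∧
      Nat.Coprime a b ∧ Nat.Coprime b c ∧ Nat.Coprime a c ∧ 2 ≤ m ∧ 2 ≤ n ∧ 2 ≤ k ∧
      (K ≤ m ∨ K ≤ n ∨ K ≤ k) ∧ a ^ m + b ^ n = c ^ k ∧ t = (a ^ m, b ^ n, c ^ k)}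

lemma V_mono {K N N' : ℕ} (h : N ≤ N') : V K N ⊆ V K N' := by
  rintro t ⟨a, b, c, m, n, k, h1, h2, h3, h4, h5, h6, h7⟩
  exact ⟨a, b, c, m, n, k, h1, h2.trans h, h3, h4.trans h, h5, h6.trans h, h7⟩

/-- the box -/
noncomputable def boxPts (N : ℕ) : Finset Pt := Fintype.piFinset fun _ => Finset.Icc (1 : ℤ) N

noncomputable def goodPts (N A m n k : ℕ) : Finset Pt := by
  classical
  exact (boxPts N).filter (fun P => Good N A m n k P)

lemma mem_goodPts {N A m n k : ℕ} {P : Pt} : P ∈ goodPts N A m n k ↔ Good N A m n k P := by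
  classical
  simp only [goodPts, Finset.mem_filter, boxPts, Fintype.mem_piFinset, Finset.mem_Icc]
  constructor
  · exact fun h => h.2
  · intro h
    exact ⟨fun i => ⟨h.pos i, h.le i⟩, h⟩

/-- value map of a signature -/
def valMap (m n k : ℕ) (P : Pt) : ℕ × ℕ × ℕ := ((P 0).toNat ^ m, (P 1).toNat ^ n, (P 2).toNat ^ k)

noncomputable def bigVals (N A M : ℕ) : Finset (ℕ × ℕ × ℕ) := by
  classical
  exact (Finset.Icc 1 M ×ˢ (Finset.Icc 1 M ×ˢ Finset.Icc 1 M)).biUnion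
    (fun s => (goodPts N A s.1 s.2.1 s.2.2).image (valMap s.1 s.2.1 s.2.2))

lemma card_bigVals {N A M B : ℕ} (h : ∀ m n k, 1 ≤ m → m ≤ M → 1 ≤ n → n ≤ M → 1 ≤ k → k ≤ M →
    (goodPts N A m n k).card ≤ B) : (bigVals N A M).card ≤ M ^ 3 * B := by
  classical
  calc (bigVals N A M).card ≤ ∑ s ∈ (Finset.Icc 1 M ×ˢ (Finset.Icc 1 M ×ˢ Finset.Icc 1 M)),
        ((goodPts N A s.1 s.2.1 s.2.2).image (valMap s.1 s.2.1 s.2.2)).card := Finset.card_biUnion_le
    _ ≤ ∑ _s ∈ (Finset.Icc 1 M ×ˢ (Finset.Icc 1 M ×ˢ Finset.Icc 1 M)), B := by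
        apply Finset.sum_le_sum
        intro s hs
        simp only [Finset.mem_product, Finset.mem_Icc] at hs
        exact Finset.card_image_le.trans (h _ _ _ hs.1.1 hs.1.2 hs.2.1.1 hs.2.1.2 hs.2.2.1 hs.2.2.2)
    _ = M ^ 3 * B := by
        rw [Finset.sum_const, Finset.card_product, Finset.card_product, Nat.card_Icc]
        simp only [Nat.add_sub_cancel, smul_eq_mul]
        ring

/-- a large solution with bounded exponents is counted in `bigVals` -/
lemma mem_bigVals {N A M a b c m n k : ℕ} (ha : 0 < a) (haN : a ≤ N) (hb : 0 < b) (hbN : b ≤ N)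
    (hc : 0 < c) (hcN : c ≤ N) (hab : Nat.Coprime a b) (hbc : Nat.Coprime b c) (hac : Nat.Coprime a c)
    (hm : 1 ≤ m) (hmM : m ≤ M) (hn : 1 ≤ n) (hnM : n ≤ M) (hk : 1 ≤ k) (hkM : k ≤ M)
    (heq : a ^ m + b ^ n = c ^ k) (hbig : N ^ (A + 1) < c ^ k) :
    (a ^ m, b ^ n, c ^ k) ∈ bigVals N A M := by
  classical
  simp only [bigVals, Finset.mem_biUnion]
  refine ⟨(m, n, k), ?_, ?_⟩
  · simp only [Finset.mem_product, Finset.mem_Icc]
    exact ⟨⟨hm, hmM⟩, ⟨hn, hnM⟩, ⟨hk, hkM⟩⟩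
  · rw [Finset.mem_image]
    refine ⟨![(a : ℤ), (b : ℤ), (c : ℤ)], ?_, ?_⟩
    · rw [mem_goodPts]
      have hbig' : N ^ A < c ^ (k - 1) := by
        have h1 : c ^ k = c ^ (k - 1) * c := by rw [← pow_succ]; congr 1; omega
        rw [h1, pow_succ] at hbig
        by_contra hcon
        rw [not_lt] at hcon
        exact absurd (Nat.mul_le_mul hcon hcN) (not_le.mpr hbig)
      refine ⟨?_, ?_, ?_, ?_, ?_, ?_, ?_⟩
      · intro i
        fin_cases i
        · show (0 : ℤ) < (a : ℤ)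
          exact_mod_cast ha
        · show (0 : ℤ) < (b : ℤ)
          exact_mod_cast hb
        · show (0 : ℤ) < (c : ℤ)
          exact_mod_cast hc
      · intro i
        fin_cases i
        · show (a : ℤ) ≤ (N : ℤ)
          exact_mod_cast haN
        · show (b : ℤ) ≤ (N : ℤ)
          exact_mod_cast hbN
        · show (c : ℤ) ≤ (N : ℤ)
          exact_mod_cast hcN
      · exact Nat.isCoprime_iff_coprime.mpr hab
      · exact Nat.isCoprime_iff_coprime.mpr hbc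
      · exact Nat.isCoprime_iff_coprime.mpr hac
      · show (a : ℤ) ^ m + (b : ℤ) ^ n = (c : ℤ) ^ k
        exact_mod_cast heq
      · show (N : ℤ) ^ A < (c : ℤ) ^ (k - 1)
        exact_mod_cast hbig'
    · simp [valMap]

open Pool.Agent.Work.MP_2738db_nt_helper84 in
theorem box (hSig : Stmt_Sig) (hPr : Stmt_Primes) (hExp : Stmt_Exp) : Stmt_Box := by
  intro ε hε
  -- parameters
  set L : ℕ := ⌈14 / ε⌉₊ + 1 with hLdef
  have hL1 : 1 ≤ L := by omega
  have hLε : 14 / ε ≤ L := by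
    have := Nat.le_ceil (14 / ε)
    rw [hLdef]; push_cast; linarith
  have hLpos : (0 : ℝ) < L := by exact_mod_cast hL1
  have hLε' : 14 / (L : ℝ) ≤ ε := by
    rw [div_le_iff₀ hε] at hLε
    rw [div_le_iff₀ hLpos]
    linarith
  obtain ⟨A, E, C, N0, hS⟩ := hSig L hL1
  obtain ⟨N1, hP⟩ := hPr L E hL1
  obtain ⟨C0, hE⟩ := hExp
  -- the exponent threshold
  set K : ℕ := ⌈(4 * ((A : ℝ) + 1) / ε) ^ 2⌉₊ + 1 with hKdef
  have hK1 : 1 ≤ K := by omega
  have hK1r : (1 : ℝ) ≤ K := by exact_mod_cast hK1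
  have hKpos : (0 : ℝ) < K := by linarith
  have hKbig : (4 * ((A : ℝ) + 1) / ε) ^ 2 ≤ K := by
    have := Nat.le_ceil ((4 * ((A : ℝ) + 1) / ε) ^ 2)
    rw [hKdef]; push_cast; linarith
  have hsK : 4 * ((A : ℝ) + 1) / ε ≤ Real.sqrt K := Real.le_sqrt_of_sq_le hKbig
  have hsK1 : 1 ≤ Real.sqrt K := by rw [← Real.sqrt_one]; exact Real.sqrt_le_sqrt hK1r
  set η : ℝ := 1 / (K : ℝ) with hη
  have hη0 : 0 < η := by positivity
  have hη1 : η ≤ 1 := by rw [hη, div_le_one hKpos]; exact hK1r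
  have hA1 : (0 : ℝ) < (A : ℝ) + 1 := by positivity
  set ε1 : ℝ := ε / (2 * ((A : ℝ) + 1)) with hε1
  have hε1pos : 0 < ε1 := by positivity
  obtain ⟨C1, hC1, hSmall⟩ := final η ε1 hη0 hη1 hε1pos
  have hexp : ((A : ℝ) + 1) * (Real.sqrt (η / 2) + η + ε1) ≤ ε := by
    have h1 : Real.sqrt (η / 2) ≤ 1 / Real.sqrt K := by
      rw [← Real.sqrt_one, ← Real.sqrt_div (by norm_num)]
      apply Real.sqrt_le_sqrt
      rw [hη]
      have : 0 < 1 / (K : ℝ) := by positivity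
      linarith
    have h2 : η ≤ 1 / Real.sqrt K := by
      rw [hη]
      apply one_div_le_one_div_of_le (by positivity)
      rw [Real.sqrt_le_left (by positivity)]
      nlinarith
    have h3 : 1 / Real.sqrt K ≤ ε / (4 * ((A : ℝ) + 1)) := by
      rw [div_le_div_iff₀ (by positivity) (by positivity), one_mul]
      rw [div_le_iff₀ hε] at hsK
      linarith
    have h4 : Real.sqrt (η / 2) + η + ε1 ≤ ε / ((A : ℝ) + 1) := by
      have h5 : ε / (4 * ((A : ℝ) + 1)) + ε / (4 * ((A : ℝ) + 1)) + ε1 = ε / ((A : ℝ) + 1) := by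
        rw [hε1]; field_simp; ring
      linarith
    calc ((A : ℝ) + 1) * (Real.sqrt (η / 2) + η + ε1) ≤ ((A : ℝ) + 1) * (ε / ((A : ℝ) + 1)) :=
          mul_le_mul_of_nonneg_left h4 hA1.le
      _ = ε := by field_simp
  -- largeness for the exponents
  set δ : ℝ := 1 / (4 * (L : ℝ)) with hδ
  have hδ0 : 0 < δ := by positivity
  set C' : ℝ := |C0| * (12 / δ) ^ 12 with hC'
  have hC'0 : 0 ≤ C' := by positivity
  obtain ⟨N2, hN2⟩ : ∃ N2 : ℕ, ∀ N : ℕ, N2 ≤ N → C' ≤ (N : ℝ) ^ δ := by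
    have h1 := tendsto_rpow_atTop hδ0
    have h2 := h1.comp (tendsto_natCast_atTop_atTop (R := ℝ))
    have h3 := (h2.eventually_ge_atTop C')
    rw [Filter.eventually_atTop] at h3
    obtain ⟨N2, h4⟩ := h3
    exact ⟨N2, fun N hN => h4 N hN⟩
  set Nb : ℕ := N0 + N1 + N2 + 3 with hNb
  -- the main estimate for large N
  have hlarge : ∀ N : ℕ, Nb ≤ N → (V K N).Finite ∧
      ((V K N).ncard : ℝ) ≤ (C1 + C * 2 ^ 14) * (N : ℝ) ^ ε := by
    intro N hN
    have hN1 : 1 ≤ N := by omega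
    have hN1r : (1 : ℝ) ≤ N := by exact_mod_cast hN1
    have hN3 : 3 ≤ N := by omega
    obtain ⟨Q, PP, hEnv⟩ := hP N (by omega)
    set M := Nat.sqrt Q with hM
    have hQN : ((N : ℝ) ^ δ) ^ 4 ≤ Q := by
      have h1 : (N : ℝ) ≤ (Q : ℝ) ^ L := by exact_mod_cast hEnv.hN
      have h2 : (((N : ℝ) ^ δ) ^ 4) ^ L = N := by
        rw [← Real.rpow_natCast, ← Real.rpow_natCast, ← Real.rpow_mul (by positivity),
          ← Real.rpow_mul (by positivity)]
        have : δ * (((4 : ℕ) : ℝ) * (L : ℝ)) = 1 := by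
          rw [hδ]; push_cast; field_simp
        rw [this, Real.rpow_one]
      rw [← h2] at h1
      exact le_of_pow_le_pow_left₀ (by omega) (by positivity) h1
    have hexpM : ∀ e : ℕ, (e : ℝ) ≤ C0 * (Real.log N) ^ 12 → e ≤ M := by
      intro e he
      rw [hM, Nat.le_sqrt]
      have hy : C' ≤ (N : ℝ) ^ δ := hN2 N (by omega)
      have hlog : Real.log N ≤ (N : ℝ) ^ (δ / 12) / (δ / 12) :=
        Real.log_le_rpow_div (by positivity) (by positivity)
      have hlog0 : 0 ≤ Real.log N := Real.log_nonneg hN1r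
      have hlog12 : (Real.log N) ^ 12 ≤ (12 / δ) ^ 12 * (N : ℝ) ^ δ := by
        calc (Real.log N) ^ 12 ≤ ((N : ℝ) ^ (δ / 12) / (δ / 12)) ^ 12 := pow_le_pow_left₀ hlog0 hlog _
          _ = (12 / δ) ^ 12 * ((N : ℝ) ^ (δ / 12)) ^ 12 := by
              have hne : δ ≠ 0 := hδ0.ne'
              clear_value δ
              rw [← mul_pow]
              congr 1
              field_simp
          _ = (12 / δ) ^ 12 * (N : ℝ) ^ δ := by
              congr 1
              rw [← Real.rpow_natCast, ← Real.rpow_mul (by positivity)]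
              congr 1
              push_cast
              ring
      have he2 : (e : ℝ) ≤ C' * (N : ℝ) ^ δ := by
        calc (e : ℝ) ≤ C0 * (Real.log N) ^ 12 := he
          _ ≤ |C0| * (Real.log N) ^ 12 := by gcongr; exact le_abs_self _
          _ ≤ |C0| * ((12 / δ) ^ 12 * (N : ℝ) ^ δ) := by gcongr
          _ = C' * (N : ℝ) ^ δ := by rw [hC']; ring
      have he3 : (e : ℝ) * e ≤ Q := by
        have h5 : (e : ℝ) ≤ (N : ℝ) ^ δ * (N : ℝ) ^ δ := he2.trans (by gcongr)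
        calc (e : ℝ) * e ≤ ((N : ℝ) ^ δ * (N : ℝ) ^ δ) * ((N : ℝ) ^ δ * (N : ℝ) ^ δ) := by gcongr
          _ = ((N : ℝ) ^ δ) ^ 4 := by ring
          _ ≤ Q := hQN
      exact_mod_cast he3
    -- the count of large values
    have hcardBig : (bigVals N A M).card ≤ M ^ 3 * (C * Q ^ 11) := by
      apply card_bigVals
      intro m n k h1 h2 h3 h4 h5 h6
      exact hS N Q M PP (by omega) hEnv m n k h1 h2 h3 h4 h5 h6 _ (fun P hP => mem_goodPts.mp hP)
    have hQ14 : ((Q : ℝ)) ^ 14 ≤ 2 ^ 14 * (N : ℝ) ^ ε := by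
      have h1 : (Q : ℝ) ^ L ≤ 2 ^ L * N := by exact_mod_cast hEnv.hQ
      have h2 : (Q : ℝ) ≤ 2 * (N : ℝ) ^ (1 / (L : ℝ)) := by
        have h3 : (2 * (N : ℝ) ^ (1 / (L : ℝ))) ^ L = 2 ^ L * N := by
          rw [mul_pow, ← Real.rpow_natCast ((N : ℝ) ^ (1 / (L : ℝ))), ← Real.rpow_mul (by positivity)]
          rw [one_div, inv_mul_cancel₀ hLpos.ne', Real.rpow_one]
        rw [← h3] at h1
        exact le_of_pow_le_pow_left₀ (by omega) (by positivity) h1
      calc (Q : ℝ) ^ 14 ≤ (2 * (N : ℝ) ^ (1 / (L : ℝ))) ^ 14 := pow_le_pow_left₀ (by positivity) h2 _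
        _ = 2 ^ 14 * (N : ℝ) ^ (14 / (L : ℝ)) := by
            rw [mul_pow, ← Real.rpow_natCast ((N : ℝ) ^ (1 / (L : ℝ))), ← Real.rpow_mul (by positivity)]
            congr 2
            push_cast
            ring
        _ ≤ 2 ^ 14 * (N : ℝ) ^ ε := by
            gcongr
    -- inclusion
    set X : ℕ := N ^ (A + 1) with hX
    have hX1 : 1 ≤ X := Nat.one_le_pow _ _ hN1
    have hXr : (X : ℝ) = (N : ℝ) ^ ((A : ℝ) + 1) := by
      rw [hX]; push_cast
      rw [← Real.rpow_natCast]; push_cast; rfl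
    obtain ⟨hF, hCnt⟩ := hSmall X hX1
    have hsub : V K N ⊆ Sol ⌊(X : ℝ) ^ η⌋₊ X ∪ (bigVals N A M : Set (ℕ × ℕ × ℕ)) := by
      rintro t ⟨a, b, c, m, n, k, ha, haN, hb, hbN, hc, hcN, hab, hbc, hac, hm, hn, hk, hKor, heq, rfl⟩
      by_cases hle : c ^ k ≤ X
      · left
        refine ⟨a, b, c, m, n, k, ha, hb, hc, hab, hbc, hac, hm, hn, hk, ?_, heq, hle, rfl⟩
        have key : ∀ u e : ℕ, 0 < u → K ≤ e → u ^ e ≤ X → u ≤ ⌊(X : ℝ) ^ η⌋₊ := by
          intro u e hu hKe hue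
          apply Nat.le_floor
          have h1 : u ^ K ≤ X := (Nat.pow_le_pow_right hu hKe).trans hue
          have h2 : (u : ℝ) ^ K ≤ X := by exact_mod_cast h1
          have h3 : ((X : ℝ) ^ η) ^ K = X := by
            rw [← Real.rpow_natCast, ← Real.rpow_mul (by positivity), hη, one_div,
              inv_mul_cancel₀ hKpos.ne', Real.rpow_one]
          rw [← h3] at h2
          exact le_of_pow_le_pow_left₀ (by omega) (by positivity) h2
        rcases hKor with h | h | h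
        · exact Or.inl (key a m ha h (by omega))
        · exact Or.inr (Or.inl (key b n hb h (by omega)))
        · exact Or.inr (Or.inr (key c k hc h hle))
      · right
        rw [not_le] at hle
        set m' := if a = 1 then 2 else m with hm'
        set n' := if b = 1 then 2 else n with hn'
        have e1 : a ^ m' = a ^ m := by
          rw [hm']; split_ifs with h
          · rw [h, one_pow, one_pow]
          · rfl
        have e2 : b ^ n' = b ^ n := by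
          rw [hn']; split_ifs with h
          · rw [h, one_pow, one_pow]
          · rfl
        have hm2 : 2 ≤ m' := by rw [hm']; split_ifs <;> omega
        have hn2 : 2 ≤ n' := by rw [hn']; split_ifs <;> omega
        have heq' : a ^ m' + b ^ n' = c ^ k := by rw [e1, e2]; exact heq
        obtain ⟨b1, b2, b3⟩ := hE N a b c m' n' k hN3 ha haN hb hbN hc hcN hab hbc hac hm2 hn2 hk
          (by intro h; rw [hm', if_pos h]) (by intro h; rw [hn', if_pos h]) heq'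
        rw [← e1, ← e2]
        exact mem_bigVals ha haN hb hbN hc hcN hab hbc hac (by omega) (hexpM _ b1) (by omega)
          (hexpM _ b2) (by omega) (hexpM _ b3) heq' hle
    have hfinU : (Sol ⌊(X : ℝ) ^ η⌋₊ X ∪ (bigVals N A M : Set (ℕ × ℕ × ℕ))).Finite :=
      hF.union (Finset.finite_toSet _)
    refine ⟨hfinU.subset hsub, ?_⟩
    have h1 : (V K N).ncard ≤ (Sol ⌊(X : ℝ) ^ η⌋₊ X).ncard + (bigVals N A M).card := by
      refine (Set.ncard_le_ncard hsub hfinU).trans ((Set.ncard_union_le _ _).trans ?_)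
      rw [Set.ncard_coe_finset]
    have h2 : (((Sol ⌊(X : ℝ) ^ η⌋₊ X).ncard : ℕ) : ℝ) ≤ C1 * (N : ℝ) ^ ε := by
      refine hCnt.trans ?_
      rw [hXr, ← Real.rpow_mul (by positivity)]
      gcongr
    have h3 : ((bigVals N A M).card : ℝ) ≤ C * 2 ^ 14 * (N : ℝ) ^ ε := by
      have h4 : M ^ 3 * (C * Q ^ 11) ≤ C * Q ^ 14 := by
        have h5 : M ≤ Q := Nat.sqrt_le_self Q
        calc M ^ 3 * (C * Q ^ 11) ≤ Q ^ 3 * (C * Q ^ 11) := by gcongr
          _ = C * Q ^ 14 := by ring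
      have h6 : ((bigVals N A M).card : ℝ) ≤ C * (Q : ℝ) ^ 14 := by exact_mod_cast hcardBig.trans h4
      calc ((bigVals N A M).card : ℝ) ≤ C * (Q : ℝ) ^ 14 := h6
        _ ≤ C * (2 ^ 14 * (N : ℝ) ^ ε) := by gcongr
        _ = C * 2 ^ 14 * (N : ℝ) ^ ε := by ring
    calc ((V K N).ncard : ℝ) ≤ ((Sol ⌊(X : ℝ) ^ η⌋₊ X).ncard : ℝ) + ((bigVals N A M).card : ℝ) := by
          exact_mod_cast h1
      _ ≤ C1 * (N : ℝ) ^ ε + C * 2 ^ 14 * (N : ℝ) ^ ε := add_le_add h2 h3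
      _ = (C1 + C * 2 ^ 14) * (N : ℝ) ^ ε := by ring
  -- conclusion
  refine ⟨K, (C1 + C * 2 ^ 14) + ((V K Nb).ncard : ℝ), ?_⟩
  intro N hN1
  show (V K N).Finite ∧ ((V K N).ncard : ℝ) ≤ ((C1 + C * 2 ^ 14) + ((V K Nb).ncard : ℝ)) * (N : ℝ) ^ ε
  have hN1r : (1 : ℝ) ≤ N := by exact_mod_cast hN1
  have hNε : (1 : ℝ) ≤ (N : ℝ) ^ ε := Real.one_le_rpow hN1r hε.le
  have hC0' : (0 : ℝ) ≤ C1 + C * 2 ^ 14 := by positivity
  by_cases h : Nb ≤ N
  · obtain ⟨h1, h2⟩ := hlarge N h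
    refine ⟨h1, h2.trans ?_⟩
    have : (0 : ℝ) ≤ ((V K Nb).ncard : ℝ) := Nat.cast_nonneg _
    apply mul_le_mul_of_nonneg_right _ (by positivity)
    linarith
  · rw [not_le] at h
    obtain ⟨h1, -⟩ := hlarge Nb le_rfl
    have hs := V_mono (K := K) h.le
    refine ⟨h1.subset hs, ?_⟩
    have h3 : ((V K N).ncard : ℝ) ≤ ((V K Nb).ncard : ℝ) := by
      exact_mod_cast Set.ncard_le_ncard hs h1
    have h4 : (0 : ℝ) ≤ ((V K Nb).ncard : ℝ) := Nat.cast_nonneg _
    calc ((V K N).ncard : ℝ) ≤ ((V K Nb).ncard : ℝ) * 1 := by rw [mul_one]; exact h3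
      _ ≤ ((C1 + C * 2 ^ 14) + ((V K Nb).ncard : ℝ)) * (N : ℝ) ^ ε := by
          apply mul_le_mul _ hNε zero_le_one (by positivity)
          linarith

end Pool.Agent.Work.MP_2738db_nt_T
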