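import Pool.Agent.Work.MP_2738db_nt_T.LBase
import Pool.Agent.Work.MP_2738db_nt_T.Final

set_option autoImplicit false

namespace Pool.Agent.Work.MP_2738db_nt_T

lemma VL_mono {K N N' : ℕ} {δ : ℝ} (hδ : 0 ≤ δ) (h : N ≤ N') : VL K N δ ⊆ VL K N' δ := by
  rintro t ⟨a, b, c, m, n, k, h1, h2, h3, h4, h5, h6, h7, h8, h9, hor, heq, ht⟩
  have hexp : Real.exp ((N : ℝ) ^ δ) ≤ Real.exp ((N' : ℝ) ^ δ) := by
    apply Real.exp_le_exp.mpr
    apply Real.rpow_le_rpow (Nat.cast_nonneg _) _ hδ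
    exact_mod_cast h
  refine ⟨a, b, c, m, n, k, h1, h2, h3, h4, h5, h6, h7, h8, h9, ?_, heq, ht⟩
  rcases hor with ⟨x1, x2, x3, x4⟩ | ⟨x1, x2, x3, x4⟩ | ⟨x1, x2, x3, x4⟩
  · exact Or.inl ⟨x1, x2.trans hexp, x3.trans h, x4.trans h⟩
  · exact Or.inr (Or.inl ⟨x1, x2.trans hexp, x3.trans h, x4.trans h⟩)
  · exact Or.inr (Or.inr ⟨x1, x2.trans hexp, x3.trans h, x4.trans h⟩)

noncomputable def goodPtsL (N θ A m n k : ℕ) (s t : ℤ) : Finset Pt := by
  classical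
  exact (Fintype.piFinset fun i => Finset.Icc (1 : ℤ) (sz N θ i)).filter
    (fun P => GoodL N θ A m n k s t P)

lemma mem_goodPtsL {N θ A m n k : ℕ} {s t : ℤ} {P : Pt} :
    P ∈ goodPtsL N θ A m n k s t ↔ GoodL N θ A m n k s t P := by
  classical
  simp only [goodPtsL, Finset.mem_filter, Fintype.mem_piFinset, Finset.mem_Icc]
  constructor
  · exact fun h => h.2
  · intro h
    refine ⟨fun i => ⟨h.pos i, ?_⟩, h⟩
    have := h.abs_le i
    rwa [abs_of_pos (h.pos i)] at this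

/-- the big values: three families according to the position of the special base -/
noncomputable def fam (N A M : ℕ) (s t : ℤ) (f : ℕ → ℕ → ℕ → Pt → ℕ × ℕ × ℕ) : Finset (ℕ × ℕ × ℕ) := by
  classical
  exact (Finset.Icc 1 M ×ˢ (Finset.Icc 1 M ×ˢ (Finset.Icc 1 M ×ˢ Finset.Icc 1 M))).biUnion
    (fun q => (goodPtsL N q.1 A q.2.1 q.2.2.1 q.2.2.2 s t).image (f q.2.1 q.2.2.1 q.2.2.2))

lemma card_fam {N A M B : ℕ} {s t : ℤ} {f : ℕ → ℕ → ℕ → Pt → ℕ × ℕ × ℕ}
    (h : ∀ θ m n k, 1 ≤ θ → θ ≤ M → 1 ≤ m → m ≤ M → 1 ≤ n → n ≤ M → 1 ≤ k → k ≤ M →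
    (goodPtsL N θ A m n k s t).card ≤ B) : (fam N A M s t f).card ≤ M ^ 4 * B := by
  classical
  calc (fam N A M s t f).card
      ≤ ∑ q ∈ (Finset.Icc 1 M ×ˢ (Finset.Icc 1 M ×ˢ (Finset.Icc 1 M ×ˢ Finset.Icc 1 M))),
        ((goodPtsL N q.1 A q.2.1 q.2.2.1 q.2.2.2 s t).image (f q.2.1 q.2.2.1 q.2.2.2)).card :=
          Finset.card_biUnion_le
    _ ≤ ∑ _q ∈ (Finset.Icc 1 M ×ˢ (Finset.Icc 1 M ×ˢ (Finset.Icc 1 M ×ˢ Finset.Icc 1 M))), B := by
        apply Finset.sum_le_sum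
        intro q hq
        simp only [Finset.mem_product, Finset.mem_Icc] at hq
        exact Finset.card_image_le.trans (h _ _ _ _ hq.1.1 hq.1.2 hq.2.1.1 hq.2.1.2 hq.2.2.1.1
          hq.2.2.1.2 hq.2.2.2.1 hq.2.2.2.2)
    _ = M ^ 4 * B := by
        rw [Finset.sum_const, Finset.card_product, Finset.card_product, Finset.card_product, Nat.card_Icc]
        simp only [Nat.add_sub_cancel, smul_eq_mul]
        ring

lemma mem_fam {N A M θ m n k : ℕ} {s t : ℤ} {f : ℕ → ℕ → ℕ → Pt → ℕ × ℕ × ℕ} {P : Pt}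
    (hθ : 1 ≤ θ) (hθM : θ ≤ M) (hm : 1 ≤ m) (hmM : m ≤ M) (hn : 1 ≤ n) (hnM : n ≤ M) (hk : 1 ≤ k)
    (hkM : k ≤ M) (hP : GoodL N θ A m n k s t P) : f m n k P ∈ fam N A M s t f := by
  classical
  simp only [fam, Finset.mem_biUnion]
  refine ⟨(θ, m, n, k), ?_, Finset.mem_image.mpr ⟨P, mem_goodPtsL.mpr hP, rfl⟩⟩
  simp only [Finset.mem_product, Finset.mem_Icc]
  exact ⟨⟨hθ, hθM⟩, ⟨hm, hmM⟩, ⟨hn, hnM⟩, ⟨hk, hkM⟩⟩

/-- making a good point: `x ≤ N`, `y ≤ N`, `z > N`. -/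
lemma mk_good {N A θ x y z m n k : ℕ} {s t : ℤ} (hN : 1 ≤ N) (hx : 0 < x) (hxN : x ≤ N) (hy : 0 < y)
    (hyN : y ≤ N) (hz : 0 < z) (hθ : 2 ≤ θ) (hzθ : z ≤ N ^ θ) (hzθ' : N ^ (θ - 1) < z)
    (hxy : Nat.Coprime x y) (hyz : Nat.Coprime y z) (hxz : Nat.Coprime x z)
    (hk : 2 * A + 2 ≤ k) (heq : s * (x : ℤ) ^ m + t * (y : ℤ) ^ n = (z : ℤ) ^ k) :
    GoodL N θ A m n k s t ![(x : ℤ), (y : ℤ), (z : ℤ)] := by
  have hbig : N ^ (A * θ) < z ^ (k - 1) := by
    calc N ^ (A * θ) ≤ N ^ ((θ - 1) * (k - 1)) := by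
          apply Nat.pow_le_pow_right hN
          obtain ⟨θ', rfl⟩ : ∃ θ', θ = θ' + 1 := ⟨θ - 1, by omega⟩
          obtain ⟨k', rfl⟩ : ∃ k', k = k' + 1 := ⟨k - 1, by omega⟩
          simp only [Nat.add_sub_cancel]
          have h1 : 1 ≤ θ' := by omega
          have h2 : 2 * A ≤ k' := by omega
          calc A * (θ' + 1) ≤ A * (2 * θ') := by gcongr; omega
            _ = θ' * (2 * A) := by ring
            _ ≤ θ' * k' := by gcongr
      _ = (N ^ (θ - 1)) ^ (k - 1) := by rw [pow_mul]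
      _ < z ^ (k - 1) := Nat.pow_lt_pow_left hzθ' (by omega)
  refine ⟨?_, ?_, ?_, ?_, ?_, ?_, ?_, heq, ?_⟩
  · intro i
    fin_cases i
    · show (0 : ℤ) < (x : ℤ)
      exact_mod_cast hx
    · show (0 : ℤ) < (y : ℤ)
      exact_mod_cast hy
    · show (0 : ℤ) < (z : ℤ)
      exact_mod_cast hz
  · show (x : ℤ) ≤ (N : ℤ)
    exact_mod_cast hxN
  · show (y : ℤ) ≤ (N : ℤ)
    exact_mod_cast hyN
  · show (z : ℤ) ≤ (N : ℤ) ^ θ
    exact_mod_cast hzθ
  · exact Nat.isCoprime_iff_coprime.mpr hxy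
  · exact Nat.isCoprime_iff_coprime.mpr hyz
  · exact Nat.isCoprime_iff_coprime.mpr hxz
  · show (N : ℤ) ^ (A * θ) < (z : ℤ) ^ (k - 1)
    exact_mod_cast hbig

/-- special base in third, second, first position -/
def f3 (m n k : ℕ) (P : Pt) : ℕ × ℕ × ℕ := ((P 0).toNat ^ m, (P 1).toNat ^ n, (P 2).toNat ^ k)
def f2 (m n k : ℕ) (P : Pt) : ℕ × ℕ × ℕ := ((P 1).toNat ^ n, (P 2).toNat ^ k, (P 0).toNat ^ m)
def f1 (m n k : ℕ) (P : Pt) : ℕ × ℕ × ℕ := ((P 2).toNat ^ k, (P 1).toNat ^ n, (P 0).toNat ^ m)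

/-- the exponent of a base is irrelevant when the base is `1` -/
lemma norm_exp {u e : ℕ} (he : 2 ≤ e) : ∃ e', 2 ≤ e' ∧ (u = 1 → e' = 2) ∧ u ^ e' = u ^ e ∧ (u ≠ 1 → e' = e) := by
  by_cases h : u = 1
  · exact ⟨2, le_rfl, fun _ => rfl, by rw [h, one_pow, one_pow], fun h' => absurd h h'⟩
  · exact ⟨e, he, fun h' => absurd h' h, rfl, fun _ => rfl⟩

theorem boxL (hBox : Stmt_Box) (hSig : Stmt_SigL) (hPr : Stmt_Primes) (hExp : Stmt_Exp) : Stmt_BoxL := by
  intro ε hε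
  obtain ⟨K1, CB, hB⟩ := hBox ε hε
  -- parameters
  set L : ℕ := ⌈15 / ε⌉₊ + 1 with hLdef
  have hL1 : 1 ≤ L := by omega
  have hLε : 15 / ε ≤ L := by
    have := Nat.le_ceil (15 / ε)
    rw [hLdef]; push_cast; linarith
  have hLpos : (0 : ℝ) < L := by exact_mod_cast hL1
  have hL1r : (1 : ℝ) ≤ L := by exact_mod_cast hL1
  have hLε' : 15 / (L : ℝ) ≤ ε := by
    rw [div_le_iff₀ hε] at hLε
    rw [div_le_iff₀ hLpos]
    linarith
  obtain ⟨A, E, C, N0, hS⟩ := hSig L hL1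
  obtain ⟨N1, hP⟩ := hPr L E hL1
  obtain ⟨C0, hE⟩ := hExp
  set K : ℕ := K1 + 2 * A + 2 with hKdef
  set δ : ℝ := 1 / (48 * (L : ℝ)) with hδ
  have hδ0 : 0 < δ := by positivity
  -- largeness of N
  obtain ⟨N2, hN2⟩ : ∃ N2 : ℕ, ∀ N : ℕ, N2 ≤ N → |C0| + 2 ≤ (N : ℝ) ^ (12 * δ) := by
    have h1 := tendsto_rpow_atTop (show 0 < 12 * δ by positivity)
    have h2 := h1.comp (tendsto_natCast_atTop_atTop (R := ℝ))
    have h3 := (h2.eventually_ge_atTop (|C0| + 2))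
    rw [Filter.eventually_atTop] at h3
    obtain ⟨N2, h4⟩ := h3
    exact ⟨N2, fun N hN => h4 N hN⟩
  obtain ⟨N3, hN3⟩ : ∃ N3 : ℕ, ∀ N : ℕ, N3 ≤ N → 2 / δ ≤ (N : ℝ) ^ (δ / 2) := by
    have h1 := tendsto_rpow_atTop (show 0 < δ / 2 by positivity)
    have h2 := h1.comp (tendsto_natCast_atTop_atTop (R := ℝ))
    have h3 := (h2.eventually_ge_atTop (2 / δ))
    rw [Filter.eventually_atTop] at h3
    obtain ⟨N3, h4⟩ := h3
    exact ⟨N3, fun N hN => h4 N hN⟩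
  set Nb : ℕ := N0 + N1 + N2 + N3 + 3 with hNb
  have hlarge : ∀ N : ℕ, Nb ≤ N → (VL K N δ).Finite ∧
      ((VL K N δ).ncard : ℝ) ≤ (CB + 3 * C * 2 ^ 15) * (N : ℝ) ^ ε := by
    intro N hN
    have hN1 : 1 ≤ N := by omega
    have hN1r : (1 : ℝ) ≤ N := by exact_mod_cast hN1
    have hN3' : 3 ≤ N := by omega
    have hNpos : (0 : ℝ) < N := by linarith
    obtain ⟨Q, PP, hEnv⟩ := hP N (by omega)
    set M := Nat.sqrt Q with hM
    have hMM : M * M ≤ Q := Nat.sqrt_le Q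
    set y : ℝ := (N : ℝ) ^ (12 * δ) with hy
    have hyC : |C0| + 2 ≤ y := hN2 N (by omega)
    have hC00 := abs_nonneg C0
    have hy2 : 2 ≤ y := by linarith
    have hyQ : y ^ 4 ≤ Q := by
      have h1 : (N : ℝ) ≤ (Q : ℝ) ^ L := by exact_mod_cast hEnv.hN
      have h2 : (y ^ 4) ^ L = N := by
        rw [hy, ← Real.rpow_natCast, ← Real.rpow_natCast, ← Real.rpow_mul (by positivity),
          ← Real.rpow_mul (by positivity)]
        have : 12 * δ * (((4 : ℕ) : ℝ) * (L : ℝ)) = 1 := by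
          rw [hδ]; push_cast; field_simp; norm_num
        rw [this, Real.rpow_one]
      rw [← h2] at h1
      exact le_of_pow_le_pow_left₀ (by omega) (by positivity) h1
    have hleM : ∀ e : ℕ, (e : ℝ) ≤ y * y → e ≤ M := by
      intro e he
      rw [hM, Nat.le_sqrt]
      have he3 : (e : ℝ) * e ≤ Q := by
        calc (e : ℝ) * e ≤ (y * y) * (y * y) := by gcongr
          _ = y ^ 4 := by ring
          _ ≤ Q := hyQ
      exact_mod_cast he3
    have hδy : (N : ℝ) ^ δ ≤ y := by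
      rw [hy]
      apply Real.rpow_le_rpow_of_exponent_le hN1r
      linarith
    have hδ1 : 1 ≤ (N : ℝ) ^ δ := Real.one_le_rpow hN1r hδ0.le
    have hlogN : Real.log N ≤ (N : ℝ) ^ δ := by
      have h1 : Real.log N ≤ (N : ℝ) ^ (δ / 2) / (δ / 2) :=
        Real.log_le_rpow_div (by positivity) (by positivity)
      have h2 := hN3 N (by omega)
      have h3 : (N : ℝ) ^ δ = (N : ℝ) ^ (δ / 2) * (N : ℝ) ^ (δ / 2) := by
        rw [← Real.rpow_add hNpos]; congr 1; ring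
      rw [h3]
      calc Real.log N ≤ (N : ℝ) ^ (δ / 2) / (δ / 2) := h1
        _ = (N : ℝ) ^ (δ / 2) * (2 / δ) := by field_simp
        _ ≤ (N : ℝ) ^ (δ / 2) * (N : ℝ) ^ (δ / 2) := by gcongr
    -- the large box for the exponents
    set N' : ℕ := ⌊Real.exp ((N : ℝ) ^ δ)⌋₊ with hN'
    have hNN' : N ≤ N' := by
      apply Nat.le_floor
      calc (N : ℝ) = Real.exp (Real.log N) := (Real.exp_log hNpos).symm
        _ ≤ Real.exp ((N : ℝ) ^ δ) := Real.exp_le_exp.mpr hlogN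
    have hlogN' : Real.log N' ≤ (N : ℝ) ^ δ := by
      have h1 : (N' : ℝ) ≤ Real.exp ((N : ℝ) ^ δ) := Nat.floor_le (Real.exp_pos _).le
      have h2 : (0 : ℝ) < N' := by exact_mod_cast (by omega : 0 < N')
      calc Real.log N' ≤ Real.log (Real.exp ((N : ℝ) ^ δ)) := Real.log_le_log h2 h1
        _ = (N : ℝ) ^ δ := Real.log_exp _
    have hlogN'0 : 0 ≤ Real.log N' := Real.log_nonneg (by exact_mod_cast (by omega : 1 ≤ N'))
    have hexpM : ∀ e : ℕ, (e : ℝ) ≤ C0 * (Real.log N') ^ 12 → e ≤ M := by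
      intro e he
      apply hleM
      calc (e : ℝ) ≤ C0 * (Real.log N') ^ 12 := he
        _ ≤ |C0| * (Real.log N') ^ 12 := by gcongr; exact le_abs_self _
        _ ≤ |C0| * ((N : ℝ) ^ δ) ^ 12 := by gcongr
        _ = |C0| * y := by
            rw [hy, ← Real.rpow_natCast, ← Real.rpow_mul (by positivity)]
            congr 2
            push_cast
            ring
        _ ≤ y * y := by gcongr; linarith
    -- the count of the large values
    have hcardG : ∀ θ m n k : ℕ, ∀ s t : ℤ, (s = 1 ∨ s = -1) → (t = 1 ∨ t = -1) →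
        1 ≤ θ → θ ≤ M → 1 ≤ m → m ≤ M → 1 ≤ n → n ≤ M → 1 ≤ k → k ≤ M →
        (goodPtsL N θ A m n k s t).card ≤ C * Q ^ 13 := by
      intro θ m n k s t hs ht h1 h2 h3 h4 h5 h6 h7 h8
      exact hS N Q M PP (by omega) hEnv hMM m n k θ h3 h4 h5 h6 h7 h8 h1 h2 s t hs ht _
        (fun P hP => mem_goodPtsL.mp hP)
    have hF3 : (fam N A M 1 1 f3).card ≤ M ^ 4 * (C * Q ^ 13) :=
      card_fam (fun θ m n k h1 h2 h3 h4 h5 h6 h7 h8 =>
        hcardG θ m n k 1 1 (Or.inl rfl) (Or.inl rfl) h1 h2 h3 h4 h5 h6 h7 h8)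
    have hF2 : (fam N A M 1 (-1) f2).card ≤ M ^ 4 * (C * Q ^ 13) :=
      card_fam (fun θ m n k h1 h2 h3 h4 h5 h6 h7 h8 =>
        hcardG θ m n k 1 (-1) (Or.inl rfl) (Or.inr rfl) h1 h2 h3 h4 h5 h6 h7 h8)
    have hF1 : (fam N A M 1 (-1) f1).card ≤ M ^ 4 * (C * Q ^ 13) :=
      card_fam (fun θ m n k h1 h2 h3 h4 h5 h6 h7 h8 =>
        hcardG θ m n k 1 (-1) (Or.inl rfl) (Or.inr rfl) h1 h2 h3 h4 h5 h6 h7 h8)
    have hM4 : M ^ 4 * (C * Q ^ 13) ≤ C * Q ^ 15 := by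
      calc M ^ 4 * (C * Q ^ 13) = (M * M) * (M * M) * (C * Q ^ 13) := by ring
        _ ≤ Q * Q * (C * Q ^ 13) := by gcongr
        _ = C * Q ^ 15 := by ring
    have hQ15 : ((Q : ℝ)) ^ 15 ≤ 2 ^ 15 * (N : ℝ) ^ ε := by
      have h1 : (Q : ℝ) ^ L ≤ 2 ^ L * N := by exact_mod_cast hEnv.hQ
      have h2 : (Q : ℝ) ≤ 2 * (N : ℝ) ^ (1 / (L : ℝ)) := by
        have h3 : (2 * (N : ℝ) ^ (1 / (L : ℝ))) ^ L = 2 ^ L * N := by
          rw [mul_pow, ← Real.rpow_natCast ((N : ℝ) ^ (1 / (L : ℝ))), ← Real.rpow_mul (by positivity)]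
          rw [one_div, inv_mul_cancel₀ hLpos.ne', Real.rpow_one]
        rw [← h3] at h1
        exact le_of_pow_le_pow_left₀ (by omega) (by positivity) h1
      calc (Q : ℝ) ^ 15 ≤ (2 * (N : ℝ) ^ (1 / (L : ℝ))) ^ 15 := pow_le_pow_left₀ (by positivity) h2 _
        _ = 2 ^ 15 * (N : ℝ) ^ (15 / (L : ℝ)) := by
            rw [mul_pow, ← Real.rpow_natCast ((N : ℝ) ^ (1 / (L : ℝ))), ← Real.rpow_mul (by positivity)]
            congr 2
            push_cast
            ring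
        _ ≤ 2 ^ 15 * (N : ℝ) ^ ε := by
            gcongr
    -- the exponent θ of a base larger than N
    have hθ : ∀ z : ℕ, N < z → (z : ℝ) ≤ Real.exp ((N : ℝ) ^ δ) →
        ∃ θ : ℕ, 2 ≤ θ ∧ θ ≤ M ∧ z ≤ N ^ θ ∧ N ^ (θ - 1) < z := by
      intro z hz hzexp
      have hex : ∃ θ, z ≤ N ^ θ := ⟨z, (Nat.lt_pow_self (by omega)).le⟩
      classical
      set θ := Nat.find hex with hθdef
      have h1 : z ≤ N ^ θ := Nat.find_spec hex
      have hθ2 : 2 ≤ θ := by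
        by_contra hcon
        have h2 : θ ≤ 1 := by omega
        have h3 : N ^ θ ≤ N ^ 1 := Nat.pow_le_pow_right hN1 h2
        rw [pow_one] at h3
        omega
      have h4 : N ^ (θ - 1) < z := by
        have := Nat.find_min hex (m := θ - 1) (by omega)
        omega
      refine ⟨θ, hθ2, ?_, h1, h4⟩
      apply hleM
      have h5 : ((N : ℝ)) ^ (θ - 1) ≤ Real.exp ((N : ℝ) ^ δ) := by
        refine le_trans ?_ hzexp
        exact_mod_cast h4.le
      have h6 : ((θ - 1 : ℕ) : ℝ) * Real.log N ≤ (N : ℝ) ^ δ := by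
        have h7 := Real.log_le_log (by positivity) h5
        rwa [Real.log_pow, Real.log_exp] at h7
      have hlog1 : 1 ≤ Real.log N := by
        rw [Real.le_log_iff_exp_le hNpos]
        have := Real.exp_one_lt_d9
        have h8 : (3 : ℝ) ≤ N := by exact_mod_cast hN3'
        linarith
      have h9 : ((θ - 1 : ℕ) : ℝ) ≤ (N : ℝ) ^ δ := by
        calc ((θ - 1 : ℕ) : ℝ) = ((θ - 1 : ℕ) : ℝ) * 1 := (mul_one _).symm
          _ ≤ ((θ - 1 : ℕ) : ℝ) * Real.log N := by gcongr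
          _ ≤ _ := h6
      rw [Nat.cast_sub (by omega)] at h9
      push_cast at h9
      nlinarith
    -- inclusion
    obtain ⟨hVF, hVC⟩ := hB N hN1
    have hsub : VL K N δ ⊆ V K1 N ∪ ((fam N A M 1 1 f3 : Set (ℕ × ℕ × ℕ)) ∪
        ((fam N A M 1 (-1) f2 : Set (ℕ × ℕ × ℕ)) ∪ (fam N A M 1 (-1) f1 : Set (ℕ × ℕ × ℕ)))) := by
      rintro t ⟨a, b, c, m, n, k, ha, hb, hc, hab, hbc, hac, hm, hn, hk, hor, heq, rfl⟩
      have hz1 : ∀ z : ℕ, (z : ℝ) ≤ Real.exp ((N : ℝ) ^ δ) → z ≤ N' := fun z hz => Nat.le_floor hz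
      by_cases hall : a ≤ N ∧ b ≤ N ∧ c ≤ N
      · left
        refine ⟨a, b, c, m, n, k, ha, hall.1, hb, hall.2.1, hc, hall.2.2, hab, hbc, hac, hm, hn, hk, ?_,
          heq, rfl⟩
        rcases hor with ⟨h, -⟩ | ⟨h, -⟩ | ⟨h, -⟩
        · exact Or.inl (by omega)
        · exact Or.inr (Or.inl (by omega))
        · exact Or.inr (Or.inr (by omega))
      · right
        obtain ⟨m', hm2, hm1, hme, hmne⟩ := norm_exp (u := a) hm
        obtain ⟨n', hn2, hn1, hne, hnne⟩ := norm_exp (u := b) hn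
        have heq' : a ^ m' + b ^ n' = c ^ k := by rw [hme, hne]; exact heq
        have heqz : (a : ℤ) ^ m' + (b : ℤ) ^ n' = (c : ℤ) ^ k := by exact_mod_cast heq'
        have haN' : a ≤ N' := by
          rcases hor with ⟨-, h, -⟩ | ⟨-, -, h, -⟩ | ⟨-, -, h, -⟩
          · exact hz1 a h
          · omega
          · omega
        have hbN' : b ≤ N' := by
          rcases hor with ⟨-, -, h, -⟩ | ⟨-, h, -⟩ | ⟨-, -, -, h⟩
          · omega
          · exact hz1 b h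
          · omega
        have hcN' : c ≤ N' := by
          rcases hor with ⟨-, -, -, h⟩ | ⟨-, -, -, h⟩ | ⟨-, h, -⟩
          · omega
          · omega
          · exact hz1 c h
        obtain ⟨b1, b2, b3⟩ := hE N' a b c m' n' k (by omega) ha haN' hb hbN' hc hcN' hab hbc hac hm2 hn2
          hk hm1 hn1 heq'
        have c1 := hexpM _ b1
        have c2 := hexpM _ b2
        have c3 := hexpM _ b3
        rcases hor with ⟨hK, hle, h1, h2⟩ | ⟨hK, hle, h1, h2⟩ | ⟨hK, hle, h1, h2⟩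
        · -- special base a
          have haN : N < a := by
            by_contra hcon
            exact hall ⟨by omega, h1, h2⟩
          obtain ⟨θ, g1, g2, g3, g4⟩ := hθ a haN hle
          have hma : m' = m := hmne (by omega)
          right; right
          have hG : GoodL N θ A k n' m' 1 (-1) ![(c : ℤ), (b : ℤ), (a : ℤ)] :=
            mk_good hN1 hc h2 hb h1 ha g1 g3 g4 hbc.symm hab.symm hac.symm (by omega)
              (by linear_combination -heqz)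
          have h5 := mem_fam (f := f1) (by omega) g2 (by omega) c3 (by omega) c2 (by omega) c1 hG
          have h6 : f1 k n' m' ![(c : ℤ), (b : ℤ), (a : ℤ)] = (a ^ m, b ^ n, c ^ k) := by
            rw [← hme, ← hne]
            simp [f1]
          rw [h6] at h5
          exact h5
        · -- special base b
          have hbN : N < b := by
            by_contra hcon
            exact hall ⟨h1, by omega, h2⟩
          obtain ⟨θ, g1, g2, g3, g4⟩ := hθ b hbN hle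
          have hnb : n' = n := hnne (by omega)
          right; left
          have hG : GoodL N θ A k m' n' 1 (-1) ![(c : ℤ), (a : ℤ), (b : ℤ)] :=
            mk_good hN1 hc h2 ha h1 hb g1 g3 g4 hac.symm hab hbc.symm (by omega)
              (by linear_combination -heqz)
          have h5 := mem_fam (f := f2) (by omega) g2 (by omega) c3 (by omega) c1 (by omega) c2 hG
          have h6 : f2 k m' n' ![(c : ℤ), (a : ℤ), (b : ℤ)] = (a ^ m, b ^ n, c ^ k) := by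
            rw [← hme, ← hne]
            simp [f2]
          rw [h6] at h5
          exact h5
        · -- special base c
          have hcN : N < c := by
            by_contra hcon
            exact hall ⟨h1, h2, by omega⟩
          obtain ⟨θ, g1, g2, g3, g4⟩ := hθ c hcN hle
          left
          have hG : GoodL N θ A m' n' k 1 1 ![(a : ℤ), (b : ℤ), (c : ℤ)] :=
            mk_good hN1 ha h1 hb h2 hc g1 g3 g4 hab hbc hac (by omega)
              (by linear_combination heqz)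
          have h5 := mem_fam (f := f3) (by omega) g2 (by omega) c1 (by omega) c2 (by omega) c3 hG
          have h6 : f3 m' n' k ![(a : ℤ), (b : ℤ), (c : ℤ)] = (a ^ m, b ^ n, c ^ k) := by
            rw [← hme, ← hne]
            simp [f3]
          rw [h6] at h5
          exact h5
    have hfinU : (V K1 N ∪ ((fam N A M 1 1 f3 : Set (ℕ × ℕ × ℕ)) ∪
        ((fam N A M 1 (-1) f2 : Set (ℕ × ℕ × ℕ)) ∪ (fam N A M 1 (-1) f1 : Set (ℕ × ℕ × ℕ))))).Finite :=
      hVF.union ((Finset.finite_toSet _).union ((Finset.finite_toSet _).union (Finset.finite_toSet _)))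
    refine ⟨hfinU.subset hsub, ?_⟩
    have h1 : (VL K N δ).ncard ≤ (V K1 N).ncard + ((fam N A M 1 1 f3).card +
        ((fam N A M 1 (-1) f2).card + (fam N A M 1 (-1) f1).card)) := by
      refine (Set.ncard_le_ncard hsub hfinU).trans ((Set.ncard_union_le _ _).trans ?_)
      gcongr
      refine (Set.ncard_union_le _ _).trans ?_
      rw [Set.ncard_coe_finset]
      gcongr
      refine (Set.ncard_union_le _ _).trans ?_
      rw [Set.ncard_coe_finset, Set.ncard_coe_finset]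
    have h2 : (VL K N δ).ncard ≤ (V K1 N).ncard + 3 * (C * Q ^ 15) := by
      refine h1.trans ?_
      have e3 := hF3.trans hM4
      have e2 := hF2.trans hM4
      have e1 := hF1.trans hM4
      omega
    have h2r : ((VL K N δ).ncard : ℝ) ≤ ((V K1 N).ncard : ℝ) + 3 * (C * (Q : ℝ) ^ 15) := by
      exact_mod_cast h2
    have h3 : ((V K1 N).ncard : ℝ) ≤ CB * (N : ℝ) ^ ε := hVC
    calc ((VL K N δ).ncard : ℝ) ≤ ((V K1 N).ncard : ℝ) + 3 * (C * (Q : ℝ) ^ 15) := h2r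
      _ ≤ CB * (N : ℝ) ^ ε + 3 * (C * (2 ^ 15 * (N : ℝ) ^ ε)) := by gcongr
      _ = (CB + 3 * C * 2 ^ 15) * (N : ℝ) ^ ε := by ring
  -- conclusion
  refine ⟨K, |CB + 3 * C * 2 ^ 15| + ((VL K Nb δ).ncard : ℝ), δ, hδ0, ?_⟩
  intro N hN1
  have hN1r : (1 : ℝ) ≤ N := by exact_mod_cast hN1
  have hNε : (1 : ℝ) ≤ (N : ℝ) ^ ε := Real.one_le_rpow hN1r hε.le
  have hNε0 : (0 : ℝ) ≤ (N : ℝ) ^ ε := by linarith
  have hcc : (0 : ℝ) ≤ ((VL K Nb δ).ncard : ℝ) := Nat.cast_nonneg _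
  have habs0 : 0 ≤ |CB + 3 * (C : ℝ) * 2 ^ 15| := abs_nonneg _
  have habs1 : CB + 3 * (C : ℝ) * 2 ^ 15 ≤ |CB + 3 * (C : ℝ) * 2 ^ 15| := le_abs_self _
  by_cases h : Nb ≤ N
  · obtain ⟨h1, h2⟩ := hlarge N h
    refine ⟨h1, h2.trans ?_⟩
    apply mul_le_mul_of_nonneg_right _ hNε0
    linarith
  · rw [not_le] at h
    obtain ⟨h1, -⟩ := hlarge Nb le_rfl
    have hs := VL_mono (K := K) hδ0.le h.le
    refine ⟨h1.subset hs, ?_⟩
    have h3 : ((VL K N δ).ncard : ℝ) ≤ ((VL K Nb δ).ncard : ℝ) := by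
      exact_mod_cast Set.ncard_le_ncard hs h1
    calc ((VL K N δ).ncard : ℝ) ≤ ((VL K Nb δ).ncard : ℝ) * 1 := by rw [mul_one]; exact h3
      _ ≤ (|CB + 3 * (C : ℝ) * 2 ^ 15| + ((VL K Nb δ).ncard : ℝ)) * (N : ℝ) ^ ε := by
          apply mul_le_mul _ hNε zero_le_one (by positivity)
          linarith

end Pool.Agent.Work.MP_2738db_nt_T
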