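import Pool.Agent.Work.MP_2738db_nt_T.Interface

set_option autoImplicit false

/-!
Block HEN: Taylor expansion, Newton iteration modulo `p ^ T`, the pigeonhole principle and
uniqueness for three equations with an invertible Jacobian.
-/

namespace Pool.Agent.Work.MP_2738db_nt_T

open MvPolynomial

/-- first order Taylor expansion with divisibility of the remainder -/
lemma taylor_dvd (q : ℤ) (F : MvPolynomial (Fin 3) ℤ) (x d : Pt) (hd : ∀ i, q ∣ d i) :
    q ^ 2 ∣ eval (x + d) F - eval x F - ∑ i, d i * eval x (pderiv i F) := by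
  induction F using MvPolynomial.induction_on with
  | C a => simp
  | add F G hF hG =>
    have h := dvd_add hF hG
    have he : eval (x + d) (F + G) - eval x (F + G) - ∑ i, d i * eval x (pderiv i (F + G)) =
        (eval (x + d) F - eval x F - ∑ i, d i * eval x (pderiv i F)) +
        (eval (x + d) G - eval x G - ∑ i, d i * eval x (pderiv i G)) := by
      simp only [map_add, mul_add, Finset.sum_add_distrib]
      ring
    rw [he]; exact h
  | mul_X F i hF =>
    obtain ⟨r, hr⟩ := hF
    obtain ⟨e, he⟩ := hd i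
    have h1 : ∀ j, q ∣ d j * eval x (pderiv j F) := fun j => (hd j).mul_right _
    obtain ⟨t, ht⟩ := Finset.dvd_sum (fun j (_ : j ∈ Finset.univ) => h1 j)
    have h2 : ∑ j, d j * eval x (pderiv j (F * X i)) =
        (∑ j, d j * eval x (pderiv j F)) * x i + d i * eval x F := by
      rw [Finset.sum_mul]
      have h3 : ∀ j : Fin 3, d j * eval x (pderiv j (F * X i)) = d j * eval x (pderiv j F) * x i
            + (if j = i then d j * eval x F else 0) := by
        intro j
        rw [Derivation.leibniz, pderiv_X]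
        by_cases hj : j = i
        · subst hj; simp; ring
        · simp [hj, Ne.symm hj]; ring
      rw [Finset.sum_congr rfl (fun j _ => h3 j), Finset.sum_add_distrib]
      simp
    rw [h2]
    refine ⟨r * (x i + d i) + t * e, ?_⟩
    have hev : eval (x + d) (F * X i) = eval (x + d) F * (x i + d i) := by simp
    have hev2 : eval x (F * X i) = eval x F * x i := by simp
    rw [hev, hev2]
    have h4 : eval (x + d) F = eval x F + (∑ j, d j * eval x (pderiv j F)) + q ^ 2 * r := by
      linarith
    rw [h4]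
    have h5 : (∑ j, d j * eval x (pderiv j F)) * d i = q ^ 2 * (t * e) := by
      rw [ht, he]; ring
    linear_combination h5

/-- values of a polynomial at congruent points are congruent -/
lemma eval_congr (q : ℤ) (F : MvPolynomial (Fin 3) ℤ) (x y : Pt) (h : ∀ i, q ∣ x i - y i) :
    q ∣ eval x F - eval y F := by
  induction F using MvPolynomial.induction_on with
  | C a => simp
  | add F G hF hG =>
    have := dvd_add hF hG
    simp only [map_add]
    have he : eval x F + eval x G - (eval y F + eval y G) =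
      (eval x F - eval y F) + (eval x G - eval y G) := by ring
    rw [he]; exact this
  | mul_X F i hF =>
    simp only [map_mul, eval_X]
    have : eval x F * x i - eval y F * y i = (eval x F - eval y F) * x i + eval y F * (x i - y i) := by
      ring
    rw [this]
    exact dvd_add (hF.mul_right _) ((h i).mul_left _)

/-- a square integer matrix with determinant prime to `p` has an inverse modulo `p` -/
lemma exists_inv_mod {r : ℕ} (p : ℕ) (hp : p.Prime) (A : Matrix (Fin r) (Fin r) ℤ)
    (hA : ¬ (p : ℤ) ∣ A.det) :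
    ∃ W : Matrix (Fin r) (Fin r) ℤ, ∀ i j, (p : ℤ) ∣ (W * A) i j - (1 : Matrix (Fin r) (Fin r) ℤ) i j := by
  have hcop : IsCoprime (p : ℤ) A.det :=
    (Nat.prime_iff_prime_int.mp hp).irreducible.coprime_iff_not_dvd.mpr hA
  obtain ⟨a, b, hab⟩ := hcop
  refine ⟨b • A.adjugate, fun i j => ?_⟩
  rw [Matrix.smul_mul, Matrix.adjugate_mul]
  refine ⟨-(a * (1 : Matrix (Fin r) (Fin r) ℤ) i j), ?_⟩
  simp only [Matrix.smul_apply, smul_eq_mul]
  linear_combination ((1 : Matrix (Fin r) (Fin r) ℤ) i j) * hab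

theorem stmt_uniq : Stmt_Uniq := by
  intro F p P Q hp hPQ hFP hFQ hdet
  by_contra hne
  -- all powers of p divide the difference
  obtain ⟨W, hW⟩ := exists_inv_mod p hp _ hdet
  have key : ∀ t : ℕ, ∀ i, (p : ℤ) ^ (t + 1) ∣ Q i - P i := by
    intro t
    induction t with
    | zero =>
      intro i
      rw [zero_add, pow_one, ← neg_sub, dvd_neg]
      exact hPQ i
    | succ t ih =>
      intro i
      let d : Pt := Q - P
      have hd : ∀ i, (p : ℤ) ^ (t + 1) ∣ d i := fun i => ih i
      have h1 : ∀ ρ, (p : ℤ) ^ (t + 1 + 1) ∣ ∑ i, d i * eval P (pderiv i (F ρ)) := by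
        intro ρ
        have h2 := taylor_dvd ((p : ℤ) ^ (t + 1)) (F ρ) P d hd
        have h3 : P + d = Q := by simp [d]
        rw [h3, hFP, hFQ, sub_zero, zero_sub, dvd_neg] at h2
        refine dvd_trans ?_ h2
        rw [← pow_mul]
        exact pow_dvd_pow _ (by omega)
      -- multiply by W
      have h4 : (p : ℤ) ^ (t + 1 + 1) ∣ ∑ ρ, W i ρ * ∑ j, d j * eval P (pderiv j (F ρ)) :=
        Finset.dvd_sum fun ρ _ => (h1 ρ).mul_left _
      have h5 : ∑ ρ, W i ρ * ∑ j, d j * eval P (pderiv j (F ρ)) = 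
          ∑ j, d j * (W * Matrix.of fun ρ i => eval P (pderiv i (F ρ))) i j := by
        simp only [Matrix.mul_apply, Matrix.of_apply, Finset.mul_sum]
        rw [Finset.sum_comm]
        refine Finset.sum_congr rfl fun j _ => Finset.sum_congr rfl fun ρ _ => ?_
        ring
      rw [h5] at h4
      have h6 : ∀ j, (p : ℤ) ^ (t + 1 + 1) ∣ d j * (W * Matrix.of fun ρ i => eval P (pderiv i (F ρ))) i j
          - d j * (1 : Matrix (Fin 3) (Fin 3) ℤ) i j := by
        intro j
        rw [← mul_sub, pow_succ]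
        exact mul_dvd_mul (hd j) (hW i j)
      have h7 := dvd_sub h4 (Finset.dvd_sum fun j (_ : j ∈ Finset.univ) => h6 j)
      rw [Finset.sum_sub_distrib, sub_sub_cancel] at h7
      have h8 : ∑ j, d j * (1 : Matrix (Fin 3) (Fin 3) ℤ) i j = d i := by
        simp [Matrix.one_apply]
      rw [h8] at h7
      exact h7
  apply hne
  funext i
  by_contra hi
  have hd0 : Q i - P i ≠ 0 := fun h => hi (by linarith)
  have h9 := key ((Q i - P i).natAbs) i
  have h10 := Int.natAbs_dvd_natAbs.mpr h9
  have h11 := Nat.le_of_dvd (Int.natAbs_pos.mpr hd0) h10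
  rw [Int.natAbs_pow, Int.natAbs_natCast] at h11
  have h12 : (Q i - P i).natAbs < p ^ (Q i - P i).natAbs := Nat.lt_pow_self hp.one_lt
  have h13 : p ^ (Q i - P i).natAbs ≤ p ^ ((Q i - P i).natAbs + 1) :=
    Nat.pow_le_pow_right hp.pos (by omega)
  omega

/-! ### Representable functions -/

section Rep

variable {r : ℕ} (piv : Fin r → Fin 3)

/-- the free coordinates -/
abbrev Free := {j : Fin 3 // j ∉ Set.range piv}

/-- increments of the free coordinates with respect to the base point -/
def inc (P0 P : Pt) : Free piv → ℤ := fun j => P j - P0 j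

/-- `f` is a polynomial in the free increments modulo `q` on `S` -/
def Rep (q : ℤ) (S : Set Pt) (P0 : Pt) (f : Pt → ℤ) : Prop :=
  ∃ g : MvPolynomial (Free piv) ℤ, ∀ P ∈ S, q ∣ f P - eval (inc piv P0 P) g

variable {piv}
variable {q : ℤ} {S : Set Pt} {P0 : Pt}

lemma Rep.const (c : ℤ) : Rep piv q S P0 (fun _ => c) :=
  ⟨C c, fun P _ => by simp⟩

lemma Rep.add {f g : Pt → ℤ} (hf : Rep piv q S P0 f) (hg : Rep piv q S P0 g) :
    Rep piv q S P0 (fun P => f P + g P) := by
  obtain ⟨u, hu⟩ := hf
  obtain ⟨v, hv⟩ := hg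
  refine ⟨u + v, fun P hP => ?_⟩
  have h := dvd_add (hu P hP) (hv P hP)
  have he : f P + g P - eval (inc piv P0 P) (u + v) =
    (f P - eval (inc piv P0 P) u) + (g P - eval (inc piv P0 P) v) := by
    rw [map_add]; ring
  rw [he]; exact h

lemma Rep.mul {f g : Pt → ℤ} (hf : Rep piv q S P0 f) (hg : Rep piv q S P0 g) :
    Rep piv q S P0 (fun P => f P * g P) := by
  obtain ⟨u, hu⟩ := hf
  obtain ⟨v, hv⟩ := hg
  refine ⟨u * v, fun P hP => ?_⟩
  have he : f P * g P - eval (inc piv P0 P) (u * v) =
    (f P - eval (inc piv P0 P) u) * g P + eval (inc piv P0 P) u * (g P - eval (inc piv P0 P) v) := by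
    rw [map_mul]; ring
  rw [he]
  exact dvd_add ((hu P hP).mul_right _) ((hv P hP).mul_left _)

lemma Rep.pow {f : Pt → ℤ} (hf : Rep piv q S P0 f) (n : ℕ) :
    Rep piv q S P0 (fun P => f P ^ n) := by
  induction n with
  | zero => simpa using Rep.const (piv := piv) (q := q) (S := S) (P0 := P0) 1
  | succ n ih => simpa [pow_succ] using ih.mul hf

lemma Rep.mono {q' : ℤ} {f : Pt → ℤ} (hq : q' ∣ q) (hf : Rep piv q S P0 f) :
    Rep piv q' S P0 f := by
  obtain ⟨u, hu⟩ := hf
  exact ⟨u, fun P hP => hq.trans (hu P hP)⟩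

lemma Rep.free (j : Fin 3) (hj : j ∉ Set.range piv) : Rep piv q S P0 (fun P => P j) := by
  refine ⟨C (P0 j) + X ⟨j, hj⟩, fun P _ => ?_⟩
  simp [inc]

/-- Newton iteration: all coordinates are representable modulo every power of `p`. -/
lemma rep_coord (p : ℕ) (hp : p.Prime) (hpiv : Function.Injective piv)
    (F : Fin r → MvPolynomial (Fin 3) ℤ)
    (hcong : ∀ P ∈ S, ∀ Q ∈ S, ∀ i, (p : ℤ) ∣ P i - Q i)
    (hF : ∀ P ∈ S, ∀ ρ, eval P (F ρ) = 0)
    (hdet : ∀ P ∈ S, ¬ (p : ℤ) ∣ (Matrix.of fun ρ σ => eval P (pderiv (piv σ) (F ρ))).det)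
    (hP0 : P0 ∈ S) (t : ℕ) :
    ∃ V : Fin 3 → MvPolynomial (Free piv) ℤ,
      (∀ j, j ∉ Set.range piv → ∀ P ∈ S, P j = eval (inc piv P0 P) (V j)) ∧
      ∀ P ∈ S, ∀ j, (p : ℤ) ^ (t + 1) ∣ P j - eval (inc piv P0 P) (V j) := by
  classical
  obtain ⟨W, hW⟩ := exists_inv_mod p hp _ (hdet P0 hP0)
  induction t with
  | zero =>
    refine ⟨fun j => if hj : j ∈ Set.range piv then C (P0 j) else C (P0 j) + X ⟨j, hj⟩, ?_, ?_⟩
    · intro j hj P _
      simp only [hj, dite_false]
      simp [inc]
    · intro P hP j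
      by_cases hj : j ∈ Set.range piv
      · simp only [hj, dite_true, zero_add, pow_one, eval_C]
        exact hcong P hP P0 hP0 j
      · simp only [hj, dite_false]
        simp [inc]
  | succ t ih =>
    obtain ⟨V, hV1, hV2⟩ := ih
    -- Newton step
    let V' : Fin 3 → MvPolynomial (Free piv) ℤ := fun j =>
      V j - ∑ σ, if piv σ = j then ∑ ρ, C (W σ ρ) * aeval V (F ρ) else 0
    have hV'free : ∀ j, j ∉ Set.range piv → V' j = V j := by
      intro j hj
      have : ∑ σ, (if piv σ = j then ∑ ρ, C (W σ ρ) * aeval V (F ρ) else 0) =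
          (0 : MvPolynomial (Free piv) ℤ) := by
        apply Finset.sum_eq_zero
        intro σ _
        rw [if_neg]
        intro h
        exact hj ⟨σ, h⟩
      simp only [V', this, sub_zero]
    have hV'piv : ∀ σ, V' (piv σ) = V (piv σ) - ∑ ρ, C (W σ ρ) * aeval V (F ρ) := by
      intro σ
      simp only [V']
      congr 1
      rw [Finset.sum_eq_single σ]
      · simp
      · intro τ _ hτ
        rw [if_neg]
        intro h
        exact hτ (hpiv h)
      · intro h
        exact absurd (Finset.mem_univ σ) h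
    refine ⟨V', ?_, ?_⟩
    · intro j hj P hP
      rw [hV'free j hj]
      exact hV1 j hj P hP
    · intro P hP j
      by_cases hj : j ∈ Set.range piv
      · obtain ⟨σ, rfl⟩ := hj
        rw [hV'piv]
        let h := inc piv P0 P
        let v : Pt := fun i => eval h (V i)
        let d : Pt := v - P
        have hd : ∀ i, (p : ℤ) ^ (t + 1) ∣ d i := by
          intro i
          have := hV2 P hP i
          rw [← neg_sub, dvd_neg] at this
          exact this
        have hd0 : ∀ i, i ∉ Set.range piv → d i = 0 := by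
          intro i hi
          have := hV1 i hi P hP
          simp only [d, v, Pi.sub_apply]
          rw [← this, sub_self]
        have hev : ∀ ρ, eval h (aeval V (F ρ)) = eval v (F ρ) := by
          intro ρ
          have h1 : (eval h).comp (aeval V : MvPolynomial (Fin 3) ℤ →ₐ[ℤ] _).toRingHom
              = eval v := by
            apply MvPolynomial.ringHom_ext
            · intro a; simp
            · intro i; simp [v]
          exact RingHom.congr_fun h1 (F ρ)
        -- Taylor
        have h1 : ∀ ρ, (p : ℤ) ^ (t + 1 + 1) ∣ eval v (F ρ) - ∑ τ, d (piv τ) * eval P (pderiv (piv τ) (F ρ)) := by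
          intro ρ
          have h2 := taylor_dvd ((p : ℤ) ^ (t + 1)) (F ρ) P d hd
          have h3 : P + d = v := by simp [d]
          rw [h3, hF P hP, sub_zero] at h2
          have h4 : ∑ i, d i * eval P (pderiv i (F ρ)) = ∑ τ, d (piv τ) * eval P (pderiv (piv τ) (F ρ)) := by
            rw [← Finset.sum_image (s := Finset.univ) (g := piv)
              (f := fun i => d i * eval P (pderiv i (F ρ))) (fun a _ b _ hab => hpiv hab)]
            symm
            apply Finset.sum_subset (Finset.subset_univ _)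
            intro i _ hi
            rw [hd0 i, zero_mul]
            intro hi'
            obtain ⟨τ, rfl⟩ := hi'
            exact hi (Finset.mem_image_of_mem _ (Finset.mem_univ τ))
          rw [h4] at h2
          refine dvd_trans ?_ h2
          rw [← pow_mul]
          exact pow_dvd_pow _ (by omega)
        have h4 : (p : ℤ) ^ (t + 1 + 1) ∣ ∑ ρ, W σ ρ * (eval v (F ρ) -
            ∑ τ, d (piv τ) * eval P (pderiv (piv τ) (F ρ))) :=
          Finset.dvd_sum fun ρ _ => (h1 ρ).mul_left _
        have h5 : ∑ ρ, W σ ρ * (eval v (F ρ) -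
            ∑ τ, d (piv τ) * eval P (pderiv (piv τ) (F ρ))) = ∑ ρ, W σ ρ * eval v (F ρ) -
            ∑ τ, d (piv τ) * (W * Matrix.of fun ρ σ => eval P (pderiv (piv σ) (F ρ))) σ τ := by
          simp only [mul_sub, Finset.sum_sub_distrib]
          congr 1
          simp only [Matrix.mul_apply, Matrix.of_apply, Finset.mul_sum]
          rw [Finset.sum_comm]
          refine Finset.sum_congr rfl fun j _ => Finset.sum_congr rfl fun ρ _ => ?_
          ring
        rw [h5] at h4
        -- the Jacobian at P is congruent to the one at P0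
        have h6 : ∀ τ, (p : ℤ) ∣ (W * Matrix.of fun ρ σ => eval P (pderiv (piv σ) (F ρ))) σ τ
            - (1 : Matrix (Fin r) (Fin r) ℤ) σ τ := by
          intro τ
          have h7 : (p : ℤ) ∣ (W * Matrix.of fun ρ σ => eval P (pderiv (piv σ) (F ρ))) σ τ
            - (W * Matrix.of fun ρ σ => eval P0 (pderiv (piv σ) (F ρ))) σ τ := by
            simp only [Matrix.mul_apply, Matrix.of_apply]
            rw [← Finset.sum_sub_distrib]
            apply Finset.dvd_sum
            intro ρ _
            rw [← mul_sub]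
            exact (eval_congr (p : ℤ) _ P P0 (fun i => hcong P hP P0 hP0 i)).mul_left _
          have := dvd_add h7 (hW σ τ)
          rwa [sub_add_sub_cancel] at this
        have h8 : ∀ τ, (p : ℤ) ^ (t + 1 + 1) ∣ d (piv τ) *
            (W * Matrix.of fun ρ σ => eval P (pderiv (piv σ) (F ρ))) σ τ
            - d (piv τ) * (1 : Matrix (Fin r) (Fin r) ℤ) σ τ := by
          intro τ
          rw [← mul_sub, pow_succ]
          exact mul_dvd_mul (hd _) (h6 τ)
        have h9 := dvd_add h4 (Finset.dvd_sum fun τ (_ : τ ∈ Finset.univ) => h8 τ)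
        rw [Finset.sum_sub_distrib] at h9
        have h10 : ∑ τ, d (piv τ) * (1 : Matrix (Fin r) (Fin r) ℤ) σ τ = d (piv σ) := by
          simp [Matrix.one_apply]
        rw [h10] at h9
        have h11 : P (piv σ) - eval (inc piv P0 P) (V (piv σ) - ∑ ρ, C (W σ ρ) * aeval V (F ρ)) =
          (∑ ρ, W σ ρ * eval v (F ρ) -
            ∑ τ, d (piv τ) * (W * Matrix.of fun ρ σ => eval P (pderiv (piv σ) (F ρ))) σ τ) +
          (∑ τ, d (piv τ) * (W * Matrix.of fun ρ σ => eval P (pderiv (piv σ) (F ρ))) σ τ -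
            d (piv σ)) := by
          rw [map_sub, map_sum]
          have h12 : ∀ ρ, eval (inc piv P0 P) (C (W σ ρ) * aeval V (F ρ)) = W σ ρ * eval v (F ρ) := by
            intro ρ
            rw [map_mul, eval_C, ← hev ρ]
          rw [Finset.sum_congr rfl (fun ρ _ => h12 ρ)]
          simp only [d, v, h, Pi.sub_apply]
          ring
        rw [h11]
        exact h9
      · rw [hV'free j hj, ← hV1 j hj P hP, sub_self]
        exact dvd_zero _

/-- exponent vectors of the box -/
noncomputable def boxExp {T : ℕ} (α : Free piv → Fin T) : Free piv →₀ ℕ :=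
  Finsupp.equivFunOnFinite.symm fun j => (α j : ℕ)

lemma boxExp_apply {T : ℕ} (α : Free piv → Fin T) (j : Free piv) : boxExp α j = (α j : ℕ) := rfl

lemma boxExp_injective {T : ℕ} : Function.Injective (boxExp (piv := piv) (T := T)) := by
  intro α β h
  funext j
  have := DFunLike.congr_fun h j
  rw [boxExp_apply, boxExp_apply] at this
  exact Fin.ext this

/-- values of a polynomial at a vector divisible by `p`, modulo `p ^ T`: only the coefficients in
the box matter. -/
lemma eval_box {p T : ℕ} (g : MvPolynomial (Free piv) ℤ) (h : Free piv → ℤ)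
    (hh : ∀ j, (p : ℤ) ∣ h j) :
    ((eval h g : ℤ) : ZMod (p ^ T)) =
      ∑ α : Free piv → Fin T, ((g.coeff (boxExp α) : ℤ) : ZMod (p ^ T)) *
        ∏ j, ((h j : ℤ) : ZMod (p ^ T)) ^ (α j : ℕ) := by
  classical
  let f : (Free piv →₀ ℕ) → ZMod (p ^ T) := fun e =>
    ((g.coeff e : ℤ) : ZMod (p ^ T)) * ∏ j, ((h j : ℤ) : ZMod (p ^ T)) ^ (e j)
  have h1 : ((eval h g : ℤ) : ZMod (p ^ T)) = ∑ e ∈ g.support, f e := by
    rw [eval_eq']
    push_cast
    rfl
  have h2 : ∑ α : Free piv → Fin T, ((g.coeff (boxExp α) : ℤ) : ZMod (p ^ T)) *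
        ∏ j, ((h j : ℤ) : ZMod (p ^ T)) ^ (α j : ℕ) = ∑ e ∈ Finset.univ.image (boxExp (piv := piv) (T := T)), f e := by
    rw [Finset.sum_image (fun a _ b _ hab => boxExp_injective hab)]
    rfl
  rw [h1, h2]
  have h3 : ∑ e ∈ g.support, f e = ∑ e ∈ g.support ∪ Finset.univ.image (boxExp (piv := piv) (T := T)), f e := by
    apply Finset.sum_subset Finset.subset_union_left
    intro e _ he
    simp only [f]
    rw [notMem_support_iff.mp he]
    simp
  have h4 : ∑ e ∈ Finset.univ.image (boxExp (piv := piv) (T := T)), f e =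
      ∑ e ∈ g.support ∪ Finset.univ.image (boxExp (piv := piv) (T := T)), f e := by
    apply Finset.sum_subset Finset.subset_union_right
    intro e _ he
    -- some exponent is at least T
    have h5 : ∃ j, T ≤ e j := by
      by_contra hcon
      push Not at hcon
      apply he
      rw [Finset.mem_image]
      refine ⟨fun j => ⟨e j, hcon j⟩, Finset.mem_univ _, ?_⟩
      ext j
      rfl
    obtain ⟨j, hj⟩ := h5
    simp only [f]
    have h6 : ((h j : ℤ) : ZMod (p ^ T)) ^ (e j) = 0 := by
      rw [← Int.cast_pow, ZMod.intCast_zmod_eq_zero_iff_dvd]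
      push_cast
      exact (pow_dvd_pow _ hj).trans (pow_dvd_pow_of_dvd (hh j) _)
    rw [Finset.prod_eq_zero (Finset.mem_univ j) h6, mul_zero]
  rw [h3, h4]

end Rep

lemma card_free {r : ℕ} {piv : Fin r → Fin 3} (hpiv : Function.Injective piv) :
    Fintype.card (Free piv) = 3 - r := by
  classical
  rw [Fintype.card_subtype_compl, Fintype.card_fin]
  congr 1
  rw [← Set.toFinset_card, Set.toFinset_range, Finset.card_image_of_injective _ hpiv,
    Finset.card_univ, Fintype.card_fin]

theorem stmt_aux : Stmt_Aux := by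
  classical
  intro r piv F p T H N D S B hpiv hp hT hN hSN hcong hF hdet hB hcard hbig
  have hp1 : 1 ≤ p ^ T := Nat.one_le_pow _ _ hp.pos
  have hH : 1 ≤ H := by
    rcases Nat.eq_zero_or_pos H with h | h
    · rw [h, zero_add, one_pow] at hcard
      have : 1 ≤ (p ^ T) ^ T ^ (3 - r) := Nat.one_le_pow _ _ hp1
      omega
    · exact h
  have hBne : B.Nonempty := by
    rw [Finset.nonempty_iff_ne_empty]
    intro h
    rw [h, Finset.card_empty, pow_zero] at hcard
    have : 1 ≤ (p ^ T) ^ T ^ (3 - r) := Nat.one_le_pow _ _ hp1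
    omega
  by_cases hS : S.Nonempty
  swap
  · obtain ⟨β, hβ⟩ := hBne
    refine ⟨monomial β 1, by simp, ?_, ?_, ?_⟩
    · intro γ hγ
      rw [support_monomial, if_neg one_ne_zero, Finset.mem_singleton] at hγ
      rwa [hγ]
    · intro γ
      rw [coeff_monomial]
      split_ifs
      · simpa using hH
      · simp
    · intro P hP
      exact absurd ⟨P, hP⟩ hS
  obtain ⟨P0, hP0⟩ := hS
  obtain ⟨V, hV1, hV2⟩ := rep_coord p hp hpiv F hcong hF hdet hP0 (T - 1)
  rw [Nat.sub_add_cancel hT] at hV2
  -- representations of the monomials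
  let g : (Fin 3 →₀ ℕ) → MvPolynomial (Free piv) ℤ := fun β => ∏ i, V i ^ (β i)
  have hg : ∀ β, ∀ P ∈ S, (p : ℤ) ^ T ∣ (∏ i, P i ^ (β i)) - eval (inc piv P0 P) (g β) := by
    intro β P hP
    simp only [g, map_prod, map_pow]
    have h1 : ∀ i, (p : ℤ) ^ T ∣ P i ^ (β i) - (eval (inc piv P0 P) (V i)) ^ (β i) := fun i =>
      (hV2 P hP i).trans (sub_dvd_pow_sub_pow _ _ _)
    have h2 : ∀ s : Finset (Fin 3), (p : ℤ) ^ T ∣ (∏ i ∈ s, P i ^ (β i)) -
        ∏ i ∈ s, (eval (inc piv P0 P) (V i)) ^ (β i) := by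
      intro s
      induction s using Finset.induction_on with
      | empty => simp
      | insert a s ha ih =>
        rw [Finset.prod_insert ha, Finset.prod_insert ha]
        have : P a ^ (β a) * ∏ i ∈ s, P i ^ (β i) - (eval (inc piv P0 P) (V a)) ^ (β a) *
            ∏ i ∈ s, (eval (inc piv P0 P) (V i)) ^ (β i) =
          (P a ^ (β a) - (eval (inc piv P0 P) (V a)) ^ (β a)) * ∏ i ∈ s, P i ^ (β i) +
          (eval (inc piv P0 P) (V a)) ^ (β a) * ((∏ i ∈ s, P i ^ (β i)) -
            ∏ i ∈ s, (eval (inc piv P0 P) (V i)) ^ (β i)) := by ring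
        rw [this]
        exact dvd_add ((h1 a).mul_right _) (ih.mul_left _)
    exact h2 Finset.univ
  have : NeZero (p ^ T) := ⟨by omega⟩
  -- the pigeonhole map
  let Φ : (B → Fin (H + 1)) → ((Free piv → Fin T) → ZMod (p ^ T)) := fun u α =>
    ∑ β : B, ((u β : ℕ) : ZMod (p ^ T)) * (((g β).coeff (boxExp α) : ℤ) : ZMod (p ^ T))
  have hpig : Fintype.card ((Free piv → Fin T) → ZMod (p ^ T)) < Fintype.card (B → Fin (H + 1)) := by
    rw [Fintype.card_fun, Fintype.card_fun, Fintype.card_fun, ZMod.card, Fintype.card_fin,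
      Fintype.card_fin, Fintype.card_coe, card_free hpiv]
    exact hcard
  obtain ⟨u, u', huu, hΦ⟩ := Fintype.exists_ne_map_eq_of_card_lt Φ hpig
  let cf : (Fin 3 →₀ ℕ) → ℤ := fun β => if h : β ∈ B then ((u ⟨β, h⟩ : ℕ) : ℤ) - ((u' ⟨β, h⟩ : ℕ) : ℤ) else 0
  let G : MvPolynomial (Fin 3) ℤ := ∑ β ∈ B, monomial β (cf β)
  have hGc : ∀ β, G.coeff β = cf β := by
    intro β
    simp only [G, coeff_sum, coeff_monomial]
    rw [Finset.sum_ite_eq']
    split_ifs with h
    · rfl
    · simp [cf, h]
  have hcfle : ∀ β, |cf β| ≤ (H : ℤ) := by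
    intro β
    simp only [cf]
    split_ifs with h
    · have h1 := (u ⟨β, h⟩).2
      have h2 := (u' ⟨β, h⟩).2
      rw [abs_le]
      constructor <;> omega
    · simp
  have hGeval : ∀ P : Pt, eval P G = ∑ β ∈ B, cf β * ∏ i, P i ^ (β i) := by
    intro P
    simp only [G, map_sum]
    apply Finset.sum_congr rfl
    intro β _
    rw [eval_monomial, Finsupp.prod_fintype _ _ (fun i => by simp)]
  refine ⟨G, ?_, ?_, ?_, ?_⟩
  · -- nonzero
    intro h0
    apply huu
    funext β
    have h1 := hGc β
    rw [h0, coeff_zero] at h1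
    simp only [cf, β.2, dite_true] at h1
    apply Fin.ext
    have h2 : ((u β : ℕ) : ℤ) = ((u' β : ℕ) : ℤ) := by linarith
    exact_mod_cast h2
  · intro β hβ
    rw [mem_support_iff, hGc] at hβ
    by_contra h
    exact hβ (by simp [cf, h])
  · intro β
    rw [hGc]; exact hcfle β
  · intro P hP
    -- divisibility
    have hdiv : (p : ℤ) ^ T ∣ eval P G := by
      have hh : ∀ j, (p : ℤ) ∣ inc piv P0 P j := fun j => hcong P hP P0 hP0 j
      have h1 : ((eval P G : ℤ) : ZMod (p ^ T)) = 0 := by
        rw [hGeval]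
        push_cast
        have h2 : ∀ β ∈ B, ((cf β : ℤ) : ZMod (p ^ T)) * ∏ i, ((P i : ℤ) : ZMod (p ^ T)) ^ (β i) =
            ((cf β : ℤ) : ZMod (p ^ T)) * ∑ α : Free piv → Fin T, (((g β).coeff (boxExp α) : ℤ) : ZMod (p ^ T)) *
              ∏ j, ((inc piv P0 P j : ℤ) : ZMod (p ^ T)) ^ (α j : ℕ) := by
          intro β _
          congr 1
          rw [← eval_box (g β) (inc piv P0 P) hh]
          have h3 := hg β P hP
          have h4 : ((((∏ i, P i ^ (β i)) - eval (inc piv P0 P) (g β) : ℤ)) : ZMod (p ^ T)) = 0 := by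
            rw [ZMod.intCast_zmod_eq_zero_iff_dvd]
            exact_mod_cast h3
          push_cast at h4
          rw [sub_eq_zero] at h4
          rw [← h4]
        rw [Finset.sum_congr rfl h2]
        have h5 : ∑ β ∈ B, ((cf β : ℤ) : ZMod (p ^ T)) * ∑ α : Free piv → Fin T,
            (((g β).coeff (boxExp α) : ℤ) : ZMod (p ^ T)) *
              ∏ j, ((inc piv P0 P j : ℤ) : ZMod (p ^ T)) ^ (α j : ℕ) =
            ∑ α : Free piv → Fin T, (Φ u α - Φ u' α) *
              ∏ j, ((inc piv P0 P j : ℤ) : ZMod (p ^ T)) ^ (α j : ℕ) := by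
          rw [← Finset.sum_coe_sort]
          simp only [Finset.mul_sum]
          rw [Finset.sum_comm]
          apply Finset.sum_congr rfl
          intro α _
          simp only [Φ]
          rw [← Finset.sum_sub_distrib, Finset.sum_mul]
          apply Finset.sum_congr rfl
          intro β _
          have : cf β = ((u β : ℕ) : ℤ) - ((u' β : ℕ) : ℤ) := by simp [cf]
          rw [this]
          push_cast
          ring
        rw [h5]
        apply Finset.sum_eq_zero
        intro α _
        rw [hΦ, sub_self, zero_mul]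
      rw [ZMod.intCast_zmod_eq_zero_iff_dvd] at h1
      exact_mod_cast h1
    -- size
    by_contra hne
    have h1 := Int.le_of_dvd (abs_pos.mpr hne) ((dvd_abs _ _).mpr hdiv)
    have h2 : |eval P G| ≤ ((B.card * H * N ^ D : ℕ) : ℤ) := by
      rw [hGeval]
      refine (Finset.abs_sum_le_sum_abs _ _).trans ?_
      have h3 : ∀ β ∈ B, |cf β * ∏ i, P i ^ (β i)| ≤ ((H * N ^ D : ℕ) : ℤ) := by
        intro β hβ
        rw [abs_mul, Finset.abs_prod, Fin.prod_univ_three, abs_pow, abs_pow, abs_pow]
        have h4 : |P 0| ^ (β 0) * |P 1| ^ (β 1) * |P 2| ^ (β 2) ≤ (N : ℤ) ^ D := by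
          calc |P 0| ^ (β 0) * |P 1| ^ (β 1) * |P 2| ^ (β 2)
              ≤ (N : ℤ) ^ (β 0) * (N : ℤ) ^ (β 1) * (N : ℤ) ^ (β 2) := by
                gcongr <;> exact hSN P hP _
            _ = (N : ℤ) ^ (β 0 + β 1 + β 2) := by rw [pow_add, pow_add]
            _ ≤ (N : ℤ) ^ D := pow_le_pow_right₀ (by exact_mod_cast hN) (hB β hβ)
        push_cast
        exact mul_le_mul (hcfle β) h4 (by positivity) (by positivity)
      calc ∑ β ∈ B, |cf β * ∏ i, P i ^ (β i)| ≤ ∑ _β ∈ B, ((H * N ^ D : ℕ) : ℤ) := Finset.sum_le_sum h3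
        _ = ((B.card * H * N ^ D : ℕ) : ℤ) := by
          rw [Finset.sum_const, nsmul_eq_mul]; push_cast; ring
    have h3 : (p : ℤ) ^ T ≤ ((B.card * H * N ^ D : ℕ) : ℤ) := h1.trans h2
    have h4 : ((B.card * H * N ^ D : ℕ) : ℤ) < ((p ^ T : ℕ) : ℤ) := by exact_mod_cast hbig
    push_cast at h3 h4
    linarith

end Pool.Agent.Work.MP_2738db_nt_T
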