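import Pool.Agent.Work.MP_2738db_nt_T.Interface

set_option autoImplicit false

/-!
Interface for the second theorem `PairCount` (lopsided boxes `x, y ≤ N`, `z ≤ N ^ θ`).
-/

namespace Pool.Agent.Work.MP_2738db_nt_T

open MvPolynomial

/-- exponents in the box `d`, coefficients at most `H` -/
def BddB (d : Fin 3 → ℕ) (H : ℕ) (G : MvPolynomial (Fin 3) ℤ) : Prop :=
  (∀ β ∈ G.support, ∀ i, β i ≤ d i) ∧ ∀ β, |G.coeff β| ≤ (H : ℤ)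

/-- the points counted for one signature, with signs `s, t` -/
structure GoodL (N θ A m n k : ℕ) (s t : ℤ) (P : Pt) : Prop where
  pos : ∀ i, 0 < P i
  le0 : P 0 ≤ (N : ℤ)
  le1 : P 1 ≤ (N : ℤ)
  le2 : P 2 ≤ (N : ℤ) ^ θ
  c01 : IsCoprime (P 0) (P 1)
  c12 : IsCoprime (P 1) (P 2)
  c02 : IsCoprime (P 0) (P 2)
  eq : s * P 0 ^ m + t * P 1 ^ n = P 2 ^ k
  big : (N : ℤ) ^ (A * θ) < P 2 ^ (k - 1)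

/-- Auxiliary polynomials, general sizes. -/
def Stmt_AuxGen : Prop :=
  ∀ (r : ℕ) (piv : Fin r → Fin 3) (F : Fin r → MvPolynomial (Fin 3) ℤ) (p T H R : ℕ)
    (S : Set Pt) (B : Finset (Fin 3 →₀ ℕ)),
    Function.Injective piv → p.Prime → 1 ≤ T →
    (∀ P ∈ S, ∀ Q ∈ S, ∀ i, (p : ℤ) ∣ P i - Q i) →
    (∀ P ∈ S, ∀ ρ, eval P (F ρ) = 0) →
    (∀ P ∈ S, ¬ (p : ℤ) ∣ (Matrix.of fun ρ σ => eval P (pderiv (piv σ) (F ρ))).det) →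
    (∀ P ∈ S, ∀ β ∈ B, |∏ i, P i ^ β i| ≤ (R : ℤ)) →
    (p ^ T) ^ (T ^ (3 - r)) < (H + 1) ^ B.card →
    B.card * H * R < p ^ T →
    ∃ G : MvPolynomial (Fin 3) ℤ, G ≠ 0 ∧ (∀ β ∈ G.support, β ∈ B) ∧
      (∀ β, |G.coeff β| ≤ (H : ℤ)) ∧ ∀ P ∈ S, eval P G = 0

/-- lopsided version of `Stmt_Sig` -/
def Stmt_SigL : Prop :=
  ∀ L : ℕ, 1 ≤ L → ∃ A E C N0 : ℕ, ∀ (N Q M : ℕ) (PP : Finset ℕ), N0 ≤ N →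
    Env L E N Q M PP → M * M ≤ Q → ∀ m n k θ : ℕ, 1 ≤ m → m ≤ M → 1 ≤ n → n ≤ M → 1 ≤ k → k ≤ M →
    1 ≤ θ → θ ≤ M → ∀ s t : ℤ, (s = 1 ∨ s = -1) → (t = 1 ∨ t = -1) →
    ∀ (S : Finset Pt), (∀ P ∈ S, GoodL N θ A m n k s t P) → S.card ≤ C * Q ^ 13

/-! ### bounded polynomials in boxes (block POLYB) -/

def Stmt_BddBPderiv : Prop :=
  ∀ (d : Fin 3 → ℕ) (H : ℕ) (G : MvPolynomial (Fin 3) ℤ) (i : Fin 3), BddB d H G →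
    BddB d (d i * H) (pderiv i G)

def Stmt_BddBEval : Prop :=
  ∀ (d R : Fin 3 → ℕ) (H : ℕ) (G : MvPolynomial (Fin 3) ℤ) (P : Pt), BddB d H G →
    (∀ i, 1 ≤ R i) → (∀ i, |P i| ≤ (R i : ℤ)) →
    |eval P G| ≤ (((d 0 + 1) * (d 1 + 1) * (d 2 + 1) * H * (R 0 ^ d 0 * R 1 ^ d 1 * R 2 ^ d 2) : ℕ) : ℤ)

/-- choice of a derivative, with only polynomially many candidates -/
def Stmt_SelB : Prop :=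
  ∀ (d : Fin 3 → ℕ) (H : ℕ) (G : MvPolynomial (Fin 3) ℤ), G ≠ 0 → BddB d H G →
    ∃ DD : Finset (MvPolynomial (Fin 3) ℤ), DD.card ≤ (d 0 + 1) * (d 1 + 1) * (d 2 + 1) ∧
      (∀ G' ∈ DD, BddB d (d 0 ^ d 0 * d 1 ^ d 1 * d 2 ^ d 2 * H) G') ∧
      (∀ i, pderiv i G = 0 → ∀ G' ∈ DD, pderiv i G' = 0) ∧
      ∀ P : Pt, eval P G = 0 → ∃ G' ∈ DD, eval P G' = 0 ∧ ∃ i, eval P (pderiv i G') ≠ 0

/-- the value triples counted in the final theorem: the special base has exponent at least `K` and is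
at most `exp (N ^ δ)`, the two other bases are at most `N`. -/
def VL (K N : ℕ) (δ : ℝ) : Set (ℕ × ℕ × ℕ) :=
  {t : ℕ × ℕ × ℕ | ∃ a b c m n k : ℕ, 0 < a ∧ 0 < b ∧ 0 < c ∧
      Nat.Coprime a b ∧ Nat.Coprime b c ∧ Nat.Coprime a c ∧ 2 ≤ m ∧ 2 ≤ n ∧ 2 ≤ k ∧
      ((K ≤ m ∧ (a : ℝ) ≤ Real.exp ((N : ℝ) ^ δ) ∧ b ≤ N ∧ c ≤ N) ∨
       (K ≤ n ∧ (b : ℝ) ≤ Real.exp ((N : ℝ) ^ δ) ∧ a ≤ N ∧ c ≤ N) ∨
       (K ≤ k ∧ (c : ℝ) ≤ Real.exp ((N : ℝ) ^ δ) ∧ a ≤ N ∧ b ≤ N)) ∧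
      a ^ m + b ^ n = c ^ k ∧ t = (a ^ m, b ^ n, c ^ k)}

/-- the final theorem -/
def Stmt_BoxL : Prop :=
  ∀ ε : ℝ, 0 < ε → ∃ (K : ℕ) (C δ : ℝ), 0 < δ ∧ ∀ N : ℕ, 1 ≤ N →
    (VL K N δ).Finite ∧ ((VL K N δ).ncard : ℝ) ≤ C * (N : ℝ) ^ ε

end Pool.Agent.Work.MP_2738db_nt_T
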