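import Pool.Agent.Work.MP_2738db_nt_T.Hen
import Pool.Agent.Work.MP_2738db_nt_T.LInterface

set_option autoImplicit false

/-!
The general form of the auxiliary polynomial lemma (sizes measured by an arbitrary bound `R`).
-/

namespace Pool.Agent.Work.MP_2738db_nt_T

open MvPolynomial

theorem stmt_auxGen : Stmt_AuxGen := by
  classical
  intro r piv F p T H R S B hpiv hp hT hcong hF hdet hR hcard hbig
  have hp1 : 1 ≤ p ^ T := Nat.one_le_pow _ _ hp.pos
  have hH : 1 ≤ H := by
    rcases Nat.eq_zero_or_pos H with h | h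
    · rw [h, zero_add, one_pow] at hcard
      have : 1 ≤ (p ^ T) ^ T ^ (3 - r) := Nat.one_le_pow _ _ hp1
      omega
    · exact h
  have hBne : B.Nonempty := by
    rw [Finset.nonempty_iff_ne_empty]
    intro h
    rw [h, Finset.card_empty, pow_zero] at hcard
    have : 1 ≤ (p ^ T) ^ T ^ (3 - r) := Nat.one_le_pow _ _ hp1
    omega
  by_cases hS : S.Nonempty
  swap
  · obtain ⟨β, hβ⟩ := hBne
    refine ⟨monomial β 1, by simp, ?_, ?_, ?_⟩
    · intro γ hγ
      rw [support_monomial, if_neg one_ne_zero, Finset.mem_singleton] at hγ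
      rwa [hγ]
    · intro γ
      rw [coeff_monomial]
      split_ifs
      · simpa using hH
      · simp
    · intro P hP
      exact absurd ⟨P, hP⟩ hS
  obtain ⟨P0, hP0⟩ := hS
  obtain ⟨V, hV1, hV2⟩ := rep_coord p hp hpiv F hcong hF hdet hP0 (T - 1)
  rw [Nat.sub_add_cancel hT] at hV2
  -- representations of the monomials
  let g : (Fin 3 →₀ ℕ) → MvPolynomial (Free piv) ℤ := fun β => ∏ i, V i ^ (β i)
  have hg : ∀ β, ∀ P ∈ S, (p : ℤ) ^ T ∣ (∏ i, P i ^ (β i)) - eval (inc piv P0 P) (g β) := by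
    intro β P hP
    simp only [g, map_prod, map_pow]
    have h1 : ∀ i, (p : ℤ) ^ T ∣ P i ^ (β i) - (eval (inc piv P0 P) (V i)) ^ (β i) := fun i =>
      (hV2 P hP i).trans (sub_dvd_pow_sub_pow _ _ _)
    have h2 : ∀ s : Finset (Fin 3), (p : ℤ) ^ T ∣ (∏ i ∈ s, P i ^ (β i)) -
        ∏ i ∈ s, (eval (inc piv P0 P) (V i)) ^ (β i) := by
      intro s
      induction s using Finset.induction_on with
      | empty => simp
      | insert a s ha ih =>
        rw [Finset.prod_insert ha, Finset.prod_insert ha]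
        have : P a ^ (β a) * ∏ i ∈ s, P i ^ (β i) - (eval (inc piv P0 P) (V a)) ^ (β a) *
            ∏ i ∈ s, (eval (inc piv P0 P) (V i)) ^ (β i) =
          (P a ^ (β a) - (eval (inc piv P0 P) (V a)) ^ (β a)) * ∏ i ∈ s, P i ^ (β i) +
          (eval (inc piv P0 P) (V a)) ^ (β a) * ((∏ i ∈ s, P i ^ (β i)) -
            ∏ i ∈ s, (eval (inc piv P0 P) (V i)) ^ (β i)) := by ring
        rw [this]
        exact dvd_add ((h1 a).mul_right _) (ih.mul_left _)
    exact h2 Finset.univ
  have : NeZero (p ^ T) := ⟨by omega⟩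
  -- the pigeonhole map
  let Φ : (B → Fin (H + 1)) → ((Free piv → Fin T) → ZMod (p ^ T)) := fun u α =>
    ∑ β : B, ((u β : ℕ) : ZMod (p ^ T)) * (((g β).coeff (boxExp α) : ℤ) : ZMod (p ^ T))
  have hpig : Fintype.card ((Free piv → Fin T) → ZMod (p ^ T)) < Fintype.card (B → Fin (H + 1)) := by
    rw [Fintype.card_fun, Fintype.card_fun, Fintype.card_fun, ZMod.card, Fintype.card_fin,
      Fintype.card_fin, Fintype.card_coe, card_free hpiv]
    exact hcard
  obtain ⟨u, u', huu, hΦ⟩ := Fintype.exists_ne_map_eq_of_card_lt Φ hpig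
  let cf : (Fin 3 →₀ ℕ) → ℤ := fun β => if h : β ∈ B then ((u ⟨β, h⟩ : ℕ) : ℤ) - ((u' ⟨β, h⟩ : ℕ) : ℤ) else 0
  let G : MvPolynomial (Fin 3) ℤ := ∑ β ∈ B, monomial β (cf β)
  have hGc : ∀ β, G.coeff β = cf β := by
    intro β
    simp only [G, coeff_sum, coeff_monomial]
    rw [Finset.sum_ite_eq']
    split_ifs with h
    · rfl
    · simp [cf, h]
  have hcfle : ∀ β, |cf β| ≤ (H : ℤ) := by
    intro β
    simp only [cf]
    split_ifs with h
    · have h1 := (u ⟨β, h⟩).2
      have h2 := (u' ⟨β, h⟩).2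
      rw [abs_le]
      constructor <;> omega
    · simp
  have hGeval : ∀ P : Pt, eval P G = ∑ β ∈ B, cf β * ∏ i, P i ^ (β i) := by
    intro P
    simp only [G, map_sum]
    apply Finset.sum_congr rfl
    intro β _
    rw [eval_monomial, Finsupp.prod_fintype _ _ (fun i => by simp)]
  refine ⟨G, ?_, ?_, ?_, ?_⟩
  · -- nonzero
    intro h0
    apply huu
    funext β
    have h1 := hGc β
    rw [h0, coeff_zero] at h1
    simp only [cf, β.2, dite_true] at h1
    apply Fin.ext
    have h2 : ((u β : ℕ) : ℤ) = ((u' β : ℕ) : ℤ) := by linarith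
    exact_mod_cast h2
  · intro β hβ
    rw [mem_support_iff, hGc] at hβ
    by_contra h
    exact hβ (by simp [cf, h])
  · intro β
    rw [hGc]; exact hcfle β
  · intro P hP
    -- divisibility
    have hdiv : (p : ℤ) ^ T ∣ eval P G := by
      have hh : ∀ j, (p : ℤ) ∣ inc piv P0 P j := fun j => hcong P hP P0 hP0 j
      have h1 : ((eval P G : ℤ) : ZMod (p ^ T)) = 0 := by
        rw [hGeval]
        push_cast
        have h2 : ∀ β ∈ B, ((cf β : ℤ) : ZMod (p ^ T)) * ∏ i, ((P i : ℤ) : ZMod (p ^ T)) ^ (β i) =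
            ((cf β : ℤ) : ZMod (p ^ T)) * ∑ α : Free piv → Fin T, (((g β).coeff (boxExp α) : ℤ) : ZMod (p ^ T)) *
              ∏ j, ((inc piv P0 P j : ℤ) : ZMod (p ^ T)) ^ (α j : ℕ) := by
          intro β _
          congr 1
          rw [← eval_box (g β) (inc piv P0 P) hh]
          have h3 := hg β P hP
          have h4 : ((((∏ i, P i ^ (β i)) - eval (inc piv P0 P) (g β) : ℤ)) : ZMod (p ^ T)) = 0 := by
            rw [ZMod.intCast_zmod_eq_zero_iff_dvd]
            exact_mod_cast h3
          push_cast at h4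
          rw [sub_eq_zero] at h4
          rw [← h4]
        rw [Finset.sum_congr rfl h2]
        have h5 : ∑ β ∈ B, ((cf β : ℤ) : ZMod (p ^ T)) * ∑ α : Free piv → Fin T,
            (((g β).coeff (boxExp α) : ℤ) : ZMod (p ^ T)) *
              ∏ j, ((inc piv P0 P j : ℤ) : ZMod (p ^ T)) ^ (α j : ℕ) =
            ∑ α : Free piv → Fin T, (Φ u α - Φ u' α) *
              ∏ j, ((inc piv P0 P j : ℤ) : ZMod (p ^ T)) ^ (α j : ℕ) := by
          rw [← Finset.sum_coe_sort]
          simp only [Finset.mul_sum]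
          rw [Finset.sum_comm]
          apply Finset.sum_congr rfl
          intro α _
          simp only [Φ]
          rw [← Finset.sum_sub_distrib, Finset.sum_mul]
          apply Finset.sum_congr rfl
          intro β _
          have : cf β = ((u β : ℕ) : ℤ) - ((u' β : ℕ) : ℤ) := by simp [cf]
          rw [this]
          push_cast
          ring
        rw [h5]
        apply Finset.sum_eq_zero
        intro α _
        rw [hΦ, sub_self, zero_mul]
      rw [ZMod.intCast_zmod_eq_zero_iff_dvd] at h1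
      exact_mod_cast h1
    -- size
    by_contra hne
    have h1 := Int.le_of_dvd (abs_pos.mpr hne) ((dvd_abs _ _).mpr hdiv)
    have h2 : |eval P G| ≤ ((B.card * H * R : ℕ) : ℤ) := by
      rw [hGeval]
      refine (Finset.abs_sum_le_sum_abs _ _).trans ?_
      have h3 : ∀ β ∈ B, |cf β * ∏ i, P i ^ (β i)| ≤ ((H * R : ℕ) : ℤ) := by
        intro β hβ
        rw [abs_mul]
        push_cast
        exact mul_le_mul (hcfle β) (hR P hP β hβ) (abs_nonneg _) (by positivity)
      calc ∑ β ∈ B, |cf β * ∏ i, P i ^ (β i)| ≤ ∑ _β ∈ B, ((H * R : ℕ) : ℤ) := Finset.sum_le_sum h3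
        _ = ((B.card * H * R : ℕ) : ℤ) := by
          rw [Finset.sum_const, nsmul_eq_mul]; push_cast; ring
    have h3 : (p : ℤ) ^ T ≤ ((B.card * H * R : ℕ) : ℤ) := h1.trans h2
    have h4 : ((B.card * H * R : ℕ) : ℤ) < ((p ^ T : ℕ) : ℤ) := by exact_mod_cast hbig
    push_cast at h3 h4
    linarith

end Pool.Agent.Work.MP_2738db_nt_T
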