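import Pool.Agent.Work.MP_2738db_nt_T.Poly
import Pool.Agent.Work.MP_2738db_nt_T.LInterface

set_option autoImplicit false

namespace Pool.Agent.Work.MP_2738db_nt_T

open MvPolynomial

theorem stmt_bddBPderiv : Stmt_BddBPderiv := by
  intro d H G i h
  constructor
  · intro β hβ j
    have h1 := h.1 _ (mem_support_of_pderiv hβ) j
    exact (Nat.le_add_right _ _).trans h1
  · intro β
    by_cases h0 : coeff β (pderiv i G) = 0
    · rw [h0, abs_zero]; positivity
    · have h1 : β ∈ (pderiv i G).support := by rwa [mem_support_iff]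
      have h2 := h.1 _ (mem_support_of_pderiv h1) i
      rw [coeff_pderiv, abs_mul]
      have h3 := h.2 (β + Finsupp.single i 1)
      have h4 : β i + 1 ≤ d i := by
        simpa using h2
      have h5 : |((β i : ℤ) + 1)| ≤ (d i : ℤ) := by
        rw [abs_of_nonneg (by positivity)]; exact_mod_cast h4
      have h6 : |coeff (β + Finsupp.single i 1) G| * |((β i : ℤ) + 1)| ≤ (H : ℤ) * (d i : ℤ) :=
        mul_le_mul h3 h5 (abs_nonneg _) (by positivity)
      push_cast
      calc _ ≤ (H : ℤ) * (d i : ℤ) := by exact_mod_cast h6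
        _ = (d i : ℤ) * H := by ring

lemma card_support_le_box {d : Fin 3 → ℕ} {H : ℕ} {G : MvPolynomial (Fin 3) ℤ} (h : BddB d H G) :
    G.support.card ≤ (d 0 + 1) * (d 1 + 1) * (d 2 + 1) := by
  classical
  let f : (Fin 3 →₀ ℕ) → ℕ × ℕ × ℕ := fun β => (β 0, β 1, β 2)
  have hf : Function.Injective f := by
    intro β γ hβγ
    simp only [f, Prod.mk.injEq] at hβγ
    ext i
    fin_cases i
    · exact hβγ.1
    · exact hβγ.2.1
    · exact hβγ.2.2
  have h1 : (G.support.image f) ⊆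
      Finset.range (d 0 + 1) ×ˢ (Finset.range (d 1 + 1) ×ˢ Finset.range (d 2 + 1)) := by
    intro t ht
    rw [Finset.mem_image] at ht
    obtain ⟨β, hβ, rfl⟩ := ht
    have h2 := h.1 _ hβ
    have := h2 0
    have := h2 1
    have := h2 2
    simp only [f, Finset.mem_product, Finset.mem_range]
    omega
  have h2 := Finset.card_le_card h1
  rw [Finset.card_image_of_injective _ hf] at h2
  simp only [Finset.card_product, Finset.card_range] at h2
  calc _ ≤ _ := h2
    _ = _ := by ring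

theorem stmt_bddBEval : Stmt_BddBEval := by
  intro d R H G P h hR hP
  rw [eval_eq']
  refine (Finset.abs_sum_le_sum_abs _ _).trans ?_
  have hmon : ∀ β ∈ G.support, |∏ i, P i ^ β i| ≤ ((R 0 ^ d 0 * R 1 ^ d 1 * R 2 ^ d 2 : ℕ) : ℤ) := by
    intro β hβ
    have hb := h.1 β hβ
    have key : ∀ i, |P i| ^ β i ≤ ((R i : ℤ)) ^ d i := by
      intro i
      exact (pow_le_pow_left₀ (abs_nonneg _) (hP i) _).trans
        (pow_le_pow_right₀ (by exact_mod_cast hR i) (hb i))
    rw [Fin.prod_univ_three, abs_mul, abs_mul, abs_pow, abs_pow, abs_pow]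
    push_cast
    exact mul_le_mul (mul_le_mul (key 0) (key 1) (by positivity) (by positivity)) (key 2)
      (by positivity) (by positivity)
  calc ∑ β ∈ G.support, |coeff β G * ∏ i, P i ^ β i|
      ≤ ∑ _β ∈ G.support, (H : ℤ) * ((R 0 ^ d 0 * R 1 ^ d 1 * R 2 ^ d 2 : ℕ) : ℤ) := by
        apply Finset.sum_le_sum
        intro β hβ
        rw [abs_mul]
        exact mul_le_mul (h.2 β) (hmon β hβ) (abs_nonneg _) (by positivity)
    _ = (G.support.card : ℤ) * ((H : ℤ) * ((R 0 ^ d 0 * R 1 ^ d 1 * R 2 ^ d 2 : ℕ) : ℤ)) := by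
        rw [Finset.sum_const, nsmul_eq_mul]
    _ ≤ (((d 0 + 1) * (d 1 + 1) * (d 2 + 1) : ℕ) : ℤ) *
          ((H : ℤ) * ((R 0 ^ d 0 * R 1 ^ d 1 * R 2 ^ d 2 : ℕ) : ℤ)) := by
        apply mul_le_mul_of_nonneg_right _ (by positivity)
        exact_mod_cast card_support_le_box h
    _ = _ := by push_cast; ring

/-- the iterated derivative `d_z^l d_y^j d_x^i G` -/
noncomputable def dB (i j l : ℕ) (G : MvPolynomial (Fin 3) ℤ) : MvPolynomial (Fin 3) ℤ :=
  (pderiv 2)^[l] ((pderiv 1)^[j] ((pderiv 0)^[i] G))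

lemma iter_comm (i j : Fin 3) (a : ℕ) (G : MvPolynomial (Fin 3) ℤ) :
    pderiv i ((pderiv j)^[a] G) = (pderiv j)^[a] (pderiv i G) := by
  induction a generalizing G with
  | zero => rfl
  | succ a ih =>
    rw [Function.iterate_succ_apply, Function.iterate_succ_apply, ih, pderiv_comm']

lemma iter_zero (j : Fin 3) (a : ℕ) : (pderiv j)^[a] (0 : MvPolynomial (Fin 3) ℤ) = 0 := by
  induction a with
  | zero => rfl
  | succ a ih => rw [Function.iterate_succ_apply, map_zero, ih]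

lemma pderiv_two_dB (i j l : ℕ) (G : MvPolynomial (Fin 3) ℤ) :
    pderiv 2 (dB i j l G) = dB i j (l + 1) G := by
  unfold dB
  rw [← Function.iterate_succ_apply' (pderiv (2 : Fin 3))]

lemma pderiv_one_dB (i j l : ℕ) (G : MvPolynomial (Fin 3) ℤ) :
    pderiv 1 (dB i j l G) = dB i (j + 1) l G := by
  unfold dB
  rw [iter_comm, ← Function.iterate_succ_apply' (pderiv (1 : Fin 3))]

lemma pderiv_zero_dB (i j l : ℕ) (G : MvPolynomial (Fin 3) ℤ) :
    pderiv 0 (dB i j l G) = dB (i + 1) j l G := by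
  unfold dB
  rw [iter_comm, iter_comm, ← Function.iterate_succ_apply' (pderiv (0 : Fin 3))]

lemma pderiv_dB (q : Fin 3) (i j l : ℕ) (G : MvPolynomial (Fin 3) ℤ) :
    pderiv q (dB i j l G) = dB i j l (pderiv q G) := by
  unfold dB
  rw [iter_comm, iter_comm, iter_comm]

lemma dB_zero (i j l : ℕ) : dB i j l 0 = 0 := by
  unfold dB
  rw [iter_zero, iter_zero, iter_zero]

lemma iter_bddB {d : Fin 3 → ℕ} (i : Fin 3) (a : ℕ) {H : ℕ} {G : MvPolynomial (Fin 3) ℤ}
    (h : BddB d H G) : BddB d (d i ^ a * H) ((pderiv i)^[a] G) := by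
  induction a generalizing G H with
  | zero => simpa using h
  | succ a ih =>
    rw [Function.iterate_succ_apply]
    have h1 := ih (stmt_bddBPderiv d H G i h)
    have h2 : d i ^ (a + 1) * H = d i ^ a * (d i * H) := by ring
    rw [h2]
    exact h1

lemma BddB.mono {d : Fin 3 → ℕ} {H H' : ℕ} {G : MvPolynomial (Fin 3) ℤ} (h : BddB d H G)
    (hH : H ≤ H') : BddB d H' G :=
  ⟨h.1, fun β => (h.2 β).trans (by exact_mod_cast hH)⟩

lemma pow_self_bound {a d : ℕ} (h : a ≤ d) : d ^ a ≤ d ^ d := by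
  rcases Nat.eq_zero_or_pos d with hd | hd
  · subst hd
    have : a = 0 := by omega
    subst this
    exact le_rfl
  · exact Nat.pow_le_pow_right hd h

lemma dB_bddB {d : Fin 3 → ℕ} {H i j l : ℕ} {G : MvPolynomial (Fin 3) ℤ} (h : BddB d H G)
    (hi : i ≤ d 0) (hj : j ≤ d 1) (hl : l ≤ d 2) :
    BddB d (d 0 ^ d 0 * d 1 ^ d 1 * d 2 ^ d 2 * H) (dB i j l G) := by
  have h1 := iter_bddB 2 l (iter_bddB 1 j (iter_bddB 0 i h))
  refine BddB.mono h1 ?_
  have e0 := pow_self_bound hi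
  have e1 := pow_self_bound hj
  have e2 := pow_self_bound hl
  calc d 2 ^ l * (d 1 ^ j * (d 0 ^ i * H)) ≤ d 2 ^ d 2 * (d 1 ^ d 1 * (d 0 ^ d 0 * H)) := by
        gcongr
    _ = _ := by ring

lemma iter_support (i : Fin 3) (a : ℕ) {G : MvPolynomial (Fin 3) ℤ} {β : Fin 3 →₀ ℕ}
    (hβ : β ∈ ((pderiv i)^[a] G).support) : β + Finsupp.single i a ∈ G.support := by
  induction a generalizing G with
  | zero => simpa using hβ
  | succ a ih =>
    rw [Function.iterate_succ_apply] at hβ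
    have h1 := mem_support_of_pderiv (ih hβ)
    rw [add_assoc, ← Finsupp.single_add] at h1
    exact h1

lemma iter_top {d : Fin 3 → ℕ} {H : ℕ} (i : Fin 3) {G : MvPolynomial (Fin 3) ℤ}
    (h : BddB d H G) : (pderiv i)^[d i + 1] G = 0 := by
  rw [← support_eq_empty]
  rw [Finset.eq_empty_iff_forall_notMem]
  intro β hβ
  have h1 := h.1 _ (iter_support i _ hβ) i
  simp at h1
  omega

/-- the last nonzero derivative in direction `i` -/
lemma exists_last {d : Fin 3 → ℕ} {H : ℕ} (i : Fin 3) {G : MvPolynomial (Fin 3) ℤ}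
    (h : BddB d H G) (hG : G ≠ 0) : ∃ a, a ≤ d i ∧ (pderiv i)^[a] G ≠ 0 ∧
      pderiv i ((pderiv i)^[a] G) = 0 := by
  classical
  have hex : ∃ a, (pderiv i)^[a] G = 0 := ⟨_, iter_top i h⟩
  set b := Nat.find hex with hb
  have hb0 : (pderiv i)^[b] G = 0 := Nat.find_spec hex
  have hbd : b ≤ d i + 1 := Nat.find_min' hex (iter_top i h)
  have hbne : b ≠ 0 := by
    intro h0
    rw [h0] at hb0
    exact hG hb0
  obtain ⟨a, ha⟩ := Nat.exists_eq_succ_of_ne_zero hbne
  refine ⟨a, by omega, ?_, ?_⟩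
  · exact Nat.find_min hex (m := a) (by omega)
  · rw [← Function.iterate_succ_apply' (pderiv i)]
    rw [ha] at hb0
    exact hb0

lemma eq_C_of_pderiv {G : MvPolynomial (Fin 3) ℤ} (h : ∀ i, pderiv i G = 0) : G = C (coeff 0 G) := by
  ext β
  rw [coeff_C]
  split_ifs with h0
  · rw [h0]
  · obtain ⟨i, hi⟩ : ∃ i, β i ≠ 0 := by
      by_contra hc
      push Not at hc
      exact h0 (Finsupp.ext fun i => (hc i).symm)
    have h2 : β = (β - Finsupp.single i 1) + Finsupp.single i 1 := by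
      ext l
      simp only [Finsupp.add_apply, Finsupp.tsub_apply, Finsupp.single_apply]
      by_cases hl : i = l
      · subst hl; simp; omega
      · simp [hl]
    have h3 := congrArg (coeff (β - Finsupp.single i 1)) (h i)
    rw [coeff_pderiv, ← h2, coeff_zero] at h3
    rcases mul_eq_zero.mp h3 with h4 | h4
    · exact h4
    · exfalso
      have : (0 : ℤ) < (((β - Finsupp.single i 1 : Fin 3 →₀ ℕ) i : ℕ) : ℤ) + 1 := by positivity
      omega

lemma exists_dB_ne {d : Fin 3 → ℕ} {H : ℕ} {G : MvPolynomial (Fin 3) ℤ}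
    (h : BddB d H G) (hG : G ≠ 0) (P : Pt) : ∃ i j l, i ≤ d 0 ∧ j ≤ d 1 ∧ l ≤ d 2 ∧
      eval P (dB i j l G) ≠ 0 := by
  obtain ⟨i, hi, hi1, hi2⟩ := exists_last 0 h hG
  have h1 := iter_bddB 0 i h
  obtain ⟨j, hj, hj1, hj2⟩ := exists_last 1 h1 hi1
  have h2 := iter_bddB 1 j h1
  obtain ⟨l, hl, hl1, hl2⟩ := exists_last 2 h2 hj1
  refine ⟨i, j, l, hi, hj, hl, ?_⟩
  have h3 : ∀ q, pderiv q (dB i j l G) = 0 := by
    intro q
    fin_cases q
    · show pderiv 0 ((pderiv 2)^[l] ((pderiv 1)^[j] ((pderiv 0)^[i] G))) = 0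
      rw [iter_comm, iter_comm, hi2, iter_zero, iter_zero]
    · show pderiv 1 ((pderiv 2)^[l] ((pderiv 1)^[j] ((pderiv 0)^[i] G))) = 0
      rw [iter_comm, hj2, iter_zero]
    · exact hl2
  have h4 := eq_C_of_pderiv h3
  rw [h4, eval_C]
  intro h5
  apply hl1
  have h6 : dB i j l G = 0 := by rw [h4, h5, C_0]
  exact h6

theorem stmt_selB : Stmt_SelB := by
  classical
  intro d H G hG hB
  refine ⟨((Finset.range (d 0 + 1) ×ˢ Finset.range (d 1 + 1)) ×ˢ Finset.range (d 2 + 1)).image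
    (fun q => dB q.1.1 q.1.2 q.2 G), ?_, ?_, ?_, ?_⟩
  · refine Finset.card_image_le.trans ?_
    simp only [Finset.card_product, Finset.card_range]
    exact le_rfl
  · intro G' hG'
    obtain ⟨⟨⟨i, j⟩, l⟩, hq, rfl⟩ := Finset.mem_image.mp hG'
    simp only [Finset.mem_product, Finset.mem_range] at hq
    have hi : i ≤ d 0 := by omega
    have hj : j ≤ d 1 := by omega
    have hl : l ≤ d 2 := by omega
    exact dB_bddB hB hi hj hl
  · intro i hi G' hG'
    obtain ⟨⟨⟨a, b⟩, c⟩, hq, rfl⟩ := Finset.mem_image.mp hG'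
    rw [pderiv_dB, hi, dB_zero]
  · intro P hP
    obtain ⟨i, j, l, hi, hj, hl, hne⟩ := exists_dB_ne hB hG P
    have hex : ∃ s, ∃ i j l, i ≤ d 0 ∧ j ≤ d 1 ∧ l ≤ d 2 ∧ i + j + l = s ∧
        eval P (dB i j l G) ≠ 0 := ⟨_, i, j, l, hi, hj, hl, rfl, hne⟩
    have hspec := Nat.find_spec hex
    have hmin := fun q => Nat.find_min hex (m := q)
    set s := Nat.find hex with hs
    obtain ⟨i, j, l, hi, hj, hl, hsum, hne⟩ := hspec
    have hmem : ∀ i j l, i ≤ d 0 → j ≤ d 1 → l ≤ d 2 →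
        dB i j l G ∈ ((Finset.range (d 0 + 1) ×ˢ Finset.range (d 1 + 1)) ×ˢ
          Finset.range (d 2 + 1)).image (fun q => dB q.1.1 q.1.2 q.2 G) := by
      intro i j l hi hj hl
      refine Finset.mem_image.mpr ⟨⟨⟨i, j⟩, l⟩, ?_, rfl⟩
      simp only [Finset.mem_product, Finset.mem_range]
      omega
    rcases Nat.eq_zero_or_pos l with hl0 | hl0
    · rcases Nat.eq_zero_or_pos j with hj0 | hj0
      · rcases Nat.eq_zero_or_pos i with hi0 | hi0
        · exfalso
          subst hl0; subst hj0; subst hi0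
          exact hne hP
        · obtain ⟨i', rfl⟩ := Nat.exists_eq_succ_of_ne_zero hi0.ne'
          refine ⟨dB i' j l G, hmem _ _ _ (by omega) hj hl, ?_, 0, ?_⟩
          · by_contra hcon
            exact hmin (i' + j + l) (by omega) ⟨i', j, l, by omega, hj, hl, rfl, hcon⟩
          · rw [pderiv_zero_dB]
            exact hne
      · obtain ⟨j', rfl⟩ := Nat.exists_eq_succ_of_ne_zero hj0.ne'
        refine ⟨dB i j' l G, hmem _ _ _ hi (by omega) hl, ?_, 1, ?_⟩
        · by_contra hcon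
          exact hmin (i + j' + l) (by omega) ⟨i, j', l, hi, by omega, hl, rfl, hcon⟩
        · rw [pderiv_one_dB]
          exact hne
    · obtain ⟨l', rfl⟩ := Nat.exists_eq_succ_of_ne_zero hl0.ne'
      refine ⟨dB i j l' G, hmem _ _ _ hi hj (by omega), ?_, 2, ?_⟩
      · by_contra hcon
        exact hmin (i + j + l') (by omega) ⟨i, j, l', hi, hj, by omega, rfl, hcon⟩
      · rw [pderiv_two_dB]
        exact hne

end Pool.Agent.Work.MP_2738db_nt_T
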