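import Pool.Agent.Work.MP_2738db_nt_T.LevL01

set_option autoImplicit false

namespace Pool.Agent.Work.MP_2738db_nt_T

open MvPolynomial

/-- the Jacobian matrix of `FL, η, b` -/
noncomputable def jacL (m n k : ℕ) (s t : ℤ) (η b : MvPolynomial (Fin 3) ℤ) :
    Fin 3 → MvPolynomial (Fin 3) ℤ :=
  ![FL m n k s t, η, b]

lemma det_jacL (m n k : ℕ) (s t : ℤ) (η b : MvPolynomial (Fin 3) ℤ) (hη : pderiv 2 η = 0) (P : Pt) :
    (Matrix.of fun ρ i => eval P (pderiv i (jacL m n k s t η b ρ))).det =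
      s * ((m : ℤ) * P 0 ^ (m - 1)) * (eval P (pderiv 1 η) * eval P (pderiv 2 b))
      - t * ((n : ℤ) * P 1 ^ (n - 1)) * (eval P (pderiv 0 η) * eval P (pderiv 2 b))
      - (k : ℤ) * P 2 ^ (k - 1) * (eval P (pderiv 0 η) * eval P (pderiv 1 b)
        - eval P (pderiv 1 η) * eval P (pderiv 0 b)) := by
  rw [Matrix.det_fin_three]
  simp only [Matrix.of_apply, jacL, Matrix.cons_val_zero, Matrix.cons_val_one, Matrix.cons_val_two,
    Matrix.tail_cons, Matrix.head_cons, eval_FL_0, eval_FL_1, eval_FL_2, hη, map_zero]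
  simp
  ring

/-- the relation between points and labels at level 2 -/
def R2L (m n k : ℕ) (s t : ℤ) (P : Pt)
    (l : MvPolynomial (Fin 3) ℤ × MvPolynomial (Fin 3) ℤ × ℕ × (ℕ × ℕ × ℕ)) : Prop :=
  eval P l.1 = 0 ∧ eval P l.2.1 = 0 ∧
  ¬ (l.2.2.1 : ℤ) ∣ (Matrix.of fun ρ i => eval P (pderiv i (jacL m n k s t l.1 l.2.1 ρ))).det ∧
  res l.2.2.1 P = l.2.2.2

lemma lev2L_fibre (hU : Stmt_Uniq) {N θ A m n k : ℕ} {s t : ℤ} (S : Finset Pt)
    (hS : ∀ P ∈ S, GoodL N θ A m n k s t P)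
    (l : MvPolynomial (Fin 3) ℤ × MvPolynomial (Fin 3) ℤ × ℕ × (ℕ × ℕ × ℕ)) (hp : l.2.2.1.Prime)
    (h : ∀ P ∈ S, R2L m n k s t P l) : S.card ≤ 1 := by
  rw [Finset.card_le_one]
  intro P hP P' hP'
  obtain ⟨h1, h2, h3, h4⟩ := h P hP
  obtain ⟨h1', h2', h3', h4'⟩ := h P' hP'
  apply hU (jacL m n k s t l.1 l.2.1) l.2.2.1 P P' hp (res_eq hp.pos (h4.trans h4'.symm))
  · intro ρ
    fin_cases ρ
    · exact (hS P hP).eval_FL
    · exact h1
    · exact h2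
  · intro ρ
    fin_cases ρ
    · exact (hS P' hP').eval_FL
    · exact h1'
    · exact h2'
  · exact h3

/-- points with prescribed first two coordinates -/
lemma lev2L_ex {N θ A m n k : ℕ} {s t : ℤ} (hk : 1 ≤ k) (S : Finset Pt)
    (hS : ∀ P ∈ S, GoodL N θ A m n k s t P)
    (Ex : Finset (ℤ × ℤ)) (h : ∀ P ∈ S, (P 0, P 1) ∈ Ex) : S.card ≤ Ex.card := by
  apply Finset.card_le_card_of_injOn (fun P : Pt => (P 0, P 1)) (fun P hP => h P hP)
  intro P hP P' hP' heq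
  simp only [Prod.mk.injEq] at heq
  have h1 := (hS P hP).eq
  have h2 := (hS P' hP').eq
  rw [heq.1, heq.2, h2] at h1
  have h3 : P' 2 = P 2 :=
    (pow_left_inj₀ ((hS P' hP').pos 2).le ((hS P hP).pos 2).le (by omega)).mp h1
  funext i
  fin_cases i
  · exact heq.1
  · exact heq.2
  · exact h3.symm

def Stmt_Lev2L : Prop :=
  ∀ L D1 h : ℕ, 1 ≤ L → ∃ A E C N0 : ℕ, ∀ (N Q M : ℕ) (PP : Finset ℕ), N0 ≤ N →
    Env L E N Q M PP → M * M ≤ Q →
    ∀ m n k θ : ℕ, 1 ≤ m → m ≤ M → 1 ≤ n → n ≤ M → 1 ≤ k → k ≤ M → 1 ≤ θ → θ ≤ M →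
    ∀ s t : ℤ, (s = 1 ∨ s = -1) → (t = 1 ∨ t = -1) →
    ∀ φ ψ χ : MvPolynomial (Fin 3) ℤ, φ ≠ 0 → ψ ≠ 0 → χ ≠ 0 →
      BddB ![D1, D1, 0] (N ^ h) φ → BddB ![θ * D1, 0, D1] (N ^ (θ * h)) ψ →
      BddB ![0, θ * D1, D1] (N ^ (θ * h)) χ →
    ∀ (S : Finset Pt), (∀ P ∈ S, GoodL N θ A m n k s t P) →
      (∀ P ∈ S, eval P φ = 0 ∧ eval P ψ = 0 ∧ eval P χ = 0) → S.card ≤ C * Q ^ 5

theorem lev2L (hU : Stmt_Uniq) (hW : Stmt_Wt) (hSel : Stmt_SelB) (hPd : Stmt_BddBPderiv)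
    (hE : Stmt_BddBEval) : Stmt_Lev2L := by
  intro L D1 h hL
  set e : ℕ := (2 * D1 + 1) ^ 2 with he
  set hη : ℕ := 2 + (1 + (e + h)) + 4 * D1 with hhη
  set hb : ℕ := 3 * D1 + h + 4 with hhb
  obtain ⟨w1, hw1⟩ : ∃ w, w = 4 * ((D1 + 1) ^ 2 + 1) ^ 2 * 2 ^ L := ⟨_, rfl⟩
  obtain ⟨w2, hw2⟩ : ∃ w, w = 4 * (4 * D1 + 1) ^ 2 * 2 ^ L := ⟨_, rfl⟩
  obtain ⟨w3, hw3⟩ : ∃ w, w = D1 ^ D1 + 4 * (D1 + 1) ^ 2 * 2 ^ L := ⟨_, rfl⟩
  obtain ⟨w4, hw4⟩ : ∃ w, w = 4 * (1 + 1) ^ 2 * 2 ^ L := ⟨_, rfl⟩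
  refine ⟨3 + hη + hb, 4 + hη + hb, 2 * D1 + ((e + 1) * (2 * (D1 + 1) ^ 2) * 81),
    4 + w1 + w2 + w3 + w4 + (2 * D1 + 1), ?_⟩
  intro N Q M PP hN hEnv hMM m n k θ hm hmM hn hnM hk hkM hθ hθM s t hs ht φ ψ χ hφ hψ hχ bφ bψ bχ S hS hvan
  classical
  have hN1 : 1 ≤ N := by omega
  have hN2 : 2 ≤ N := by omega
  have hN4 : 4 ≤ N := by omega
  have hD1N : 2 * D1 + 1 ≤ N := by omega
  have hNw1 : 4 * ((D1 + 1) ^ 2 + 1) ^ 2 * 2 ^ L ≤ N := by rw [← hw1]; omega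
  have hNw2 : 4 * (4 * D1 + 1) ^ 2 * 2 ^ L ≤ N := by rw [← hw2]; omega
  have hNw3 : D1 ^ D1 + 4 * (D1 + 1) ^ 2 * 2 ^ L ≤ N := by rw [← hw3]; omega
  have hNw4 : 4 * (1 + 1) ^ 2 * 2 ^ L ≤ N := by rw [← hw4]; omega
  have hDD : D1 ^ D1 ≤ N := le_trans (Nat.le_add_right _ _) hNw3
  have hθD : θ * D1 + 1 ≤ N := hEnv.small hL hMM hθM (le_trans (Nat.le_add_left _ _) hNw3)
  have hM4 : M * (4 * D1) + 1 ≤ N := hEnv.small hL hMM (le_refl M) hNw2
  have hMN : M ≤ N := by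
    have := hEnv.small hL hMM (le_refl M) hNw4
    omega
  have hMN2 : M ≤ N ^ 2 := by
    calc M ≤ N := hMN
      _ ≤ N ^ 2 := Nat.le_self_pow (by norm_num) N
  have hcnt : (θ * D1 + 1) * (D1 + 1) ≤ N ^ 2 := by
    have h1 := hEnv.small hL hMM hθM hNw1
    calc (θ * D1 + 1) * (D1 + 1) ≤ θ * (D1 + 1) ^ 2 + 1 := by nlinarith
      _ ≤ N := h1
      _ ≤ N ^ 2 := Nat.le_self_pow (by norm_num) N
  -- block WT
  have dφ : pderiv 2 φ = 0 := bφ.pderiv_eq_zero rfl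
  have dψ : pderiv 1 ψ = 0 := bψ.pderiv_eq_zero rfl
  have dχ : pderiv 0 χ = 0 := bχ.pderiv_eq_zero rfl
  have bφ' : Bdd (2 * D1) (N ^ h) φ := by
    refine ⟨totalDegree_le_of ?_, bφ.2⟩
    intro β hβ
    have h0 : β 0 ≤ D1 := bφ.1 β hβ 0
    have h1 : β 1 ≤ D1 := bφ.1 β hβ 1
    have h2 : β 2 ≤ 0 := bφ.1 β hβ 2
    omega
  obtain ⟨W, Ex, hWc, hExc, hWB, hWP⟩ := hW (2 * D1) (N ^ h) m n φ hm hn hφ bφ' dφ
  obtain ⟨Dψ, hDψc, hDψB, hDψd, hDψP⟩ := hSel _ _ ψ hψ bψ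
  obtain ⟨Dχ, hDχc, hDχB, hDχd, hDχP⟩ := hSel _ _ χ hχ bχ
  -- bounds for η
  have hηH : ∀ η ∈ W, BddB ![2 * D1, 2 * D1, 0] (N ^ (e + h)) η := by
    intro η hη'
    obtain ⟨hB1, hB2⟩ := hWB η hη'
    constructor
    · intro β hβ i
      have h1 := le_of_mem_support hB1 hβ
      have h2 := exp_zero_of_pderiv hB2 hβ
      fin_cases i
      · show β 0 ≤ 2 * D1; omega
      · show β 1 ≤ 2 * D1; omega
      · show β 2 ≤ 0; omega
    · intro β
      refine (hB1.2 β).trans ?_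
      have h1 : (m + n) * (2 * D1) + 1 ≤ N := by
        calc (m + n) * (2 * D1) + 1 ≤ (M + M) * (2 * D1) + 1 := by gcongr
          _ = M * (4 * D1) + 1 := by ring
          _ ≤ N := hM4
      have h2 : ((m + n) * (2 * D1) + 1) ^ ((2 * D1 + 1) ^ 2) * N ^ h ≤ N ^ (e + h) := by
        rw [pow_add]
        exact Nat.mul_le_mul_right _ (Nat.pow_le_pow_left h1 _)
      exact_mod_cast h2
  have hevη : ∀ η ∈ W, ∀ P ∈ S, ∀ i, |eval P (pderiv i η)| ≤ (N : ℤ) ^ hη := by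
    intro η hη' P hP i
    have h1 := hPd _ _ η i (hηH η hη')
    have hdi : (![2 * D1, 2 * D1, 0] : Fin 3 → ℕ) i ≤ N := by
      fin_cases i
      · show 2 * D1 ≤ N; omega
      · show 2 * D1 ≤ N; omega
      · exact Nat.zero_le _
    have h2 : (![2 * D1, 2 * D1, 0] : Fin 3 → ℕ) i * N ^ (e + h) ≤ N ^ (1 + (e + h)) := by
      rw [pow_add N 1, pow_one]
      exact Nat.mul_le_mul_right _ hdi
    refine eval_leB hE (θ := θ) (e := 4 * D1) h1 hN1 (hS P hP).abs_le h2 ?_ ?_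
    · show (2 * D1 + 1) * (2 * D1 + 1) * (0 + 1) ≤ N ^ 2
      calc (2 * D1 + 1) * (2 * D1 + 1) * (0 + 1) = (2 * D1 + 1) * (2 * D1 + 1) := by ring
        _ ≤ N * N := by gcongr
        _ = N ^ 2 := by ring
    · show 2 * D1 + 2 * D1 + θ * 0 ≤ 4 * D1
      omega
  -- bounds for b
  have hNz : (1 : ℤ) ≤ N := by exact_mod_cast hN1
  have hθD' : θ * D1 ≤ N := by omega
  have hD1N' : D1 ≤ N := by omega
  have hsel : ∀ d : Fin 3 → ℕ, (d = ![θ * D1, 0, D1] ∨ d = ![0, θ * D1, D1]) → ∀ b,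
      BddB d (d 0 ^ d 0 * d 1 ^ d 1 * d 2 ^ d 2 * N ^ (θ * h)) b → ∀ P ∈ S, ∀ i,
      |eval P (pderiv i b)| ≤ (N : ℤ) ^ (θ * hb) := by
    intro d hd b hB P hP i
    have h1 := hPd _ _ b i hB
    have hdi : d i ≤ N := by
      rcases hd with rfl | rfl
      · fin_cases i
        · exact hθD'
        · exact Nat.zero_le _
        · exact hD1N'
      · fin_cases i
        · exact Nat.zero_le _
        · exact hθD'
        · exact hD1N'
    have hH : d 0 ^ d 0 * d 1 ^ d 1 * d 2 ^ d 2 * N ^ (θ * h) ≤ N ^ (θ * D1 + 1 + θ * h) := by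
      have h3 : d 0 ^ d 0 * d 1 ^ d 1 * d 2 ^ d 2 = (θ * D1) ^ (θ * D1) * D1 ^ D1 := by
        rcases hd with rfl | rfl
        · show (θ * D1) ^ (θ * D1) * 0 ^ 0 * D1 ^ D1 = _
          rw [pow_zero, mul_one]
        · show 0 ^ 0 * (θ * D1) ^ (θ * D1) * D1 ^ D1 = _
          rw [pow_zero, one_mul]
      rw [h3]
      calc (θ * D1) ^ (θ * D1) * D1 ^ D1 * N ^ (θ * h) ≤ N ^ (θ * D1) * N * N ^ (θ * h) := by gcongr
        _ = N ^ (θ * D1 + 1 + θ * h) := by rw [pow_add, pow_add, pow_one]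
    have h2 : d i * (d 0 ^ d 0 * d 1 ^ d 1 * d 2 ^ d 2 * N ^ (θ * h)) ≤ N ^ (1 + (θ * D1 + 1 + θ * h)) := by
      rw [pow_add N 1, pow_one]
      exact Nat.mul_le_mul hdi hH
    refine (eval_leB hE (θ := θ) (e := 2 * (θ * D1)) h1 hN1 (hS P hP).abs_le h2 ?_ ?_).trans ?_
    · rcases hd with rfl | rfl
      · show (θ * D1 + 1) * (0 + 1) * (D1 + 1) ≤ N ^ 2
        refine le_trans (le_of_eq (by ring)) hcnt
      · show (0 + 1) * (θ * D1 + 1) * (D1 + 1) ≤ N ^ 2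
        refine le_trans (le_of_eq (by ring)) hcnt
    · rcases hd with rfl | rfl
      · show θ * D1 + 0 + θ * D1 ≤ 2 * (θ * D1)
        omega
      · show 0 + θ * D1 + θ * D1 ≤ 2 * (θ * D1)
        omega
    · apply pow_le_pow_right₀ hNz
      rw [hhb]
      have e1 : θ * (3 * D1 + h + 4) = 3 * (θ * D1) + θ * h + 4 * θ := by ring
      rw [e1]
      omega
  have hevb : ∀ b ∈ Dψ ∪ Dχ, ∀ P ∈ S, ∀ i, |eval P (pderiv i b)| ≤ (N : ℤ) ^ (θ * hb) := by
    intro b hb' P hP i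
    rcases Finset.mem_union.mp hb' with h1 | h1
    · exact hsel _ (Or.inl rfl) b (hDψB b h1) P hP i
    · exact hsel _ (Or.inr rfl) b (hDχB b h1) P hP i
  have habs : ∀ u : ℤ, (u = 1 ∨ u = -1) → |u| = 1 := by
    intro u hu
    rcases hu with rfl | rfl <;> simp
  -- split off the exceptional points
  set S1 := S.filter (fun P => (P 0, P 1) ∈ Ex) with hS1
  set S2 := S.filter (fun P => ¬ (P 0, P 1) ∈ Ex) with hS2
  have hsplit : S.card = S1.card + S2.card := (Finset.card_filter_add_card_filter_not _).symm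
  have hcard1 : S1.card ≤ 2 * D1 := by
    refine le_trans (lev2L_ex (N := N) (θ := θ) (A := 3 + hη + hb) (m := m) (n := n) (s := s) (t := t)
      hk S1 ?_ Ex ?_) hExc
    · intro P hP
      exact hS P (Finset.mem_of_mem_filter _ hP)
    · intro P hP
      exact (Finset.mem_filter.mp hP).2
  have hcard2 : S2.card ≤ (W ×ˢ ((Dψ ∪ Dχ) ×ˢ (PP ×ˢ (Finset.range (3 * Q) ×ˢ
      (Finset.range (3 * Q) ×ˢ Finset.range (3 * Q)))))).card * 1 := by
    apply card_le_of_rel S2 _ (R2L m n k s t) 1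
    · intro P hP
      obtain ⟨hPS, hPEx⟩ := Finset.mem_filter.mp hP
      obtain ⟨hvφ, hvψ, hvχ⟩ := hvan P hPS
      have hG := hS P hPS
      rcases hWP P (hG.pos 0) (hG.pos 1) hG.c01 hvφ with h1 | ⟨η, hηW, hη0, hη1⟩
      · exact absurd h1 hPEx
      have dη := (hWB η hηW).2
      -- choose b
      have hchoice : ∃ b ∈ Dψ ∪ Dχ, eval P b = 0 ∧ (eval P (pderiv 2 b) ≠ 0 ∨
          eval P (pderiv 0 η) * eval P (pderiv 1 b) - eval P (pderiv 1 η) * eval P (pderiv 0 b) ≠ 0) := by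
        obtain ⟨b, hb1, hb2, i, hi⟩ := hDψP P hvψ
        obtain ⟨b', hb1', hb2', i', hi'⟩ := hDχP P hvχ
        have d1 := hDψd 1 dψ b hb1
        have d2 := hDχd 0 dχ b' hb1'
        by_cases he1 : eval P (pderiv 1 η) = 0
        · -- use b'
          refine ⟨b', Finset.mem_union_right _ hb1', hb2', ?_⟩
          rw [he1, mul_zero, add_zero] at hη1
          have he0 : eval P (pderiv 0 η) ≠ 0 := fun h0 => hη1 (by rw [h0, mul_zero])
          fin_cases i'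
          · exact absurd (by simp [d2]) hi'
          · right
            rw [he1, zero_mul, sub_zero]
            exact mul_ne_zero he0 hi'
          · exact Or.inl hi'
        · refine ⟨b, Finset.mem_union_left _ hb1, hb2, ?_⟩
          fin_cases i
          · right
            rw [d1, map_zero, mul_zero, zero_sub]
            exact neg_ne_zero.mpr (mul_ne_zero he1 hi)
          · exact absurd (by simp [d1]) hi
          · exact Or.inl hi
      obtain ⟨b, hbm, hb0, hbc⟩ := hchoice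
      have hx0 := hevη η hηW P hPS 0
      have hx1 := hevη η hηW P hPS 1
      have hy0 := hevb b hbm P hPS 0
      have hy1 := hevb b hbm P hPS 1
      have hy2 := hevb b hbm P hPS 2
      have hN2z : (2 : ℤ) ≤ N := by exact_mod_cast hN2
      have hN4z : (4 : ℤ) ≤ N := by exact_mod_cast hN4
      have hmz : (m : ℤ) ≤ (N : ℤ) := by exact_mod_cast hmM.trans hMN
      have hnz : (n : ℤ) ≤ (N : ℤ) := by exact_mod_cast hnM.trans hMN
      have hszl : ((n : ℤ) * P 0 * |eval P (pderiv 0 η)| + (m : ℤ) * P 1 * |eval P (pderiv 1 η)|)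
          * |eval P (pderiv 2 b)| < P 2 ^ (k - 1) := by
        refine lt_of_le_of_lt ?_ hG.big
        have g0 : (n : ℤ) * P 0 * |eval P (pderiv 0 η)| ≤ (N : ℤ) * N * (N : ℤ) ^ hη := by
          apply mul_le_mul (mul_le_mul hnz hG.le0 (hG.pos 0).le (by positivity)) hx0 (abs_nonneg _)
          positivity
        have g1 : (m : ℤ) * P 1 * |eval P (pderiv 1 η)| ≤ (N : ℤ) * N * (N : ℤ) ^ hη := by
          apply mul_le_mul (mul_le_mul hmz hG.le1 (hG.pos 1).le (by positivity)) hx1 (abs_nonneg _)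
          positivity
        calc ((n : ℤ) * P 0 * |eval P (pderiv 0 η)| + (m : ℤ) * P 1 * |eval P (pderiv 1 η)|)
              * |eval P (pderiv 2 b)|
            ≤ ((N : ℤ) * N * (N : ℤ) ^ hη + (N : ℤ) * N * (N : ℤ) ^ hη) * (N : ℤ) ^ (θ * hb) := by
              apply mul_le_mul (add_le_add g0 g1) hy2 (abs_nonneg _)
              positivity
          _ = 2 * (N : ℤ) ^ (2 + hη + θ * hb) := by rw [pow_add, pow_add]; ring
          _ ≤ (N : ℤ) * (N : ℤ) ^ (2 + hη + θ * hb) := by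
              apply mul_le_mul_of_nonneg_right hN2z (by positivity)
          _ = (N : ℤ) ^ (3 + hη + θ * hb) := by rw [← pow_succ']; congr 1; omega
          _ ≤ (N : ℤ) ^ ((3 + hη + hb) * θ) := by
              apply pow_le_pow_right₀ hNz
              have e1 : (3 + hη + hb) * θ = 3 * θ + hη * θ + θ * hb := by ring
              have e2 : hη ≤ hη * θ := Nat.le_mul_of_pos_right _ hθ
              rw [e1]
              omega
      have hdet := det_jacL m n k s t η b dη P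
      have hdet0 : (Matrix.of fun ρ i => eval P (pderiv i (jacL m n k s t η b ρ))).det ≠ 0 := by
        rw [hdet]
        exact ari2L _ _ _ _ _ _ _ _ s t m n k (hG.pos 0) (hG.pos 1) (hG.pos 2) hm hn hk hs ht hG.c12
          hG.eq hη1 hbc hszl
      have hdetB : |(Matrix.of fun ρ i => eval P (pderiv i (jacL m n k s t η b ρ))).det|
          ≤ (N : ℤ) ^ ((4 + hη + hb) * M) := by
        rw [hdet]
        have k0 := grad_le hmM hN1 (hG.abs_le 0) hMN2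
        have k1 := grad_le hnM hN1 (hG.abs_le 1) hMN2
        have k2 := hG.grad2_le hs ht hmM hnM hk hkM hN2 hMN
        have k0' : |s * ((m : ℤ) * P 0 ^ (m - 1))| ≤ (N : ℤ) ^ (M + 2) := by
          rw [abs_mul, habs s hs, one_mul]; exact k0
        have k1' : |t * ((n : ℤ) * P 1 ^ (n - 1))| ≤ (N : ℤ) ^ (M + 2) := by
          rw [abs_mul, habs t ht, one_mul]; exact k1
        have hp2 : ∀ u v : ℤ, |u| ≤ (N : ℤ) ^ hη → |v| ≤ (N : ℤ) ^ (θ * hb) →
            |u * v| ≤ (N : ℤ) ^ (hη + θ * hb) := by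
          intro u v hu hv
          rw [abs_mul, pow_add]
          exact mul_le_mul hu hv (abs_nonneg _) (by positivity)
        have hp3 : ∀ u v : ℤ, |u| ≤ (N : ℤ) ^ (M + 2) → |v| ≤ (N : ℤ) ^ (hη + θ * hb) →
            |u * v| ≤ (N : ℤ) ^ (M + 2 + (hη + θ * hb)) := by
          intro u v hu hv
          rw [abs_mul, pow_add _ (M + 2)]
          exact mul_le_mul hu hv (abs_nonneg _) (by positivity)
        have q0 := hp3 _ _ k0' (hp2 _ _ hx1 hy2)
        have q1 := hp3 _ _ k1' (hp2 _ _ hx0 hy2)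
        have q2 := hp3 _ _ k2 (hp2 _ _ hx0 hy1)
        have q3 := hp3 _ _ k2 (hp2 _ _ hx1 hy0)
        have hfin : 4 * (N : ℤ) ^ (M + 2 + (hη + θ * hb)) ≤ (N : ℤ) ^ ((4 + hη + hb) * M) := by
          calc 4 * (N : ℤ) ^ (M + 2 + (hη + θ * hb)) ≤ (N : ℤ) * (N : ℤ) ^ (M + 2 + (hη + θ * hb)) := by
                apply mul_le_mul_of_nonneg_right hN4z (by positivity)
            _ = (N : ℤ) ^ (M + 3 + (hη + θ * hb)) := by rw [← pow_succ']; congr 1; omega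
            _ ≤ (N : ℤ) ^ ((4 + hη + hb) * M) := by
                apply pow_le_pow_right₀ hNz
                have h1 := hEnv.hM1
                have h2 := Nat.mul_le_mul_right hb hθM
                have e1 : (4 + hη + hb) * M = 4 * M + hη * M + M * hb := by ring
                have e2 : hη ≤ hη * M := Nat.le_mul_of_pos_right _ h1
                rw [e1]
                omega
        refine le_trans ?_ hfin
        rw [abs_le] at q0 q1 q2 q3
        rw [abs_le]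
        constructor
        · linarith [q0.1, q0.2, q1.1, q1.2, q2.1, q2.2, q3.1, q3.2]
        · linarith [q0.1, q0.2, q1.1, q1.2, q2.1, q2.2, q3.1, q3.2]
      obtain ⟨p, hpP, hpd⟩ := hEnv.exists_prime hL (by omega) hdet0 hdetB
      refine ⟨(η, b, p, res p P), ?_, hη0, hb0, hpd, rfl⟩
      simp only [Finset.mem_product]
      refine ⟨hηW, hbm, hpP, ?_⟩
      have := res_mem (hEnv.prime p hpP).pos (hEnv.hi p hpP) P
      simpa only [Finset.mem_product] using this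
    · intro l hl S' hS' hR
      apply lev2L_fibre hU (N := N) (θ := θ) (A := 3 + hη + hb) (m := m) (n := n) (k := k) S' ?_ l ?_ hR
      · intro P hP
        exact hS P (Finset.mem_of_mem_filter _ (hS' hP))
      · simp only [Finset.mem_product] at hl
        exact hEnv.prime _ hl.2.2.1
  -- final count
  have hone : (θ * D1 + 1) * (D1 + 1) ≤ Q * (D1 + 1) ^ 2 := by
    have h2 : θ * D1 + 1 ≤ θ * (D1 + 1) := by rw [mul_add]; omega
    calc (θ * D1 + 1) * (D1 + 1) ≤ (θ * (D1 + 1)) * (D1 + 1) := by gcongr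
      _ = θ * (D1 + 1) ^ 2 := by ring
      _ ≤ Q * (D1 + 1) ^ 2 := by
          have := hEnv.hMQ
          gcongr
          omega
  have hcu : (Dψ ∪ Dχ).card ≤ 2 * (D1 + 1) ^ 2 * Q := by
    refine (Finset.card_union_le _ _).trans ?_
    have h1 : Dψ.card ≤ Q * (D1 + 1) ^ 2 := by
      refine hDψc.trans (le_trans (le_of_eq ?_) hone)
      show (θ * D1 + 1) * (0 + 1) * (D1 + 1) = _
      ring
    have h2 : Dχ.card ≤ Q * (D1 + 1) ^ 2 := by
      refine hDχc.trans (le_trans (le_of_eq ?_) hone)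
      show (0 + 1) * (θ * D1 + 1) * (D1 + 1) = _
      ring
    calc Dψ.card + Dχ.card ≤ Q * (D1 + 1) ^ 2 + Q * (D1 + 1) ^ 2 := add_le_add h1 h2
      _ = 2 * (D1 + 1) ^ 2 * Q := by ring
  have hPPc := hEnv.card_le
  have hQ := hEnv.Q_pos
  simp only [Finset.card_product, Finset.card_range, mul_one] at hcard2
  have hQ5 : 1 ≤ Q ^ 5 := Nat.one_le_pow _ _ hQ
  calc S.card = S1.card + S2.card := hsplit
    _ ≤ 2 * D1 + W.card * ((Dψ ∪ Dχ).card * (PP.card * (3 * Q * (3 * Q * (3 * Q))))) := by gcongr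
    _ ≤ 2 * D1 * Q ^ 5 + (e + 1) * ((2 * (D1 + 1) ^ 2 * Q) * ((3 * Q) * (3 * Q * (3 * Q * (3 * Q))))) :=
        add_le_add (Nat.le_mul_of_pos_right _ hQ5)
          (Nat.mul_le_mul hWc (Nat.mul_le_mul hcu (Nat.mul_le_mul_right _ hPPc)))
    _ = (2 * D1 + ((e + 1) * (2 * (D1 + 1) ^ 2) * 81)) * Q ^ 5 := by ring

theorem sigL (h0 : Stmt_Lev0L) (h1 : Stmt_Lev1L) (h2 : Stmt_Lev2L) : Stmt_SigL := by
  intro L hL
  obtain ⟨N0, H0⟩ := h0 L hL
  obtain ⟨A1, E1, C1, N1, H1⟩ := h1 L (128 * L ^ 2) (128 * L ^ 2) hL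
  obtain ⟨A2, E2, C2, N2, H2⟩ := h2 L (18 * L) (18 * L) hL
  refine ⟨A1 + A2, E1 + E2 + 1, 27 * C1 * C2, N0 + N1 + N2 + 1, ?_⟩
  intro N Q M PP hN hEnv hMM m n k θ hm hmM hn hnM hk hkM hθ hθM s t hs ht S hS
  have hN1 : 1 ≤ N := by omega
  have key : S.card ≤ 27 * Q ^ 3 * (C1 * Q ^ 5 * (C2 * Q ^ 5)) := by
    apply H0 N Q M PP (by omega) (hEnv.mono (by omega)) hMM m n k θ hm hmM hn hnM hk hkM hθ hθM s t hs ht S
      (fun P hP => (hS P hP).mono hN1 (by omega))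
    intro S' hS' hG
    obtain ⟨G, hG0, hGB, hGv⟩ := hG
    apply H1 N Q M PP (by omega) (hEnv.mono (by omega)) hMM m n k θ hm hmM hn hnM hk hkM hθ hθM s t hs ht
      G hG0 hGB S' (fun P hP => (hS P (hS' hP)).mono hN1 (by omega)) hGv
    intro S'' hS'' hφ
    obtain ⟨φ, ψ, χ, e1, e2, e3, b1, b2, b3, hv⟩ := hφ
    exact H2 N Q M PP (by omega) (hEnv.mono (by omega)) hMM m n k θ hm hmM hn hnM hk hkM hθ hθM s t hs ht
      φ ψ χ e1 e2 e3 b1 b2 b3 S'' (fun P hP => (hS P (hS' (hS'' hP))).mono hN1 (by omega)) hv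
  calc S.card ≤ _ := key
    _ = 27 * C1 * C2 * Q ^ 13 := by ring

end Pool.Agent.Work.MP_2738db_nt_T
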