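import Pool.Agent.Work.MP_2738db_nt_T.Interface

set_option autoImplicit false

namespace Pool.Agent.Work.MP_2738db_nt_T

open Chebyshev

/-- many primes in `(Q, 3Q]` -/
lemma many_primes (K Q : ℕ) (hQ : (20 * (K + 4)) ^ 4 ≤ Q) :
    K * Nat.sqrt Q ≤ ((Finset.Ioc Q (3 * Q)).filter Nat.Prime).card := by
  set c := ((Finset.Ioc Q (3 * Q)).filter Nat.Prime).card with hc
  have hQ1 : 1 ≤ Q := le_trans (Nat.one_le_pow _ _ (by omega)) hQ
  have hq1 : (1 : ℝ) ≤ Q := by exact_mod_cast hQ1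
  -- theta difference
  have h1 : θ ((3 * Q : ℕ) : ℝ) - θ (Q : ℝ) = ∑ p ∈ (Finset.Ioc Q (3 * Q)).filter Nat.Prime, Real.log p := by
    rw [theta_eq_sum_primesLE_log, theta_eq_sum_primesLE_log]
    rw [sub_eq_iff_eq_add, ← Finset.sum_union]
    · apply Finset.sum_congr _ (fun _ _ => rfl)
      ext p
      simp only [Nat.mem_primesLE, Finset.mem_union, Finset.mem_filter, Finset.mem_Ioc]
      constructor
      · rintro ⟨h1, h2⟩
        by_cases h : p ≤ Q
        · exact Or.inr ⟨h, h2⟩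
        · exact Or.inl ⟨⟨by omega, h1⟩, h2⟩
      · rintro (⟨⟨_, h1⟩, h2⟩ | ⟨h1, h2⟩)
        · exact ⟨h1, h2⟩
        · exact ⟨by omega, h2⟩
    · rw [Finset.disjoint_left]
      intro p hp hp'
      simp only [Nat.mem_primesLE, Finset.mem_filter, Finset.mem_Ioc] at hp hp'
      omega
  have h2 : ∑ p ∈ (Finset.Ioc Q (3 * Q)).filter Nat.Prime, Real.log p ≤ c * Real.log (3 * Q) := by
    calc _ ≤ ∑ _p ∈ (Finset.Ioc Q (3 * Q)).filter Nat.Prime, Real.log (3 * Q) := by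
          apply Finset.sum_le_sum
          intro p hp
          simp only [Finset.mem_filter, Finset.mem_Ioc] at hp
          apply Real.log_le_log (by exact_mod_cast hp.2.pos)
          exact_mod_cast hp.1.2
      _ = c * Real.log (3 * Q) := by rw [Finset.sum_const, nsmul_eq_mul]
  have h3 := theta_ge (3 * Q)
  have h4 := theta_le_log4_mul_x (x := (Q : ℝ)) (by positivity)
  have hlog4 : Real.log 4 = 2 * Real.log 2 := by
    rw [show (4 : ℝ) = 2 ^ 2 by norm_num, Real.log_pow]; norm_num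
  rw [hlog4] at h4
  push_cast at h1 h3
  -- substitution s = (3Q)^(1/4)
  set s : ℝ := Real.sqrt (Real.sqrt (3 * Q)) with hs
  have hs0 : 0 ≤ s := Real.sqrt_nonneg _
  have hs2 : s ^ 2 = Real.sqrt (3 * Q) := Real.sq_sqrt (Real.sqrt_nonneg _)
  have hs4 : s ^ 4 = 3 * (Q : ℝ) := by
    have h44 : s ^ 4 = (s ^ 2) ^ 2 := by ring
    rw [h44, hs2]
    exact Real.sq_sqrt (by positivity)
  have hsK : 20 * ((K : ℝ) + 4) ≤ s := by
    have h5 : (20 * ((K : ℝ) + 4)) ^ 4 ≤ s ^ 4 := by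
      rw [hs4]
      have : ((20 * (K + 4) : ℕ) : ℝ) ^ 4 ≤ (Q : ℝ) := by exact_mod_cast hQ
      push_cast at this
      linarith
    exact le_of_pow_le_pow_left₀ (by norm_num) hs0 h5
  have hK0 : (0 : ℝ) ≤ K := Nat.cast_nonneg K
  have hs1 : 1 ≤ s := by linarith
  have hspos : 0 < s := by linarith
  have hlog : Real.log (3 * Q) ≤ 4 * s := by
    rw [← hs4, Real.log_pow]
    have := Real.log_le_sub_one_of_pos hspos
    push_cast
    linarith
  have hlog0 : 0 ≤ Real.log (3 * Q) := Real.log_nonneg (by linarith)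
  have hlog' : Real.log (3 * Q + 1) ≤ 4 * s + 1 := by
    have h6 : Real.log (3 * Q + 1) ≤ Real.log (3 * Q) + 1 := by
      have h7 : Real.log (3 * Q + 1) ≤ Real.log ((3 * Q) * Real.exp 1) := by
        apply Real.log_le_log (by positivity)
        have := Real.add_one_le_exp (1 : ℝ)
        nlinarith
      rwa [Real.log_mul (by positivity) (Real.exp_pos 1).ne', Real.log_exp] at h7
    linarith
  have hsqrt : (Nat.sqrt Q : ℝ) ≤ s ^ 2 := by
    rw [hs2]
    refine (Real.nat_sqrt_le_real_sqrt).trans ?_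
    apply Real.sqrt_le_sqrt
    linarith
  have hlog2 : (0.69 : ℝ) ≤ Real.log 2 := by have := Real.log_two_gt_d9; linarith
  -- combine
  by_contra hcon
  rw [not_le] at hcon
  have hcon' : (c : ℝ) ≤ K * s ^ 2 := by
    have h8 : (c : ℝ) ≤ K * Nat.sqrt Q := by exact_mod_cast hcon.le
    exact h8.trans (mul_le_mul_of_nonneg_left hsqrt hK0)
  have h9 : (c : ℝ) * Real.log (3 * Q) ≤ K * s ^ 2 * (4 * s) :=
    mul_le_mul hcon' hlog hlog0 (by positivity)
  have h10 : 2 * Real.sqrt (3 * Q) * Real.log (3 * Q) ≤ 2 * s ^ 2 * (4 * s) := by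
    rw [← hs2]
    exact mul_le_mul_of_nonneg_left hlog (by positivity)
  have h11 : (Q : ℝ) * Real.log 2 ≤ K * s ^ 2 * (4 * s) + 2 * s ^ 2 * (4 * s) + (4 * s + 1) := by
    nlinarith
  have h12 : s ^ 4 * 0.69 ≤ 3 * ((Q : ℝ) * Real.log 2) := by
    rw [hs4]; nlinarith
  have h13 : s ^ 4 * 0.69 ≤ 3 * (4 * (K + 4) * s ^ 3) := by
    have h14 : 4 * s + 1 ≤ 8 * s ^ 3 := by nlinarith [mul_pos hspos hspos, mul_nonneg hs0 (sub_nonneg.mpr hs1)]
    nlinarith
  have h15 : s ^ 3 * (s * 0.69) ≤ s ^ 3 * (12 * (K + 4)) := by nlinarith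
  have h16 := le_of_mul_le_mul_left h15 (by positivity)
  nlinarith

theorem primes : Stmt_Primes := by
  intro L E hL
  refine ⟨((20 * (L * E + 4)) ^ 4) ^ L + 2, ?_⟩
  intro N hN
  have hN2 : 2 ≤ N := by omega
  have hex : ∃ q, N ≤ q ^ L := ⟨N, Nat.le_self_pow (by omega) N⟩
  classical
  set Q := Nat.find hex with hQdef
  have hQ : N ≤ Q ^ L := Nat.find_spec hex
  have hQ2 : 2 ≤ Q := by
    by_contra hc
    have h1 : Q ≤ 1 := by omega
    have h2 : Q ^ L ≤ 1 ^ L := Nat.pow_le_pow_left h1 _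
    rw [one_pow] at h2
    omega
  have hmin : (Q - 1) ^ L < N := by
    have := Nat.find_min hex (m := Q - 1) (by omega)
    omega
  have hbig : (20 * (L * E + 4)) ^ 4 ≤ Q := by
    by_contra hc
    rw [not_le] at hc
    have h1 : Q ^ L < ((20 * (L * E + 4)) ^ 4) ^ L := Nat.pow_lt_pow_left hc (by omega)
    omega
  refine ⟨Q, (Finset.Ioc Q (3 * Q)).filter Nat.Prime, hQ, ?_, ?_, Nat.sqrt_le_self Q, ?_, ?_, ?_, ?_⟩
  · calc Q ^ L ≤ (2 * (Q - 1)) ^ L := Nat.pow_le_pow_left (by omega) _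
      _ = 2 ^ L * (Q - 1) ^ L := mul_pow _ _ _
      _ ≤ 2 ^ L * N := Nat.mul_le_mul_left _ hmin.le
  · rw [Nat.le_sqrt]; omega
  · intro p hp
    exact (Finset.mem_filter.mp hp).2
  · intro p hp
    exact (Finset.mem_Ioc.mp (Finset.mem_filter.mp hp).1).1
  · intro p hp
    exact (Finset.mem_Ioc.mp (Finset.mem_filter.mp hp).1).2
  · exact many_primes (L * E) Q hbig

end Pool.Agent.Work.MP_2738db_nt_T
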