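import Pool.Agent.Work.MP_2738db_nt_T.Poly

set_option autoImplicit false

namespace Pool.Agent.Work.MP_2738db_nt_T

open MvPolynomial

/-- weight of a monomial -/
def wgt (m n : ℕ) (β : Fin 3 →₀ ℕ) : ℕ := n * β 0 + m * β 1

/-- the `q`-th iterate of the weighted Euler operator -/
noncomputable def eul (m n q : ℕ) (φ : MvPolynomial (Fin 3) ℤ) : MvPolynomial (Fin 3) ℤ :=
  ∑ β ∈ φ.support, monomial β (((wgt m n β : ℤ)) ^ q * coeff β φ)

lemma coeff_eul (m n q : ℕ) (φ : MvPolynomial (Fin 3) ℤ) (β : Fin 3 →₀ ℕ) :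
    coeff β (eul m n q φ) = ((wgt m n β : ℤ)) ^ q * coeff β φ := by
  classical
  unfold eul
  rw [coeff_sum]
  simp only [coeff_monomial]
  by_cases h : β ∈ φ.support
  · rw [Finset.sum_eq_single β]
    · simp
    · intro γ _ hγ
      rw [if_neg hγ]
    · intro hn; exact absurd h hn
  · rw [Finset.sum_eq_zero]
    · rw [notMem_support_iff.mp h, mul_zero]
    · intro γ hγ
      rw [if_neg]
      rintro rfl
      exact h hγ

lemma eval_eul (m n q : ℕ) (φ : MvPolynomial (Fin 3) ℤ) (P : Pt) :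
    eval P (eul m n q φ) = ∑ β ∈ φ.support, ((wgt m n β : ℤ)) ^ q * coeff β φ * ∏ i, P i ^ β i := by
  unfold eul
  rw [map_sum]
  apply Finset.sum_congr rfl
  intro β _
  rw [eval_monomial, Finsupp.prod_fintype _ _ (fun _ => pow_zero _)]

lemma eval_pderiv_monomial (P : Pt) (i : Fin 3) (β : Fin 3 →₀ ℕ) (c : ℤ) :
    P i * eval P (pderiv i (monomial β c)) = c * (β i : ℤ) * ∏ j, P j ^ β j := by
  rw [pderiv_monomial, eval_monomial, Finsupp.prod_fintype _ _ (fun _ => pow_zero _)]
  by_cases h : β i = 0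
  · rw [h]; simp
  · have h1 : P i * ∏ j, P j ^ (β - Finsupp.single i 1 : Fin 3 →₀ ℕ) j = ∏ j, P j ^ β j := by
      obtain ⟨e, he⟩ : ∃ e, β i = e + 1 := Nat.exists_eq_succ_of_ne_zero h
      fin_cases i <;>
        simp only [Fin.prod_univ_three, Finsupp.tsub_apply, Finsupp.single_apply] at he ⊢ <;>
        simp at he ⊢ <;> rw [he] <;> simp [pow_succ] <;> ring
    rw [← h1]; ring

lemma eval_euler (m n q : ℕ) (φ : MvPolynomial (Fin 3) ℤ) (P : Pt) :
    (n : ℤ) * P 0 * eval P (pderiv 0 (eul m n q φ)) + (m : ℤ) * P 1 * eval P (pderiv 1 (eul m n q φ))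
      = eval P (eul m n (q + 1) φ) := by
  rw [eval_eul]
  unfold eul
  rw [map_sum, map_sum, map_sum, map_sum, mul_assoc, mul_assoc, Finset.mul_sum, Finset.mul_sum,
    Finset.mul_sum, Finset.mul_sum, ← Finset.sum_add_distrib]
  apply Finset.sum_congr rfl
  intro β _
  rw [eval_pderiv_monomial, eval_pderiv_monomial]
  unfold wgt
  push_cast
  ring

lemma support_two {φ : MvPolynomial (Fin 3) ℤ} (h : pderiv 2 φ = 0) {β : Fin 3 →₀ ℕ}
    (hβ : β ∈ φ.support) : β 2 = 0 := by
  by_contra hne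
  have h2 : β = (β - Finsupp.single 2 1) + Finsupp.single 2 1 := by
    ext l
    simp only [Finsupp.add_apply, Finsupp.tsub_apply, Finsupp.single_apply]
    by_cases hl : (2 : Fin 3) = l
    · subst hl; simp; omega
    · simp [hl]
  have h3 := congrArg (coeff (β - Finsupp.single 2 1)) h
  rw [coeff_pderiv, ← h2, coeff_zero] at h3
  rcases mul_eq_zero.mp h3 with h4 | h4
  · exact (mem_support_iff.mp hβ) h4
  · have : (0 : ℤ) < (((β - Finsupp.single 2 1 : Fin 3 →₀ ℕ) 2 : ℕ) : ℤ) + 1 := by positivity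
    omega

lemma pderiv_eul (m n q : ℕ) {φ : MvPolynomial (Fin 3) ℤ} (h : pderiv 2 φ = 0) :
    pderiv 2 (eul m n q φ) = 0 := by
  ext β
  rw [coeff_pderiv, coeff_eul, coeff_zero]
  have h3 := congrArg (coeff β) h
  rw [coeff_pderiv, coeff_zero] at h3
  rw [mul_assoc, h3, mul_zero]

lemma bdd_eul {D H : ℕ} (m n q : ℕ) {φ : MvPolynomial (Fin 3) ℤ} (h : Bdd D H φ)
    (hq : q ≤ (D + 1) ^ 2) : Bdd D (((m + n) * D + 1) ^ ((D + 1) ^ 2) * H) (eul m n q φ) := by
  constructor
  · apply totalDegree_le_of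
    intro β hβ
    apply le_of_mem_support h
    rw [mem_support_iff, coeff_eul] at hβ
    rw [mem_support_iff]
    intro h0
    exact hβ (by rw [h0, mul_zero])
  · intro β
    rw [coeff_eul, abs_mul]
    by_cases h0 : coeff β φ = 0
    · rw [h0, abs_zero, mul_zero]; positivity
    · have h1 := le_of_mem_support h (mem_support_iff.mpr h0)
      have h2 : wgt m n β ≤ (m + n) * D + 1 := by
        unfold wgt
        have h3 : β 0 ≤ D := by omega
        have h4 : β 1 ≤ D := by omega
        nlinarith [Nat.mul_le_mul_left n h3, Nat.mul_le_mul_left m h4]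
      have h3 : |((wgt m n β : ℤ)) ^ q| ≤ ((((m + n) * D + 1) ^ ((D + 1) ^ 2) : ℕ) : ℤ) := by
        rw [abs_of_nonneg (by positivity)]
        have h5 : (wgt m n β) ^ q ≤ ((m + n) * D + 1) ^ ((D + 1) ^ 2) :=
          (Nat.pow_le_pow_left h2 q).trans (Nat.pow_le_pow_right (by omega) hq)
        exact_mod_cast h5
      have h6 := mul_le_mul h3 (h.2 β) (abs_nonneg _) (by positivity)
      push_cast at h6 ⊢
      exact h6

lemma card_support_two {D H : ℕ} {φ : MvPolynomial (Fin 3) ℤ} (h : Bdd D H φ) (h2 : pderiv 2 φ = 0) :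
    φ.support.card ≤ (D + 1) ^ 2 := by
  classical
  let f : (Fin 3 →₀ ℕ) → ℕ × ℕ := fun β => (β 0, β 1)
  have h1 : (φ.support.image f) ⊆ Finset.range (D + 1) ×ˢ Finset.range (D + 1) := by
    intro t ht
    rw [Finset.mem_image] at ht
    obtain ⟨β, hβ, rfl⟩ := ht
    have h2 := le_of_mem_support h hβ
    simp only [f, Finset.mem_product, Finset.mem_range]
    omega
  have h3 := Finset.card_le_card h1
  rw [Finset.card_image_of_injOn] at h3
  · simp only [Finset.card_product, Finset.card_range] at h3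
    calc _ ≤ _ := h3
      _ = (D + 1) ^ 2 := by ring
  · intro β hβ γ hγ hβγ
    simp only [f, Prod.mk.injEq] at hβγ
    ext i
    fin_cases i
    · exact hβγ.1
    · exact hβγ.2
    · exact (support_two h2 hβ).trans (support_two h2 hγ).symm

/-- Vandermonde: vanishing of all power sums forces every weight component to vanish -/
lemma component_zero {ι : Type*} (s : Finset ι) (w : ι → ℕ) (a : ι → ℤ) (N : ℕ) (hN : s.card ≤ N)
    (h : ∀ q, q ≤ N → ∑ i ∈ s, (w i : ℤ) ^ q * a i = 0) (w0 : ℕ) :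
    ∑ i ∈ s.filter (fun i => w i = w0), a i = 0 := by
  classical
  let p : Polynomial ℤ := ∏ v ∈ (s.image w).erase w0, (Polynomial.X - Polynomial.C (v : ℤ))
  have hdeg : p.natDegree ≤ N := by
    have h1 : p.natDegree ≤ ((s.image w).erase w0).card := by
      refine (Polynomial.natDegree_prod_le _ _).trans ?_
      refine (Finset.sum_le_card_nsmul _ _ 1 ?_).trans (by simp)
      intro v _
      exact Polynomial.natDegree_X_sub_C_le _
    have h2 := Finset.card_erase_le (s := s.image w) (a := w0)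
    have h3 := Finset.card_image_le (s := s) (f := w)
    omega
  have h1 : ∑ i ∈ s, p.eval (w i : ℤ) * a i = 0 := by
    calc ∑ i ∈ s, p.eval (w i : ℤ) * a i
        = ∑ i ∈ s, (∑ q ∈ Finset.range (N + 1), p.coeff q * (w i : ℤ) ^ q) * a i := by
          apply Finset.sum_congr rfl
          intro i _
          rw [Polynomial.eval_eq_sum_range' (by omega : p.natDegree < N + 1)]
      _ = ∑ q ∈ Finset.range (N + 1), p.coeff q * ∑ i ∈ s, (w i : ℤ) ^ q * a i := by
          simp only [Finset.sum_mul, Finset.mul_sum]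
          rw [Finset.sum_comm]
          apply Finset.sum_congr rfl
          intro q _
          apply Finset.sum_congr rfl
          intro i _
          ring
      _ = 0 := by
          apply Finset.sum_eq_zero
          intro q hq
          rw [h q (by rw [Finset.mem_range] at hq; omega), mul_zero]
  have h2 : ∑ i ∈ s, p.eval (w i : ℤ) * a i
      = p.eval (w0 : ℤ) * ∑ i ∈ s.filter (fun i => w i = w0), a i := by
    rw [Finset.mul_sum, ← Finset.sum_filter_add_sum_filter_not s (fun i => w i = w0)]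
    rw [Finset.sum_eq_zero (s := s.filter (fun i => ¬ w i = w0))]
    · rw [add_zero]
      apply Finset.sum_congr rfl
      intro i hi
      rw [(Finset.mem_filter.mp hi).2]
    · intro i hi
      obtain ⟨hi1, hi2⟩ := Finset.mem_filter.mp hi
      have : p.eval (w i : ℤ) = 0 := by
        simp only [p, Polynomial.eval_prod]
        apply Finset.prod_eq_zero (i := w i)
        · exact Finset.mem_erase.mpr ⟨hi2, Finset.mem_image_of_mem w hi1⟩
        · simp
      rw [this, zero_mul]
  have h3 : p.eval (w0 : ℤ) ≠ 0 := by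
    simp only [p, Polynomial.eval_prod]
    rw [Finset.prod_ne_zero_iff]
    intro v hv
    have := Finset.ne_of_mem_erase hv
    simp only [Polynomial.eval_sub, Polynomial.eval_X, Polynomial.eval_C]
    intro h0
    apply this
    have h4 : (v : ℤ) = w0 := by linarith
    exact_mod_cast h4
  rw [h2] at h1
  exact (mul_eq_zero.mp h1).resolve_left h3

/-- the coprime positive zeros of a quasi-homogeneous polynomial -/
lemma finite_quasi {D H : ℕ} (m n : ℕ) (hm : 1 ≤ m) (hn : 1 ≤ n) {φ : MvPolynomial (Fin 3) ℤ}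
    (h : Bdd D H φ) (h2 : pderiv 2 φ = 0) {γ : Fin 3 →₀ ℕ} (hγ : γ ∈ φ.support) :
    ∃ Ex : Finset (ℤ × ℤ), Ex.card ≤ D ∧ ∀ P : Pt, 0 < P 0 → 0 < P 1 → IsCoprime (P 0) (P 1) →
      ∑ β ∈ φ.support.filter (fun β => wgt m n β = wgt m n γ), coeff β φ * ∏ i, P i ^ β i = 0 →
      (P 0, P 1) ∈ Ex := by
  classical
  set S0 := φ.support.filter (fun β => wgt m n β = wgt m n γ) with hS0
  let f : Polynomial ℝ := ∑ β ∈ S0, Polynomial.monomial (β 0) ((coeff β φ : ℤ) : ℝ)
  have hinj : ∀ β ∈ S0, ∀ δ ∈ S0, β 0 = δ 0 → β = δ := by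
    intro β hβ δ hδ h0
    obtain ⟨hβ1, hβ2⟩ := Finset.mem_filter.mp hβ
    obtain ⟨hδ1, hδ2⟩ := Finset.mem_filter.mp hδ
    have h3 : m * β 1 = m * δ 1 := by
      have h4 := hβ2.trans hδ2.symm
      unfold wgt at h4
      rw [h0] at h4
      omega
    have h4 : β 1 = δ 1 := Nat.eq_of_mul_eq_mul_left (by omega) h3
    ext i
    fin_cases i
    · exact h0
    · exact h4
    · exact (support_two h2 hβ1).trans (support_two h2 hδ1).symm
  have hγ0 : γ ∈ S0 := Finset.mem_filter.mpr ⟨hγ, rfl⟩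
  have hf : f ≠ 0 := by
    intro hf0
    have h3 := congrArg (fun g => Polynomial.coeff g (γ 0)) hf0
    simp only [f, Polynomial.finsetSum_coeff, Polynomial.coeff_monomial, Polynomial.coeff_zero] at h3
    rw [Finset.sum_eq_single γ] at h3
    · simp only [if_true] at h3
      exact (mem_support_iff.mp hγ) (by exact_mod_cast h3)
    · intro β hβ hne
      rw [if_neg]
      intro h0
      exact hne (hinj β hβ γ hγ0 h0)
    · intro hn'
      exact absurd hγ0 hn'
  have hfd : f.natDegree ≤ D := by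
    apply Polynomial.natDegree_sum_le_of_forall_le
    intro β hβ
    refine (Polynomial.natDegree_monomial_le _).trans ?_
    have := le_of_mem_support h (Finset.mem_filter.mp hβ).1
    omega
  let τ : ℤ × ℤ → ℝ := fun t => (t.1 : ℝ) / (((t.2 : ℝ) ^ ((1 : ℝ) / m)) ^ n)
  let A : Set (ℤ × ℤ) := {t | 0 < t.1 ∧ 0 < t.2 ∧ IsCoprime t.1 t.2 ∧
    ∑ β ∈ S0, coeff β φ * (t.1 ^ β 0 * t.2 ^ β 1) = 0}
  have hpow : ∀ y : ℝ, 0 < y → (y ^ ((1 : ℝ) / m)) ^ m = y := by
    intro y hy
    rw [← Real.rpow_natCast, ← Real.rpow_mul hy.le, one_div, inv_mul_cancel₀, Real.rpow_one]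
    exact_mod_cast (by omega : m ≠ 0)
  have hmaps : Set.MapsTo τ A (f.roots.toFinset : Set ℝ) := by
    intro t ht
    obtain ⟨hx, hy, _, hs⟩ := ht
    have hyr : (0 : ℝ) < (t.2 : ℝ) := by exact_mod_cast hy
    set u : ℝ := (t.2 : ℝ) ^ ((1 : ℝ) / m) with hu
    have hu0 : 0 < u := Real.rpow_pos_of_pos hyr _
    have hum : u ^ m = (t.2 : ℝ) := hpow _ hyr
    rw [Finset.mem_coe, Multiset.mem_toFinset, Polynomial.mem_roots hf, Polynomial.IsRoot.def]
    simp only [f, Polynomial.eval_finsetSum, Polynomial.eval_monomial]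
    have hs' : ∑ β ∈ S0, ((coeff β φ : ℤ) : ℝ) * ((t.1 : ℝ) ^ β 0 * (t.2 : ℝ) ^ β 1) = 0 := by
      exact_mod_cast hs
    have h5 : u ^ (wgt m n γ) * ∑ β ∈ S0, ((coeff β φ : ℤ) : ℝ) * (τ t) ^ β 0 = 0 := by
      rw [← hs', Finset.mul_sum]
      apply Finset.sum_congr rfl
      intro β hβ
      have h6 := (Finset.mem_filter.mp hβ).2
      rw [← h6]
      have h7 : u ^ (wgt m n β) = (u ^ n) ^ β 0 * (t.2 : ℝ) ^ β 1 := by
        rw [← hum, ← pow_mul, ← pow_mul, ← pow_add]
        rfl
      rw [h7]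
      show _ * (_ * ((t.1 : ℝ) / u ^ n) ^ β 0) = _
      rw [div_pow]
      have h8 : (u ^ n) ^ β 0 ≠ 0 := by positivity
      field_simp
    exact (mul_eq_zero.mp h5).resolve_left (by positivity)
  have hinjA : Set.InjOn τ A := by
    intro s hs t ht hst
    obtain ⟨hx, hy, hc, _⟩ := hs
    obtain ⟨hx', hy', hc', _⟩ := ht
    have hyr : (0 : ℝ) < (s.2 : ℝ) := by exact_mod_cast hy
    have hyr' : (0 : ℝ) < (t.2 : ℝ) := by exact_mod_cast hy'
    have h3 : (τ s) ^ m = (τ t) ^ m := by rw [hst]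
    simp only [τ, div_pow] at h3
    rw [← pow_mul, ← pow_mul, mul_comm n m, pow_mul, pow_mul, hpow _ hyr, hpow _ hyr'] at h3
    rw [div_eq_div_iff (by positivity) (by positivity)] at h3
    have h4 : s.1 ^ m * t.2 ^ n = t.1 ^ m * s.2 ^ n := by exact_mod_cast h3
    have h5 : s.1 ^ m ∣ t.1 ^ m := by
      have h6 : s.1 ^ m ∣ t.1 ^ m * s.2 ^ n := ⟨t.2 ^ n, h4.symm⟩
      exact (hc.pow (m := m) (n := n)).dvd_of_dvd_mul_right h6
    have h6 : t.1 ^ m ∣ s.1 ^ m := by
      have h7 : t.1 ^ m ∣ s.1 ^ m * t.2 ^ n := ⟨s.2 ^ n, h4⟩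
      exact (hc'.pow (m := m) (n := n)).dvd_of_dvd_mul_right h7
    have h7 : s.1 ^ m = t.1 ^ m := by
      apply Int.dvd_antisymm (by positivity) (by positivity) h5 h6
    have h8 : s.1 = t.1 := by
      exact (pow_left_inj₀ hx.le hx'.le (by omega)).mp h7
    have h9 : s.2 ^ n = t.2 ^ n := by
      rw [h7] at h4
      have h10 : t.1 ^ m ≠ 0 := by positivity
      exact (mul_left_cancel₀ h10 h4).symm
    have h10 : s.2 = t.2 := (pow_left_inj₀ hy.le hy'.le (by omega)).mp h9
    exact Prod.ext h8 h10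
  have hfin : A.Finite := Set.Finite.of_injOn hmaps hinjA (Finset.finite_toSet _)
  refine ⟨hfin.toFinset, ?_, ?_⟩
  · have h3 : hfin.toFinset.card ≤ f.roots.toFinset.card := by
      apply Finset.card_le_card_of_injOn τ
      · intro t ht
        exact hmaps (by simpa using ht)
      · intro s hs t ht hst
        exact hinjA (by simpa using hs) (by simpa using ht) hst
    exact h3.trans ((Multiset.toFinset_card_le _).trans ((Polynomial.card_roots' f).trans hfd))
  · intro P hP0 hP1 hc hs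
    rw [Set.Finite.mem_toFinset]
    refine ⟨hP0, hP1, hc, ?_⟩
    rw [← hs]
    apply Finset.sum_congr rfl
    intro β hβ
    rw [Fin.prod_univ_three, support_two h2 (Finset.mem_filter.mp hβ).1, pow_zero, mul_one]

theorem wt : Stmt_Wt := by
  classical
  intro D H m n φ hm hn hφ hB h2
  obtain ⟨γ, hγ⟩ : φ.support.Nonempty := by
    rwa [Finset.nonempty_iff_ne_empty, Ne, support_eq_empty]
  obtain ⟨Ex, hEx, hEx2⟩ := finite_quasi m n hm hn hB h2 hγ
  refine ⟨(Finset.range ((D + 1) ^ 2 + 1)).image (fun q => eul m n q φ), Ex, ?_, hEx, ?_, ?_⟩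
  · exact Finset.card_image_le.trans (by simp)
  · intro η hη
    obtain ⟨q, hq, rfl⟩ := Finset.mem_image.mp hη
    rw [Finset.mem_range] at hq
    exact ⟨bdd_eul m n q hB (by omega), pderiv_eul m n q h2⟩
  · intro P hP0 hP1 hc hPφ
    have h0 : eval P (eul m n 0 φ) = 0 := by
      rw [← hPφ]
      congr 1
      ext β
      rw [coeff_eul, pow_zero, one_mul]
    by_cases hall : ∀ q, q ≤ (D + 1) ^ 2 → eval P (eul m n q φ) = 0
    · left
      apply hEx2 P hP0 hP1 hc
      apply component_zero φ.support (wgt m n) (fun β => coeff β φ * ∏ i, P i ^ β i) ((D + 1) ^ 2)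
        (card_support_two hB h2)
      intro q hq
      rw [← hall q hq, eval_eul]
      apply Finset.sum_congr rfl
      intro β _
      ring
    · right
      push Not at hall
      have hex : ∃ q, q ≤ (D + 1) ^ 2 ∧ eval P (eul m n q φ) ≠ 0 := hall
      have hspec := Nat.find_spec hex
      have hmin := fun q => Nat.find_min hex (m := q)
      set q := Nat.find hex with hqdef
      have hq0 : q ≠ 0 := by
        intro hq
        rw [hq] at hspec
        exact hspec.2 h0
      obtain ⟨r, hr⟩ := Nat.exists_eq_succ_of_ne_zero hq0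
      refine ⟨eul m n r φ, Finset.mem_image.mpr ⟨r, ?_, rfl⟩, ?_, ?_⟩
      · rw [Finset.mem_range]; omega
      · by_contra hne
        exact hmin r (by omega) ⟨by omega, hne⟩
      · rw [eval_euler]
        have := hspec.2
        rw [hr] at this
        exact this

end Pool.Agent.Work.MP_2738db_nt_T
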