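import Pool.Agent.Work.MP_2738db_nt_T.Sig
import Pool.Agent.Work.MP_2738db_nt_T.Hen
import Pool.Agent.Work.MP_2738db_nt_T.LHen
import Pool.Agent.Work.MP_2738db_nt_T.Wt
import Pool.Agent.Work.MP_2738db_nt_T.LPoly
import Pool.Agent.Work.MP_2738db_nt_T.LevL2
import Pool.Agent.Work.MP_2738db_nt_T.Primes
import Pool.Agent.Work.MP_2738db_nt_T.Arch
import Pool.Agent.Work.MP_2738db_nt_T.FinalL
import Pool.Agent.Work.MP_2738db_nt_T_helper42.Exp

set_option autoImplicit false

namespace Pool.Agent.Work.MP_2738db_nt_T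

/-- all bases at most `N` -/
theorem main_box : Stmt_Box :=
  box (sig (lev0 stmt_aux) (lev1 stmt_aux) (lev2 stmt_uniq wt)) primes
    (MP_2738db_nt_T_helper42.stmt_Exp arch)

/-- two bases at most `N`, the third one at most `exp (N ^ δ)` with a large exponent -/
theorem main_boxL : Stmt_BoxL :=
  boxL main_box
    (sigL (lev0L stmt_auxGen) (lev1L stmt_auxGen stmt_selB stmt_bddBPderiv stmt_bddBEval)
      (lev2L stmt_uniq wt stmt_selB stmt_bddBPderiv stmt_bddBEval))
    primes (MP_2738db_nt_T_helper42.stmt_Exp arch)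

end Pool.Agent.Work.MP_2738db_nt_T
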