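import Pool.Agent.Work.MP_2738db_nt_T.LBase

set_option autoImplicit false

namespace Pool.Agent.Work.MP_2738db_nt_T

open MvPolynomial

def Stmt_Lev0L : Prop :=
  ∀ L : ℕ, 1 ≤ L → ∃ N0 : ℕ, ∀ (N Q M : ℕ) (PP : Finset ℕ), N0 ≤ N → Env L 1 N Q M PP → M * M ≤ Q →
    ∀ m n k θ : ℕ, 1 ≤ m → m ≤ M → 1 ≤ n → n ≤ M → 1 ≤ k → k ≤ M → 1 ≤ θ → θ ≤ M →
    ∀ s t : ℤ, (s = 1 ∨ s = -1) → (t = 1 ∨ t = -1) →
    ∀ (S : Finset Pt), (∀ P ∈ S, GoodL N θ 0 m n k s t P) → ∀ B : ℕ,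
    (∀ S' ⊆ S, (∃ G : MvPolynomial (Fin 3) ℤ, G ≠ 0 ∧
      BddB ![θ * (128 * L ^ 2), θ * (128 * L ^ 2), 128 * L ^ 2] (N ^ (θ * (128 * L ^ 2))) G ∧
      ∀ P ∈ S', eval P G = 0) → S'.card ≤ B) → S.card ≤ 27 * Q ^ 3 * B

theorem lev0L (hA : Stmt_AuxGen) : Stmt_Lev0L := by
  intro L hL
  obtain ⟨D, hD⟩ : ∃ D, D = 128 * L ^ 2 := ⟨_, rfl⟩
  refine ⟨6 ^ L + 4 * ((D + 1) ^ 2 + 1) ^ 2 * 2 ^ L, ?_⟩
  intro N Q M PP hN hEnv hMM m n k θ hm hmM hn hnM hk hkM hθ hθM s t hs ht S hS B hB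
  classical
  rw [← hD] at hB
  have hN6 : 6 ^ L ≤ N := le_trans (Nat.le_add_right _ _) hN
  have hNs : 4 * ((D + 1) ^ 2 + 1) ^ 2 * 2 ^ L ≤ N := le_trans (Nat.le_add_left _ _) hN
  have hPP : PP.Nonempty := by
    rw [← Finset.card_pos]
    refine lt_of_lt_of_le ?_ hEnv.card
    exact Nat.mul_pos (Nat.mul_pos hL one_pos) hEnv.hM1
  obtain ⟨p, hp⟩ := hPP
  have hpp := hEnv.prime p hp
  have hlo := hEnv.lo p hp
  have hpz : Prime (p : ℤ) := Nat.prime_iff_prime_int.mp hpp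
  have hexp : ∀ e : ℕ, 1 ≤ e → e ≤ M → ¬ (p : ℤ) ∣ (e : ℤ) := by
    intro e he heM hd
    have h1 : p ∣ e := by exact_mod_cast hd
    have := Nat.le_of_dvd (by omega) h1
    have := hEnv.hMQ
    omega
  have htd : ¬ (p : ℤ) ∣ t := by
    intro hd
    have h1 : IsUnit t := by rcases ht with rfl | rfl <;> simp
    exact hpz.not_isUnit (isUnit_of_dvd_unit hd h1)
  have hcnt : (θ * D + 1) * (θ * D + 1) * (D + 1) ≤ N ^ 2 := by
    have h1 := hEnv.small hL hMM hθM hNs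
    calc (θ * D + 1) * (θ * D + 1) * (D + 1) ≤ ((θ * D + 1) * (D + 1)) * ((θ * D + 1) * (D + 1)) := by
          have : 1 ≤ D + 1 := by omega
          nlinarith [Nat.zero_le ((θ * D + 1) * (θ * D + 1) * (D + 1) * D)]
      _ ≤ (θ * (D + 1) ^ 2 + 1) * (θ * (D + 1) ^ 2 + 1) := by
          have : (θ * D + 1) * (D + 1) ≤ θ * (D + 1) ^ 2 + 1 := by nlinarith
          gcongr
      _ ≤ N * N := by gcongr
      _ = N ^ 2 := by ring
  have haux : ∀ (i : Fin 3) (S' : Finset Pt), S' ⊆ S →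
      (∀ P ∈ S', ∀ P' ∈ S', ∀ i, (p : ℤ) ∣ P i - P' i) →
      (∀ P ∈ S', ¬ (p : ℤ) ∣ eval P (pderiv i (FL m n k s t))) → S'.card ≤ B := by
    intro i S' hS' hcong hd
    apply hB S' hS'
    apply auxCore hA hEnv hL hp hN6 (fun _ : Fin 1 => i) (Function.injective_of_subsingleton _)
      (fun _ => FL m n k s t) S' θ (fun P hP => (hS P (hS' hP)).abs_le) hcong
      (fun P hP _ => (hS P (hS' hP)).eval_FL)
      (fun P hP => by rw [Matrix.det_fin_one]; exact hd P hP)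
      ![θ * D, θ * D, D] (θ * D) (3 * (θ * D))
    · show θ * D + θ * D + θ * D ≤ 3 * (θ * D)
      omega
    · exact hcnt
    · show 2 * (θ * D + 3 * (θ * D) + 2) * (L * (θ * D + 3 * (θ * D) + 2)) ^ (3 - 1)
        ≤ θ * D * ((θ * D + 1) * (θ * D + 1) * (D + 1))
      have h1 : θ * D + 3 * (θ * D) + 2 ≤ 4 * (θ * D + 1) := by omega
      have h2 : θ * D + 1 ≤ θ * (D + 1) := by rw [mul_add]; omega
      calc 2 * (θ * D + 3 * (θ * D) + 2) * (L * (θ * D + 3 * (θ * D) + 2)) ^ (3 - 1)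
          ≤ 2 * (4 * (θ * D + 1)) * (L * (4 * (θ * D + 1))) ^ (3 - 1) := by gcongr
        _ = (128 * L ^ 2) * (θ * D + 1) * ((θ * D + 1) * (θ * D + 1)) := by ring
        _ = D * (θ * D + 1) * ((θ * D + 1) * (θ * D + 1)) := by rw [← hD]
        _ ≤ D * (θ * (D + 1)) * ((θ * D + 1) * (θ * D + 1)) := by gcongr
        _ = θ * D * ((θ * D + 1) * (θ * D + 1) * (D + 1)) := by ring
  have h1 := card_le_of_rel S (Finset.range (3 * Q) ×ˢ (Finset.range (3 * Q) ×ˢ Finset.range (3 * Q)))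
    (fun P l => res p P = l) B
    (fun P _ => ⟨res p P, res_mem hpp.pos (hEnv.hi p hp) P, rfl⟩)
    (by
      intro l _ S' hS' hR
      rcases S'.eq_empty_or_nonempty with h0 | ⟨P0, hP0⟩
      · rw [h0, Finset.card_empty]; exact Nat.zero_le _
      have hcong : ∀ P ∈ S', ∀ P' ∈ S', ∀ i, (p : ℤ) ∣ P i - P' i :=
        fun P hP P' hP' => res_eq hpp.pos ((hR P hP).trans (hR P' hP').symm)
      have hG0 := hS P0 (hS' hP0)
      have htrans : ∀ i, ¬ (p : ℤ) ∣ P0 i → ∀ P ∈ S', ¬ (p : ℤ) ∣ P i := by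
        intro i h1 P hP h2
        have h3 := hcong P hP P0 hP0 i
        exact h1 ((dvd_sub_right h2).mp h3)
      by_cases h2 : (p : ℤ) ∣ P0 2
      · have h1 : ¬ (p : ℤ) ∣ P0 1 := by
          intro h1
          have := hG0.c12.isUnit_of_dvd' h1 h2
          exact hpz.not_isUnit this
        apply haux 1 S' hS' hcong
        intro P hP
        rw [eval_FL_1]
        intro hd
        rcases hpz.dvd_or_dvd hd with h | h
        · exact htd h
        rcases hpz.dvd_or_dvd h with h | h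
        · exact hexp n hn hnM h
        · exact htrans 1 h1 P hP (hpz.dvd_of_dvd_pow h)
      · apply haux 2 S' hS' hcong
        intro P hP
        rw [eval_FL_2, dvd_neg]
        intro hd
        rcases hpz.dvd_or_dvd hd with h | h
        · exact hexp k hk hkM h
        · exact htrans 2 h2 P hP (hpz.dvd_of_dvd_pow h))
  simp only [Finset.card_product, Finset.card_range] at h1
  calc S.card ≤ _ := h1
    _ = 27 * Q ^ 3 * B := by ring

/-- the pivot columns used at level 1 -/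
def pvL (j : ℕ) : Fin 2 → Fin 3 := if j = 0 then ![0, 2] else ![1, 2]

lemma pvL_inj (j : ℕ) : Function.Injective (pvL j) := by
  unfold pvL
  split_ifs <;> decide

lemma det_pvL0 (m n k : ℕ) (s t : ℤ) (G : MvPolynomial (Fin 3) ℤ) (P : Pt) :
    (Matrix.of fun ρ σ => eval P (pderiv (pvL 0 σ) ((![FL m n k s t, G] : Fin 2 → MvPolynomial (Fin 3) ℤ) ρ))).det
      = s * ((m : ℤ) * P 0 ^ (m - 1)) * eval P (pderiv 2 G) + (k : ℤ) * P 2 ^ (k - 1) * eval P (pderiv 0 G) := by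
  rw [Matrix.det_fin_two]
  simp only [Matrix.of_apply, pvL, if_true, Matrix.cons_val_zero, Matrix.cons_val_one, eval_FL_0, eval_FL_2]
  ring

lemma det_pvL1 (m n k : ℕ) (s t : ℤ) (G : MvPolynomial (Fin 3) ℤ) (P : Pt) :
    (Matrix.of fun ρ σ => eval P (pderiv (pvL 1 σ) ((![FL m n k s t, G] : Fin 2 → MvPolynomial (Fin 3) ℤ) ρ))).det
      = t * ((n : ℤ) * P 1 ^ (n - 1)) * eval P (pderiv 2 G) + (k : ℤ) * P 2 ^ (k - 1) * eval P (pderiv 1 G) := by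
  rw [Matrix.det_fin_two]
  simp only [Matrix.of_apply, pvL, if_neg one_ne_zero, Matrix.cons_val_zero, Matrix.cons_val_one,
    eval_FL_1, eval_FL_2]
  ring

/-- the relation between points and labels at level 1 -/
def R1L (m n k : ℕ) (s t : ℤ) (P : Pt) (l : MvPolynomial (Fin 3) ℤ × ℕ × ℕ × (ℕ × ℕ × ℕ)) : Prop :=
  eval P l.1 = 0 ∧
  ¬ (l.2.2.1 : ℤ) ∣ (Matrix.of fun ρ σ => eval P (pderiv (pvL l.2.1 σ)
    ((![FL m n k s t, l.1] : Fin 2 → MvPolynomial (Fin 3) ℤ) ρ))).det ∧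
  res l.2.2.1 P = l.2.2.2

def Stmt_Lev1L : Prop :=
  ∀ L D0 h : ℕ, 1 ≤ L → ∃ A E C N0 : ℕ, ∀ (N Q M : ℕ) (PP : Finset ℕ), N0 ≤ N →
    Env L E N Q M PP → M * M ≤ Q →
    ∀ m n k θ : ℕ, 1 ≤ m → m ≤ M → 1 ≤ n → n ≤ M → 1 ≤ k → k ≤ M → 1 ≤ θ → θ ≤ M →
    ∀ s t : ℤ, (s = 1 ∨ s = -1) → (t = 1 ∨ t = -1) →
    ∀ G : MvPolynomial (Fin 3) ℤ, G ≠ 0 → BddB ![θ * D0, θ * D0, D0] (N ^ (θ * h)) G →
    ∀ (S : Finset Pt), (∀ P ∈ S, GoodL N θ A m n k s t P) → (∀ P ∈ S, eval P G = 0) → ∀ B : ℕ,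
    (∀ S' ⊆ S, (∃ φ ψ χ : MvPolynomial (Fin 3) ℤ, φ ≠ 0 ∧ ψ ≠ 0 ∧ χ ≠ 0 ∧
      BddB ![18 * L, 18 * L, 0] (N ^ (18 * L)) φ ∧
      BddB ![θ * (18 * L), 0, 18 * L] (N ^ (θ * (18 * L))) ψ ∧
      BddB ![0, θ * (18 * L), 18 * L] (N ^ (θ * (18 * L))) χ ∧
      ∀ P ∈ S', eval P φ = 0 ∧ eval P ψ = 0 ∧ eval P χ = 0) → S'.card ≤ B) →
    S.card ≤ C * Q ^ 5 * B

/-- value bound for polynomials in a box -/
lemma eval_leB (hE : Stmt_BddBEval) {d : Fin 3 → ℕ} {H h e N θ : ℕ} {G : MvPolynomial (Fin 3) ℤ}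
    {P : Pt} (hG : BddB d H G) (hN : 1 ≤ N) (hP : ∀ i, |P i| ≤ (sz N θ i : ℤ)) (hH : H ≤ N ^ h)
    (hc : (d 0 + 1) * (d 1 + 1) * (d 2 + 1) ≤ N ^ 2) (he : d 0 + d 1 + θ * d 2 ≤ e) :
    |eval P G| ≤ (N : ℤ) ^ (2 + h + e) := by
  refine (hE d (sz N θ) H G P hG (one_le_sz hN) hP).trans ?_
  have e1 : sz N θ 0 ^ d 0 * sz N θ 1 ^ d 1 * sz N θ 2 ^ d 2 = N ^ (d 0 + d 1 + θ * d 2) := by
    show N ^ d 0 * N ^ d 1 * (N ^ θ) ^ d 2 = _
    rw [← pow_mul, ← pow_add, ← pow_add]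
  have : (d 0 + 1) * (d 1 + 1) * (d 2 + 1) * H * (sz N θ 0 ^ d 0 * sz N θ 1 ^ d 1 * sz N θ 2 ^ d 2)
      ≤ N ^ (2 + h + e) := by
    rw [e1]
    calc _ ≤ N ^ 2 * N ^ h * N ^ e := by
          apply Nat.mul_le_mul (Nat.mul_le_mul hc hH)
          exact Nat.pow_le_pow_right hN he
      _ = N ^ (2 + h + e) := by rw [pow_add, pow_add]
  exact_mod_cast this

theorem lev1L (hA : Stmt_AuxGen) (hSel : Stmt_SelB) (hPd : Stmt_BddBPderiv) (hE : Stmt_BddBEval) :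
    Stmt_Lev1L := by
  intro L D0 h hL
  set hg : ℕ := 5 * D0 + h + 4 with hhg
  obtain ⟨w1, hw1⟩ : ∃ w, w = 4 * ((D0 + 1) ^ 2 + 1) ^ 2 * 2 ^ L := ⟨_, rfl⟩
  obtain ⟨w2, hw2⟩ : ∃ w, w = 4 * ((18 * L + 1) ^ 2 + 1) ^ 2 * 2 ^ L := ⟨_, rfl⟩
  obtain ⟨w3, hw3⟩ : ∃ w, w = D0 ^ D0 + 4 * (D0 + 1) ^ 2 * 2 ^ L := ⟨_, rfl⟩
  obtain ⟨w4, hw4⟩ : ∃ w, w = 6 ^ L := ⟨_, rfl⟩
  obtain ⟨w5, hw5⟩ : ∃ w, w = 4 * (1 + 1) ^ 2 * 2 ^ L := ⟨_, rfl⟩
  refine ⟨1 + hg, 4 + hg, 162 * (D0 + 1) ^ 3, 2 + w1 + w2 + w3 + w4 + w5, ?_⟩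
  intro N Q M PP hN hEnv hMM m n k θ hm hmM hn hnM hk hkM hθ hθM s t hs ht G hG bG S hS hvan B hB
  classical
  have hN1 : 1 ≤ N := by omega
  have hN2 : 2 ≤ N := by omega
  have hN6 : 6 ^ L ≤ N := by rw [← hw4]; omega
  have hNw1 : 4 * ((D0 + 1) ^ 2 + 1) ^ 2 * 2 ^ L ≤ N := by rw [← hw1]; omega
  have hNw2 : 4 * ((18 * L + 1) ^ 2 + 1) ^ 2 * 2 ^ L ≤ N := by rw [← hw2]; omega
  have hNw3 : D0 ^ D0 + 4 * (D0 + 1) ^ 2 * 2 ^ L ≤ N := by rw [← hw3]; omega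
  have hNw5 : 4 * (1 + 1) ^ 2 * 2 ^ L ≤ N := by rw [← hw5]; omega
  have hD0D0 : D0 ^ D0 ≤ N := le_trans (Nat.le_add_right _ _) hNw3
  have hθD0 : θ * D0 + 1 ≤ N := hEnv.small hL hMM hθM (le_trans (Nat.le_add_left _ _) hNw3)
  have hMN : M ≤ N := by
    have := hEnv.small hL hMM (le_refl M) hNw5
    omega
  have hMN2 : M ≤ N ^ 2 := by
    calc M ≤ N := hMN
      _ ≤ N ^ 2 := Nat.le_self_pow (by norm_num) N
  have hcnt : ∀ D : ℕ, 4 * ((D + 1) ^ 2 + 1) ^ 2 * 2 ^ L ≤ N →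
      (θ * D + 1) * (θ * D + 1) * (D + 1) ≤ N ^ 2 := by
    intro D hNs
    have h1 := hEnv.small hL hMM hθM hNs
    calc (θ * D + 1) * (θ * D + 1) * (D + 1) ≤ ((θ * D + 1) * (D + 1)) * ((θ * D + 1) * (D + 1)) := by
          have : 1 ≤ D + 1 := by omega
          nlinarith [Nat.zero_le ((θ * D + 1) * (θ * D + 1) * (D + 1) * D)]
      _ ≤ (θ * (D + 1) ^ 2 + 1) * (θ * (D + 1) ^ 2 + 1) := by
          have : (θ * D + 1) * (D + 1) ≤ θ * (D + 1) ^ 2 + 1 := by nlinarith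
          gcongr
      _ ≤ N * N := by gcongr
      _ = N ^ 2 := by ring
  obtain ⟨DD, hDc, hDB, hDd, hDP⟩ := hSel ![θ * D0, θ * D0, D0] (N ^ (θ * h)) G hG bG
  have hDc' : DD.card ≤ Q * (D0 + 1) ^ 3 := by
    refine hDc.trans ?_
    show (θ * D0 + 1) * (θ * D0 + 1) * (D0 + 1) ≤ _
    have h2 : θ * D0 + 1 ≤ θ * (D0 + 1) := by rw [mul_add]; omega
    calc (θ * D0 + 1) * (θ * D0 + 1) * (D0 + 1) ≤ (θ * (D0 + 1)) * (θ * (D0 + 1)) * (D0 + 1) := by gcongr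
      _ = (θ * θ) * (D0 + 1) ^ 3 := by ring
      _ ≤ (M * M) * (D0 + 1) ^ 3 := by gcongr
      _ ≤ Q * (D0 + 1) ^ 3 := by gcongr
  have hHb : (θ * D0) ^ (θ * D0) * (θ * D0) ^ (θ * D0) * D0 ^ D0 * N ^ (θ * h)
      ≤ N ^ (2 * (θ * D0) + 1 + θ * h) := by
    calc (θ * D0) ^ (θ * D0) * (θ * D0) ^ (θ * D0) * D0 ^ D0 * N ^ (θ * h)
        ≤ N ^ (θ * D0) * N ^ (θ * D0) * N * N ^ (θ * h) := by
          have : θ * D0 ≤ N := by omega
          gcongr
      _ = N ^ (2 * (θ * D0) + 1 + θ * h) := by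
          rw [pow_add, pow_add, two_mul, pow_add, pow_one]
  have hev : ∀ b ∈ DD, ∀ P ∈ S, ∀ i, |eval P (pderiv i b)| ≤ (N : ℤ) ^ (θ * hg) := by
    intro b hb P hP i
    have h1 := hPd _ _ b i (hDB b hb)
    have hdi : (![θ * D0, θ * D0, D0] : Fin 3 → ℕ) i ≤ N := by
      have hD0N : D0 ≤ N := by
        have : D0 ≤ θ * D0 := Nat.le_mul_of_pos_left _ hθ
        omega
      fin_cases i
      · show θ * D0 ≤ N; omega
      · show θ * D0 ≤ N; omega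
      · exact hD0N
    have h2 : (![θ * D0, θ * D0, D0] : Fin 3 → ℕ) i * ((θ * D0) ^ (θ * D0) * (θ * D0) ^ (θ * D0) * D0 ^ D0 * N ^ (θ * h))
        ≤ N ^ (1 + (2 * (θ * D0) + 1 + θ * h)) := by
      rw [pow_add, pow_one]
      exact Nat.mul_le_mul hdi hHb
    refine (eval_leB hE (θ := θ) (e := 3 * (θ * D0)) h1 hN1 (hS P hP).abs_le h2 (hcnt D0 hNw1) ?_).trans ?_
    · show θ * D0 + θ * D0 + θ * D0 ≤ 3 * (θ * D0)
      omega
    · apply pow_le_pow_right₀ (by exact_mod_cast hN1)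
      rw [hhg]
      have e1 : θ * (5 * D0 + h + 4) = 5 * (θ * D0) + θ * h + 4 * θ := by ring
      rw [e1]
      omega
  have hNz : (1 : ℤ) ≤ N := by exact_mod_cast hN1
  have hN2z : (2 : ℤ) ≤ N := by exact_mod_cast hN2
  have hnz : (n : ℤ) ≤ (N : ℤ) := by exact_mod_cast hnM.trans hMN
  have habs : ∀ u : ℤ, (u = 1 ∨ u = -1) → |u| = 1 := by
    intro u hu
    rcases hu with rfl | rfl <;> simp
  have hcard : S.card ≤ (DD ×ˢ (Finset.range 2 ×ˢ (PP ×ˢ (Finset.range (3 * Q) ×ˢ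
      (Finset.range (3 * Q) ×ˢ Finset.range (3 * Q)))))).card * B := by
    apply card_le_of_rel S _ (R1L m n k s t) B
    · intro P hP
      have hGd := hS P hP
      obtain ⟨b, hb, hb0, i, hi⟩ := hDP P (hvan P hP)
      have hne : eval P (pderiv 0 b) ≠ 0 ∨ eval P (pderiv 1 b) ≠ 0 ∨ eval P (pderiv 2 b) ≠ 0 := by
        fin_cases i
        · exact Or.inl hi
        · exact Or.inr (Or.inl hi)
        · exact Or.inr (Or.inr hi)
      have hg0 := hev b hb P hP 0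
      have hg1 := hev b hb P hP 1
      have hg2 := hev b hb P hP 2
      have hsmall : |(n : ℤ) * eval P (pderiv 2 b)| < P 2 ^ (k - 1) := by
        refine lt_of_le_of_lt ?_ hGd.big
        rw [abs_mul, Nat.abs_cast]
        calc (n : ℤ) * |eval P (pderiv 2 b)| ≤ (N : ℤ) * (N : ℤ) ^ (θ * hg) :=
              mul_le_mul hnz hg2 (abs_nonneg _) (by positivity)
          _ = (N : ℤ) ^ (1 + θ * hg) := by rw [pow_add, pow_one]
          _ ≤ (N : ℤ) ^ ((1 + hg) * θ) := by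
              apply pow_le_pow_right₀ hNz
              have e1 : (1 + hg) * θ = θ + θ * hg := by ring
              rw [e1]
              omega
      have k0 := grad_le hmM hN1 (hGd.abs_le 0) hMN2
      have k1 := grad_le hnM hN1 (hGd.abs_le 1) hMN2
      have k2 := hGd.grad2_le hs ht hmM hnM hk hkM hN2 hMN
      have k0' : |s * ((m : ℤ) * P 0 ^ (m - 1))| ≤ (N : ℤ) ^ (M + 2) := by
        rw [abs_mul, habs s hs, one_mul]; exact k0
      have k1' : |t * ((n : ℤ) * P 1 ^ (n - 1))| ≤ (N : ℤ) ^ (M + 2) := by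
        rw [abs_mul, habs t ht, one_mul]; exact k1
      have hp3 : ∀ u v : ℤ, |u| ≤ (N : ℤ) ^ (M + 2) → |v| ≤ (N : ℤ) ^ (θ * hg) →
          |u * v| ≤ (N : ℤ) ^ (M + 2 + θ * hg) := by
        intro u v hu hv
        rw [abs_mul, pow_add _ (M + 2)]
        exact mul_le_mul hu hv (abs_nonneg _) (by positivity)
      have hfin : 2 * (N : ℤ) ^ (M + 2 + θ * hg) ≤ (N : ℤ) ^ ((4 + hg) * M) := by
        calc 2 * (N : ℤ) ^ (M + 2 + θ * hg) ≤ (N : ℤ) * (N : ℤ) ^ (M + 2 + θ * hg) := by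
              apply mul_le_mul_of_nonneg_right hN2z (by positivity)
          _ = (N : ℤ) ^ (M + 3 + θ * hg) := by rw [← pow_succ']; congr 1; omega
          _ ≤ (N : ℤ) ^ ((4 + hg) * M) := by
              apply pow_le_pow_right₀ hNz
              have h1 := hEnv.hM1
              have h2 := Nat.mul_le_mul_right hg hθM
              have e1 : (4 + hg) * M = 4 * M + M * hg := by ring
              rw [e1]
              omega
      have hsum : ∀ u v : ℤ, |u| ≤ (N : ℤ) ^ (M + 2 + θ * hg) → |v| ≤ (N : ℤ) ^ (M + 2 + θ * hg) →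
          |u + v| ≤ (N : ℤ) ^ ((4 + hg) * M) := by
        intro u v hu hv
        refine (abs_add_le _ _).trans (le_trans ?_ hfin)
        linarith
      rcases ari1L _ _ _ _ _ _ s t m n k (hGd.pos 0) (hGd.pos 1) (hGd.pos 2) hm hn hk hs ht hGd.c12
        hsmall hne with h1 | h1
      · obtain ⟨p, hpP, hpd⟩ := hEnv.exists_prime hL (by omega) h1
          (hsum _ _ (hp3 _ _ k0' hg2) (hp3 _ _ k2 hg0))
        refine ⟨(b, 0, p, res p P), ?_, hb0, ?_, rfl⟩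
        · simp only [Finset.mem_product]
          refine ⟨hb, by simp, hpP, ?_⟩
          have := res_mem (hEnv.prime p hpP).pos (hEnv.hi p hpP) P
          simpa only [Finset.mem_product] using this
        · rw [det_pvL0]; exact hpd
      · obtain ⟨p, hpP, hpd⟩ := hEnv.exists_prime hL (by omega) h1
          (hsum _ _ (hp3 _ _ k1' hg2) (hp3 _ _ k2 hg1))
        refine ⟨(b, 1, p, res p P), ?_, hb0, ?_, rfl⟩
        · simp only [Finset.mem_product]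
          refine ⟨hb, by simp, hpP, ?_⟩
          have := res_mem (hEnv.prime p hpP).pos (hEnv.hi p hpP) P
          simpa only [Finset.mem_product] using this
        · rw [det_pvL1]; exact hpd
    · intro l hl S' hS' hR
      simp only [Finset.mem_product] at hl
      have hpP := hl.2.2.1
      have hpp := hEnv.prime _ hpP
      apply hB S' hS'
      have hbox : ∀ P ∈ S', ∀ i, |P i| ≤ (sz N θ i : ℤ) := fun P hP => (hS P (hS' hP)).abs_le
      have hcong : ∀ P ∈ S', ∀ P' ∈ S', ∀ i, (l.2.2.1 : ℤ) ∣ P i - P' i :=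
        fun P hP P' hP' => res_eq hpp.pos ((hR P hP).2.2.trans (hR P' hP').2.2.symm)
      have hv : ∀ P ∈ S', ∀ ρ, eval P ((![FL m n k s t, l.1] : Fin 2 → MvPolynomial (Fin 3) ℤ) ρ) = 0 := by
        intro P hP ρ
        fin_cases ρ
        · exact (hS P (hS' hP)).eval_FL
        · exact (hR P hP).1
      have hd := fun P hP => (hR P hP).2.1
      have hc2 := hcnt (18 * L) hNw2
      have hθc : 18 * L ≤ θ * (18 * L) := Nat.le_mul_of_pos_left _ hθ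
      obtain ⟨φ, f1, f2, f3⟩ := auxCore hA hEnv hL hpP hN6 (pvL l.2.1) (pvL_inj _)
        ![FL m n k s t, l.1] S' θ hbox hcong hv hd ![18 * L, 18 * L, 0] (18 * L) (36 * L)
        (by show 18 * L + 18 * L + θ * 0 ≤ 36 * L; omega)
        (by
          show (18 * L + 1) * (18 * L + 1) * (0 + 1) ≤ N ^ 2
          refine le_trans ?_ hc2
          gcongr
          omega)
        (by
          show 2 * (18 * L + 36 * L + 2) * (L * (18 * L + 36 * L + 2)) ^ (3 - 2)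
            ≤ 18 * L * ((18 * L + 1) * (18 * L + 1) * (0 + 1))
          have e1 : 18 * L + 36 * L + 2 ≤ 3 * (18 * L + 1) := by omega
          calc 2 * (18 * L + 36 * L + 2) * (L * (18 * L + 36 * L + 2)) ^ (3 - 2)
              ≤ 2 * (3 * (18 * L + 1)) * (L * (3 * (18 * L + 1))) ^ (3 - 2) := by gcongr
            _ = 18 * L * ((18 * L + 1) * (18 * L + 1) * (0 + 1)) := by ring)
      have hcount2 : 2 * (θ * (18 * L) + 2 * (θ * (18 * L)) + 2) *
          (L * (θ * (18 * L) + 2 * (θ * (18 * L)) + 2)) ^ (3 - 2)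
            ≤ θ * (18 * L) * ((θ * (18 * L) + 1) * (18 * L + 1)) := by
        have e1 : θ * (18 * L) + 2 * (θ * (18 * L)) + 2 ≤ 3 * (θ * (18 * L) + 1) := by omega
        have e2 : θ * (18 * L) + 1 ≤ θ * (18 * L + 1) := by rw [mul_add]; omega
        calc 2 * (θ * (18 * L) + 2 * (θ * (18 * L)) + 2) *
          (L * (θ * (18 * L) + 2 * (θ * (18 * L)) + 2)) ^ (3 - 2)
            ≤ 2 * (3 * (θ * (18 * L) + 1)) * (L * (3 * (θ * (18 * L) + 1))) ^ (3 - 2) := by gcongr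
          _ = 18 * L * (θ * (18 * L) + 1) * (θ * (18 * L) + 1) := by ring
          _ ≤ 18 * L * (θ * (18 * L + 1)) * (θ * (18 * L) + 1) := by gcongr
          _ = θ * (18 * L) * ((θ * (18 * L) + 1) * (18 * L + 1)) := by ring
      obtain ⟨ψ, g1, g2, g3⟩ := auxCore hA hEnv hL hpP hN6 (pvL l.2.1) (pvL_inj _)
        ![FL m n k s t, l.1] S' θ hbox hcong hv hd ![θ * (18 * L), 0, 18 * L] (θ * (18 * L))
        (2 * (θ * (18 * L)))
        (by show θ * (18 * L) + 0 + θ * (18 * L) ≤ 2 * (θ * (18 * L)); omega)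
        (by
          show (θ * (18 * L) + 1) * (0 + 1) * (18 * L + 1) ≤ N ^ 2
          refine le_trans ?_ hc2
          gcongr
          omega)
        (by
          show 2 * (θ * (18 * L) + 2 * (θ * (18 * L)) + 2) *
            (L * (θ * (18 * L) + 2 * (θ * (18 * L)) + 2)) ^ (3 - 2)
            ≤ θ * (18 * L) * ((θ * (18 * L) + 1) * (0 + 1) * (18 * L + 1))
          refine hcount2.trans (le_of_eq (by ring)))
      obtain ⟨χ, c1, c2, c3⟩ := auxCore hA hEnv hL hpP hN6 (pvL l.2.1) (pvL_inj _)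
        ![FL m n k s t, l.1] S' θ hbox hcong hv hd ![0, θ * (18 * L), 18 * L] (θ * (18 * L))
        (2 * (θ * (18 * L)))
        (by show 0 + θ * (18 * L) + θ * (18 * L) ≤ 2 * (θ * (18 * L)); omega)
        (by
          show (0 + 1) * (θ * (18 * L) + 1) * (18 * L + 1) ≤ N ^ 2
          refine le_trans ?_ hc2
          gcongr
          omega)
        (by
          show 2 * (θ * (18 * L) + 2 * (θ * (18 * L)) + 2) *
            (L * (θ * (18 * L) + 2 * (θ * (18 * L)) + 2)) ^ (3 - 2)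
            ≤ θ * (18 * L) * ((0 + 1) * (θ * (18 * L) + 1) * (18 * L + 1))
          refine hcount2.trans (le_of_eq (by ring)))
      exact ⟨φ, ψ, χ, f1, g1, c1, f2, g2, c2, fun P hP => ⟨f3 P hP, g3 P hP, c3 P hP⟩⟩
  have hPPc := hEnv.card_le
  simp only [Finset.card_product, Finset.card_range] at hcard
  calc S.card ≤ _ := hcard
    _ ≤ (Q * (D0 + 1) ^ 3) * (2 * ((3 * Q) * (3 * Q * (3 * Q * (3 * Q))))) * B := by gcongr
    _ = 162 * (D0 + 1) ^ 3 * Q ^ 5 * B := by ring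

end Pool.Agent.Work.MP_2738db_nt_T
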