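import Pool.Agent.Work.MP_2738db_nt_T.Interface

set_option autoImplicit false

namespace Pool.Agent.Work.MP_2738db_nt_T

lemma dvd_small_eq_zero {d a : ℤ} (hd : 0 < d) (h : d ∣ a) (ha : |a| < d) : a = 0 := by
  by_contra h0
  have := Int.le_of_dvd (abs_pos.mpr h0) ((dvd_abs _ _).mpr h)
  omega

theorem stmt_ari1 : Stmt_Ari1 := by
  intro x y z g0 g1 g2 m n k hx hy hz hm hn hk hcop hsmall hg
  by_contra hcon
  push Not at hcon
  obtain ⟨h0, h1⟩ := hcon
  have hzk : 0 < z ^ (k - 1) := pow_pos hz _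
  have hcop' : IsCoprime (z ^ (k - 1)) (y ^ (n - 1)) := (hcop.symm.pow)
  have hdvd : z ^ (k - 1) ∣ y ^ (n - 1) * ((n : ℤ) * g2) := by
    refine ⟨-((k : ℤ) * g1), ?_⟩
    linear_combination h1
  have h2 : z ^ (k - 1) ∣ (n : ℤ) * g2 := hcop'.dvd_of_dvd_mul_left hdvd
  have h3 := dvd_small_eq_zero hzk h2 hsmall
  have hn0 : (n : ℤ) ≠ 0 := by positivity
  have hk0 : (k : ℤ) ≠ 0 := by positivity
  have hg2 : g2 = 0 := by
    rcases mul_eq_zero.mp h3 with h | h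
    · exact absurd h hn0
    · exact h
  subst hg2
  have h4 : (k : ℤ) * z ^ (k - 1) ≠ 0 := mul_ne_zero hk0 hzk.ne'
  rw [mul_zero, zero_add] at h0 h1
  have hg0 : g0 = 0 := (mul_eq_zero.mp h0).resolve_left h4
  have hg1 : g1 = 0 := (mul_eq_zero.mp h1).resolve_left h4
  rcases hg with h | h | h
  · exact h hg0
  · exact h hg1
  · exact h rfl

theorem stmt_ari2 : Stmt_Ari2 := by
  intro x y z e0 e1 b0 b1 b2 m n k hx hy hz hm hn hk hcop heq he hb hsmall hD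
  have hzk : 0 < z ^ (k - 1) := pow_pos hz _
  have hn0 : (n : ℤ) ≠ 0 := by positivity
  have hm0 : (m : ℤ) ≠ 0 := by positivity
  have hk0 : (k : ℤ) ≠ 0 := by positivity
  have hcop' : IsCoprime (z ^ (k - 1)) (y ^ n) := (hcop.symm.pow)
  have hxm : x ^ m = x ^ (m - 1) * x := by rw [← pow_succ]; congr 1; omega
  have hyn : y ^ n = y ^ (n - 1) * y := by rw [← pow_succ]; congr 1; omega
  have hzk' : z ^ k = z ^ (k - 1) * z := by rw [← pow_succ]; congr 1; omega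
  have hdvd : z ^ (k - 1) ∣ y ^ n * (((n : ℤ) * x * e0 + (m : ℤ) * y * e1) * b2) := by
    refine ⟨(m : ℤ) * z * y * e1 * b2 - (k : ℤ) * x * y * (e0 * b1 - e1 * b0), ?_⟩
    have e1' : x ^ (m - 1) * x + y ^ (n - 1) * y = z ^ (k - 1) * z := by
      rw [← hxm, ← hyn, ← hzk']; exact heq
    rw [hyn]
    linear_combination (-(x * y)) * hD + (m : ℤ) * y * e1 * b2 * e1'
  have h2 : z ^ (k - 1) ∣ ((n : ℤ) * x * e0 + (m : ℤ) * y * e1) * b2 := hcop'.dvd_of_dvd_mul_left hdvd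
  have habs : |((n : ℤ) * x * e0 + (m : ℤ) * y * e1) * b2| < z ^ (k - 1) := by
    refine lt_of_le_of_lt ?_ hsmall
    rw [abs_mul]
    apply mul_le_mul_of_nonneg_right _ (abs_nonneg _)
    refine (abs_add_le _ _).trans ?_
    rw [abs_mul, abs_mul, abs_mul, abs_mul, abs_of_pos hx, abs_of_pos hy, Nat.abs_cast, Nat.abs_cast]
  have h3 := dvd_small_eq_zero hzk h2 habs
  have hb2 : b2 = 0 := (mul_eq_zero.mp h3).resolve_left he
  subst hb2
  have h4 : (k : ℤ) * z ^ (k - 1) ≠ 0 := mul_ne_zero hk0 hzk.ne'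
  have h5 : e0 * b1 - e1 * b0 = 0 := by
    have h6 : (k : ℤ) * z ^ (k - 1) * (e0 * b1 - e1 * b0) = 0 := by linear_combination -hD
    exact (mul_eq_zero.mp h6).resolve_left h4
  rcases hb with h | h
  · exact h rfl
  · exact h h5

end Pool.Agent.Work.MP_2738db_nt_T
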