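import Pool.Agent.Work.MP_2738db_nt_T.Poly
import Pool.Agent.Work.MP_2738db_nt_T.Ari

set_option autoImplicit false

namespace Pool.Agent.Work.MP_2738db_nt_T

open MvPolynomial

/-- counting with labels -/
lemma card_le_of_rel {α β : Type*} (S : Finset α) (T : Finset β) (R : α → β → Prop) (B : ℕ)
    (h1 : ∀ a ∈ S, ∃ b ∈ T, R a b)
    (h2 : ∀ b ∈ T, ∀ S' ⊆ S, (∀ a ∈ S', R a b) → S'.card ≤ B) : S.card ≤ T.card * B := by
  classical
  have hsub : S ⊆ T.biUnion (fun b => S.filter (fun a => R a b)) := by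
    intro a ha
    obtain ⟨b, hb, hR⟩ := h1 a ha
    rw [Finset.mem_biUnion]
    exact ⟨b, hb, Finset.mem_filter.mpr ⟨ha, hR⟩⟩
  calc S.card ≤ (T.biUnion (fun b => S.filter (fun a => R a b))).card := Finset.card_le_card hsub
    _ ≤ ∑ b ∈ T, (S.filter (fun a => R a b)).card := Finset.card_biUnion_le
    _ ≤ ∑ _b ∈ T, B := by
        apply Finset.sum_le_sum
        intro b hb
        apply h2 b hb _ (Finset.filter_subset _ _)
        intro a ha
        exact (Finset.mem_filter.mp ha).2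
    _ = T.card * B := by rw [Finset.sum_const, smul_eq_mul]

lemma Env.Q_pos {L E N Q M : ℕ} {PP : Finset ℕ} (h : Env L E N Q M PP) : 1 ≤ Q := h.hM1.trans h.hMQ

lemma Env.Q_le {L E N Q M : ℕ} {PP : Finset ℕ} (h : Env L E N Q M PP) (hL : 1 ≤ L) : Q ≤ 2 ^ L * N := by
  refine le_trans ?_ h.hQ
  calc Q = Q ^ 1 := (pow_one Q).symm
    _ ≤ Q ^ L := Nat.pow_le_pow_right h.Q_pos hL

lemma Env.card_le {L E N Q M : ℕ} {PP : Finset ℕ} (h : Env L E N Q M PP) : PP.card ≤ 3 * Q := by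
  have h1 : PP ⊆ Finset.Ioc 0 (3 * Q) := by
    intro p hp
    rw [Finset.mem_Ioc]
    exact ⟨(h.prime p hp).pos, h.hi p hp⟩
  have := Finset.card_le_card h1
  simpa using this

/-- a nonzero integer of controlled size is not divisible by all auxiliary primes. -/
lemma Env.exists_prime {L E N Q M : ℕ} {PP : Finset ℕ} (h : Env L E N Q M PP) (hL : 1 ≤ L)
    (hE : 1 ≤ E) {D : ℤ} (hD0 : D ≠ 0) (hD : |D| ≤ (N : ℤ) ^ (E * M)) :
    ∃ p ∈ PP, ¬ (p : ℤ) ∣ D := by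
  by_contra hcon
  push Not at hcon
  have h1 : (∏ p ∈ PP, p) ∣ D.natAbs := by
    apply Finset.prod_primes_dvd
    · intro p hp
      exact (h.prime p hp).prime
    · intro p hp
      exact Int.natCast_dvd.mp (hcon p hp)
  have h2 : ∏ p ∈ PP, p ≤ D.natAbs := Nat.le_of_dvd (Int.natAbs_pos.mpr hD0) h1
  have h3 : (Q + 1) ^ PP.card ≤ ∏ p ∈ PP, p := by
    rw [← Finset.prod_const]
    exact Finset.prod_le_prod' (fun p hp => h.lo p hp)
  have h4 : D.natAbs ≤ N ^ (E * M) := by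
    have : (D.natAbs : ℤ) ≤ ((N ^ (E * M) : ℕ) : ℤ) := by
      rw [Int.natCast_natAbs]; push_cast; exact hD
    exact_mod_cast this
  have h5 : N ^ (E * M) ≤ Q ^ (L * E * M) := by
    calc N ^ (E * M) ≤ (Q ^ L) ^ (E * M) := Nat.pow_le_pow_left h.hN _
      _ = Q ^ (L * E * M) := by rw [← pow_mul, mul_assoc]
  have h6 : Q ^ (L * E * M) ≤ Q ^ PP.card := Nat.pow_le_pow_right h.Q_pos h.card
  have h7 : 1 ≤ PP.card := by
    refine le_trans ?_ h.card
    have := h.hM1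
    exact Nat.mul_pos (Nat.mul_pos hL hE) this
  have h8 : Q ^ PP.card < (Q + 1) ^ PP.card := Nat.pow_lt_pow_left (Nat.lt_succ_self Q) (by omega)
  omega

/-- `x ^ m + y ^ n - z ^ k` -/
noncomputable def FF (m n k : ℕ) : MvPolynomial (Fin 3) ℤ := X 0 ^ m + X 1 ^ n - X 2 ^ k

lemma eval_FF (m n k : ℕ) (P : Pt) : eval P (FF m n k) = P 0 ^ m + P 1 ^ n - P 2 ^ k := by
  simp [FF]

lemma eval_FF_0 (m n k : ℕ) (P : Pt) : eval P (pderiv 0 (FF m n k)) = (m : ℤ) * P 0 ^ (m - 1) := by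
  simp only [FF, map_sub, map_add, pderiv_pow, pderiv_X_self, map_mul, map_natCast, map_pow, eval_X]
  rw [pderiv_X_of_ne (by decide), pderiv_X_of_ne (by decide)]
  simp

lemma eval_FF_1 (m n k : ℕ) (P : Pt) : eval P (pderiv 1 (FF m n k)) = (n : ℤ) * P 1 ^ (n - 1) := by
  simp only [FF, map_sub, map_add, pderiv_pow, pderiv_X_self, map_mul, map_natCast, map_pow, eval_X]
  rw [pderiv_X_of_ne (by decide), pderiv_X_of_ne (by decide)]
  simp

lemma eval_FF_2 (m n k : ℕ) (P : Pt) : eval P (pderiv 2 (FF m n k)) = -((k : ℤ) * P 2 ^ (k - 1)) := by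
  simp only [FF, map_sub, map_add, pderiv_pow, pderiv_X_self, map_mul, map_natCast, map_pow, eval_X]
  rw [pderiv_X_of_ne (by decide), pderiv_X_of_ne (by decide)]
  simp

lemma Good.eval_FF {N A m n k : ℕ} {P : Pt} (h : Good N A m n k P) : eval P (FF m n k) = 0 := by
  rw [Pool.Agent.Work.MP_2738db_nt_T.eval_FF, h.eq, sub_self]

lemma Good.abs_le {N A m n k : ℕ} {P : Pt} (h : Good N A m n k P) : ∀ i, |P i| ≤ (N : ℤ) := by
  intro i
  rw [abs_of_pos (h.pos i)]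
  exact h.le i

lemma Good.mono {N A A' m n k : ℕ} {P : Pt} (h : Good N A m n k P) (hN : 1 ≤ N) (hA : A' ≤ A) :
    Good N A' m n k P :=
  ⟨h.pos, h.le, h.c01, h.c12, h.c02, h.eq,
    lt_of_le_of_lt (pow_le_pow_right₀ (by exact_mod_cast hN) hA) h.big⟩

lemma Env.mono {L E E' N Q M : ℕ} {PP : Finset ℕ} (h : Env L E N Q M PP) (hE : E' ≤ E) :
    Env L E' N Q M PP :=
  ⟨h.hN, h.hQ, h.hM1, h.hMQ, h.prime, h.lo, h.hi,
    le_trans (Nat.mul_le_mul_right _ (Nat.mul_le_mul_left _ hE)) h.card⟩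

/-- value bound for bounded polynomials with coefficients at most `c * N ^ h`. -/
lemma eval_le_pow {D H h N : ℕ} {G : MvPolynomial (Fin 3) ℤ} {P : Pt} (hG : Bdd D H G) (hN : 1 ≤ N)
    (hP : ∀ i, |P i| ≤ (N : ℤ)) {c : ℕ} (hH : H ≤ c * N ^ h) (hc : (D + 1) ^ 3 * c ≤ N) :
    |eval P G| ≤ (N : ℤ) ^ (1 + h + D) := by
  refine (stmt_bddEval D H N G P hG hN hP).trans ?_
  have : (D + 1) ^ 3 * H * N ^ D ≤ N ^ (1 + h + D) := by
    calc (D + 1) ^ 3 * H * N ^ D ≤ (D + 1) ^ 3 * (c * N ^ h) * N ^ D := by gcongr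
      _ = ((D + 1) ^ 3 * c) * N ^ h * N ^ D := by ring
      _ ≤ N * N ^ h * N ^ D := by gcongr
      _ = N ^ (1 + h + D) := by rw [pow_add, pow_add, pow_one]
  exact_mod_cast this

/-- terms of the gradient of `FF` -/
lemma grad_le {M N e : ℕ} {x : ℤ} (he : e ≤ M) (hN : 1 ≤ N) (hx : |x| ≤ (N : ℤ)) (hM : M ≤ N ^ 2) :
    |(e : ℤ) * x ^ (e - 1)| ≤ (N : ℤ) ^ (M + 2) := by
  rw [abs_mul, abs_pow, Nat.abs_cast]
  have h1 : (e : ℤ) ≤ (N : ℤ) ^ 2 := by exact_mod_cast he.trans hM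
  have h2 : |x| ^ (e - 1) ≤ (N : ℤ) ^ M := by
    calc |x| ^ (e - 1) ≤ (N : ℤ) ^ (e - 1) := pow_le_pow_left₀ (abs_nonneg _) hx _
      _ ≤ (N : ℤ) ^ M := pow_le_pow_right₀ (by exact_mod_cast hN) (by omega)
  calc (e : ℤ) * |x| ^ (e - 1) ≤ (N : ℤ) ^ 2 * (N : ℤ) ^ M :=
        mul_le_mul h1 h2 (by positivity) (by positivity)
    _ = (N : ℤ) ^ (M + 2) := by rw [← pow_add, add_comm]

/-- residue label -/
def res (p : ℕ) (P : Pt) : ℕ × ℕ × ℕ := ((P 0 % p).toNat, (P 1 % p).toNat, (P 2 % p).toNat)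

lemma res_eq {p : ℕ} (hp : 0 < p) {P P' : Pt} (h : res p P = res p P') :
    ∀ i, (p : ℤ) ∣ P i - P' i := by
  have hp' : (0 : ℤ) < p := by exact_mod_cast hp
  simp only [res, Prod.mk.injEq] at h
  obtain ⟨h0, h1, h2⟩ := h
  have key : ∀ a b : ℤ, (a % p).toNat = (b % p).toNat → (p : ℤ) ∣ a - b := by
    intro a b hab
    have ha := Int.emod_nonneg a hp'.ne'
    have hb := Int.emod_nonneg b hp'.ne'
    have : a % p = b % p := by
      rw [← Int.toNat_of_nonneg ha, ← Int.toNat_of_nonneg hb, hab]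
    exact Int.ModEq.dvd (show b ≡ a [ZMOD p] from this.symm)
  intro i
  fin_cases i
  · exact key _ _ h0
  · exact key _ _ h1
  · exact key _ _ h2

lemma res_mem {p R : ℕ} (hp : 0 < p) (hR : p ≤ R) (P : Pt) :
    res p P ∈ Finset.range R ×ˢ (Finset.range R ×ˢ Finset.range R) := by
  have hp' : (0 : ℤ) < p := by exact_mod_cast hp
  have key : ∀ a : ℤ, (a % p).toNat < R := by
    intro a
    have h1 := Int.emod_lt_of_pos a hp'
    have h2 := Int.emod_nonneg a hp'.ne'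
    omega
  simp only [res, Finset.mem_product, Finset.mem_range]
  exact ⟨key _, key _, key _⟩

end Pool.Agent.Work.MP_2738db_nt_T
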