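import Mathlib

set_option autoImplicit false

/-!
Interface for the theorem `BoxCount` on MP_2738db_nt (Fermat-Catalan): for every `ε > 0` there are
`K, C` such that for all `N` at most `C * N ^ ε` value triples `(a ^ m, b ^ n, c ^ k)` with pairwise
coprime bases `a, b, c ≤ N`, `a ^ m + b ^ n = c ^ k`, `m, n, k ≥ 2` and some exponent `≥ K` exist.
See BLUEPRINT.md for the proofs of the blocks.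
-/

namespace Pool.Agent.Work.MP_2738db_nt_T

open MvPolynomial

/-- integer points of affine three-space -/
abbrev Pt := Fin 3 → ℤ

/-- total degree at most `D`, all coefficients at most `H` in absolute value -/
def Bdd (D H : ℕ) (G : MvPolynomial (Fin 3) ℤ) : Prop :=
  G.totalDegree ≤ D ∧ ∀ β, |G.coeff β| ≤ (H : ℤ)

/-- the points counted for one signature `(m, n, k)` -/
structure Good (N A m n k : ℕ) (P : Pt) : Prop where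
  pos : ∀ i, 0 < P i
  le : ∀ i, P i ≤ (N : ℤ)
  c01 : IsCoprime (P 0) (P 1)
  c12 : IsCoprime (P 1) (P 2)
  c02 : IsCoprime (P 0) (P 2)
  eq : P 0 ^ m + P 1 ^ n = P 2 ^ k
  big : (N : ℤ) ^ A < P 2 ^ (k - 1)

/-- the auxiliary primes: all of them in `(Q, 3Q]`, where `Q` is about `N ^ (1 / L)`;
`M` is the bound for the exponents. -/
structure Env (L E N Q M : ℕ) (PP : Finset ℕ) : Prop where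
  hN : N ≤ Q ^ L
  hQ : Q ^ L ≤ 2 ^ L * N
  hM1 : 1 ≤ M
  hMQ : M ≤ Q
  prime : ∀ p ∈ PP, p.Prime
  lo : ∀ p ∈ PP, Q < p
  hi : ∀ p ∈ PP, p ≤ 3 * Q
  card : L * E * M ≤ PP.card

/-! ### Block HEN: Hensel, Newton and the pigeonhole principle -/

/-- Auxiliary polynomials. `r` equations, pivot variables `piv`, `3 - r` free parameters. -/
def Stmt_Aux : Prop :=
  ∀ (r : ℕ) (piv : Fin r → Fin 3) (F : Fin r → MvPolynomial (Fin 3) ℤ) (p T H N D : ℕ)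
    (S : Set Pt) (B : Finset (Fin 3 →₀ ℕ)),
    Function.Injective piv → p.Prime → 1 ≤ T → 1 ≤ N →
    (∀ P ∈ S, ∀ i, |P i| ≤ (N : ℤ)) →
    (∀ P ∈ S, ∀ Q ∈ S, ∀ i, (p : ℤ) ∣ P i - Q i) →
    (∀ P ∈ S, ∀ ρ, eval P (F ρ) = 0) →
    (∀ P ∈ S, ¬ (p : ℤ) ∣ (Matrix.of fun ρ σ => eval P (pderiv (piv σ) (F ρ))).det) →
    (∀ β ∈ B, β 0 + β 1 + β 2 ≤ D) →
    (p ^ T) ^ (T ^ (3 - r)) < (H + 1) ^ B.card →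
    B.card * H * N ^ D < p ^ T →
    ∃ G : MvPolynomial (Fin 3) ℤ, G ≠ 0 ∧ (∀ β ∈ G.support, β ∈ B) ∧
      (∀ β, |G.coeff β| ≤ (H : ℤ)) ∧ ∀ P ∈ S, eval P G = 0

/-- Uniqueness: three equations with an invertible Jacobian. -/
def Stmt_Uniq : Prop :=
  ∀ (F : Fin 3 → MvPolynomial (Fin 3) ℤ) (p : ℕ) (P Q : Pt), p.Prime →
    (∀ i, (p : ℤ) ∣ P i - Q i) → (∀ ρ, eval P (F ρ) = 0) → (∀ ρ, eval Q (F ρ) = 0) →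
    ¬ (p : ℤ) ∣ (Matrix.of fun ρ i => eval P (pderiv i (F ρ))).det → P = Q

/-! ### Block POLY: bounded polynomials and choice of a derivative -/

def Stmt_BddPderiv : Prop :=
  ∀ (D H : ℕ) (G : MvPolynomial (Fin 3) ℤ) (i : Fin 3), Bdd D H G → Bdd D (D * H) (pderiv i G)

def Stmt_BddEval : Prop :=
  ∀ (D H N : ℕ) (G : MvPolynomial (Fin 3) ℤ) (P : Pt), Bdd D H G → 1 ≤ N →
    (∀ i, |P i| ≤ (N : ℤ)) → |eval P G| ≤ (((D + 1) ^ 3 * H * N ^ D : ℕ) : ℤ)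

/-- A nonzero polynomial has a finite stock of derivatives such that at every zero `P` one of them
vanishes while its gradient does not. -/
def Stmt_Sel : Prop :=
  ∀ (D H : ℕ) (G : MvPolynomial (Fin 3) ℤ), G ≠ 0 → Bdd D H G →
    ∃ DD : Finset (MvPolynomial (Fin 3) ℤ), DD.card ≤ 4 ^ (D + 1) ∧
      (∀ G' ∈ DD, Bdd D ((D + 1) ^ (D + 1) * H) G') ∧
      (∀ i, pderiv i G = 0 → ∀ G' ∈ DD, pderiv i G' = 0) ∧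
      ∀ P : Pt, eval P G = 0 → ∃ G' ∈ DD, eval P G' = 0 ∧ ∃ i, eval P (pderiv i G') ≠ 0

/-! ### Block ARI: the size trick -/

def Stmt_Ari1 : Prop :=
  ∀ (x y z g0 g1 g2 : ℤ) (m n k : ℕ), 0 < x → 0 < y → 0 < z → 1 ≤ m → 1 ≤ n → 1 ≤ k →
    IsCoprime y z → |(n : ℤ) * g2| < z ^ (k - 1) → (g0 ≠ 0 ∨ g1 ≠ 0 ∨ g2 ≠ 0) →
    (m : ℤ) * x ^ (m - 1) * g2 + (k : ℤ) * z ^ (k - 1) * g0 ≠ 0 ∨
    (n : ℤ) * y ^ (n - 1) * g2 + (k : ℤ) * z ^ (k - 1) * g1 ≠ 0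

/-- `η` has gradient `(e0, e1, 0)`, the third polynomial has gradient `(b0, b1, b2)`. -/
def Stmt_Ari2 : Prop :=
  ∀ (x y z e0 e1 b0 b1 b2 : ℤ) (m n k : ℕ), 0 < x → 0 < y → 0 < z → 1 ≤ m → 1 ≤ n → 1 ≤ k →
    IsCoprime y z → x ^ m + y ^ n = z ^ k →
    (n : ℤ) * x * e0 + (m : ℤ) * y * e1 ≠ 0 →
    (b2 ≠ 0 ∨ e0 * b1 - e1 * b0 ≠ 0) →
    (n * x * |e0| + m * y * |e1|) * |b2| < z ^ (k - 1) →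
    (m : ℤ) * x ^ (m - 1) * (e1 * b2) - (n : ℤ) * y ^ (n - 1) * (e0 * b2)
      - (k : ℤ) * z ^ (k - 1) * (e0 * b1 - e1 * b0) ≠ 0

/-! ### Block WT: the torus -/

def Stmt_Wt : Prop :=
  ∀ (D H m n : ℕ) (φ : MvPolynomial (Fin 3) ℤ), 1 ≤ m → 1 ≤ n → φ ≠ 0 → Bdd D H φ →
    pderiv 2 φ = 0 →
    ∃ (W : Finset (MvPolynomial (Fin 3) ℤ)) (Ex : Finset (ℤ × ℤ)),
      W.card ≤ (D + 1) ^ 2 + 1 ∧ Ex.card ≤ D ∧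
      (∀ η ∈ W, Bdd D (((m + n) * D + 1) ^ ((D + 1) ^ 2) * H) η ∧ pderiv 2 η = 0) ∧
      ∀ P : Pt, 0 < P 0 → 0 < P 1 → IsCoprime (P 0) (P 1) → eval P φ = 0 →
        (P 0, P 1) ∈ Ex ∨ ∃ η ∈ W, eval P η = 0 ∧
          (n : ℤ) * P 0 * eval P (pderiv 0 η) + (m : ℤ) * P 1 * eval P (pderiv 1 η) ≠ 0

/-! ### The three levels -/

def Stmt_Lev0 : Prop :=
  ∀ L : ℕ, 1 ≤ L → ∃ N0 : ℕ, ∀ (N Q M : ℕ) (PP : Finset ℕ), N0 ≤ N → Env L 1 N Q M PP →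
    ∀ m n k : ℕ, 1 ≤ m → m ≤ M → 1 ≤ n → n ≤ M → 1 ≤ k → k ≤ M →
    ∀ (S : Finset Pt), (∀ P ∈ S, Good N 0 m n k P) → ∀ B : ℕ,
    (∀ S' ⊆ S, (∃ G : MvPolynomial (Fin 3) ℤ, G ≠ 0 ∧ Bdd (384 * L ^ 2) (N ^ (128 * L ^ 2)) G ∧
      ∀ P ∈ S', eval P G = 0) → S'.card ≤ B) → S.card ≤ 27 * Q ^ 3 * B

def Stmt_Lev1 : Prop :=
  ∀ L D0 h : ℕ, 1 ≤ L → ∃ A E C N0 : ℕ, ∀ (N Q M : ℕ) (PP : Finset ℕ), N0 ≤ N →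
    Env L E N Q M PP → ∀ m n k : ℕ, 1 ≤ m → m ≤ M → 1 ≤ n → n ≤ M → 1 ≤ k → k ≤ M →
    ∀ G : MvPolynomial (Fin 3) ℤ, G ≠ 0 → Bdd D0 (N ^ h) G →
    ∀ (S : Finset Pt), (∀ P ∈ S, Good N A m n k P) → (∀ P ∈ S, eval P G = 0) → ∀ B : ℕ,
    (∀ S' ⊆ S, (∃ φ ψ χ : MvPolynomial (Fin 3) ℤ, φ ≠ 0 ∧ ψ ≠ 0 ∧ χ ≠ 0 ∧
      Bdd (36 * L) (N ^ (18 * L)) φ ∧ Bdd (36 * L) (N ^ (18 * L)) ψ ∧
      Bdd (36 * L) (N ^ (18 * L)) χ ∧ pderiv 2 φ = 0 ∧ pderiv 1 ψ = 0 ∧ pderiv 0 χ = 0 ∧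
      ∀ P ∈ S', eval P φ = 0 ∧ eval P ψ = 0 ∧ eval P χ = 0) → S'.card ≤ B) →
    S.card ≤ C * Q ^ 4 * B

def Stmt_Lev2 : Prop :=
  ∀ L D1 h : ℕ, 1 ≤ L → ∃ A E C N0 : ℕ, ∀ (N Q M : ℕ) (PP : Finset ℕ), N0 ≤ N →
    Env L E N Q M PP → ∀ m n k : ℕ, 1 ≤ m → m ≤ M → 1 ≤ n → n ≤ M → 1 ≤ k → k ≤ M →
    ∀ φ ψ χ : MvPolynomial (Fin 3) ℤ, φ ≠ 0 → ψ ≠ 0 → χ ≠ 0 →
      Bdd D1 (N ^ h) φ → Bdd D1 (N ^ h) ψ → Bdd D1 (N ^ h) χ →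
      pderiv 2 φ = 0 → pderiv 1 ψ = 0 → pderiv 0 χ = 0 →
    ∀ (S : Finset Pt), (∀ P ∈ S, Good N A m n k P) →
      (∀ P ∈ S, eval P φ = 0 ∧ eval P ψ = 0 ∧ eval P χ = 0) → S.card ≤ C * Q ^ 4

/-- all together, for one signature -/
def Stmt_Sig : Prop :=
  ∀ L : ℕ, 1 ≤ L → ∃ A E C N0 : ℕ, ∀ (N Q M : ℕ) (PP : Finset ℕ), N0 ≤ N →
    Env L E N Q M PP → ∀ m n k : ℕ, 1 ≤ m → m ≤ M → 1 ≤ n → n ≤ M → 1 ≤ k → k ≤ M →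
    ∀ (S : Finset Pt), (∀ P ∈ S, Good N A m n k P) → S.card ≤ C * Q ^ 11

/-- supply of primes -/
def Stmt_Primes : Prop :=
  ∀ L E : ℕ, 1 ≤ L → ∃ N0 : ℕ, ∀ N : ℕ, N0 ≤ N → ∃ (Q : ℕ) (PP : Finset ℕ),
    Env L E N Q (Nat.sqrt Q) PP

/-! ### The exponents -/

/-- Archimedean two logarithms theorem for rational integers -/
def Stmt_Arch : Prop :=
  ∃ C : ℝ, 1 ≤ C ∧ ∀ (X Y k₀ ℓ : ℕ) (A B : ℝ), 2 ≤ X → 2 ≤ Y → 1 ≤ k₀ → 1 ≤ ℓ →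
    Nat.Coprime ℓ k₀ → 1 ≤ A → 1 ≤ B → Real.log X ≤ A → Real.log Y ≤ B → (k₀ : ℝ) ≤ A * ℓ →
    30000 * B * (1 + Real.log ℓ) ≤ ℓ →
    Real.exp (-(C * (A * B) ^ 2 * (1 + Real.log ℓ) ^ 4)) ≤ |ℓ * Real.log X - k₀ * Real.log Y|

/-- the exponents are bounded by a power of `log N` -/
def Stmt_Exp : Prop :=
  ∃ C : ℝ, ∀ N a b c m n k : ℕ, 3 ≤ N → 1 ≤ a → a ≤ N → 1 ≤ b → b ≤ N → 1 ≤ c → c ≤ N →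
    Nat.Coprime a b → Nat.Coprime b c → Nat.Coprime a c → 2 ≤ m → 2 ≤ n → 2 ≤ k →
    (a = 1 → m = 2) → (b = 1 → n = 2) → a ^ m + b ^ n = c ^ k →
    (m : ℝ) ≤ C * (Real.log N) ^ 12 ∧ (n : ℝ) ≤ C * (Real.log N) ^ 12 ∧
      (k : ℝ) ≤ C * (Real.log N) ^ 12

/-- the theorem -/
def Stmt_Box : Prop :=
  ∀ ε : ℝ, 0 < ε → ∃ (K : ℕ) (C : ℝ), ∀ N : ℕ, 1 ≤ N →
    {t : ℕ × ℕ × ℕ | ∃ a b c m n k : ℕ, 0 < a ∧ a ≤ N ∧ 0 < b ∧ b ≤ N ∧ 0 < c ∧ c ≤ N ∧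
      Nat.Coprime a b ∧ Nat.Coprime b c ∧ Nat.Coprime a c ∧ 2 ≤ m ∧ 2 ≤ n ∧ 2 ≤ k ∧
      (K ≤ m ∨ K ≤ n ∨ K ≤ k) ∧ a ^ m + b ^ n = c ^ k ∧ t = (a ^ m, b ^ n, c ^ k)}.Finite ∧
    ({t : ℕ × ℕ × ℕ | ∃ a b c m n k : ℕ, 0 < a ∧ a ≤ N ∧ 0 < b ∧ b ≤ N ∧ 0 < c ∧ c ≤ N ∧
      Nat.Coprime a b ∧ Nat.Coprime b c ∧ Nat.Coprime a c ∧ 2 ≤ m ∧ 2 ≤ n ∧ 2 ≤ k ∧
      (K ≤ m ∨ K ≤ n ∨ K ≤ k) ∧ a ^ m + b ^ n = c ^ k ∧ t = (a ^ m, b ^ n, c ^ k)}.ncard : ℝ)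
      ≤ C * (N : ℝ) ^ ε

end Pool.Agent.Work.MP_2738db_nt_T
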