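import Pool.Agent.Work.MP_2738db_nt_T.EnvL
import Pool.Agent.Work.MP_2738db_nt_T.LInterface

set_option autoImplicit false

namespace Pool.Agent.Work.MP_2738db_nt_T

open MvPolynomial

/-! ### the polynomial with signs -/

/-- `s x ^ m + t y ^ n - z ^ k` -/
noncomputable def FL (m n k : ℕ) (s t : ℤ) : MvPolynomial (Fin 3) ℤ :=
  C s * X 0 ^ m + C t * X 1 ^ n - X 2 ^ k

lemma eval_FL (m n k : ℕ) (s t : ℤ) (P : Pt) :
    eval P (FL m n k s t) = s * P 0 ^ m + t * P 1 ^ n - P 2 ^ k := by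
  simp [FL]

lemma eval_FL_0 (m n k : ℕ) (s t : ℤ) (P : Pt) :
    eval P (pderiv 0 (FL m n k s t)) = s * ((m : ℤ) * P 0 ^ (m - 1)) := by
  simp only [FL, map_sub, map_add, pderiv_C_mul, pderiv_pow, pderiv_X_self, map_mul, map_natCast,
    map_pow, eval_X, eval_C]
  rw [pderiv_X_of_ne (by decide), pderiv_X_of_ne (by decide)]
  simp

lemma eval_FL_1 (m n k : ℕ) (s t : ℤ) (P : Pt) :
    eval P (pderiv 1 (FL m n k s t)) = t * ((n : ℤ) * P 1 ^ (n - 1)) := by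
  simp only [FL, map_sub, map_add, pderiv_C_mul, pderiv_pow, pderiv_X_self, map_mul, map_natCast,
    map_pow, eval_X, eval_C]
  rw [pderiv_X_of_ne (by decide), pderiv_X_of_ne (by decide)]
  simp

lemma eval_FL_2 (m n k : ℕ) (s t : ℤ) (P : Pt) :
    eval P (pderiv 2 (FL m n k s t)) = -((k : ℤ) * P 2 ^ (k - 1)) := by
  simp only [FL, map_sub, map_add, pderiv_C_mul, pderiv_pow, pderiv_X_self, map_mul, map_natCast,
    map_pow, eval_X, eval_C]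
  rw [pderiv_X_of_ne (by decide), pderiv_X_of_ne (by decide)]
  simp

/-! ### the size trick with signs -/

theorem ari1L (x y z g0 g1 g2 s t : ℤ) (m n k : ℕ) (hx : 0 < x) (hy : 0 < y) (hz : 0 < z)
    (hm : 1 ≤ m) (hn : 1 ≤ n) (hk : 1 ≤ k) (hs : s = 1 ∨ s = -1) (ht : t = 1 ∨ t = -1)
    (hcop : IsCoprime y z) (hsmall : |(n : ℤ) * g2| < z ^ (k - 1)) (hg : g0 ≠ 0 ∨ g1 ≠ 0 ∨ g2 ≠ 0) :
    s * ((m : ℤ) * x ^ (m - 1)) * g2 + (k : ℤ) * z ^ (k - 1) * g0 ≠ 0 ∨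
    t * ((n : ℤ) * y ^ (n - 1)) * g2 + (k : ℤ) * z ^ (k - 1) * g1 ≠ 0 := by
  by_contra hcon
  push Not at hcon
  obtain ⟨h0, h1⟩ := hcon
  have hzk : 0 < z ^ (k - 1) := pow_pos hz _
  have hcop' : IsCoprime (z ^ (k - 1)) (y ^ (n - 1)) := (hcop.symm.pow)
  have htt : t * t = 1 := by rcases ht with h | h <;> rw [h] <;> norm_num
  have hdvd : z ^ (k - 1) ∣ y ^ (n - 1) * ((n : ℤ) * g2) := by
    refine ⟨-(t * (k : ℤ) * g1), ?_⟩
    linear_combination t * h1 - ((n : ℤ) * y ^ (n - 1) * g2) * htt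
  have h2 : z ^ (k - 1) ∣ (n : ℤ) * g2 := hcop'.dvd_of_dvd_mul_left hdvd
  have h3 := dvd_small_eq_zero hzk h2 hsmall
  have hn0 : (n : ℤ) ≠ 0 := by positivity
  have hk0 : (k : ℤ) ≠ 0 := by positivity
  have hg2 : g2 = 0 := by
    rcases mul_eq_zero.mp h3 with h | h
    · exact absurd h hn0
    · exact h
  subst hg2
  have h4 : (k : ℤ) * z ^ (k - 1) ≠ 0 := mul_ne_zero hk0 hzk.ne'
  rw [mul_zero, zero_add] at h0 h1
  have hg0 : g0 = 0 := (mul_eq_zero.mp h0).resolve_left h4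
  have hg1 : g1 = 0 := (mul_eq_zero.mp h1).resolve_left h4
  rcases hg with h | h | h
  · exact h hg0
  · exact h hg1
  · exact h rfl

theorem ari2L (x y z e0 e1 b0 b1 b2 s t : ℤ) (m n k : ℕ) (hx : 0 < x) (hy : 0 < y) (hz : 0 < z)
    (hm : 1 ≤ m) (hn : 1 ≤ n) (hk : 1 ≤ k) (hs : s = 1 ∨ s = -1) (ht : t = 1 ∨ t = -1)
    (hcop : IsCoprime y z) (heq : s * x ^ m + t * y ^ n = z ^ k)
    (he : (n : ℤ) * x * e0 + (m : ℤ) * y * e1 ≠ 0)
    (hb : b2 ≠ 0 ∨ e0 * b1 - e1 * b0 ≠ 0)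
    (hsmall : (n * x * |e0| + m * y * |e1|) * |b2| < z ^ (k - 1)) :
    s * ((m : ℤ) * x ^ (m - 1)) * (e1 * b2) - t * ((n : ℤ) * y ^ (n - 1)) * (e0 * b2)
      - (k : ℤ) * z ^ (k - 1) * (e0 * b1 - e1 * b0) ≠ 0 := by
  intro hD
  have hzk : 0 < z ^ (k - 1) := pow_pos hz _
  have hn0 : (n : ℤ) ≠ 0 := by positivity
  have hm0 : (m : ℤ) ≠ 0 := by positivity
  have hk0 : (k : ℤ) ≠ 0 := by positivity
  have htt : t * t = 1 := by rcases ht with h | h <;> rw [h] <;> norm_num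
  have hcop' : IsCoprime (z ^ (k - 1)) (y ^ n) := (hcop.symm.pow)
  have hxm : x ^ m = x ^ (m - 1) * x := by rw [← pow_succ]; congr 1; omega
  have hyn : y ^ n = y ^ (n - 1) * y := by rw [← pow_succ]; congr 1; omega
  have hzk' : z ^ k = z ^ (k - 1) * z := by rw [← pow_succ]; congr 1; omega
  have hdvd : z ^ (k - 1) ∣ y ^ n * (((n : ℤ) * x * e0 + (m : ℤ) * y * e1) * b2) := by
    refine ⟨t * ((m : ℤ) * z * y * e1 * b2 - (k : ℤ) * x * y * (e0 * b1 - e1 * b0)), ?_⟩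
    have e1' : s * (x ^ (m - 1) * x) + t * (y ^ (n - 1) * y) = z ^ (k - 1) * z := by
      rw [← hxm, ← hyn, ← hzk']; exact heq
    rw [hyn]
    linear_combination (-(t * x * y)) * hD + t * (m : ℤ) * y * e1 * b2 * e1'
      - (y ^ (n - 1) * y * (((n : ℤ) * x * e0 + (m : ℤ) * y * e1) * b2)) * htt
  have h2 : z ^ (k - 1) ∣ ((n : ℤ) * x * e0 + (m : ℤ) * y * e1) * b2 := hcop'.dvd_of_dvd_mul_left hdvd
  have habs : |((n : ℤ) * x * e0 + (m : ℤ) * y * e1) * b2| < z ^ (k - 1) := by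
    refine lt_of_le_of_lt ?_ hsmall
    rw [abs_mul]
    apply mul_le_mul_of_nonneg_right _ (abs_nonneg _)
    refine (abs_add_le _ _).trans ?_
    rw [abs_mul, abs_mul, abs_mul, abs_mul, abs_of_pos hx, abs_of_pos hy, Nat.abs_cast, Nat.abs_cast]
  have h3 := dvd_small_eq_zero hzk h2 habs
  have hb2 : b2 = 0 := (mul_eq_zero.mp h3).resolve_left he
  subst hb2
  have h4 : (k : ℤ) * z ^ (k - 1) ≠ 0 := mul_ne_zero hk0 hzk.ne'
  have h5 : e0 * b1 - e1 * b0 = 0 := by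
    have h6 : (k : ℤ) * z ^ (k - 1) * (e0 * b1 - e1 * b0) = 0 := by linear_combination -hD
    exact (mul_eq_zero.mp h6).resolve_left h4
  rcases hb with h | h
  · exact h rfl
  · exact h h5

/-! ### boxes of monomials -/

/-- monomials with exponents in the box `d` -/
noncomputable def boxM (d : Fin 3 → ℕ) : Finset (Fin 3 →₀ ℕ) := by
  classical
  exact (Finset.range (d 0 + 1) ×ˢ (Finset.range (d 1 + 1) ×ˢ Finset.range (d 2 + 1))).image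
    (fun x => Finsupp.single 0 x.1 + Finsupp.single 1 x.2.1 + Finsupp.single 2 x.2.2)

lemma card_boxM (d : Fin 3 → ℕ) : (boxM d).card = (d 0 + 1) * (d 1 + 1) * (d 2 + 1) := by
  classical
  rw [boxM, Finset.card_image_of_injOn]
  · rw [Finset.card_product, Finset.card_product, Finset.card_range, Finset.card_range,
      Finset.card_range]; ring
  · intro x _ y _ hxy
    have h0 := DFunLike.congr_fun hxy 0
    have h1 := DFunLike.congr_fun hxy 1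
    have h2 := DFunLike.congr_fun hxy 2
    simp [Finsupp.add_apply] at h0 h1 h2
    exact Prod.ext h0 (Prod.ext h1 h2)

lemma mem_boxM {d : Fin 3 → ℕ} {β : Fin 3 →₀ ℕ} (h : β ∈ boxM d) : ∀ i, β i ≤ d i := by
  classical
  rw [boxM, Finset.mem_image] at h
  obtain ⟨⟨i, j, k⟩, hij, rfl⟩ := h
  simp only [Finset.mem_product, Finset.mem_range] at hij
  intro l
  fin_cases l <;> simp [Finsupp.add_apply] <;> omega

lemma BddB.pderiv_eq_zero {d : Fin 3 → ℕ} {H : ℕ} {G : MvPolynomial (Fin 3) ℤ} (h : BddB d H G)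
    {i : Fin 3} (hi : d i = 0) : pderiv i G = 0 := by
  ext β
  rw [coeff_pderiv, coeff_zero]
  by_cases h0 : coeff (β + Finsupp.single i 1) G = 0
  · rw [h0, zero_mul]
  · exfalso
    have h1 := h.1 _ (mem_support_iff.mpr h0) i
    rw [hi] at h1
    simp [Finsupp.add_apply] at h1

lemma exp_zero_of_pderiv {G : MvPolynomial (Fin 3) ℤ} {i : Fin 3} (h : pderiv i G = 0)
    {β : Fin 3 →₀ ℕ} (hβ : β ∈ G.support) : β i = 0 := by
  by_contra h0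
  have h2 : β = (β - Finsupp.single i 1) + Finsupp.single i 1 := by
    ext l
    simp only [Finsupp.add_apply, Finsupp.tsub_apply, Finsupp.single_apply]
    by_cases hl : i = l
    · subst hl; simp; omega
    · simp [hl]
  have h3 := congrArg (coeff (β - Finsupp.single i 1)) h
  rw [coeff_pderiv, ← h2, coeff_zero] at h3
  rcases mul_eq_zero.mp h3 with h | h
  · exact (mem_support_iff.mp hβ) h
  · have : (0 : ℤ) < (((β - Finsupp.single i 1 : Fin 3 →₀ ℕ) i : ℕ) : ℤ) + 1 := by positivity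
    omega

/-- monomials at a good point -/
lemma abs_mono_le {d R : Fin 3 → ℕ} {P : Pt} (hR : ∀ i, 1 ≤ R i) (hP : ∀ i, |P i| ≤ (R i : ℤ))
    {β : Fin 3 →₀ ℕ} (hβ : ∀ i, β i ≤ d i) :
    |∏ i, P i ^ β i| ≤ ((R 0 ^ d 0 * R 1 ^ d 1 * R 2 ^ d 2 : ℕ) : ℤ) := by
  rw [Fin.prod_univ_three, abs_mul, abs_mul, abs_pow, abs_pow, abs_pow]
  push_cast
  have key : ∀ i, |P i| ^ β i ≤ (R i : ℤ) ^ d i := by
    intro i
    calc |P i| ^ β i ≤ (R i : ℤ) ^ β i := pow_le_pow_left₀ (abs_nonneg _) (hP i) _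
      _ ≤ (R i : ℤ) ^ d i := pow_le_pow_right₀ (by exact_mod_cast hR i) (hβ i)
  exact mul_le_mul (mul_le_mul (key 0) (key 1) (by positivity) (by positivity)) (key 2) (by positivity)
    (by positivity)

/-! ### facts on good points -/

/-- the sizes of the coordinates -/
def sz (N θ : ℕ) : Fin 3 → ℕ := ![N, N, N ^ θ]

lemma GoodL.abs_le {N θ A m n k : ℕ} {s t : ℤ} {P : Pt} (h : GoodL N θ A m n k s t P) :
    ∀ i, |P i| ≤ (sz N θ i : ℤ) := by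
  intro i
  rw [abs_of_pos (h.pos i)]
  fin_cases i
  · exact h.le0
  · exact h.le1
  · show P 2 ≤ ((N ^ θ : ℕ) : ℤ)
    rw [Nat.cast_pow]
    exact h.le2

lemma one_le_sz {N θ : ℕ} (hN : 1 ≤ N) : ∀ i, 1 ≤ sz N θ i := by
  intro i
  fin_cases i
  · exact hN
  · exact hN
  · show 1 ≤ N ^ θ
    exact Nat.one_le_pow _ _ hN

lemma GoodL.eval_FL {N θ A m n k : ℕ} {s t : ℤ} {P : Pt} (h : GoodL N θ A m n k s t P) :
    eval P (FL m n k s t) = 0 := by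
  rw [Pool.Agent.Work.MP_2738db_nt_T.eval_FL, h.eq, sub_self]

lemma GoodL.mono {N θ A A' m n k : ℕ} {s t : ℤ} {P : Pt} (h : GoodL N θ A m n k s t P) (hN : 1 ≤ N)
    (hA : A' ≤ A) : GoodL N θ A' m n k s t P :=
  ⟨h.pos, h.le0, h.le1, h.le2, h.c01, h.c12, h.c02, h.eq,
    lt_of_le_of_lt (pow_le_pow_right₀ (by exact_mod_cast hN) (Nat.mul_le_mul_right _ hA)) h.big⟩

/-- smallness of `θ` and `M` with respect to `N` -/
lemma Env.small {L E N Q M : ℕ} {PP : Finset ℕ} (h : Env L E N Q M PP) (hL : 1 ≤ L) (hMM : M * M ≤ Q)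
    {c θ : ℕ} (hθ : θ ≤ M) (hN : 4 * (c + 1) ^ 2 * 2 ^ L ≤ N) : θ * c + 1 ≤ N := by
  have hQ := h.Q_le hL
  have hM1 := h.hM1
  have h1 : (θ * c + 1) * (θ * c + 1) ≤ N * N := by
    calc (θ * c + 1) * (θ * c + 1) ≤ (M * c + 1) * (M * c + 1) := by gcongr
      _ ≤ (M * (c + 1)) * (M * (c + 1)) := by
          have : M * c + 1 ≤ M * (c + 1) := by rw [mul_add]; omega
          gcongr
      _ = (c + 1) ^ 2 * (M * M) := by ring
      _ ≤ (c + 1) ^ 2 * (2 ^ L * N) := Nat.mul_le_mul_left _ (hMM.trans hQ)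
      _ ≤ (4 * (c + 1) ^ 2 * 2 ^ L) * N := by nlinarith [Nat.zero_le ((c + 1) ^ 2 * 2 ^ L * N)]
      _ ≤ N * N := by gcongr
  exact Nat.mul_self_le_mul_self_iff.mp h1

/-- gradient of the third variable -/
lemma GoodL.grad2_le {N θ A m n k M : ℕ} {s t : ℤ} {P : Pt} (h : GoodL N θ A m n k s t P)
    (hs : s = 1 ∨ s = -1) (ht : t = 1 ∨ t = -1) (hm : m ≤ M) (hn : n ≤ M) (hk1 : 1 ≤ k) (hk : k ≤ M)
    (hN : 2 ≤ N) (hM : M ≤ N) : |(k : ℤ) * P 2 ^ (k - 1)| ≤ (N : ℤ) ^ (M + 2) := by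
  have hz := h.pos 2
  have hN1 : (1 : ℤ) ≤ N := by exact_mod_cast (by omega : 1 ≤ N)
  have hN2 : (2 : ℤ) ≤ N := by exact_mod_cast hN
  rw [abs_of_nonneg (by positivity)]
  have h1 : P 2 ^ (k - 1) ≤ P 2 ^ k := pow_le_pow_right₀ (by omega) (by omega)
  have hx : P 0 ^ m ≤ (N : ℤ) ^ M := by
    calc P 0 ^ m ≤ (N : ℤ) ^ m := pow_le_pow_left₀ (h.pos 0).le h.le0 _
      _ ≤ (N : ℤ) ^ M := pow_le_pow_right₀ hN1 hm
  have hy : P 1 ^ n ≤ (N : ℤ) ^ M := by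
    calc P 1 ^ n ≤ (N : ℤ) ^ n := pow_le_pow_left₀ (h.pos 1).le h.le1 _
      _ ≤ (N : ℤ) ^ M := pow_le_pow_right₀ hN1 hn
  have hx0 : 0 ≤ P 0 ^ m := (pow_pos (h.pos 0) _).le
  have hy0 : 0 ≤ P 1 ^ n := (pow_pos (h.pos 1) _).le
  have h2 : P 2 ^ k ≤ 2 * (N : ℤ) ^ M := by
    rw [← h.eq]
    rcases hs with rfl | rfl <;> rcases ht with rfl | rfl <;> linarith
  have hkz : (k : ℤ) ≤ N := by exact_mod_cast hk.trans hM
  calc (k : ℤ) * P 2 ^ (k - 1) ≤ (N : ℤ) * (2 * (N : ℤ) ^ M) :=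
        mul_le_mul hkz (h1.trans h2) (by positivity) (by positivity)
    _ ≤ (N : ℤ) * (N * (N : ℤ) ^ M) := by gcongr
    _ = (N : ℤ) ^ (M + 2) := by ring

lemma Env.sizeL {L E N Q M : ℕ} {PP : Finset ℕ} (h : Env L E N Q M PP) {p : ℕ} (hp : p ∈ PP)
    (hL : 1 ≤ L) {c e : ℕ} (hc : c ≤ N ^ 2) : c * N ^ e < p ^ (L * (e + 2)) := by
  calc c * N ^ e ≤ N ^ 2 * N ^ e := Nat.mul_le_mul_right _ hc
    _ = N ^ (e + 2) := by ring
    _ ≤ (Q ^ L) ^ (e + 2) := Nat.pow_le_pow_left h.hN _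
    _ = Q ^ (L * (e + 2)) := by rw [pow_mul]
    _ < p ^ (L * (e + 2)) := Nat.pow_lt_pow_left (h.lo p hp) (by positivity)

lemma Env.p_pow_leL {L E N Q M : ℕ} {PP : Finset ℕ} (h : Env L E N Q M PP) {p : ℕ} (hp : p ∈ PP)
    (hN : 6 ^ L ≤ N) : p ^ L ≤ N ^ 2 := by
  calc p ^ L ≤ (3 * Q) ^ L := Nat.pow_le_pow_left (h.hi p hp) _
    _ = 3 ^ L * Q ^ L := mul_pow _ _ _
    _ ≤ 3 ^ L * (2 ^ L * N) := Nat.mul_le_mul_left _ h.hQ
    _ = 6 ^ L * N := by rw [← mul_assoc, ← mul_pow]; norm_num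
    _ ≤ N * N := Nat.mul_le_mul_right _ hN
    _ = N ^ 2 := by ring

/-- general auxiliary polynomial lemma in a box `d`, coefficients at most `N ^ w` -/
lemma auxCore (hA : Stmt_AuxGen) {L E N Q M : ℕ} {PP : Finset ℕ} (hEnv : Env L E N Q M PP) (hL : 1 ≤ L)
    {p : ℕ} (hp : p ∈ PP) (hN6 : 6 ^ L ≤ N) {r : ℕ}
    (piv : Fin r → Fin 3) (hpiv : Function.Injective piv) (F : Fin r → MvPolynomial (Fin 3) ℤ)
    (S : Finset Pt) (θ : ℕ) (hbox : ∀ P ∈ S, ∀ i, |P i| ≤ (sz N θ i : ℤ))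
    (hcong : ∀ P ∈ S, ∀ Q ∈ S, ∀ i, (p : ℤ) ∣ P i - Q i)
    (hvan : ∀ P ∈ S, ∀ ρ, eval P (F ρ) = 0)
    (hdet : ∀ P ∈ S, ¬ (p : ℤ) ∣ (Matrix.of fun ρ σ => eval P (pderiv (piv σ) (F ρ))).det)
    (d : Fin 3 → ℕ) (w e : ℕ) (he : d 0 + d 1 + θ * d 2 ≤ e)
    (hc : (d 0 + 1) * (d 1 + 1) * (d 2 + 1) ≤ N ^ 2)
    (hcount : 2 * (w + e + 2) * (L * (w + e + 2)) ^ (3 - r) ≤ w * ((d 0 + 1) * (d 1 + 1) * (d 2 + 1))) :
    ∃ φ : MvPolynomial (Fin 3) ℤ, φ ≠ 0 ∧ BddB d (N ^ w) φ ∧ ∀ P ∈ S, eval P φ = 0 := by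
  have hN1 : 1 ≤ N := le_trans (Nat.one_le_pow _ _ (by norm_num)) hN6
  obtain ⟨G, h1, h2, h3, h4⟩ := hA r piv F p (L * (w + e + 2)) (N ^ w) (N ^ e) (S : Set Pt)
    (boxM d) hpiv (hEnv.prime p hp) (Nat.mul_pos hL (by positivity))
    (fun P hP Q hQ => hcong P hP Q hQ) (fun P hP => hvan P hP)
    (fun P hP => hdet P hP)
    (fun P hP β hβ => by
      refine (abs_mono_le (one_le_sz hN1) (hbox P hP) (mem_boxM hβ)).trans ?_
      have : sz N θ 0 ^ d 0 * sz N θ 1 ^ d 1 * sz N θ 2 ^ d 2 ≤ N ^ e := by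
        have e1 : sz N θ 0 ^ d 0 * sz N θ 1 ^ d 1 * sz N θ 2 ^ d 2 = N ^ (d 0 + d 1 + θ * d 2) := by
          show N ^ d 0 * N ^ d 1 * (N ^ θ) ^ d 2 = _
          rw [← pow_mul, ← pow_add, ← pow_add]
        rw [e1]
        exact Nat.pow_le_pow_right hN1 he
      exact_mod_cast this)
    (by
      rw [card_boxM]
      have e1 : (p ^ (L * (w + e + 2))) ^ ((L * (w + e + 2)) ^ (3 - r))
          = (p ^ L) ^ ((w + e + 2) * (L * (w + e + 2)) ^ (3 - r)) := by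
        rw [← pow_mul, ← pow_mul]; congr 1; ring
      rw [e1]
      calc (p ^ L) ^ ((w + e + 2) * (L * (w + e + 2)) ^ (3 - r))
            ≤ (N ^ 2) ^ ((w + e + 2) * (L * (w + e + 2)) ^ (3 - r)) :=
            Nat.pow_le_pow_left (hEnv.p_pow_leL hp hN6) _
        _ = N ^ (2 * (w + e + 2) * (L * (w + e + 2)) ^ (3 - r)) := by rw [← pow_mul]; congr 1; ring
        _ ≤ N ^ (w * ((d 0 + 1) * (d 1 + 1) * (d 2 + 1))) := Nat.pow_le_pow_right hN1 hcount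
        _ = (N ^ w) ^ ((d 0 + 1) * (d 1 + 1) * (d 2 + 1)) := by rw [pow_mul]
        _ < (N ^ w + 1) ^ ((d 0 + 1) * (d 1 + 1) * (d 2 + 1)) :=
            Nat.pow_lt_pow_left (Nat.lt_succ_self _) (by positivity))
    (by
      rw [card_boxM]
      have e2 := hEnv.sizeL hp hL (c := (d 0 + 1) * (d 1 + 1) * (d 2 + 1)) (e := w + e) hc
      refine lt_of_eq_of_lt ?_ e2
      rw [mul_assoc, ← pow_add])
  exact ⟨G, h1, ⟨fun β hβ i => mem_boxM (h2 β hβ) i, h3⟩, h4⟩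

end Pool.Agent.Work.MP_2738db_nt_T
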