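import Pool.Agent.Work.MP_2738db_nt_T.EnvL

set_option autoImplicit false

namespace Pool.Agent.Work.MP_2738db_nt_T

open MvPolynomial

/-- monomials in the variables `s, t` with exponents at most `D` -/
noncomputable def monos (s t : Fin 3) (D : ℕ) : Finset (Fin 3 →₀ ℕ) := by
  classical
  exact (Finset.range (D + 1) ×ˢ Finset.range (D + 1)).image
    (fun x => Finsupp.single s x.1 + Finsupp.single t x.2)

lemma card_monos {s t : Fin 3} (hst : s ≠ t) (D : ℕ) : (monos s t D).card = (D + 1) ^ 2 := by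
  classical
  rw [monos, Finset.card_image_of_injOn]
  · rw [Finset.card_product, Finset.card_range]; ring
  · intro x _ y _ hxy
    have h1 := DFunLike.congr_fun hxy s
    have h2 := DFunLike.congr_fun hxy t
    simp only [Finsupp.add_apply, Finsupp.single_apply, if_true, if_neg hst, if_neg hst.symm] at h1 h2
    exact Prod.ext (by omega) (by omega)

lemma mem_monos {s t : Fin 3} (hst : s ≠ t) {D : ℕ} {β : Fin 3 →₀ ℕ} (h : β ∈ monos s t D) :
    β s ≤ D ∧ β t ≤ D ∧ ∀ u, u ≠ s → u ≠ t → β u = 0 := by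
  classical
  rw [monos, Finset.mem_image] at h
  obtain ⟨⟨i, j⟩, hij, rfl⟩ := h
  simp only [Finset.mem_product, Finset.mem_range] at hij
  refine ⟨?_, ?_, ?_⟩
  · simp only [Finsupp.add_apply, Finsupp.single_apply, if_true, if_neg hst.symm]; omega
  · simp only [Finsupp.add_apply, Finsupp.single_apply, if_true, if_neg hst]; omega
  · intro u hs ht
    simp only [Finsupp.add_apply, Finsupp.single_apply, if_neg (Ne.symm hs), if_neg (Ne.symm ht),
      add_zero]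

lemma sum_monos {s t : Fin 3} (hst : s ≠ t) {D : ℕ} {β : Fin 3 →₀ ℕ} (h : β ∈ monos s t D) :
    β 0 + β 1 + β 2 ≤ 2 * D := by
  obtain ⟨h1, h2, h3⟩ := mem_monos hst h
  have h0 := h3 0
  have h1' := h3 1
  have h2' := h3 2
  fin_cases s <;> fin_cases t <;> simp at * <;> omega

lemma pderiv_monos {s t u : Fin 3} (hst : s ≠ t) (hus : u ≠ s) (hut : u ≠ t) {D : ℕ}
    {G : MvPolynomial (Fin 3) ℤ} (h : ∀ β ∈ G.support, β ∈ monos s t D) : pderiv u G = 0 := by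
  ext β
  rw [coeff_pderiv, coeff_zero]
  by_cases h0 : coeff (β + Finsupp.single u 1) G = 0
  · rw [h0, zero_mul]
  · exfalso
    have h1 := h _ (mem_support_iff.mpr h0)
    have h2 := (mem_monos hst h1).2.2 u hus hut
    simp [Finsupp.add_apply] at h2

/-- all monomials with exponents at most `D` -/
noncomputable def monos3 (D : ℕ) : Finset (Fin 3 →₀ ℕ) := by
  classical
  exact (Finset.range (D + 1) ×ˢ (Finset.range (D + 1) ×ˢ Finset.range (D + 1))).image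
    (fun x => Finsupp.single 0 x.1 + Finsupp.single 1 x.2.1 + Finsupp.single 2 x.2.2)

lemma card_monos3 (D : ℕ) : (monos3 D).card = (D + 1) ^ 3 := by
  classical
  rw [monos3, Finset.card_image_of_injOn]
  · rw [Finset.card_product, Finset.card_product, Finset.card_range]; ring
  · intro x _ y _ hxy
    have h0 := DFunLike.congr_fun hxy 0
    have h1 := DFunLike.congr_fun hxy 1
    have h2 := DFunLike.congr_fun hxy 2
    simp [Finsupp.add_apply] at h0 h1 h2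
    exact Prod.ext h0 (Prod.ext h1 h2)

lemma sum_monos3 {D : ℕ} {β : Fin 3 →₀ ℕ} (h : β ∈ monos3 D) : β 0 + β 1 + β 2 ≤ 3 * D := by
  classical
  rw [monos3, Finset.mem_image] at h
  obtain ⟨⟨i, j, k⟩, hij, rfl⟩ := h
  simp only [Finset.mem_product, Finset.mem_range] at hij
  simp [Finsupp.add_apply]
  omega

lemma Env.p_pow_le {L E N Q M : ℕ} {PP : Finset ℕ} (h : Env L E N Q M PP) {p : ℕ} (hp : p ∈ PP)
    (hN : 6 ^ L ≤ N) : p ^ L ≤ N ^ 2 := by
  calc p ^ L ≤ (3 * Q) ^ L := Nat.pow_le_pow_left (h.hi p hp) _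
    _ = 3 ^ L * Q ^ L := mul_pow _ _ _
    _ ≤ 3 ^ L * (2 ^ L * N) := Nat.mul_le_mul_left _ h.hQ
    _ = 6 ^ L * N := by rw [← mul_assoc, ← mul_pow]; norm_num
    _ ≤ N * N := Nat.mul_le_mul_right _ hN
    _ = N ^ 2 := by ring

lemma Env.size {L E N Q M : ℕ} {PP : Finset ℕ} (h : Env L E N Q M PP) {p : ℕ} (hp : p ∈ PP)
    (hL : 1 ≤ L) {c e : ℕ} (hc : c ≤ N) : c * N ^ e < p ^ (L * (e + 1)) := by
  calc c * N ^ e ≤ N * N ^ e := Nat.mul_le_mul_right _ hc
    _ = N ^ (e + 1) := by ring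
    _ ≤ (Q ^ L) ^ (e + 1) := Nat.pow_le_pow_left h.hN _
    _ = Q ^ (L * (e + 1)) := by rw [pow_mul]
    _ < p ^ (L * (e + 1)) := Nat.pow_lt_pow_left (h.lo p hp) (by positivity)

/-- auxiliary polynomials on a fibre of level 1 -/
lemma aux1 (hA : Stmt_Aux) {L E N Q M : ℕ} {PP : Finset ℕ} (hEnv : Env L E N Q M PP) (hL : 1 ≤ L)
    {p : ℕ} (hp : p ∈ PP) (hN6 : 6 ^ L ≤ N) (hND : (18 * L + 1) ^ 2 ≤ N)
    (piv : Fin 2 → Fin 3) (hpiv : Function.Injective piv) (F : Fin 2 → MvPolynomial (Fin 3) ℤ)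
    (S : Finset Pt) (hbox : ∀ P ∈ S, ∀ i, |P i| ≤ (N : ℤ))
    (hcong : ∀ P ∈ S, ∀ Q ∈ S, ∀ i, (p : ℤ) ∣ P i - Q i)
    (hvan : ∀ P ∈ S, ∀ ρ, eval P (F ρ) = 0)
    (hdet : ∀ P ∈ S, ¬ (p : ℤ) ∣ (Matrix.of fun ρ σ => eval P (pderiv (piv σ) (F ρ))).det)
    (s t u : Fin 3) (hst : s ≠ t) (hus : u ≠ s) (hut : u ≠ t) :
    ∃ φ : MvPolynomial (Fin 3) ℤ, φ ≠ 0 ∧ Bdd (36 * L) (N ^ (18 * L)) φ ∧ pderiv u φ = 0 ∧
      ∀ P ∈ S, eval P φ = 0 := by
  have hN1 : 1 ≤ N := le_trans (Nat.one_le_pow _ _ (by norm_num)) hN6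
  obtain ⟨G, h1, h2, h3, h4⟩ := hA 2 piv F p (L * (54 * L + 1)) (N ^ (18 * L)) N (36 * L) (S : Set Pt)
    (monos s t (18 * L)) hpiv (hEnv.prime p hp) (Nat.mul_pos hL (by positivity)) hN1
    (fun P hP => hbox P hP) (fun P hP Q hQ => hcong P hP Q hQ) (fun P hP => hvan P hP)
    (fun P hP => hdet P hP)
    (fun β hβ => by have := sum_monos hst hβ; omega)
    (by
      rw [card_monos hst]
      have e1 : (p ^ (L * (54 * L + 1))) ^ ((L * (54 * L + 1)) ^ (3 - 2))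
          = (p ^ L) ^ (L * (54 * L + 1) ^ 2) := by
        rw [← pow_mul, ← pow_mul]; congr 1; ring
      rw [e1]
      calc (p ^ L) ^ (L * (54 * L + 1) ^ 2) ≤ (N ^ 2) ^ (L * (54 * L + 1) ^ 2) :=
            Nat.pow_le_pow_left (hEnv.p_pow_le hp hN6) _
        _ = N ^ (2 * (L * (54 * L + 1) ^ 2)) := by rw [← pow_mul]
        _ ≤ N ^ (18 * L * (18 * L + 1) ^ 2) := by
            apply Nat.pow_le_pow_right hN1
            have : (54 * L + 1) ^ 2 ≤ 9 * (18 * L + 1) ^ 2 := by nlinarith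
            calc 2 * (L * (54 * L + 1) ^ 2) ≤ 2 * (L * (9 * (18 * L + 1) ^ 2)) := by gcongr
              _ = 18 * L * (18 * L + 1) ^ 2 := by ring
        _ = (N ^ (18 * L)) ^ ((18 * L + 1) ^ 2) := by rw [pow_mul]
        _ < (N ^ (18 * L) + 1) ^ ((18 * L + 1) ^ 2) :=
            Nat.pow_lt_pow_left (Nat.lt_succ_self _) (by positivity))
    (by
      rw [card_monos hst]
      have e2 := hEnv.size hp hL (c := (18 * L + 1) ^ 2) (e := 54 * L) hND
      refine lt_of_eq_of_lt ?_ e2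
      rw [mul_assoc, ← pow_add]
      congr 2
      omega)
  refine ⟨G, h1, ⟨?_, h3⟩, ?_, h4⟩
  · apply totalDegree_le_of
    intro β hβ
    have := sum_monos hst (h2 β hβ)
    omega
  · exact pderiv_monos hst hus hut h2

/-- auxiliary polynomial on a fibre of level 0 -/
lemma aux0 (hA : Stmt_Aux) {L E N Q M : ℕ} {PP : Finset ℕ} (hEnv : Env L E N Q M PP) (hL : 1 ≤ L)
    {p : ℕ} (hp : p ∈ PP) (hN6 : 6 ^ L ≤ N) (hND : (128 * L ^ 2 + 1) ^ 3 ≤ N)
    (i : Fin 3) (F : MvPolynomial (Fin 3) ℤ)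
    (S : Finset Pt) (hbox : ∀ P ∈ S, ∀ i, |P i| ≤ (N : ℤ))
    (hcong : ∀ P ∈ S, ∀ Q ∈ S, ∀ i, (p : ℤ) ∣ P i - Q i)
    (hvan : ∀ P ∈ S, eval P F = 0)
    (hdet : ∀ P ∈ S, ¬ (p : ℤ) ∣ eval P (pderiv i F)) :
    ∃ G : MvPolynomial (Fin 3) ℤ, G ≠ 0 ∧ Bdd (384 * L ^ 2) (N ^ (128 * L ^ 2)) G ∧
      ∀ P ∈ S, eval P G = 0 := by
  have hN1 : 1 ≤ N := le_trans (Nat.one_le_pow _ _ (by norm_num)) hN6
  obtain ⟨D, hD⟩ : ∃ D, D = 128 * L ^ 2 := ⟨_, rfl⟩
  have hD384 : 384 * L ^ 2 = 3 * D := by rw [hD]; ring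
  rw [← hD] at hND ⊢
  rw [hD384]
  obtain ⟨G, h1, h2, h3, h4⟩ := hA 1 (fun _ => i) (fun _ => F) p (L * (4 * D + 1)) (N ^ D) N (3 * D)
    (S : Set Pt) (monos3 D) (Function.injective_of_subsingleton _) (hEnv.prime p hp)
    (Nat.mul_pos hL (by positivity)) hN1
    (fun P hP => hbox P hP) (fun P hP Q hQ => hcong P hP Q hQ) (fun P hP _ => hvan P hP)
    (fun P hP => by rw [Matrix.det_fin_one]; exact hdet P hP)
    (fun β hβ => sum_monos3 hβ)
    (by
      rw [card_monos3]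
      have e1 : (p ^ (L * (4 * D + 1))) ^ ((L * (4 * D + 1)) ^ (3 - 1))
          = (p ^ L) ^ (L ^ 2 * (4 * D + 1) ^ 3) := by
        rw [← pow_mul, ← pow_mul]; congr 1; ring
      rw [e1]
      calc (p ^ L) ^ (L ^ 2 * (4 * D + 1) ^ 3) ≤ (N ^ 2) ^ (L ^ 2 * (4 * D + 1) ^ 3) :=
            Nat.pow_le_pow_left (hEnv.p_pow_le hp hN6) _
        _ = N ^ (2 * (L ^ 2 * (4 * D + 1) ^ 3)) := by rw [← pow_mul]
        _ ≤ N ^ (D * (D + 1) ^ 3) := by
            apply Nat.pow_le_pow_right hN1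
            have : (4 * D + 1) ^ 3 ≤ (4 * (D + 1)) ^ 3 := Nat.pow_le_pow_left (by omega) _
            calc 2 * (L ^ 2 * (4 * D + 1) ^ 3) ≤ 2 * (L ^ 2 * (4 * (D + 1)) ^ 3) := by gcongr
              _ = (128 * L ^ 2) * (D + 1) ^ 3 := by ring
              _ = D * (D + 1) ^ 3 := by rw [← hD]
        _ = (N ^ D) ^ ((D + 1) ^ 3) := by rw [pow_mul]
        _ < (N ^ D + 1) ^ ((D + 1) ^ 3) :=
            Nat.pow_lt_pow_left (Nat.lt_succ_self _) (by positivity))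
    (by
      rw [card_monos3]
      have e2 := hEnv.size hp hL (c := (D + 1) ^ 3) (e := 4 * D) hND
      refine lt_of_eq_of_lt ?_ e2
      rw [mul_assoc, ← pow_add]
      congr 2
      omega)
  refine ⟨G, h1, ⟨?_, h3⟩, h4⟩
  apply totalDegree_le_of
  intro β hβ
  exact sum_monos3 (h2 β hβ)

theorem lev0 (hA : Stmt_Aux) : Stmt_Lev0 := by
  intro L hL
  refine ⟨6 ^ L + (128 * L ^ 2 + 1) ^ 3, ?_⟩
  intro N Q M PP hN hEnv m n k hm hmM hn hnM hk hkM S hS B hB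
  classical
  have hN6 : 6 ^ L ≤ N := le_trans (Nat.le_add_right _ _) hN
  have hND : (128 * L ^ 2 + 1) ^ 3 ≤ N := le_trans (Nat.le_add_left _ _) hN
  have hPP : PP.Nonempty := by
    rw [← Finset.card_pos]
    refine lt_of_lt_of_le ?_ hEnv.card
    exact Nat.mul_pos (Nat.mul_pos hL one_pos) hEnv.hM1
  obtain ⟨p, hp⟩ := hPP
  have hpp := hEnv.prime p hp
  have hlo := hEnv.lo p hp
  have hpz : Prime (p : ℤ) := Nat.prime_iff_prime_int.mp hpp
  have hexp : ∀ e : ℕ, 1 ≤ e → e ≤ M → ¬ (p : ℤ) ∣ (e : ℤ) := by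
    intro e he heM hd
    have h1 : p ∣ e := by exact_mod_cast hd
    have := Nat.le_of_dvd (by omega) h1
    have := hEnv.hMQ
    omega
  have h1 := card_le_of_rel S (Finset.range (3 * Q) ×ˢ (Finset.range (3 * Q) ×ˢ Finset.range (3 * Q)))
    (fun P l => res p P = l) B
    (fun P _ => ⟨res p P, res_mem hpp.pos (hEnv.hi p hp) P, rfl⟩)
    (by
      intro l _ S' hS' hR
      rcases S'.eq_empty_or_nonempty with h0 | ⟨P0, hP0⟩
      · rw [h0, Finset.card_empty]; exact Nat.zero_le _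
      apply hB S' hS'
      have hcong : ∀ P ∈ S', ∀ P' ∈ S', ∀ i, (p : ℤ) ∣ P i - P' i :=
        fun P hP P' hP' => res_eq hpp.pos ((hR P hP).trans (hR P' hP').symm)
      have hG0 := hS P0 (hS' hP0)
      have htrans : ∀ i, ¬ (p : ℤ) ∣ P0 i → ∀ P ∈ S', ¬ (p : ℤ) ∣ P i := by
        intro i h1 P hP h2
        have h3 := hcong P hP P0 hP0 i
        exact h1 ((dvd_sub_right h2).mp h3)
      by_cases h2 : (p : ℤ) ∣ P0 2
      · have h1 : ¬ (p : ℤ) ∣ P0 1 := by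
          intro h1
          have := hG0.c12.isUnit_of_dvd' h1 h2
          exact hpz.not_isUnit this
        apply aux0 hA hEnv hL hp hN6 hND 1 (FF m n k) S' (fun P hP => (hS P (hS' hP)).abs_le) hcong
          (fun P hP => (hS P (hS' hP)).eval_FF)
        intro P hP
        rw [eval_FF_1]
        intro hd
        rcases hpz.dvd_or_dvd hd with h | h
        · exact hexp n hn hnM h
        · exact htrans 1 h1 P hP (hpz.dvd_of_dvd_pow h)
      · apply aux0 hA hEnv hL hp hN6 hND 2 (FF m n k) S' (fun P hP => (hS P (hS' hP)).abs_le) hcong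
          (fun P hP => (hS P (hS' hP)).eval_FF)
        intro P hP
        rw [eval_FF_2, dvd_neg]
        intro hd
        rcases hpz.dvd_or_dvd hd with h | h
        · exact hexp k hk hkM h
        · exact htrans 2 h2 P hP (hpz.dvd_of_dvd_pow h))
  simp only [Finset.card_product, Finset.card_range] at h1
  calc S.card ≤ _ := h1
    _ = 27 * Q ^ 3 * B := by ring

/-- the pivot columns used at level 1 -/
def pv (j : ℕ) : Fin 2 → Fin 3 := if j = 0 then ![0, 2] else ![1, 2]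

lemma pv_inj (j : ℕ) : Function.Injective (pv j) := by
  unfold pv
  split_ifs <;> decide

lemma det_pv0 (m n k : ℕ) (G : MvPolynomial (Fin 3) ℤ) (P : Pt) :
    (Matrix.of fun ρ σ => eval P (pderiv (pv 0 σ) ((![FF m n k, G] : Fin 2 → MvPolynomial (Fin 3) ℤ) ρ))).det
      = (m : ℤ) * P 0 ^ (m - 1) * eval P (pderiv 2 G) + (k : ℤ) * P 2 ^ (k - 1) * eval P (pderiv 0 G) := by
  rw [Matrix.det_fin_two]
  simp only [Matrix.of_apply, pv, if_true, Matrix.cons_val_zero, Matrix.cons_val_one, eval_FF_0, eval_FF_2]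
  ring

lemma det_pv1 (m n k : ℕ) (G : MvPolynomial (Fin 3) ℤ) (P : Pt) :
    (Matrix.of fun ρ σ => eval P (pderiv (pv 1 σ) ((![FF m n k, G] : Fin 2 → MvPolynomial (Fin 3) ℤ) ρ))).det
      = (n : ℤ) * P 1 ^ (n - 1) * eval P (pderiv 2 G) + (k : ℤ) * P 2 ^ (k - 1) * eval P (pderiv 1 G) := by
  rw [Matrix.det_fin_two]
  simp only [Matrix.of_apply, pv, if_neg one_ne_zero, Matrix.cons_val_zero, Matrix.cons_val_one,
    eval_FF_1, eval_FF_2]
  ring

/-- the relation between points and labels at level 1 -/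
def R1 (m n k : ℕ) (P : Pt) (l : MvPolynomial (Fin 3) ℤ × ℕ × ℕ × (ℕ × ℕ × ℕ)) : Prop :=
  eval P l.1 = 0 ∧
  ¬ (l.2.2.1 : ℤ) ∣ (Matrix.of fun ρ σ => eval P (pderiv (pv l.2.1 σ)
    ((![FF m n k, l.1] : Fin 2 → MvPolynomial (Fin 3) ℤ) ρ))).det ∧
  res l.2.2.1 P = l.2.2.2

theorem lev1 (hA : Stmt_Aux) : Stmt_Lev1 := by
  intro L D0 h hL
  set hg : ℕ := 1 + h + D0 with hhg
  obtain ⟨w2, hw2⟩ : ∃ w, w = 2 ^ L := ⟨_, rfl⟩
  obtain ⟨w3, hw3⟩ : ∃ w, w = (D0 + 1) ^ 3 * (D0 * (D0 + 1) ^ (D0 + 1)) := ⟨_, rfl⟩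
  obtain ⟨w4, hw4⟩ : ∃ w, w = 6 ^ L := ⟨_, rfl⟩
  obtain ⟨w5, hw5⟩ : ∃ w, w = (18 * L + 1) ^ 2 := ⟨_, rfl⟩
  refine ⟨2 + hg, 4 + hg, 162 * 4 ^ (D0 + 1), 2 + w2 + w3 + w4 + w5, ?_⟩
  intro N Q M PP hN hEnv m n k hm hmM hn hnM hk hkM G hG bG S hS hvan B hB
  classical
  have hN1 : 1 ≤ N := by omega
  have hN2 : 2 ≤ N := by omega
  have hN2L : 2 ^ L ≤ N := by rw [← hw2]; omega
  have hN6 : 6 ^ L ≤ N := by rw [← hw4]; omega
  have hND : (18 * L + 1) ^ 2 ≤ N := by rw [← hw5]; omega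
  have hMN : M ≤ N ^ 2 := by
    calc M ≤ Q := hEnv.hMQ
      _ ≤ 2 ^ L * N := hEnv.Q_le hL
      _ ≤ N * N := by gcongr
      _ = N ^ 2 := by ring
  obtain ⟨DD, hDc, hDB, hDd, hDP⟩ := stmt_sel D0 (N ^ h) G hG bG
  have hev : ∀ b ∈ DD, ∀ P ∈ S, ∀ i, |eval P (pderiv i b)| ≤ (N : ℤ) ^ hg := by
    intro b hb P hP i
    apply eval_le_pow (c := D0 * (D0 + 1) ^ (D0 + 1)) (stmt_bddPderiv _ _ _ i (hDB b hb)) hN1
      (hS P hP).abs_le (le_of_eq (by ring))
    rw [← hw3]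
    omega
  have hNz : (1 : ℤ) ≤ N := by exact_mod_cast hN1
  have hN2z : (2 : ℤ) ≤ N := by exact_mod_cast hN2
  have hMNz : (M : ℤ) ≤ (N : ℤ) ^ 2 := by exact_mod_cast hMN
  have hnz : (n : ℤ) ≤ (N : ℤ) ^ 2 := le_trans (by exact_mod_cast hnM) hMNz
  have hcard : S.card ≤ (DD ×ˢ (Finset.range 2 ×ˢ (PP ×ˢ (Finset.range (3 * Q) ×ˢ
      (Finset.range (3 * Q) ×ˢ Finset.range (3 * Q)))))).card * B := by
    apply card_le_of_rel S _ (R1 m n k) B
    · intro P hP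
      have hGd := hS P hP
      obtain ⟨b, hb, hb0, i, hi⟩ := hDP P (hvan P hP)
      have hne : eval P (pderiv 0 b) ≠ 0 ∨ eval P (pderiv 1 b) ≠ 0 ∨ eval P (pderiv 2 b) ≠ 0 := by
        fin_cases i
        · exact Or.inl hi
        · exact Or.inr (Or.inl hi)
        · exact Or.inr (Or.inr hi)
      have hg0 := hev b hb P hP 0
      have hg1 := hev b hb P hP 1
      have hg2 := hev b hb P hP 2
      have hsmall : |(n : ℤ) * eval P (pderiv 2 b)| < P 2 ^ (k - 1) := by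
        refine lt_of_le_of_lt ?_ hGd.big
        rw [abs_mul, Nat.abs_cast, pow_add]
        exact mul_le_mul hnz hg2 (abs_nonneg _) (by positivity)
      have k0 := grad_le hmM hN1 (hGd.abs_le 0) hMN
      have k1 := grad_le hnM hN1 (hGd.abs_le 1) hMN
      have k2 := grad_le hkM hN1 (hGd.abs_le 2) hMN
      have hp3 : ∀ u v : ℤ, |u| ≤ (N : ℤ) ^ (M + 2) → |v| ≤ (N : ℤ) ^ hg →
          |u * v| ≤ (N : ℤ) ^ (M + 2 + hg) := by
        intro u v hu hv
        rw [abs_mul, pow_add _ (M + 2)]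
        exact mul_le_mul hu hv (abs_nonneg _) (by positivity)
      have hfin : 2 * (N : ℤ) ^ (M + 2 + hg) ≤ (N : ℤ) ^ ((4 + hg) * M) := by
        calc 2 * (N : ℤ) ^ (M + 2 + hg) ≤ (N : ℤ) * (N : ℤ) ^ (M + 2 + hg) := by
              apply mul_le_mul_of_nonneg_right hN2z (by positivity)
          _ = (N : ℤ) ^ (M + 3 + hg) := by rw [← pow_succ']; congr 1; omega
          _ ≤ (N : ℤ) ^ ((4 + hg) * M) := by
              apply pow_le_pow_right₀ hNz
              have := hEnv.hM1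
              nlinarith
      have hsum : ∀ u v : ℤ, |u| ≤ (N : ℤ) ^ (M + 2 + hg) → |v| ≤ (N : ℤ) ^ (M + 2 + hg) →
          |u + v| ≤ (N : ℤ) ^ ((4 + hg) * M) := by
        intro u v hu hv
        refine (abs_add_le _ _).trans (le_trans ?_ hfin)
        linarith
      rcases stmt_ari1 _ _ _ _ _ _ m n k (hGd.pos 0) (hGd.pos 1) (hGd.pos 2) hm hn hk hGd.c12 hsmall
        hne with h1 | h1
      · obtain ⟨p, hpP, hpd⟩ := hEnv.exists_prime hL (by omega) h1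
          (hsum _ _ (hp3 _ _ k0 hg2) (hp3 _ _ k2 hg0))
        refine ⟨(b, 0, p, res p P), ?_, hb0, ?_, rfl⟩
        · simp only [Finset.mem_product]
          refine ⟨hb, by simp, hpP, ?_⟩
          have := res_mem (hEnv.prime p hpP).pos (hEnv.hi p hpP) P
          simpa only [Finset.mem_product] using this
        · rw [det_pv0]; exact hpd
      · obtain ⟨p, hpP, hpd⟩ := hEnv.exists_prime hL (by omega) h1
          (hsum _ _ (hp3 _ _ k1 hg2) (hp3 _ _ k2 hg1))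
        refine ⟨(b, 1, p, res p P), ?_, hb0, ?_, rfl⟩
        · simp only [Finset.mem_product]
          refine ⟨hb, by simp, hpP, ?_⟩
          have := res_mem (hEnv.prime p hpP).pos (hEnv.hi p hpP) P
          simpa only [Finset.mem_product] using this
        · rw [det_pv1]; exact hpd
    · intro l hl S' hS' hR
      simp only [Finset.mem_product] at hl
      have hpP := hl.2.2.1
      have hpp := hEnv.prime _ hpP
      apply hB S' hS'
      have hbox : ∀ P ∈ S', ∀ i, |P i| ≤ (N : ℤ) := fun P hP => (hS P (hS' hP)).abs_le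
      have hcong : ∀ P ∈ S', ∀ P' ∈ S', ∀ i, (l.2.2.1 : ℤ) ∣ P i - P' i :=
        fun P hP P' hP' => res_eq hpp.pos ((hR P hP).2.2.trans (hR P' hP').2.2.symm)
      have hv : ∀ P ∈ S', ∀ ρ, eval P ((![FF m n k, l.1] : Fin 2 → MvPolynomial (Fin 3) ℤ) ρ) = 0 := by
        intro P hP ρ
        fin_cases ρ
        · exact (hS P (hS' hP)).eval_FF
        · exact (hR P hP).1
      have hd := fun P hP => (hR P hP).2.1
      obtain ⟨φ, f1, f2, f3, f4⟩ := aux1 hA hEnv hL hpP hN6 hND (pv l.2.1) (pv_inj _)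
        ![FF m n k, l.1] S' hbox hcong hv hd 0 1 2 (by decide) (by decide) (by decide)
      obtain ⟨ψ, g1, g2, g3, g4⟩ := aux1 hA hEnv hL hpP hN6 hND (pv l.2.1) (pv_inj _)
        ![FF m n k, l.1] S' hbox hcong hv hd 0 2 1 (by decide) (by decide) (by decide)
      obtain ⟨χ, c1, c2, c3, c4⟩ := aux1 hA hEnv hL hpP hN6 hND (pv l.2.1) (pv_inj _)
        ![FF m n k, l.1] S' hbox hcong hv hd 1 2 0 (by decide) (by decide) (by decide)
      exact ⟨φ, ψ, χ, f1, g1, c1, f2, g2, c2, f3, g3, c3, fun P hP => ⟨f4 P hP, g4 P hP, c4 P hP⟩⟩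
  have hPPc := hEnv.card_le
  simp only [Finset.card_product, Finset.card_range] at hcard
  calc S.card ≤ _ := hcard
    _ ≤ 4 ^ (D0 + 1) * (2 * ((3 * Q) * (3 * Q * (3 * Q * (3 * Q))))) * B := by gcongr
    _ = 162 * 4 ^ (D0 + 1) * Q ^ 4 * B := by ring

end Pool.Agent.Work.MP_2738db_nt_T
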