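import Pool.Agent.Work.MP_2738db_nt_T.EnvL

set_option autoImplicit false

namespace Pool.Agent.Work.MP_2738db_nt_T

open MvPolynomial

/-- the Jacobian matrix of `FF, η, b` -/
noncomputable def jac (m n k : ℕ) (η b : MvPolynomial (Fin 3) ℤ) : Fin 3 → MvPolynomial (Fin 3) ℤ :=
  ![FF m n k, η, b]

lemma det_jac (m n k : ℕ) (η b : MvPolynomial (Fin 3) ℤ) (hη : pderiv 2 η = 0) (P : Pt) :
    (Matrix.of fun ρ i => eval P (pderiv i (jac m n k η b ρ))).det =
      (m : ℤ) * P 0 ^ (m - 1) * (eval P (pderiv 1 η) * eval P (pderiv 2 b))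
      - (n : ℤ) * P 1 ^ (n - 1) * (eval P (pderiv 0 η) * eval P (pderiv 2 b))
      - (k : ℤ) * P 2 ^ (k - 1) * (eval P (pderiv 0 η) * eval P (pderiv 1 b)
        - eval P (pderiv 1 η) * eval P (pderiv 0 b)) := by
  rw [Matrix.det_fin_three]
  simp only [Matrix.of_apply, jac, Matrix.cons_val_zero, Matrix.cons_val_one, Matrix.cons_val_two,
    Matrix.tail_cons, Matrix.head_cons, eval_FF_0, eval_FF_1, eval_FF_2, hη, map_zero]
  simp
  ring

/-- the relation between points and labels at level 2 -/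
def R2 (m n k : ℕ) (P : Pt)
    (l : MvPolynomial (Fin 3) ℤ × MvPolynomial (Fin 3) ℤ × ℕ × (ℕ × ℕ × ℕ)) : Prop :=
  eval P l.1 = 0 ∧ eval P l.2.1 = 0 ∧
  ¬ (l.2.2.1 : ℤ) ∣ (Matrix.of fun ρ i => eval P (pderiv i (jac m n k l.1 l.2.1 ρ))).det ∧
  res l.2.2.1 P = l.2.2.2

lemma lev2_fibre (hU : Stmt_Uniq) {N A m n k : ℕ} (S : Finset Pt) (hS : ∀ P ∈ S, Good N A m n k P)
    (l : MvPolynomial (Fin 3) ℤ × MvPolynomial (Fin 3) ℤ × ℕ × (ℕ × ℕ × ℕ)) (hp : l.2.2.1.Prime)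
    (h : ∀ P ∈ S, R2 m n k P l) : S.card ≤ 1 := by
  rw [Finset.card_le_one]
  intro P hP P' hP'
  obtain ⟨h1, h2, h3, h4⟩ := h P hP
  obtain ⟨h1', h2', h3', h4'⟩ := h P' hP'
  apply hU (jac m n k l.1 l.2.1) l.2.2.1 P P' hp (res_eq hp.pos (h4.trans h4'.symm))
  · intro ρ
    fin_cases ρ
    · exact (hS P hP).eval_FF
    · exact h1
    · exact h2
  · intro ρ
    fin_cases ρ
    · exact (hS P' hP').eval_FF
    · exact h1'
    · exact h2'
  · exact h3

/-- points with prescribed first two coordinates -/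
lemma lev2_ex {N A m n k : ℕ} (hk : 1 ≤ k) (S : Finset Pt) (hS : ∀ P ∈ S, Good N A m n k P)
    (Ex : Finset (ℤ × ℤ)) (h : ∀ P ∈ S, (P 0, P 1) ∈ Ex) : S.card ≤ Ex.card := by
  apply Finset.card_le_card_of_injOn (fun P : Pt => (P 0, P 1)) (fun P hP => h P hP)
  intro P hP P' hP' heq
  simp only [Prod.mk.injEq] at heq
  have h1 := (hS P hP).eq
  have h2 := (hS P' hP').eq
  rw [heq.1, heq.2, h2] at h1
  have h3 : P' 2 = P 2 :=
    (pow_left_inj₀ ((hS P' hP').pos 2).le ((hS P hP).pos 2).le (by omega)).mp h1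
  funext i
  fin_cases i
  · exact heq.1
  · exact heq.2
  · exact h3.symm

theorem lev2 (hU : Stmt_Uniq) (hW : Stmt_Wt) : Stmt_Lev2 := by
  intro L D1 h hL
  set e : ℕ := (D1 + 1) ^ 2 with he
  set hη : ℕ := 1 + (2 * e + h) + D1 with hhη
  set hb : ℕ := 1 + h + D1 with hhb
  obtain ⟨w1, hw1⟩ : ∃ w, w = 2 ^ (L + 1) * D1 := ⟨_, rfl⟩
  obtain ⟨w2, hw2⟩ : ∃ w, w = 2 ^ L := ⟨_, rfl⟩
  obtain ⟨w3, hw3⟩ : ∃ w, w = (D1 + 1) ^ 3 * (D1 * (D1 + 1) ^ (D1 + 1)) := ⟨_, rfl⟩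
  obtain ⟨w4, hw4⟩ : ∃ w, w = (D1 + 1) ^ 3 * D1 := ⟨_, rfl⟩
  refine ⟨5 + hη + hb, 6 + hη + hb, D1 + ((e + 1) * (2 * 4 ^ (D1 + 1)) * 81),
    w1 + 1 + 4 + w2 + w3 + w4, ?_⟩
  intro N Q M PP hN hEnv m n k hm hmM hn hnM hk hkM φ ψ χ hφ hψ hχ bφ bψ bχ dφ dψ dχ S hS hvan
  classical
  have hN1 : 1 ≤ N := by omega
  have hN4 : 4 ≤ N := by omega
  have hN2L : 2 ^ L ≤ N := by rw [← hw2]; omega
  have hMN : M ≤ N ^ 2 := by
    calc M ≤ Q := hEnv.hMQ
      _ ≤ 2 ^ L * N := hEnv.Q_le hL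
      _ ≤ N * N := by gcongr
      _ = N ^ 2 := by ring
  obtain ⟨W, Ex, hWc, hExc, hWB, hWP⟩ := hW D1 (N ^ h) m n φ hm hn hφ bφ dφ
  obtain ⟨Dψ, hDψc, hDψB, hDψd, hDψP⟩ := stmt_sel D1 (N ^ h) ψ hψ bψ
  obtain ⟨Dχ, hDχc, hDχB, hDχd, hDχP⟩ := stmt_sel D1 (N ^ h) χ hχ bχ
  -- bounds on the coefficients of η
  have hηH : ∀ η ∈ W, Bdd D1 (N ^ (2 * e + h)) η := by
    intro η hη'
    refine (hWB η hη').1.mono le_rfl ?_
    have h1 : (m + n) * D1 + 1 ≤ N ^ 2 := by
      have h2 : m + n ≤ 2 ^ (L + 1) * N := by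
        have h3 := hEnv.Q_le hL
        have h4 := hEnv.hMQ
        rw [pow_succ]
        nlinarith
      calc (m + n) * D1 + 1 ≤ (2 ^ (L + 1) * N) * D1 + 1 := by gcongr
        _ ≤ (2 ^ (L + 1) * D1 + 1) * N := by nlinarith
        _ ≤ N * N := by
            apply Nat.mul_le_mul_right
            rw [← hw1]
            omega
        _ = N ^ 2 := by ring
    calc ((m + n) * D1 + 1) ^ ((D1 + 1) ^ 2) * N ^ h ≤ (N ^ 2) ^ e * N ^ h := by gcongr
      _ = N ^ (2 * e + h) := by rw [← pow_mul, ← pow_add]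
  have hevη : ∀ η ∈ W, ∀ P ∈ S, ∀ i, |eval P (pderiv i η)| ≤ (N : ℤ) ^ hη := by
    intro η hη' P hP i
    apply eval_le_pow (stmt_bddPderiv _ _ _ i (hηH η hη')) hN1 (hS P hP).abs_le le_rfl
    rw [← hw4]
    omega
  have hevb : ∀ b ∈ Dψ ∪ Dχ, ∀ P ∈ S, ∀ i, |eval P (pderiv i b)| ≤ (N : ℤ) ^ hb := by
    intro b hb' P hP i
    have hB : Bdd D1 ((D1 + 1) ^ (D1 + 1) * N ^ h) b := by
      rcases Finset.mem_union.mp hb' with h1 | h1
      · exact hDψB b h1
      · exact hDχB b h1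
    apply eval_le_pow (c := D1 * (D1 + 1) ^ (D1 + 1)) (stmt_bddPderiv _ _ _ i hB) hN1
      (hS P hP).abs_le (le_of_eq (by ring))
    rw [← hw3]
    omega
  -- split off the exceptional points
  set S1 := S.filter (fun P => (P 0, P 1) ∈ Ex) with hS1
  set S2 := S.filter (fun P => ¬ (P 0, P 1) ∈ Ex) with hS2
  have hsplit : S.card = S1.card + S2.card := (Finset.card_filter_add_card_filter_not _).symm
  have hcard1 : S1.card ≤ D1 := by
    refine le_trans (lev2_ex (N := N) (A := 5 + hη + hb) (m := m) (n := n) hk S1 ?_ Ex ?_) hExc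
    · intro P hP
      exact hS P (Finset.mem_of_mem_filter _ hP)
    · intro P hP
      exact (Finset.mem_filter.mp hP).2
  have hcard2 : S2.card ≤ (W ×ˢ ((Dψ ∪ Dχ) ×ˢ (PP ×ˢ (Finset.range (3 * Q) ×ˢ
      (Finset.range (3 * Q) ×ˢ Finset.range (3 * Q)))))).card * 1 := by
    apply card_le_of_rel S2 _ (R2 m n k) 1
    · intro P hP
      obtain ⟨hPS, hPEx⟩ := Finset.mem_filter.mp hP
      obtain ⟨hvφ, hvψ, hvχ⟩ := hvan P hPS
      have hG := hS P hPS
      rcases hWP P (hG.pos 0) (hG.pos 1) hG.c01 hvφ with h1 | ⟨η, hηW, hη0, hη1⟩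
      · exact absurd h1 hPEx
      have dη := (hWB η hηW).2
      -- choose b
      have hchoice : ∃ b ∈ Dψ ∪ Dχ, eval P b = 0 ∧ (eval P (pderiv 2 b) ≠ 0 ∨
          eval P (pderiv 0 η) * eval P (pderiv 1 b) - eval P (pderiv 1 η) * eval P (pderiv 0 b) ≠ 0) := by
        obtain ⟨b, hb1, hb2, i, hi⟩ := hDψP P hvψ
        obtain ⟨b', hb1', hb2', i', hi'⟩ := hDχP P hvχ
        have d1 := hDψd 1 dψ b hb1
        have d2 := hDχd 0 dχ b' hb1'
        by_cases he1 : eval P (pderiv 1 η) = 0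
        · -- use b'
          refine ⟨b', Finset.mem_union_right _ hb1', hb2', ?_⟩
          rw [he1, mul_zero, add_zero] at hη1
          have he0 : eval P (pderiv 0 η) ≠ 0 := fun h0 => hη1 (by rw [h0, mul_zero])
          fin_cases i'
          · exact absurd (by simp [d2]) hi'
          · right
            rw [he1, zero_mul, sub_zero]
            exact mul_ne_zero he0 hi'
          · exact Or.inl hi'
        · refine ⟨b, Finset.mem_union_left _ hb1, hb2, ?_⟩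
          fin_cases i
          · right
            rw [d1, map_zero, mul_zero, zero_sub]
            exact neg_ne_zero.mpr (mul_ne_zero he1 hi)
          · exact absurd (by simp [d1]) hi
          · exact Or.inl hi
      obtain ⟨b, hbm, hb0, hbc⟩ := hchoice
      have hx0 := hevη η hηW P hPS 0
      have hx1 := hevη η hηW P hPS 1
      have hy0 := hevb b hbm P hPS 0
      have hy1 := hevb b hbm P hPS 1
      have hy2 := hevb b hbm P hPS 2
      have hNz : (1 : ℤ) ≤ N := by exact_mod_cast hN1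
      have hN4z : (4 : ℤ) ≤ N := by exact_mod_cast hN4
      have hMNz : (M : ℤ) ≤ (N : ℤ) ^ 2 := by exact_mod_cast hMN
      have hmz : (m : ℤ) ≤ (N : ℤ) ^ 2 := le_trans (by exact_mod_cast hmM) hMNz
      have hnz : (n : ℤ) ≤ (N : ℤ) ^ 2 := le_trans (by exact_mod_cast hnM) hMNz
      have hsz : ((n : ℤ) * P 0 * |eval P (pderiv 0 η)| + (m : ℤ) * P 1 * |eval P (pderiv 1 η)|)
          * |eval P (pderiv 2 b)| < P 2 ^ (k - 1) := by
        refine lt_of_le_of_lt ?_ hG.big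
        have g0 : (n : ℤ) * P 0 * |eval P (pderiv 0 η)| ≤ (N : ℤ) ^ 2 * N * (N : ℤ) ^ hη := by
          apply mul_le_mul (mul_le_mul hnz (hG.le 0) (hG.pos 0).le (by positivity)) hx0 (abs_nonneg _)
          positivity
        have g1 : (m : ℤ) * P 1 * |eval P (pderiv 1 η)| ≤ (N : ℤ) ^ 2 * N * (N : ℤ) ^ hη := by
          apply mul_le_mul (mul_le_mul hmz (hG.le 1) (hG.pos 1).le (by positivity)) hx1 (abs_nonneg _)
          positivity
        calc ((n : ℤ) * P 0 * |eval P (pderiv 0 η)| + (m : ℤ) * P 1 * |eval P (pderiv 1 η)|)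
              * |eval P (pderiv 2 b)|
            ≤ ((N : ℤ) ^ 2 * N * (N : ℤ) ^ hη + (N : ℤ) ^ 2 * N * (N : ℤ) ^ hη) * (N : ℤ) ^ hb := by
              apply mul_le_mul (add_le_add g0 g1) hy2 (abs_nonneg _)
              positivity
          _ = 2 * (N : ℤ) ^ (3 + hη + hb) := by rw [pow_add, pow_add]; ring
          _ ≤ (N : ℤ) ^ 2 * (N : ℤ) ^ (3 + hη + hb) := by
              apply mul_le_mul_of_nonneg_right _ (by positivity)
              nlinarith
          _ = (N : ℤ) ^ (5 + hη + hb) := by rw [← pow_add]; congr 1; omega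
      have hdet := det_jac m n k η b dη P
      have hdet0 : (Matrix.of fun ρ i => eval P (pderiv i (jac m n k η b ρ))).det ≠ 0 := by
        rw [hdet]
        exact stmt_ari2 _ _ _ _ _ _ _ _ m n k (hG.pos 0) (hG.pos 1) (hG.pos 2) hm hn hk hG.c12 hG.eq
          hη1 hbc hsz
      have hdetB : |(Matrix.of fun ρ i => eval P (pderiv i (jac m n k η b ρ))).det|
          ≤ (N : ℤ) ^ ((6 + hη + hb) * M) := by
        rw [hdet]
        have k0 := grad_le hmM hN1 (hG.abs_le 0) hMN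
        have k1 := grad_le hnM hN1 (hG.abs_le 1) hMN
        have k2 := grad_le hkM hN1 (hG.abs_le 2) hMN
        have hp2 : ∀ u v : ℤ, |u| ≤ (N : ℤ) ^ hη → |v| ≤ (N : ℤ) ^ hb → |u * v| ≤ (N : ℤ) ^ (hη + hb) := by
          intro u v hu hv
          rw [abs_mul, pow_add]
          exact mul_le_mul hu hv (abs_nonneg _) (by positivity)
        have hp3 : ∀ u v : ℤ, |u| ≤ (N : ℤ) ^ (M + 2) → |v| ≤ (N : ℤ) ^ (hη + hb) →
            |u * v| ≤ (N : ℤ) ^ (M + 2 + (hη + hb)) := by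
          intro u v hu hv
          rw [abs_mul, pow_add _ (M + 2)]
          exact mul_le_mul hu hv (abs_nonneg _) (by positivity)
        have q0 := hp3 _ _ k0 (hp2 _ _ hx1 hy2)
        have q1 := hp3 _ _ k1 (hp2 _ _ hx0 hy2)
        have q2 := hp3 _ _ k2 (hp2 _ _ hx0 hy1)
        have q3 := hp3 _ _ k2 (hp2 _ _ hx1 hy0)
        have hfin : 4 * (N : ℤ) ^ (M + 2 + (hη + hb)) ≤ (N : ℤ) ^ ((6 + hη + hb) * M) := by
          calc 4 * (N : ℤ) ^ (M + 2 + (hη + hb)) ≤ (N : ℤ) * (N : ℤ) ^ (M + 2 + (hη + hb)) := by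
                apply mul_le_mul_of_nonneg_right hN4z (by positivity)
            _ = (N : ℤ) ^ (M + 3 + (hη + hb)) := by rw [← pow_succ']; congr 1; omega
            _ ≤ (N : ℤ) ^ ((6 + hη + hb) * M) := by
                apply pow_le_pow_right₀ hNz
                have := hEnv.hM1
                nlinarith
        refine le_trans ?_ hfin
        rw [abs_le] at q0 q1 q2 q3
        rw [abs_le]
        constructor
        · linarith [q0.1, q0.2, q1.1, q1.2, q2.1, q2.2, q3.1, q3.2]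
        · linarith [q0.1, q0.2, q1.1, q1.2, q2.1, q2.2, q3.1, q3.2]
      obtain ⟨p, hpP, hpd⟩ := hEnv.exists_prime hL (by omega) hdet0 hdetB
      refine ⟨(η, b, p, res p P), ?_, hη0, hb0, hpd, rfl⟩
      simp only [Finset.mem_product]
      refine ⟨hηW, hbm, hpP, ?_⟩
      have := res_mem (hEnv.prime p hpP).pos (hEnv.hi p hpP) P
      simpa only [Finset.mem_product] using this
    · intro l hl S' hS' hR
      apply lev2_fibre hU (N := N) (A := 5 + hη + hb) (m := m) (n := n) (k := k) S' ?_ l ?_ hR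
      · intro P hP
        exact hS P (Finset.mem_of_mem_filter _ (hS' hP))
      · simp only [Finset.mem_product] at hl
        exact hEnv.prime _ hl.2.2.1
  -- final count
  have hcu : (Dψ ∪ Dχ).card ≤ 2 * 4 ^ (D1 + 1) := by
    refine (Finset.card_union_le _ _).trans ?_
    omega
  have hPPc := hEnv.card_le
  have hQ := hEnv.Q_pos
  simp only [Finset.card_product, Finset.card_range, mul_one] at hcard2
  have hQ4 : 1 ≤ Q ^ 4 := Nat.one_le_pow _ _ hQ
  calc S.card = S1.card + S2.card := hsplit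
    _ ≤ D1 + W.card * ((Dψ ∪ Dχ).card * (PP.card * (3 * Q * (3 * Q * (3 * Q))))) := by gcongr
    _ ≤ D1 * Q ^ 4 + (e + 1) * ((2 * 4 ^ (D1 + 1)) * ((3 * Q) * (3 * Q * (3 * Q * (3 * Q))))) := by
        gcongr
        exact Nat.le_mul_of_pos_right _ hQ4
    _ = (D1 + ((e + 1) * (2 * 4 ^ (D1 + 1)) * 81)) * Q ^ 4 := by ring

end Pool.Agent.Work.MP_2738db_nt_T
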