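import Pool.Agent.Work.MP_2738db_nt_T.Interface

set_option autoImplicit false

namespace Pool.Agent.Work.MP_2738db_nt_T

open MvPolynomial

lemma Bdd.mono {D H D' H' : ℕ} {G : MvPolynomial (Fin 3) ℤ} (h : Bdd D H G) (hD : D ≤ D')
    (hH : H ≤ H') : Bdd D' H' G :=
  ⟨h.1.trans hD, fun β => (h.2 β).trans (by exact_mod_cast hH)⟩

lemma sum_fin3 (β : Fin 3 →₀ ℕ) : (β.sum fun _ e => e) = β 0 + β 1 + β 2 := by
  rw [Finsupp.sum_fintype _ _ (fun _ => rfl), Fin.sum_univ_three]

lemma le_of_mem_support {D H : ℕ} {G : MvPolynomial (Fin 3) ℤ} (h : Bdd D H G) {β : Fin 3 →₀ ℕ}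
    (hβ : β ∈ G.support) : β 0 + β 1 + β 2 ≤ D := by
  have := (MvPolynomial.le_totalDegree hβ).trans h.1
  rwa [sum_fin3] at this

lemma totalDegree_le_of {D : ℕ} {G : MvPolynomial (Fin 3) ℤ}
    (h : ∀ β ∈ G.support, β 0 + β 1 + β 2 ≤ D) : G.totalDegree ≤ D := by
  apply Finset.sup_le
  intro β hβ
  have := h β hβ
  rwa [← sum_fin3] at this

lemma mem_support_of_pderiv {G : MvPolynomial (Fin 3) ℤ} {i : Fin 3} {β : Fin 3 →₀ ℕ}
    (hβ : β ∈ (pderiv i G).support) : β + Finsupp.single i 1 ∈ G.support := by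
  rw [mem_support_iff, coeff_pderiv] at hβ
  rw [mem_support_iff]
  intro h0
  exact hβ (by rw [h0, zero_mul])

lemma sum_add_single (β : Fin 3 →₀ ℕ) (i : Fin 3) :
    (β + Finsupp.single i 1 : Fin 3 →₀ ℕ) 0 + (β + Finsupp.single i 1 : Fin 3 →₀ ℕ) 1
      + (β + Finsupp.single i 1 : Fin 3 →₀ ℕ) 2 = β 0 + β 1 + β 2 + 1 := by
  fin_cases i <;> simp [Finsupp.add_apply] <;> omega

lemma totalDegree_pderiv_lt {D : ℕ} {G : MvPolynomial (Fin 3) ℤ} (i : Fin 3)
    (h : G.totalDegree ≤ D + 1) : (pderiv i G).totalDegree ≤ D := by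
  apply totalDegree_le_of
  intro β hβ
  have h1 := (MvPolynomial.le_totalDegree (mem_support_of_pderiv hβ)).trans h
  rw [sum_fin3, sum_add_single] at h1
  omega

theorem stmt_bddPderiv : Stmt_BddPderiv := by
  intro D H G i h
  constructor
  · rcases D with _ | D
    · apply totalDegree_le_of
      intro β hβ
      have h1 := (MvPolynomial.le_totalDegree (mem_support_of_pderiv hβ)).trans h.1
      rw [sum_fin3, sum_add_single] at h1
      omega
    · exact (totalDegree_pderiv_lt i h.1).trans (Nat.le_succ D)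
  · intro β
    by_cases h0 : coeff β (pderiv i G) = 0
    · rw [h0, abs_zero]; positivity
    · have h1 : β ∈ (pderiv i G).support := by rwa [mem_support_iff]
      have h2 := le_of_mem_support h (mem_support_of_pderiv h1)
      rw [sum_add_single] at h2
      rw [coeff_pderiv, abs_mul]
      have h3 := h.2 (β + Finsupp.single i 1)
      have h4 : β i + 1 ≤ D := by
        fin_cases i <;> simp <;> omega
      have h5 : |((β i : ℤ) + 1)| ≤ (D : ℤ) := by
        rw [abs_of_nonneg (by positivity)]; exact_mod_cast h4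
      have h6 : |coeff (β + Finsupp.single i 1) G| * |((β i : ℤ) + 1)| ≤ (H : ℤ) * (D : ℤ) :=
        mul_le_mul h3 h5 (abs_nonneg _) (by positivity)
      push_cast
      calc _ ≤ (H : ℤ) * (D : ℤ) := by exact_mod_cast h6
        _ = (D : ℤ) * H := by ring

lemma card_support_le {D H : ℕ} {G : MvPolynomial (Fin 3) ℤ} (h : Bdd D H G) :
    G.support.card ≤ (D + 1) ^ 3 := by
  classical
  let f : (Fin 3 →₀ ℕ) → ℕ × ℕ × ℕ := fun β => (β 0, β 1, β 2)
  have hf : Function.Injective f := by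
    intro β γ hβγ
    simp only [f, Prod.mk.injEq] at hβγ
    ext i
    fin_cases i
    · exact hβγ.1
    · exact hβγ.2.1
    · exact hβγ.2.2
  have h1 : (G.support.image f) ⊆ Finset.range (D + 1) ×ˢ (Finset.range (D + 1) ×ˢ Finset.range (D + 1)) := by
    intro t ht
    rw [Finset.mem_image] at ht
    obtain ⟨β, hβ, rfl⟩ := ht
    have h2 := le_of_mem_support h hβ
    simp only [f, Finset.mem_product, Finset.mem_range]
    omega
  have h2 := Finset.card_le_card h1
  rw [Finset.card_image_of_injective _ hf] at h2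
  simp only [Finset.card_product, Finset.card_range] at h2
  calc _ ≤ _ := h2
    _ = (D + 1) ^ 3 := by ring

lemma abs_monomial_le {N D : ℕ} (hN : 1 ≤ N) {P : Pt} (hP : ∀ i, |P i| ≤ (N : ℤ)) {β : Fin 3 →₀ ℕ}
    (hβ : β 0 + β 1 + β 2 ≤ D) : |∏ i, P i ^ β i| ≤ (N : ℤ) ^ D := by
  rw [Fin.prod_univ_three, abs_mul, abs_mul, abs_pow, abs_pow, abs_pow]
  calc |P 0| ^ β 0 * |P 1| ^ β 1 * |P 2| ^ β 2
      ≤ (N : ℤ) ^ β 0 * (N : ℤ) ^ β 1 * (N : ℤ) ^ β 2 := by
        apply mul_le_mul (mul_le_mul _ _ _ _) _ _ _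
        · exact pow_le_pow_left₀ (abs_nonneg _) (hP 0) _
        · exact pow_le_pow_left₀ (abs_nonneg _) (hP 1) _
        · positivity
        · positivity
        · exact pow_le_pow_left₀ (abs_nonneg _) (hP 2) _
        · positivity
        · positivity
    _ = (N : ℤ) ^ (β 0 + β 1 + β 2) := by rw [pow_add, pow_add]
    _ ≤ (N : ℤ) ^ D := pow_le_pow_right₀ (by exact_mod_cast hN) hβ

theorem stmt_bddEval : Stmt_BddEval := by
  intro D H N G P h hN hP
  rw [eval_eq']
  refine (Finset.abs_sum_le_sum_abs _ _).trans ?_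
  calc ∑ β ∈ G.support, |coeff β G * ∏ i, P i ^ β i|
      ≤ ∑ _β ∈ G.support, (H : ℤ) * (N : ℤ) ^ D := by
        apply Finset.sum_le_sum
        intro β hβ
        rw [abs_mul]
        exact mul_le_mul (h.2 β) (abs_monomial_le hN hP (le_of_mem_support h hβ)) (abs_nonneg _)
          (by positivity)
    _ = (G.support.card : ℤ) * ((H : ℤ) * (N : ℤ) ^ D) := by rw [Finset.sum_const, nsmul_eq_mul]
    _ ≤ (((D + 1) ^ 3 : ℕ) : ℤ) * ((H : ℤ) * (N : ℤ) ^ D) := by
        apply mul_le_mul_of_nonneg_right _ (by positivity)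
        exact_mod_cast card_support_le h
    _ = (((D + 1) ^ 3 * H * N ^ D : ℕ) : ℤ) := by push_cast; ring

/-- iterated derivatives of order at most `j` -/
noncomputable def ders : ℕ → MvPolynomial (Fin 3) ℤ → Finset (MvPolynomial (Fin 3) ℤ)
  | 0, G => {G}
  | j + 1, G => by
      classical
      exact insert G (ders j (pderiv 0 G) ∪ ders j (pderiv 1 G) ∪ ders j (pderiv 2 G))

lemma self_mem_ders (j : ℕ) (G : MvPolynomial (Fin 3) ℤ) : G ∈ ders j G := by
  cases j with
  | zero => simp [ders]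
  | succ j => simp [ders]

lemma mem_ders_succ {j : ℕ} {G G' : MvPolynomial (Fin 3) ℤ} :
    G' ∈ ders (j + 1) G ↔ G' = G ∨ ∃ i, G' ∈ ders j (pderiv i G) := by
  simp only [ders, Finset.mem_insert, Finset.mem_union]
  constructor
  · rintro (h | (h | h) | h)
    · exact Or.inl h
    · exact Or.inr ⟨0, h⟩
    · exact Or.inr ⟨1, h⟩
    · exact Or.inr ⟨2, h⟩
  · rintro (h | ⟨i, h⟩)
    · exact Or.inl h
    · fin_cases i
      · exact Or.inr (Or.inl (Or.inl h))
      · exact Or.inr (Or.inl (Or.inr h))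
      · exact Or.inr (Or.inr h)

lemma card_ders_le (j : ℕ) (G : MvPolynomial (Fin 3) ℤ) : (ders j G).card ≤ 4 ^ j := by
  classical
  induction j generalizing G with
  | zero => simp [ders]
  | succ j ih =>
    simp only [ders]
    have h1 := Finset.card_insert_le G (ders j (pderiv 0 G) ∪ ders j (pderiv 1 G) ∪ ders j (pderiv 2 G))
    have h2 := Finset.card_union_le (ders j (pderiv 0 G) ∪ ders j (pderiv 1 G)) (ders j (pderiv 2 G))
    have h3 := Finset.card_union_le (ders j (pderiv 0 G)) (ders j (pderiv 1 G))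
    have h4 := ih (pderiv 0 G)
    have h5 := ih (pderiv 1 G)
    have h6 := ih (pderiv 2 G)
    have h7 : 1 ≤ 4 ^ j := Nat.one_le_pow _ _ (by norm_num)
    rw [pow_succ]
    refine h1.trans ?_
    omega

lemma ders_bdd {D : ℕ} (j : ℕ) {H : ℕ} {G G' : MvPolynomial (Fin 3) ℤ} (h : Bdd D H G)
    (h' : G' ∈ ders j G) : Bdd D ((D + 1) ^ j * H) G' := by
  induction j generalizing G H with
  | zero =>
    simp only [ders, Finset.mem_singleton] at h'
    subst h'
    simpa using h
  | succ j ih =>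
    rw [mem_ders_succ] at h'
    rcases h' with rfl | ⟨i, hi⟩
    · exact h.mono le_rfl (Nat.le_mul_of_pos_left _ (by positivity))
    · have h1 := ih (stmt_bddPderiv D H G i h) hi
      refine h1.mono le_rfl ?_
      calc (D + 1) ^ j * (D * H) ≤ (D + 1) ^ j * ((D + 1) * H) := by gcongr; omega
        _ = (D + 1) ^ (j + 1) * H := by ring

lemma pderiv_comm' (i j : Fin 3) (G : MvPolynomial (Fin 3) ℤ) :
    pderiv i (pderiv j G) = pderiv j (pderiv i G) := by
  ext β
  rw [coeff_pderiv, coeff_pderiv, coeff_pderiv, coeff_pderiv]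
  by_cases hij : i = j
  · subst hij; rfl
  · have h1 : β + Finsupp.single i 1 + Finsupp.single j 1 = β + Finsupp.single j 1 + Finsupp.single i 1 := by
      rw [add_assoc, add_assoc, add_comm (Finsupp.single i 1)]
    rw [h1]
    have hji : ¬ j = i := fun h => hij h.symm
    simp only [Finsupp.add_apply, Finsupp.single_apply, hij, hji, if_false, add_zero]
    ring

lemma ders_pderiv_zero (j : ℕ) {G G' : MvPolynomial (Fin 3) ℤ} (i : Fin 3) (h : pderiv i G = 0)
    (h' : G' ∈ ders j G) : pderiv i G' = 0 := by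
  induction j generalizing G with
  | zero =>
    simp only [ders, Finset.mem_singleton] at h'
    subst h'
    exact h
  | succ j ih =>
    rw [mem_ders_succ] at h'
    rcases h' with rfl | ⟨l, hl⟩
    · exact h
    · exact ih (by rw [pderiv_comm', h, map_zero]) hl

lemma exists_pderiv_ne_zero {G : MvPolynomial (Fin 3) ℤ} {P : Pt} (hG : G ≠ 0) (hP : eval P G = 0) :
    ∃ i, pderiv i G ≠ 0 := by
  by_contra hcon
  push Not at hcon
  have h1 : ∀ β, β ≠ 0 → coeff β G = 0 := by
    intro β hβ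
    obtain ⟨i, hi⟩ : ∃ i, β i ≠ 0 := by
      by_contra hc
      push Not at hc
      exact hβ (Finsupp.ext hc)
    have h2 : β = (β - Finsupp.single i 1) + Finsupp.single i 1 := by
      ext l
      simp only [Finsupp.add_apply, Finsupp.tsub_apply, Finsupp.single_apply]
      by_cases hl : i = l
      · subst hl; simp; omega
      · simp [hl]
    have h3 := congrArg (coeff (β - Finsupp.single i 1)) (hcon i)
    rw [coeff_pderiv, ← h2, coeff_zero] at h3
    rcases mul_eq_zero.mp h3 with h | h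
    · exact h
    · exfalso
      have : (0 : ℤ) < (((β - Finsupp.single i 1 : Fin 3 →₀ ℕ) i : ℕ) : ℤ) + 1 := by positivity
      omega
  have h2 : G = C (coeff 0 G) := by
    ext β
    rw [coeff_C]
    split_ifs with h
    · rw [h]
    · exact h1 β (Ne.symm h)
  rw [h2, eval_C] at hP
  apply hG
  rw [h2, hP, C_0]

lemma sel_core (j : ℕ) (G : MvPolynomial (Fin 3) ℤ) (P : Pt) (hG : G ≠ 0) (hd : G.totalDegree ≤ j)
    (hP : eval P G = 0) : ∃ G' ∈ ders j G, eval P G' = 0 ∧ ∃ i, eval P (pderiv i G') ≠ 0 := by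
  induction j generalizing G with
  | zero =>
    exfalso
    have h1 : G.totalDegree = 0 := by omega
    rw [totalDegree_eq_zero_iff_eq_C] at h1
    rw [h1, eval_C] at hP
    apply hG
    rw [h1, hP, C_0]
  | succ j ih =>
    by_cases h : ∃ i, eval P (pderiv i G) ≠ 0
    · exact ⟨G, self_mem_ders _ _, hP, h⟩
    · push Not at h
      obtain ⟨i, hi⟩ := exists_pderiv_ne_zero hG hP
      obtain ⟨G', h1, h2, h3⟩ := ih (pderiv i G) hi (totalDegree_pderiv_lt i hd) (h i)
      exact ⟨G', mem_ders_succ.mpr (Or.inr ⟨i, h1⟩), h2, h3⟩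

theorem stmt_sel : Stmt_Sel := by
  intro D H G hG hB
  refine ⟨ders D G, ?_, ?_, ?_, ?_⟩
  · exact (card_ders_le D G).trans (Nat.pow_le_pow_right (by norm_num) (by omega))
  · intro G' hG'
    exact (ders_bdd D hB hG').mono le_rfl (Nat.mul_le_mul_right _ (Nat.pow_le_pow_right (by omega) (by omega)))
  · intro i hi G' hG'
    exact ders_pderiv_zero D i hi hG'
  · intro P hP
    exact sel_core D G P hG hB.1 hP

end Pool.Agent.Work.MP_2738db_nt_T
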