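import Pool.Agent.Work.MP_2738db_nt_T.Lev01
import Pool.Agent.Work.MP_2738db_nt_T.Lev2

set_option autoImplicit false

namespace Pool.Agent.Work.MP_2738db_nt_T

open MvPolynomial

theorem sig (h0 : Stmt_Lev0) (h1 : Stmt_Lev1) (h2 : Stmt_Lev2) : Stmt_Sig := by
  intro L hL
  obtain ⟨N0, H0⟩ := h0 L hL
  obtain ⟨A1, E1, C1, N1, H1⟩ := h1 L (384 * L ^ 2) (128 * L ^ 2) hL
  obtain ⟨A2, E2, C2, N2, H2⟩ := h2 L (36 * L) (18 * L) hL
  refine ⟨A1 + A2, E1 + E2 + 1, 27 * C1 * C2, N0 + N1 + N2 + 1, ?_⟩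
  intro N Q M PP hN hEnv m n k hm hmM hn hnM hk hkM S hS
  have hN1 : 1 ≤ N := by omega
  have key : S.card ≤ 27 * Q ^ 3 * (C1 * Q ^ 4 * (C2 * Q ^ 4)) := by
    apply H0 N Q M PP (by omega) (hEnv.mono (by omega)) m n k hm hmM hn hnM hk hkM S
      (fun P hP => (hS P hP).mono hN1 (by omega))
    intro S' hS' hG
    obtain ⟨G, hG0, hGB, hGv⟩ := hG
    apply H1 N Q M PP (by omega) (hEnv.mono (by omega)) m n k hm hmM hn hnM hk hkM G hG0 hGB S'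
      (fun P hP => (hS P (hS' hP)).mono hN1 (by omega)) hGv
    intro S'' hS'' hφ
    obtain ⟨φ, ψ, χ, e1, e2, e3, b1, b2, b3, d1, d2, d3, hv⟩ := hφ
    exact H2 N Q M PP (by omega) (hEnv.mono (by omega)) m n k hm hmM hn hnM hk hkM φ ψ χ e1 e2 e3
      b1 b2 b3 d1 d2 d3 S'' (fun P hP => (hS P (hS' (hS'' hP))).mono hN1 (by omega)) hv
  calc S.card ≤ _ := key
    _ = 27 * C1 * C2 * Q ^ 11 := by ring

end Pool.Agent.Work.MP_2738db_nt_T
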